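import Pool.Agent.Lib.MP_dc8965_an.P2.Defs

/-!
# MP_dc8965_an, `2 < p`: (B1) elementary facts about `np`, `nr`, `n1` (no product)

All proofs are by `Finset` manipulations, exactly as for `Sn`, `Sle` in `BT/Basic.lean`
(`Real.Lp_add_le` is Minkowski's inequality for finite sums; see the proof of `BT.Sle.add`).
Remember that `AddMonoidAlgebra` is a structure here: the coefficients are `f.coeff g`,
`AddMonoidAlgebra.coeff_add`, `coeff_smul`, `coeff_neg`, `coeff_sum`, `coeff_single`.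
-/

open Finset Polynomial
open scoped LaurentPolynomial

namespace DC8965.P2

variable {G : Type*}

lemma np_nonneg (r : ℝ) (f : AddMonoidAlgebra ℂ G) : 0 ≤ np r f :=
  Finset.sum_nonneg fun _ _ => Real.rpow_nonneg (norm_nonneg _) _

lemma nr_nonneg (r : ℝ) (f : AddMonoidAlgebra ℂ G) : 0 ≤ nr r f :=
  Real.rpow_nonneg (np_nonneg r f) _

lemma n1_nonneg (f : AddMonoidAlgebra ℂ G) : 0 ≤ n1 f :=
  Finset.sum_nonneg fun _ _ => norm_nonneg _

lemma np_eq_sum {r : ℝ} (hr : 0 < r) (f : AddMonoidAlgebra ℂ G) (s : Finset G)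
    (hs : f.coeff.support ⊆ s) : np r f = ∑ g ∈ s, ‖f.coeff g‖ ^ r := by
  refine Finset.sum_subset hs fun g _ hg => ?_
  rw [Finsupp.notMem_support_iff.1 hg, norm_zero, Real.zero_rpow hr.ne']

lemma n1_eq_sum (f : AddMonoidAlgebra ℂ G) (s : Finset G)
    (hs : f.coeff.support ⊆ s) : n1 f = ∑ g ∈ s, ‖f.coeff g‖ := by
  refine Finset.sum_subset hs fun g _ hg => ?_
  rw [Finsupp.notMem_support_iff.1 hg, norm_zero]

lemma nr_rpow {r : ℝ} (hr : 0 < r) (f : AddMonoidAlgebra ℂ G) : nr r f ^ r = np r f := by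
  unfold nr
  rw [← Real.rpow_mul (np_nonneg r f), one_div_mul_cancel hr.ne', Real.rpow_one]

lemma nr_le_of_np_le {r : ℝ} (hr : 0 < r) {f : AddMonoidAlgebra ℂ G} {K : ℝ} (hK : 0 ≤ K)
    (h : np r f ≤ K ^ r) : nr r f ≤ K := by
  have h1 : nr r f ≤ (K ^ r) ^ (1 / r) :=
    Real.rpow_le_rpow (np_nonneg r f) h (by positivity)
  rwa [← Real.rpow_mul hK, mul_one_div_cancel hr.ne', Real.rpow_one] at h1

lemma np_le_of_nr_le {r : ℝ} (hr : 0 < r) {f : AddMonoidAlgebra ℂ G} {K : ℝ}
    (h : nr r f ≤ K) : np r f ≤ K ^ r := by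
  rw [← nr_rpow hr]
  exact Real.rpow_le_rpow (nr_nonneg r f) h hr.le

lemma nr_zero {r : ℝ} (hr : 0 < r) : nr r (0 : AddMonoidAlgebra ℂ G) = 0 := by
  have h : np r (0 : AddMonoidAlgebra ℂ G) = 0 := by
    unfold np
    rw [AddMonoidAlgebra.coeff_zero, Finsupp.support_zero, Finset.sum_empty]
  unfold nr
  rw [h, Real.zero_rpow (by positivity)]

lemma n1_zero : n1 (0 : AddMonoidAlgebra ℂ G) = 0 := by
  unfold n1
  rw [AddMonoidAlgebra.coeff_zero, Finsupp.support_zero, Finset.sum_empty]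

private lemma supp_smul (c : ℂ) (f : AddMonoidAlgebra ℂ G) :
    (c • f).coeff.support ⊆ f.coeff.support := by
  rw [AddMonoidAlgebra.coeff_smul]
  exact Finsupp.support_smul

lemma nr_smul {r : ℝ} (hr : 0 < r) (c : ℂ) (f : AddMonoidAlgebra ℂ G) :
    nr r (c • f) = ‖c‖ * nr r f := by
  have h : np r (c • f) = ‖c‖ ^ r * np r f := by
    rw [np_eq_sum hr (c • f) _ (supp_smul c f), np, Finset.mul_sum]
    refine Finset.sum_congr rfl fun g _ => ?_
    rw [AddMonoidAlgebra.coeff_smul, Finsupp.smul_apply, norm_smul,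
      Real.mul_rpow (norm_nonneg _) (norm_nonneg _)]
  unfold nr
  rw [h, Real.mul_rpow (Real.rpow_nonneg (norm_nonneg _) _) (np_nonneg r f),
    ← Real.rpow_mul (norm_nonneg _), mul_one_div_cancel hr.ne', Real.rpow_one]

lemma n1_smul (c : ℂ) (f : AddMonoidAlgebra ℂ G) : n1 (c • f) = ‖c‖ * n1 f := by
  rw [n1_eq_sum (c • f) _ (supp_smul c f), n1, Finset.mul_sum]
  refine Finset.sum_congr rfl fun g _ => ?_
  rw [AddMonoidAlgebra.coeff_smul, Finsupp.smul_apply, norm_smul]

lemma nr_neg (r : ℝ) (f : AddMonoidAlgebra ℂ G) : nr r (-f) = nr r f := by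
  have h : np r (-f) = np r f := by
    unfold np
    rw [AddMonoidAlgebra.coeff_neg, Finsupp.support_neg]
    refine Finset.sum_congr rfl fun g _ => ?_
    rw [Finsupp.neg_apply, norm_neg]
  unfold nr
  rw [h]

lemma n1_neg (f : AddMonoidAlgebra ℂ G) : n1 (-f) = n1 f := by
  unfold n1
  rw [AddMonoidAlgebra.coeff_neg, Finsupp.support_neg]
  refine Finset.sum_congr rfl fun g _ => ?_
  rw [Finsupp.neg_apply, norm_neg]

private lemma supp_add [DecidableEq G] (f g : AddMonoidAlgebra ℂ G) :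
    (f + g).coeff.support ⊆ f.coeff.support ∪ g.coeff.support := by
  rw [AddMonoidAlgebra.coeff_add]
  exact Finsupp.support_add

lemma nr_add_le {r : ℝ} (hr : 1 ≤ r) (f g : AddMonoidAlgebra ℂ G) :
    nr r (f + g) ≤ nr r f + nr r g := by
  classical
  have hr0 : 0 < r := by linarith
  set s := f.coeff.support ∪ g.coeff.support with hs
  have h1 := np_eq_sum hr0 (f + g) s (supp_add f g)
  have h2 := np_eq_sum hr0 f s Finset.subset_union_left
  have h3 := np_eq_sum hr0 g s Finset.subset_union_right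
  have h4 := Real.Lp_add_le s (fun a => ‖f.coeff a‖) (fun a => ‖g.coeff a‖) hr
  have h5 : ∀ F : AddMonoidAlgebra ℂ G, ∑ a ∈ s, |‖F.coeff a‖| ^ r = ∑ a ∈ s, ‖F.coeff a‖ ^ r :=
    fun F => Finset.sum_congr rfl fun a _ => by rw [abs_of_nonneg (norm_nonneg _)]
  rw [h5 f, h5 g] at h4
  unfold nr
  rw [h1, h2, h3]
  refine le_trans (Real.rpow_le_rpow (Finset.sum_nonneg fun _ _ =>
    Real.rpow_nonneg (norm_nonneg _) _) (Finset.sum_le_sum fun a _ => ?_) (by positivity)) h4
  refine Real.rpow_le_rpow (norm_nonneg _) ?_ hr0.le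
  rw [AddMonoidAlgebra.coeff_add, Finsupp.add_apply]
  exact (norm_add_le _ _).trans (le_abs_self _)

lemma nr_sub_le {r : ℝ} (hr : 1 ≤ r) (f g : AddMonoidAlgebra ℂ G) :
    nr r (f - g) ≤ nr r f + nr r g := by
  rw [sub_eq_add_neg, ← nr_neg r g]
  exact nr_add_le hr f (-g)

lemma nr_sum_le {r : ℝ} (hr : 1 ≤ r) {ι : Type*} (s : Finset ι)
    (f : ι → AddMonoidAlgebra ℂ G) : nr r (∑ i ∈ s, f i) ≤ ∑ i ∈ s, nr r (f i) := by
  classical
  induction s using Finset.induction_on with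
  | empty => rw [Finset.sum_empty, Finset.sum_empty, nr_zero (by linarith)]
  | insert a s ha ih =>
    rw [Finset.sum_insert ha, Finset.sum_insert ha]
    exact (nr_add_le hr _ _).trans (by linarith)

lemma n1_add_le (f g : AddMonoidAlgebra ℂ G) : n1 (f + g) ≤ n1 f + n1 g := by
  classical
  set s := f.coeff.support ∪ g.coeff.support with hs
  rw [n1_eq_sum (f + g) s (supp_add f g), n1_eq_sum f s Finset.subset_union_left,
    n1_eq_sum g s Finset.subset_union_right, ← Finset.sum_add_distrib]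
  refine Finset.sum_le_sum fun a _ => ?_
  rw [AddMonoidAlgebra.coeff_add, Finsupp.add_apply]
  exact norm_add_le _ _

lemma n1_sub_le (f g : AddMonoidAlgebra ℂ G) : n1 (f - g) ≤ n1 f + n1 g := by
  rw [sub_eq_add_neg, ← n1_neg g]
  exact n1_add_le f (-g)

lemma n1_sum_le {ι : Type*} (s : Finset ι) (f : ι → AddMonoidAlgebra ℂ G) :
    n1 (∑ i ∈ s, f i) ≤ ∑ i ∈ s, n1 (f i) := by
  classical
  induction s using Finset.induction_on with
  | empty => rw [Finset.sum_empty, Finset.sum_empty, n1_zero]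
  | insert a s ha ih =>
    rw [Finset.sum_insert ha, Finset.sum_insert ha]
    exact (n1_add_le _ _).trans (by linarith)

/-- `∑ x_g^r ≤ (∑ x_g)^r` for `r ≥ 1`, `x_g ≥ 0`
(`Real.rpow_sum_le_sum_rpow`-type inequality; or: `x_g^r ≤ x_g (∑ x)^(r-1)`). -/
lemma nr_le_n1 {r : ℝ} (hr : 1 ≤ r) (f : AddMonoidAlgebra ℂ G) : nr r f ≤ n1 f := by
  have hr0 : 0 < r := by linarith
  have hsplit : ∀ x : ℝ, 0 ≤ x → x ^ r = x * x ^ (r - 1) := by
    intro x hx
    rcases hx.eq_or_lt with h | h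
    · rw [← h, Real.zero_rpow hr0.ne', zero_mul]
    · have e : x ^ (1 + (r - 1)) = x ^ (1 : ℝ) * x ^ (r - 1) := Real.rpow_add h 1 (r - 1)
      rw [Real.rpow_one] at e
      rw [← e]
      congr 1
      ring
  refine nr_le_of_np_le hr0 (n1_nonneg f) ?_
  rw [hsplit _ (n1_nonneg f)]
  have h1 : ∀ g ∈ f.coeff.support, ‖f.coeff g‖ ^ r ≤ ‖f.coeff g‖ * n1 f ^ (r - 1) := by
    intro g hg
    rw [hsplit _ (norm_nonneg _)]
    refine mul_le_mul_of_nonneg_left (Real.rpow_le_rpow (norm_nonneg _) ?_ (by linarith))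
      (norm_nonneg _)
    exact Finset.single_le_sum (f := fun a => ‖f.coeff a‖) (fun _ _ => norm_nonneg _) hg
  refine (Finset.sum_le_sum h1).trans (le_of_eq ?_)
  rw [← Finset.sum_mul]
  rfl

private lemma np_add_of_disjoint {r : ℝ} (hr : 0 < r) (f h : AddMonoidAlgebra ℂ G)
    (hd : ∀ g, f.coeff g = 0 ∨ h.coeff g = 0) : np r (f + h) = np r f + np r h := by
  classical
  set s := f.coeff.support ∪ h.coeff.support with hs
  rw [np_eq_sum hr (f + h) s (supp_add f h), np_eq_sum hr f s Finset.subset_union_left,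
    np_eq_sum hr h s Finset.subset_union_right, ← Finset.sum_add_distrib]
  refine Finset.sum_congr rfl fun a _ => ?_
  rw [AddMonoidAlgebra.coeff_add, Finsupp.add_apply]
  rcases hd a with h0 | h0
  · rw [h0, zero_add, norm_zero, Real.zero_rpow hr.ne', zero_add]
  · rw [h0, add_zero, norm_zero, Real.zero_rpow hr.ne', add_zero]

/-- pairwise disjoint supports -/
lemma np_sum_of_disjoint {r : ℝ} (hr : 0 < r) {ι : Type*} (s : Finset ι)
    (f : ι → AddMonoidAlgebra ℂ G)
    (h : ∀ i ∈ s, ∀ j ∈ s, i ≠ j → ∀ g, (f i).coeff g = 0 ∨ (f j).coeff g = 0) :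
    np r (∑ i ∈ s, f i) = ∑ i ∈ s, np r (f i) := by
  classical
  induction s using Finset.induction_on with
  | empty =>
    rw [Finset.sum_empty, Finset.sum_empty]
    unfold np
    rw [AddMonoidAlgebra.coeff_zero, Finsupp.support_zero, Finset.sum_empty]
  | insert a s ha ih =>
    rw [Finset.sum_insert ha, Finset.sum_insert ha, np_add_of_disjoint hr, ih]
    · intro i hi j hj
      exact h i (Finset.mem_insert_of_mem hi) j (Finset.mem_insert_of_mem hj)
    · intro g
      by_cases h0 : (f a).coeff g = 0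
      · exact Or.inl h0
      · right
        rw [AddMonoidAlgebra.coeff_sum, Finsupp.finsetSum_apply]
        refine Finset.sum_eq_zero fun i hi => ?_
        rcases h a (Finset.mem_insert_self a s) i (Finset.mem_insert_of_mem hi)
          (fun e => ha (e ▸ hi)) g with h1 | h1
        · exact absurd h1 h0
        · exact h1

/-- pointwise bound -/
lemma np_mono {r : ℝ} (hr : 0 < r) {f g : AddMonoidAlgebra ℂ G}
    (h : ∀ a, ‖f.coeff a‖ ≤ ‖g.coeff a‖) : np r f ≤ np r g := by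
  classical
  rw [np_eq_sum hr f (f.coeff.support ∪ g.coeff.support) Finset.subset_union_left,
    np_eq_sum hr g (f.coeff.support ∪ g.coeff.support) Finset.subset_union_right]
  exact Finset.sum_le_sum fun a _ => Real.rpow_le_rpow (norm_nonneg _) (h a) hr.le

end DC8965.P2
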