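import Pool.Agent.Lib.MP_dc8965_an.P2.B1

/-!
# MP_dc8965_an, `2 < p`: (B2) norms of products
-/

open Finset Polynomial
open scoped LaurentPolynomial

namespace DC8965.P2

variable {G : Type*}

/-- `f = ∑ single g (f_g)` -/
lemma eq_sum_single (f : AddMonoidAlgebra ℂ G) :
    f = ∑ g ∈ f.coeff.support, AddMonoidAlgebra.single g (f.coeff g) := by
  exact (AddMonoidAlgebra.sum_coeff_single f).symm

variable [AddCommGroup G]

lemma support_single_mul (a : G) (c : ℂ) (f : AddMonoidAlgebra ℂ G) :
    (AddMonoidAlgebra.single a c * f).coeff.support ⊆ f.coeff.support.map (addLeftEmbedding a) := by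
  intro h hh
  rw [Finsupp.mem_support_iff, AddMonoidAlgebra.coeff_single_mul_apply] at hh
  rw [Finset.mem_map]
  refine ⟨-a + h, ?_, ?_⟩
  · rw [Finsupp.mem_support_iff]
    exact right_ne_zero_of_mul hh
  · rw [addLeftEmbedding_apply, add_neg_cancel_left]

lemma np_single_mul {r : ℝ} (hr : 0 < r) (a : G) (c : ℂ) (f : AddMonoidAlgebra ℂ G) :
    np r (AddMonoidAlgebra.single a c * f) = ‖c‖ ^ r * np r f := by
  rw [np_eq_sum hr _ _ (support_single_mul a c f), Finset.sum_map]
  unfold np
  rw [Finset.mul_sum]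
  refine Finset.sum_congr rfl fun g _ => ?_
  rw [addLeftEmbedding_apply, AddMonoidAlgebra.coeff_single_mul_apply, neg_add_cancel_left, norm_mul,
    Real.mul_rpow (norm_nonneg _) (norm_nonneg _)]

/-- `AddMonoidAlgebra.coeff_single_mul_apply`; the support of the product is the translate of the support of `f`
(`Finset.sum_map`/`sum_bij`); the case `c = 0` is trivial. -/
lemma nr_single_mul {r : ℝ} (hr : 0 < r) (a : G) (c : ℂ) (f : AddMonoidAlgebra ℂ G) :
    nr r (AddMonoidAlgebra.single a c * f) = ‖c‖ * nr r f := by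
  rcases eq_or_ne c 0 with rfl | hc
  · rw [AddMonoidAlgebra.single_zero, zero_mul, nr_zero hr, norm_zero, zero_mul]
  · have h := np_single_mul hr a c f
    unfold nr
    rw [h, Real.mul_rpow (by positivity) (np_nonneg r f), ← Real.rpow_mul (norm_nonneg c),
      mul_one_div_cancel hr.ne', Real.rpow_one]

lemma n1_single_mul (a : G) (c : ℂ) (f : AddMonoidAlgebra ℂ G) :
    n1 (AddMonoidAlgebra.single a c * f) = ‖c‖ * n1 f := by
  rw [n1_eq_sum _ _ (support_single_mul a c f), Finset.sum_map]
  unfold n1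
  rw [Finset.mul_sum]
  refine Finset.sum_congr rfl fun g _ => ?_
  rw [addLeftEmbedding_apply, AddMonoidAlgebra.coeff_single_mul_apply, neg_add_cancel_left, norm_mul]

/-- Young: `f * g = ∑ single a (f a) * g` and the triangle inequality `nr_sum_le`. -/
lemma nr_mul_le {r : ℝ} (hr : 1 ≤ r) (f g : AddMonoidAlgebra ℂ G) :
    nr r (f * g) ≤ n1 f * nr r g := by
  have h1 : f * g = ∑ a ∈ f.coeff.support, AddMonoidAlgebra.single a (f.coeff a) * g := by
    rw [← Finset.sum_mul, ← eq_sum_single f]
  calc nr r (f * g) ≤ ∑ a ∈ f.coeff.support, nr r (AddMonoidAlgebra.single a (f.coeff a) * g) := by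
        rw [h1]
        exact nr_sum_le hr _ _
    _ = ∑ a ∈ f.coeff.support, ‖f.coeff a‖ * nr r g :=
        Finset.sum_congr rfl fun a _ => nr_single_mul (by linarith) a _ g
    _ = n1 f * nr r g := by
        rw [← Finset.sum_mul]
        rfl

lemma n1_mul_le (f g : AddMonoidAlgebra ℂ G) : n1 (f * g) ≤ n1 f * n1 g := by
  have h1 : f * g = ∑ a ∈ f.coeff.support, AddMonoidAlgebra.single a (f.coeff a) * g := by
    rw [← Finset.sum_mul, ← eq_sum_single f]
  calc n1 (f * g) ≤ ∑ a ∈ f.coeff.support, n1 (AddMonoidAlgebra.single a (f.coeff a) * g) := by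
        rw [h1]
        exact n1_sum_le _ _
    _ = ∑ a ∈ f.coeff.support, ‖f.coeff a‖ * n1 g :=
        Finset.sum_congr rfl fun a _ => n1_single_mul a _ g
    _ = n1 f * n1 g := by
        rw [← Finset.sum_mul]
        rfl

lemma n1_one : n1 (1 : AddMonoidAlgebra ℂ G) = 1 := by
  have hs : (1 : AddMonoidAlgebra ℂ G).coeff.support ⊆ {0} := by
    rw [AddMonoidAlgebra.one_def, AddMonoidAlgebra.coeff_single]
    exact Finsupp.support_single_subset
  rw [n1_eq_sum _ _ hs, Finset.sum_singleton, AddMonoidAlgebra.one_def, AddMonoidAlgebra.coeff_single,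
    Finsupp.single_eq_same, norm_one]

lemma nr_one {r : ℝ} (hr : 0 < r) : nr r (1 : AddMonoidAlgebra ℂ G) = 1 := by
  have hs : (1 : AddMonoidAlgebra ℂ G).coeff.support ⊆ {0} := by
    rw [AddMonoidAlgebra.one_def, AddMonoidAlgebra.coeff_single]
    exact Finsupp.support_single_subset
  unfold nr
  rw [np_eq_sum hr _ _ hs, Finset.sum_singleton, AddMonoidAlgebra.one_def, AddMonoidAlgebra.coeff_single,
    Finsupp.single_eq_same, norm_one, Real.one_rpow, Real.one_rpow]

lemma n1_pow_le (f : AddMonoidAlgebra ℂ G) (k : ℕ) : n1 (f ^ k) ≤ n1 f ^ k := by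
  induction k with
  | zero => rw [pow_zero, pow_zero, n1_one]
  | succ k ih =>
    rw [pow_succ, pow_succ]
    exact le_trans (n1_mul_le _ _) (mul_le_mul_of_nonneg_right ih (n1_nonneg f))

end DC8965.P2
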