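import Pool.Agent.Lib.MP_dc8965_an.P2.B2

/-!
# MP_dc8965_an, `2 < p`: (B3) independence
-/

open Finset Polynomial
open scoped LaurentPolynomial

namespace DC8965.P2

variable {G H : Type*} [AddCommGroup G] [AddCommGroup H]

private lemma b3_np_single {G : Type*} {r : ℝ} (hr : 0 < r) (a : G) (c : ℂ) :
    np r (AddMonoidAlgebra.single a c) = ‖c‖ ^ r := by
  classical
  rw [np_eq_sum hr _ {a} (by
    rw [AddMonoidAlgebra.coeff_single]
    exact Finsupp.support_single_subset)]
  simp [AddMonoidAlgebra.coeff_single]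

private lemma b3_mul_eq (f g : AddMonoidAlgebra ℂ G) :
    f * g = ∑ x ∈ f.coeff.support ×ˢ g.coeff.support,
      AddMonoidAlgebra.single (x.1 + x.2) (f.coeff x.1 * g.coeff x.2) := by
  have hf := eq_sum_single f
  have hg := eq_sum_single g
  calc f * g = (∑ a ∈ f.coeff.support, AddMonoidAlgebra.single a (f.coeff a)) *
        (∑ b ∈ g.coeff.support, AddMonoidAlgebra.single b (g.coeff b)) := by
          rw [← hf, ← hg]
    _ = _ := by
          rw [Finset.sum_mul_sum, Finset.sum_product]
          refine Finset.sum_congr rfl fun a _ => Finset.sum_congr rfl fun b _ => ?_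
          rw [AddMonoidAlgebra.single_mul_single]

/-- If `(a, b) ↦ a + b` is injective on `supp f × supp g` then the coefficient of `f * g` at `a + b` is
`f_a g_b` (all other pairs have a different sum), every other coefficient is `0`; so
`∑ ‖(f*g)_x‖^r = ∑_a ∑_b ‖f_a‖^r ‖g_b‖^r`. Proof in Lean: `f * g = ∑_{(a,b)} single (a+b) (f a * g b)`
(`eq_sum_single`, `Finset.sum_mul_sum`, `single_mul_single`), then `np_sum_of_disjoint` over
`f.coeff.support ×ˢ g.coeff.support`. -/
lemma np_mul_of_inj {r : ℝ} (hr : 0 < r) (f g : AddMonoidAlgebra ℂ G)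
    (h : ∀ a ∈ f.coeff.support, ∀ b ∈ g.coeff.support, ∀ a' ∈ f.coeff.support,
      ∀ b' ∈ g.coeff.support, a + b = a' + b' → a = a' ∧ b = b') :
    np r (f * g) = np r f * np r g := by
  classical
  rw [b3_mul_eq f g, np_sum_of_disjoint hr]
  · unfold np
    rw [Finset.sum_mul_sum, Finset.sum_product]
    refine Finset.sum_congr rfl fun a _ => Finset.sum_congr rfl fun b _ => ?_
    have := b3_np_single hr (a + b) (f.coeff a * g.coeff b)
    unfold np at this
    rw [this, norm_mul, Real.mul_rpow (norm_nonneg _) (norm_nonneg _)]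
  · intro x hx y hy hxy z
    rw [Finset.mem_product] at hx hy
    rw [AddMonoidAlgebra.coeff_single, AddMonoidAlgebra.coeff_single]
    by_cases h1 : x.1 + x.2 = z
    · right
      have h2 : y.1 + y.2 ≠ z := by
        intro h2
        have := h x.1 hx.1 x.2 hx.2 y.1 hy.1 y.2 hy.2 (h1.trans h2.symm)
        exact hxy (Prod.ext this.1 this.2)
      exact Finsupp.single_eq_of_ne (Ne.symm h2)
    · left
      exact Finsupp.single_eq_of_ne (Ne.symm h1)

private lemma b3_map_eq (φ : G →+ H) (f : AddMonoidAlgebra ℂ G) :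
    AddMonoidAlgebra.mapDomainRingHom ℂ φ f =
      ∑ a ∈ f.coeff.support, AddMonoidAlgebra.single (φ a) (f.coeff a) := by
  have hf := eq_sum_single f
  calc AddMonoidAlgebra.mapDomainRingHom ℂ φ f
      = AddMonoidAlgebra.mapDomainRingHom ℂ φ
        (∑ a ∈ f.coeff.support, AddMonoidAlgebra.single a (f.coeff a)) := by rw [← hf]
    _ = _ := by
      rw [map_sum]
      refine Finset.sum_congr rfl fun a _ => ?_
      rw [AddMonoidAlgebra.mapDomainRingHom_apply]
      simp [AddMonoidAlgebra.mapDomain_single]

/-- `mapDomain` of an additive homomorphism that is injective on the support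
(`f = ∑ single`, `map_sum`, `mapDomain_single`, `np_sum_of_disjoint`). -/
lemma np_mapDomain_of_injOn {r : ℝ} (hr : 0 < r) (φ : G →+ H) (f : AddMonoidAlgebra ℂ G)
    (h : Set.InjOn φ f.coeff.support) :
    np r (AddMonoidAlgebra.mapDomainRingHom ℂ φ f) = np r f := by
  classical
  rw [b3_map_eq, np_sum_of_disjoint hr]
  · unfold np
    refine Finset.sum_congr rfl fun a _ => ?_
    have := b3_np_single hr (φ a) (f.coeff a)
    unfold np at this
    exact this
  · intro x hx y hy hxy z
    rw [AddMonoidAlgebra.coeff_single, AddMonoidAlgebra.coeff_single]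
    by_cases h1 : φ x = z
    · right
      have h2 : φ y ≠ z := by
        intro h2
        exact hxy (h hx hy (h1.trans h2.symm))
      exact Finsupp.single_eq_of_ne (Ne.symm h2)
    · left
      exact Finsupp.single_eq_of_ne (Ne.symm h1)

lemma n1_mapDomain_le (φ : G →+ H) (f : AddMonoidAlgebra ℂ G) :
    n1 (AddMonoidAlgebra.mapDomainRingHom ℂ φ f) ≤ n1 f := by
  classical
  rw [b3_map_eq]
  refine (n1_sum_le _ _).trans ?_
  unfold n1
  refine Finset.sum_le_sum fun a _ => ?_
  have h1 : n1 (AddMonoidAlgebra.single (φ a) (f.coeff a)) = ‖f.coeff a‖ := by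
    rw [n1_eq_sum _ {φ a} (by
      rw [AddMonoidAlgebra.coeff_single]
      exact Finsupp.support_single_subset)]
    simp [AddMonoidAlgebra.coeff_single]
  unfold n1 at h1
  exact h1.le

end DC8965.P2
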