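import Pool.Agent.Lib.MP_dc8965_an.P2.B3

/-!
# MP_dc8965_an, `2 < p`: (B4) Laurent polynomials: widths, dilations, independence (IP)
-/

open Finset Polynomial
open scoped LaurentPolynomial

namespace DC8965.P2

lemma Wd.mono {D D' : ℤ} {f : ℂ[T;T⁻¹]} (hf : Wd D f) (h : D ≤ D') : Wd D' f := by
  intro n hn
  obtain ⟨h1, h2⟩ := hf n hn
  exact ⟨by linarith, by linarith⟩

/-- the support is finite -/
lemma exists_Wd (f : ℂ[T;T⁻¹]) : ∃ D : ℕ, Wd D f := by
  refine ⟨∑ n ∈ f.coeff.support, n.natAbs, ?_⟩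
  intro n hn
  have h1 : n.natAbs ≤ ∑ n ∈ f.coeff.support, n.natAbs :=
    Finset.single_le_sum (f := fun n : ℤ => n.natAbs) (fun _ _ => Nat.zero_le _) (Finsupp.mem_support_iff.2 hn)
  omega

lemma Wd.add {D : ℤ} {f g : ℂ[T;T⁻¹]} (hf : Wd D f) (hg : Wd D g) : Wd D (f + g) := by
  intro n hn
  by_cases h1 : f.coeff n = 0
  · by_cases h2 : g.coeff n = 0
    · exact absurd (by simp [h1, h2]) hn
    · exact hg n h2
  · exact hf n h1

lemma Wd.sub {D : ℤ} {f g : ℂ[T;T⁻¹]} (hf : Wd D f) (hg : Wd D g) : Wd D (f - g) := by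
  intro n hn
  by_cases h1 : f.coeff n = 0
  · by_cases h2 : g.coeff n = 0
    · exact absurd (by simp [h1, h2]) hn
    · exact hg n h2
  · exact hf n h1

lemma Wd.mul {D D' : ℤ} {f g : ℂ[T;T⁻¹]} (hf : Wd D f) (hg : Wd D' g) : Wd (D + D') (f * g) := by
  classical
  intro n hn
  have h1 := AddMonoidAlgebra.support_coeff_mul_subset f g (Finsupp.mem_support_iff.2 hn)
  obtain ⟨a, ha, b, hb, rfl⟩ := Finset.mem_add.1 h1
  obtain ⟨h2, h3⟩ := hf a (Finsupp.mem_support_iff.1 ha)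
  obtain ⟨h4, h5⟩ := hg b (Finsupp.mem_support_iff.1 hb)
  exact ⟨by linarith, by linarith⟩

lemma Wd_T {D n : ℤ} (h : |n| ≤ D) : Wd D (LaurentPolynomial.T n : ℂ[T;T⁻¹]) := by
  intro m hm
  rw [LaurentPolynomial.T_apply] at hm
  have h1 : n = m := by
    by_contra h1
    exact hm (if_neg h1)
  subst h1
  exact ⟨(abs_le.1 h).1, (abs_le.1 h).2⟩

lemma dil_T (B n : ℤ) : dil B (LaurentPolynomial.T n) = LaurentPolynomial.T (B * n) := by
  unfold dil LaurentPolynomial.T
  rw [AddMonoidAlgebra.mapDomainRingHom_apply, AddMonoidAlgebra.mapDomain_single]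
  rfl

lemma dil_toLaurent (B : ℕ) (v : ℂ[X]) :
    dil B (toLaurent v) = toLaurent (Polynomial.expand ℂ B v) := by
  have h : (dil (B : ℤ)).comp (toLaurent : ℂ[X] →+* ℂ[T;T⁻¹]) =
      (toLaurent : ℂ[X] →+* ℂ[T;T⁻¹]).comp (Polynomial.expand ℂ B : ℂ[X] →ₐ[ℂ] ℂ[X]).toRingHom := by
    refine Polynomial.ringHom_ext ?_ ?_
    · intro a
      simp only [RingHom.comp_apply, AlgHom.toRingHom_eq_coe, RingHom.coe_coe, Polynomial.expand_C,
        Polynomial.toLaurent_C]
      rw [← LaurentPolynomial.single_eq_C]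
      unfold dil
      rw [AddMonoidAlgebra.mapDomainRingHom_apply, AddMonoidAlgebra.mapDomain_single, map_zero]
    · simp only [RingHom.comp_apply, AlgHom.toRingHom_eq_coe, RingHom.coe_coe, Polynomial.expand_X,
        Polynomial.toLaurent_X, Polynomial.toLaurent_X_pow]
      rw [dil_T, mul_one]
  exact congrArg (fun φ => φ v) h

lemma n1_dil_le (B : ℤ) (F : ℂ[T;T⁻¹]) : n1 (dil B F) ≤ n1 F := by
  exact n1_mapDomain_le _ _

lemma nr_T_mul {r : ℝ} (hr : 0 < r) (n : ℤ) (f : ℂ[T;T⁻¹]) :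
    nr r (LaurentPolynomial.T n * f) = nr r f := by
  have h := nr_single_mul hr n (1 : ℂ) f
  rw [norm_one, one_mul] at h
  exact h

lemma n1_T_mul (n : ℤ) (f : ℂ[T;T⁻¹]) : n1 (LaurentPolynomial.T n * f) = n1 f := by
  have h := n1_single_mul n (1 : ℂ) f
  rw [norm_one, one_mul] at h
  exact h

/-- (IP) `(b, k) ↦ B b + k` is injective for `|k| ≤ D`, `2 D < B`
(`np_mul_of_inj` for `dil B F * K`: the support of `dil B F` is contained in `B • supp F`;
and `np r (dil B F) = np r F` by `np_mapDomain_of_injOn`, `B ≠ 0`; finally `(x * y)^(1/r) = x^(1/r) y^(1/r)`,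
`Real.mul_rpow`). -/
lemma nr_dil_mul {r : ℝ} (hr : 0 < r) {B D : ℤ} (hD : 0 ≤ D) (hB : 2 * D < B) (F K : ℂ[T;T⁻¹])
    (hK : Wd D K) : nr r (dil B F * K) = nr r F * nr r K := by
  classical
  have hB0 : 0 < B := by linarith
  have hinj : Function.Injective (AddMonoidHom.mulLeft B) := by
    intro a b hab
    exact mul_left_cancel₀ hB0.ne' hab
  have h1 : np r (dil B F) = np r F := np_mapDomain_of_injOn hr _ F hinj.injOn
  have hsupp : ∀ a ∈ (dil B F).coeff.support, ∃ b : ℤ, a = B * b := by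
    intro a ha
    have h2 : a ∈ F.coeff.support.image (AddMonoidHom.mulLeft B) := Finsupp.mapDomain_support ha
    obtain ⟨b, -, hb⟩ := Finset.mem_image.1 h2
    exact ⟨b, hb.symm⟩
  have h3 : np r (dil B F * K) = np r (dil B F) * np r K := by
    refine np_mul_of_inj hr _ _ ?_
    intro a ha b hb a' ha' b' hb' hab
    obtain ⟨c, rfl⟩ := hsupp a ha
    obtain ⟨c', rfl⟩ := hsupp a' ha'
    obtain ⟨k1, k2⟩ := hK b (Finsupp.mem_support_iff.1 hb)
    obtain ⟨k3, k4⟩ := hK b' (Finsupp.mem_support_iff.1 hb')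
    have hc : c = c' := by
      rcases lt_trichotomy c c' with h | h | h
      · exfalso
        have : B * (c' - c) ≥ B * 1 := mul_le_mul_of_nonneg_left (by omega) hB0.le
        nlinarith
      · exact h
      · exfalso
        have : B * (c - c') ≥ B * 1 := mul_le_mul_of_nonneg_left (by omega) hB0.le
        nlinarith
    subst hc
    exact ⟨rfl, by linarith⟩
  unfold nr
  rw [h3, h1, Real.mul_rpow (np_nonneg r F) (np_nonneg r K)]

end DC8965.P2
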