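import Pool.Agent.Lib.MP_dc8965_an.P2.B4

/-!
# MP_dc8965_an, `2 < p`: (B5) `Pr`, `inv` and the correlation operators
-/

open Finset Polynomial
open scoped LaurentPolynomial

namespace DC8965.P2

open DC8965.BT

lemma coeff_Pr (f : ℂ[T;T⁻¹]) (n : ℕ) : (Pr f).coeff n = f.coeff (-(n : ℤ)) := by
  unfold Pr LaurentPolynomial.trunc
  simp

lemma Pr_add (f g : ℂ[T;T⁻¹]) : Pr (f + g) = Pr f + Pr g := by
  ext n
  rw [Polynomial.coeff_add, coeff_Pr, coeff_Pr, coeff_Pr, AddMonoidAlgebra.coeff_add,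
    Finsupp.add_apply]

lemma Pr_sub (f g : ℂ[T;T⁻¹]) : Pr (f - g) = Pr f - Pr g := by
  ext n
  rw [Polynomial.coeff_sub, coeff_Pr, coeff_Pr, coeff_Pr, AddMonoidAlgebra.coeff_sub,
    Finsupp.sub_apply]

private lemma b5_Pr_zero : Pr (0 : ℂ[T;T⁻¹]) = 0 := by
  ext n
  rw [coeff_Pr, Polynomial.coeff_zero, AddMonoidAlgebra.coeff_zero, Finsupp.zero_apply]

lemma Pr_sum {ι : Type*} (s : Finset ι) (f : ι → ℂ[T;T⁻¹]) :
    Pr (∑ i ∈ s, f i) = ∑ i ∈ s, Pr (f i) := by
  classical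
  induction s using Finset.induction_on with
  | empty => rw [Finset.sum_empty, Finset.sum_empty, b5_Pr_zero]
  | insert i s hi ih => rw [Finset.sum_insert hi, Finset.sum_insert hi, Pr_add, ih]

lemma Pr_inv (a : ℂ[X]) : Pr (inv a) = a := by
  unfold Pr inv
  rw [LaurentPolynomial.involutive_invert, Polynomial.trunc_toLaurent]

/-- the exponents are all positive -/
def Pos (f : ℂ[T;T⁻¹]) : Prop := ∀ n : ℤ, n ≤ 0 → f.coeff n = 0

lemma Pr_of_Pos {f : ℂ[T;T⁻¹]} (h : Pos f) : Pr f = 0 := by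
  ext n
  rw [coeff_Pr, Polynomial.coeff_zero]
  exact h _ (by omega)

lemma Pos.add {f g : ℂ[T;T⁻¹]} (hf : Pos f) (hg : Pos g) : Pos (f + g) := by
  intro n hn
  rw [AddMonoidAlgebra.coeff_add, Finsupp.add_apply, hf n hn, hg n hn, add_zero]

lemma Pos_T_mul {D E : ℤ} (h : D < E) {f : ℂ[T;T⁻¹]} (hf : Wd D f) :
    Pos (LaurentPolynomial.T E * f) := by
  intro n hn
  unfold LaurentPolynomial.T
  rw [AddMonoidAlgebra.coeff_single_mul_apply, one_mul]
  by_contra h1
  have h2 := (hf _ h1).1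
  omega

lemma Sn_Pr_le {r : ℝ} (hr : 0 < r) (f : ℂ[T;T⁻¹]) : Sn r (Pr f) ≤ np r f := by
  classical
  unfold Sn
  have h1 : ∑ k ∈ (Pr f).support, ‖(Pr f).coeff k‖ ^ r =
      ∑ g ∈ (Pr f).support.image (fun k : ℕ => (-(k : ℤ))), ‖f.coeff g‖ ^ r := by
    rw [Finset.sum_image]
    · refine Finset.sum_congr rfl fun k _ => ?_
      rw [coeff_Pr]
    · intro a _ b _ hab
      have : (-(a : ℤ)) = -(b : ℤ) := hab
      omega
  rw [h1]
  unfold np
  refine Finset.sum_le_sum_of_subset_of_nonneg ?_ fun _ _ _ => by positivity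
  intro g hg
  obtain ⟨k, hk, rfl⟩ := Finset.mem_image.1 hg
  rw [Polynomial.mem_support_iff, coeff_Pr] at hk
  exact Finsupp.mem_support_iff.2 hk

/-- `U` moves the exponents up and `Pr` kills the positive ones:
`(Pr (U f))_j = ∑_k U_k f_(-j-k) = ∑_k U_k (Pr f)_(j+k)` (`AddMonoidAlgebra` product; prove it first for
`U = monomial`: `toLaurent (monomial k c) = C c * T k`, then by `Polynomial.induction_on'` or
`U.as_sum_support`, both sides being additive in `U`: `BT.Tp_add_left`, `BT.Tp_monomial`). -/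
lemma Tp_Pr (U : ℂ[X]) (f : ℂ[T;T⁻¹]) (j : ℕ) :
    Tp U (fun n => (Pr f).coeff n) j = (Pr (toLaurent U * f)).coeff j := by
  induction U using Polynomial.induction_on' with
  | add p q hp hq =>
    rw [Tp_add_left, Pi.add_apply, hp, hq, map_add, add_mul, Pr_add, Polynomial.coeff_add]
  | monomial n a =>
    rw [Tp_monomial, coeff_Pr, coeff_Pr]
    have h1 : (toLaurent (Polynomial.monomial n a) : ℂ[T;T⁻¹]) = AddMonoidAlgebra.single (n : ℤ) a := by
      rw [← Polynomial.C_mul_X_pow_eq_monomial, Polynomial.toLaurent_C_mul_X_pow,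
        ← LaurentPolynomial.single_eq_C_mul_T]
    rw [h1, AddMonoidAlgebra.coeff_single_mul_apply]
    congr 2
    push_cast
    ring

private lemma b5_np_toLaurent (r : ℝ) (V : ℂ[X]) : np r (toLaurent V) = Sn r V := by
  unfold np Sn
  rw [LaurentPolynomial.support_coeff_toLaurent, Finset.sum_map]
  refine Finset.sum_congr rfl fun k _ => ?_
  have h1 : (toLaurent V : ℂ[T;T⁻¹]).coeff (Nat.castEmbedding k) = V.coeff k := by
    have h2 := coeff_Pr (inv V) k
    rw [Pr_inv] at h2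
    unfold inv at h2
    rw [LaurentPolynomial.invert_apply, neg_neg] at h2
    rw [h2]
    rfl
  rw [h1]

lemma np_toLaurent {r : ℝ} (hr : 0 < r) (V : ℂ[X]) : np r (toLaurent V) = Sn r V := by
  exact b5_np_toLaurent r V

lemma np_inv {r : ℝ} (hr : 0 < r) (a : ℂ[X]) : np r (inv a) = Sn r a := by
  rw [← b5_np_toLaurent]
  unfold np inv
  refine Finset.sum_bij' (fun g _ => -g) (fun g _ => -g) ?_ ?_ ?_ ?_ ?_
  · intro g hg
    rw [Finsupp.mem_support_iff, LaurentPolynomial.invert_apply] at hg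
    exact Finsupp.mem_support_iff.2 hg
  · intro g hg
    rw [Finsupp.mem_support_iff] at hg ⊢
    rw [LaurentPolynomial.invert_apply, neg_neg]
    exact hg
  · intro g _
    exact neg_neg g
  · intro g _
    exact neg_neg g
  · intro g _
    rw [LaurentPolynomial.invert_apply]

/-- if the norm of `f` is at most `K` then the sequence `Pr f` satisfies `Sle r (Pr f) (K^r)`
(`BT.Sle_coeff_iff`, `Sn_Pr_le`, `np_le_of_nr_le`). -/
lemma Sle_Pr {r : ℝ} (hr : 0 < r) {f : ℂ[T;T⁻¹]} {K : ℝ} (h : nr r f ≤ K) :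
    Sle r (fun n => (Pr f).coeff n) (K ^ r) := by
  rw [Sle_coeff_iff hr]
  exact (Sn_Pr_le hr f).trans (np_le_of_nr_le hr h)

end DC8965.P2
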