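import Pool.Agent.Lib.MP_dc8965_an.P2.CDefs

/-!
# MP_dc8965_an, `2 < p`: (C1) the identity for `U μ`
-/

open Finset Polynomial
open scoped LaurentPolynomial

namespace DC8965.P2

/-- The identity in a commutative ring (`z1 z1i = 1`, `z2 z2i = 1`, `v F_(j+1) = F_j`), `Y j` stands for `X_(j+1)`.
By induction on `m` (telescoping): `m = 0` is
`(V + z2 Ψ) X_0 + V v X_1 = F_0 (-(1 - V R) Ψ Φ + z2 R Ψ^2 Φ)`; in the step the new terms are
`z1i^(m+1) V v Y_(m+1)` (from `z1 z1i = 1`) and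
`V v Y_(m+1) + (V + z2 Ψ) Y_m = Y_m (1 - V R) (V + z2 Ψ)` since `v F_(m+2) = F_(m+1)`. -/
lemma C1_ring {A : Type*} [CommRing A] (V Ψ Φ R e S v z1 z1i z2 z2i : A) (F : ℕ → A) (m : ℕ)
    (hv : ∀ j < m + 1, v * F (j + 1) = F j) (h1 : z1 * z1i = 1) (h2 : z2 * z2i = 1) :
    (V + z2 * Ψ + z1 * (V * v)) * (S - R * e + F 0 * (R * Ψ * Φ - z2i * Φ) +
      ∑ j ∈ range (m + 1), z1i ^ (j + 1) *
        ((-1) ^ j * (z2i * (F (j + 1) * ((V + z2 * Ψ) ^ j * (R ^ j * Φ)))))) =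
    V * (S - R * e) + (z2 * (Ψ * (S - R * e)) + z1 * (V * v * (S - R * e)) +
      z1 * (V * v * (F 0 * (R * Ψ * Φ - z2i * Φ))) + z2 * (F 0 * (R * Ψ ^ 2 * Φ))) -
      F 0 * ((1 - V * R) * (Ψ * Φ)) +
      (∑ j ∈ range m, z1i ^ (j + 1) *
        (((-1) ^ j * (z2i * (F (j + 1) * ((V + z2 * Ψ) ^ j * (R ^ j * Φ))))) *
          ((1 - V * R) * (V + z2 * Ψ)))) +
      z1i ^ (m + 1) * ((V + z2 * Ψ) *
        ((-1) ^ m * (z2i * (F (m + 1) * ((V + z2 * Ψ) ^ m * (R ^ m * Φ)))))) := by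
  induction m with
  | zero =>
    simp only [Finset.range_zero, Finset.sum_empty, zero_add, Finset.range_one, Finset.sum_singleton,
      pow_zero, pow_one, one_mul]
    have h3 := hv 0 (Nat.succ_pos 0)
    rw [zero_add] at h3
    linear_combination (V * z2i * Φ * z1 * z1i) * h3 + (V * z2i * Φ * F 0) * h1 +
      (-(F 0 * Ψ * Φ)) * h2
  | succ m ih =>
    have h3 := hv (m + 1) (by omega)
    have ih' := ih (fun j hj => hv j (by omega))
    rw [Finset.sum_range_succ (fun j => z1i ^ (j + 1) *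
        ((-1) ^ j * (z2i * (F (j + 1) * ((V + z2 * Ψ) ^ j * (R ^ j * Φ)))))) (m + 1),
      Finset.sum_range_succ (fun j => z1i ^ (j + 1) *
        (((-1) ^ j * (z2i * (F (j + 1) * ((V + z2 * Ψ) ^ j * (R ^ j * Φ))))) *
          ((1 - V * R) * (V + z2 * Ψ)))) m]
    linear_combination ih' + ((-1) ^ (m + 1) * z2i * V * (V + z2 * Ψ) ^ (m + 1) * R ^ (m + 1) * Φ *
      z1i ^ (m + 1) * (v * F (m + 1 + 1))) * h1 +
      ((-1) ^ (m + 1) * z2i * V * (V + z2 * Ψ) ^ (m + 1) * R ^ (m + 1) * Φ * z1i ^ (m + 1)) * h3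

/-- `Pr` kills the terms with positive exponents. Apply `C1_ring` with `z1 = T D`, `z2 = T E`, `v = dil B v`
(`dil_toLaurent`, `map_mul`; `T (-((j+1) D)) = (T (-D))^(j+1)`, `LaurentPolynomial.T_pow`), then `Pr_add`; the four terms
in the bracket are `Pos` (`Pos_T_mul`, `Wd.mul`, `Wd.add`, `Wd.sub`; `dil B f` has width `B * d'` if `f` has width `d'`;
for the third one use width `4 d + 2 B d' + E`), so `Pr` of them vanishes;
`Pr (V (inv a - R e)) = Pr (V inv a) - Pr (V R e) = Pr e - Pr (V R e) = Pr ((1 - V R) e)`. -/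
theorem C1 (a V Ψ v : ℂ[X]) (R e Φ : ℂ[T;T⁻¹]) (F : ℕ → ℂ[T;T⁻¹]) (B E D m d d' : ℕ)
    (hv : ∀ j < m + 1, toLaurent v * F (j + 1) = F j)
    (he : Pr (toLaurent V * inv a) = Pr e)
    (hV : Wd d (toLaurent V)) (hΨ : Wd d (toLaurent Ψ)) (hR : Wd d R) (hee : Wd d e)
    (hΦ : Wd d Φ) (ha : Wd d (inv a)) (hvv : Wd d' (toLaurent v)) (hF : Wd d' (F 0))
    (hE : B * d' + 4 * d < E) (hD : 2 * (B * d') + 4 * d + E < D) :
    Pr (toLaurent (UP V Ψ v B E D) * muP a V Ψ R e Φ F B E D m) =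
      Pr (smP V Ψ R e Φ F B E D m) := by
  classical
  have hdil : ∀ f : ℂ[T;T⁻¹], Wd d' f → Wd (B * d') (dil B f) := by
    intro f hf n hn
    have h1 : n ∈ (dil B f).coeff.support := Finsupp.mem_support_iff.2 hn
    have h2 : n ∈ f.coeff.support.image (AddMonoidHom.mulLeft (B : ℤ)) :=
      Finsupp.mapDomain_support h1
    obtain ⟨b, hb, rfl⟩ := Finset.mem_image.1 h2
    obtain ⟨h3, h4⟩ := hf b (Finsupp.mem_support_iff.1 hb)
    have hB : (0 : ℤ) ≤ B := Int.natCast_nonneg B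
    have h5 := mul_le_mul_of_nonneg_left h3 hB
    have h6 := mul_le_mul_of_nonneg_left h4 hB
    simp only [AddMonoidHom.coe_mulLeft]
    constructor
    · linarith
    · linarith
  have hBd : (0 : ℤ) ≤ B * d' := by positivity
  have hd0 : (0 : ℤ) ≤ d := by positivity
  have hE' : (B : ℤ) * d' + 4 * d < E := by exact_mod_cast hE
  have hD' : 2 * ((B : ℤ) * d') + 4 * d + E < D := by exact_mod_cast hD
  set VL := toLaurent V with hVL
  set ΨL := toLaurent Ψ with hΨL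
  set vL := dil B (toLaurent v) with hvL
  have hF0 := hdil _ hF
  have hvw : Wd (B * d') vL := hdil _ hvv
  have hU : toLaurent (UP V Ψ v B E D) = VL + LaurentPolynomial.T (E : ℤ) * ΨL +
      LaurentPolynomial.T (D : ℤ) * (VL * vL) := by
    unfold UP
    rw [map_add, map_add, map_mul, map_mul, map_mul, Polynomial.toLaurent_X_pow,
      Polynomial.toLaurent_X_pow, hvL, dil_toLaurent]
  have hT : ∀ j : ℕ, (LaurentPolynomial.T (-((j + 1 : ℕ) * D : ℤ)) : ℂ[T;T⁻¹]) =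
      (LaurentPolynomial.T (-(D : ℤ))) ^ (j + 1) := by
    intro j
    rw [LaurentPolynomial.T_pow]
    congr 1
    push_cast
    ring
  have key := C1_ring VL ΨL Φ R e (inv a) vL (LaurentPolynomial.T (D : ℤ))
    (LaurentPolynomial.T (-(D : ℤ))) (LaurentPolynomial.T (E : ℤ))
    (LaurentPolynomial.T (-(E : ℤ))) (fun j => dil B (F j)) m
    (fun j hj => by
      show vL * dil B (F (j + 1)) = dil B (F j)
      rw [hvL, ← map_mul, hv j hj])
    (by rw [← LaurentPolynomial.T_add, add_neg_cancel, LaurentPolynomial.T_zero])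
    (by rw [← LaurentPolynomial.T_add, add_neg_cancel, LaurentPolynomial.T_zero])
  have hmu : muP a V Ψ R e Φ F B E D m = inv a - R * e + dil B (F 0) * (R * ΨL * Φ -
      LaurentPolynomial.T (-(E : ℤ)) * Φ) +
      ∑ j ∈ range (m + 1), (LaurentPolynomial.T (-(D : ℤ)) : ℂ[T;T⁻¹]) ^ (j + 1) *
        ((-1) ^ j * (LaurentPolynomial.T (-(E : ℤ)) * (dil B (F (j + 1)) *
          ((VL + LaurentPolynomial.T (E : ℤ) * ΨL) ^ j * (R ^ j * Φ))))) := by
    unfold muP X0 Xj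
    simp only [hT]
    rfl
  have hbr : Pr (LaurentPolynomial.T (E : ℤ) * (ΨL * (inv a - R * e)) +
      LaurentPolynomial.T (D : ℤ) * (VL * vL * (inv a - R * e)) +
      LaurentPolynomial.T (D : ℤ) * (VL * vL * (dil B (F 0) * (R * ΨL * Φ -
        LaurentPolynomial.T (-(E : ℤ)) * Φ))) +
      LaurentPolynomial.T (E : ℤ) * (dil B (F 0) * (R * ΨL ^ 2 * Φ))) = 0 := by
    have hw1 : Wd (d + d) (inv a - R * e) := (ha.mono (by omega)).sub (hR.mul hee)
    have hw2 : Wd (d + E + d + d) (R * ΨL * Φ - LaurentPolynomial.T (-(E : ℤ)) * Φ) := by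
      refine Wd.sub (((hR.mul hΨ).mul hΦ).mono (by omega)) ?_
      refine Wd.mono ((Wd_T (D := E) (n := -(E : ℤ)) ?_).mul hΦ) (by omega)
      rw [abs_neg, Nat.abs_cast]
    have hw3 : Wd (d + (d + d) + d) (R * ΨL ^ 2 * Φ) := by
      rw [pow_two]
      exact (hR.mul (hΨ.mul hΨ)).mul hΦ
    refine Pr_of_Pos (Pos.add (Pos.add (Pos.add ?_ ?_) ?_) ?_)
    · exact Pos_T_mul (by linarith) (hΨ.mul hw1)
    · exact Pos_T_mul (by linarith) ((hV.mul hvw).mul hw1)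
    · exact Pos_T_mul (by linarith) ((hV.mul hvw).mul (hF0.mul hw2))
    · exact Pos_T_mul (by linarith) (hF0.mul hw3)
  have hsm : smP V Ψ R e Φ F B E D m = (1 - VL * R) * e - dil B (F 0) * ((1 - VL * R) * (ΨL * Φ)) +
      (∑ j ∈ range m, (LaurentPolynomial.T (-(D : ℤ)) : ℂ[T;T⁻¹]) ^ (j + 1) *
        (((-1) ^ j * (LaurentPolynomial.T (-(E : ℤ)) * (dil B (F (j + 1)) *
          ((VL + LaurentPolynomial.T (E : ℤ) * ΨL) ^ j * (R ^ j * Φ))))) *
          ((1 - VL * R) * (VL + LaurentPolynomial.T (E : ℤ) * ΨL)))) +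
      (LaurentPolynomial.T (-(D : ℤ)) : ℂ[T;T⁻¹]) ^ (m + 1) *
        ((VL + LaurentPolynomial.T (E : ℤ) * ΨL) *
        ((-1) ^ m * (LaurentPolynomial.T (-(E : ℤ)) * (dil B (F (m + 1)) *
          ((VL + LaurentPolynomial.T (E : ℤ) * ΨL) ^ m * (R ^ m * Φ)))))) := by
    unfold smP Xj
    simp only [hT]
    rfl
  have hfin : toLaurent (UP V Ψ v B E D) * muP a V Ψ R e Φ F B E D m =
      smP V Ψ R e Φ F B E D m - e + VL * inv a +
      (LaurentPolynomial.T (E : ℤ) * (ΨL * (inv a - R * e)) +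
      LaurentPolynomial.T (D : ℤ) * (VL * vL * (inv a - R * e)) +
      LaurentPolynomial.T (D : ℤ) * (VL * vL * (dil B (F 0) * (R * ΨL * Φ -
        LaurentPolynomial.T (-(E : ℤ)) * Φ))) +
      LaurentPolynomial.T (E : ℤ) * (dil B (F 0) * (R * ΨL ^ 2 * Φ))) := by
    rw [hU, hmu, key, hsm]
    ring
  rw [hfin, Pr_add, hbr, Pr_add, Pr_sub, he, add_zero, sub_add_cancel]

end DC8965.P2
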