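import Pool.Agent.Lib.MP_dc8965_an.P2.CDefs

/-!
# MP_dc8965_an, `2 < p`: (C2) norms of the terms
-/

open Finset Polynomial
open scoped LaurentPolynomial

namespace DC8965.P2

private lemma wd_pow {D : ℤ} {f : ℂ[T;T⁻¹]} (hf : Wd D f) (j : ℕ) : Wd (j * D) (f ^ j) := by
  induction j with
  | zero =>
    rw [pow_zero, ← LaurentPolynomial.T_zero]
    exact Wd_T (by simp)
  | succ j ih =>
    rw [pow_succ]
    have h := Wd.mul ih hf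
    have e : ((j + 1 : ℕ) : ℤ) * D = (j : ℤ) * D + D := by push_cast; ring
    rw [e]
    exact h

private lemma wd_pow_mul {d j : ℕ} {R Φ : ℂ[T;T⁻¹]} (hR : Wd d R) (hΦ : Wd d Φ) :
    Wd (((j + 1) * d : ℕ) : ℤ) (R ^ j * Φ) := by
  have h := Wd.mul (wd_pow hR j) hΦ
  have e : (((j + 1) * d : ℕ) : ℤ) = (j : ℤ) * (d : ℤ) + (d : ℤ) := by push_cast; ring
  rw [e]
  exact h

private lemma nr_sign_mul (r : ℝ) (j : ℕ) (f : ℂ[T;T⁻¹]) : nr r ((-1) ^ j * f) = nr r f := by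
  rcases neg_one_pow_eq_or ℂ[T;T⁻¹] j with h | h
  · rw [h, one_mul]
  · rw [h, neg_one_mul, nr_neg]

private lemma n1_sign_mul (j : ℕ) (f : ℂ[T;T⁻¹]) : n1 ((-1) ^ j * f) = n1 f := by
  rcases neg_one_pow_eq_or ℂ[T;T⁻¹] j with h | h
  · rw [h, one_mul]
  · rw [h, neg_one_mul, n1_neg]

/-- (IP) with the powers of `V + T^E Ψ`: induction on `j`, for all `K`, `D`:
`(V + T^E Ψ)^(j+1) K = (V + T^E Ψ)^j (V K) + T^E ((V + T^E Ψ)^j (Ψ K))`; case `j = 0`: `nr_dil_mul` and `nr_le_n1`. -/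
lemma C2_pow {r : ℝ} (hr : 1 ≤ r) (V Ψ F K : ℂ[T;T⁻¹]) (B E d D j : ℕ) (hV : Wd d V) (hΨ : Wd d Ψ)
    (hK : Wd D K) (hB : 2 * (D + j * d) < B) :
    nr r (dil B F * ((V + LaurentPolynomial.T (E : ℤ) * Ψ) ^ j * K)) ≤
      nr r F * ((n1 V + n1 Ψ) ^ j * n1 K) := by
  have hr0 : 0 < r := by linarith
  induction j generalizing K D with
  | zero =>
    rw [pow_zero, one_mul, pow_zero, one_mul,
      nr_dil_mul (D := (D : ℤ)) (B := (B : ℤ)) hr0 (by positivity) (by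
        have : 2 * D < B := by simpa using hB
        exact_mod_cast this) F K hK]
    exact mul_le_mul_of_nonneg_left (nr_le_n1 hr K) (nr_nonneg r F)
  | succ j ih =>
    have hS : 0 ≤ n1 V + n1 Ψ := add_nonneg (n1_nonneg V) (n1_nonneg Ψ)
    have hB' : 2 * (d + D + j * d) < B := by
      calc 2 * (d + D + j * d) = 2 * (D + (j + 1) * d) := by ring
        _ < B := hB
    have h1 := ih (V * K) (d + D) (by
      have h := Wd.mul hV hK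
      exact_mod_cast h) hB'
    have h2 := ih (Ψ * K) (d + D) (by
      have h := Wd.mul hΨ hK
      exact_mod_cast h) hB'
    have e : dil B F * ((V + LaurentPolynomial.T (E : ℤ) * Ψ) ^ (j + 1) * K) =
        dil B F * ((V + LaurentPolynomial.T (E : ℤ) * Ψ) ^ j * (V * K)) +
          LaurentPolynomial.T (E : ℤ) *
            (dil B F * ((V + LaurentPolynomial.T (E : ℤ) * Ψ) ^ j * (Ψ * K))) := by ring
    rw [e]
    refine (nr_add_le hr _ _).trans ?_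
    rw [nr_T_mul hr0]
    have h3 : nr r F * ((n1 V + n1 Ψ) ^ j * n1 (V * K)) ≤
        nr r F * ((n1 V + n1 Ψ) ^ j * (n1 V * n1 K)) :=
      mul_le_mul_of_nonneg_left (mul_le_mul_of_nonneg_left (n1_mul_le V K) (pow_nonneg hS j))
        (nr_nonneg r F)
    have h4 : nr r F * ((n1 V + n1 Ψ) ^ j * n1 (Ψ * K)) ≤
        nr r F * ((n1 V + n1 Ψ) ^ j * (n1 Ψ * n1 K)) :=
      mul_le_mul_of_nonneg_left (mul_le_mul_of_nonneg_left (n1_mul_le Ψ K) (pow_nonneg hS j))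
        (nr_nonneg r F)
    have e2 : nr r F * ((n1 V + n1 Ψ) ^ (j + 1) * n1 K) =
        nr r F * ((n1 V + n1 Ψ) ^ j * (n1 V * n1 K)) +
          nr r F * ((n1 V + n1 Ψ) ^ j * (n1 Ψ * n1 K)) := by ring
    rw [e2]
    exact add_le_add (h1.trans h3) (h2.trans h4)

/-- the norm of `X_(j+1)`: `C2_pow` with `K = R^j Φ` (width `(j+1) d`), `nr_T_mul`, the sign has norm one
(`nr_neg`), `n1_mul_le`, `n1_pow_le`. -/
lemma C2_Xj {r : ℝ} (hr : 1 ≤ r) (V Ψ : ℂ[X]) (R Φ : ℂ[T;T⁻¹]) (F : ℕ → ℂ[T;T⁻¹]) (B E d j : ℕ)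
    (hV : Wd d (toLaurent V)) (hΨ : Wd d (toLaurent Ψ)) (hR : Wd d R) (hΦ : Wd d Φ)
    (hB : 2 * ((2 * j + 1) * d) < B) :
    nr r (Xj V Ψ R Φ F B E j) ≤
      nr r (F (j + 1)) * ((n1 R * (n1 (toLaurent V) + n1 (toLaurent Ψ))) ^ j * n1 Φ) := by
  have hr0 : 0 < r := by linarith
  unfold Xj
  rw [nr_sign_mul, nr_T_mul hr0]
  have hS : 0 ≤ n1 (toLaurent V) + n1 (toLaurent Ψ) := add_nonneg (n1_nonneg _) (n1_nonneg _)
  refine (C2_pow hr (toLaurent V) (toLaurent Ψ) (F (j + 1)) (R ^ j * Φ) B E d ((j + 1) * d) j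
    hV hΨ (wd_pow_mul hR hΦ) ?_).trans ?_
  · calc 2 * ((j + 1) * d + j * d) = 2 * ((2 * j + 1) * d) := by ring
      _ < B := hB
  · refine mul_le_mul_of_nonneg_left ?_ (nr_nonneg r _)
    have h1 : n1 (R ^ j * Φ) ≤ n1 R ^ j * n1 Φ :=
      (n1_mul_le _ _).trans (mul_le_mul_of_nonneg_right (n1_pow_le R j) (n1_nonneg Φ))
    calc (n1 (toLaurent V) + n1 (toLaurent Ψ)) ^ j * n1 (R ^ j * Φ)
        ≤ (n1 (toLaurent V) + n1 (toLaurent Ψ)) ^ j * (n1 R ^ j * n1 Φ) :=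
          mul_le_mul_of_nonneg_left h1 (pow_nonneg hS j)
      _ = (n1 R * (n1 (toLaurent V) + n1 (toLaurent Ψ))) ^ j * n1 Φ := by rw [mul_pow]; ring

/-- `X_1 = T^(-E) F_1(T^B) Φ`: (IP). -/
lemma C2_X0 {r : ℝ} (hr : 1 ≤ r) (V Ψ : ℂ[X]) (R Φ : ℂ[T;T⁻¹]) (F : ℕ → ℂ[T;T⁻¹]) (B E d : ℕ)
    (hΦ : Wd d Φ) (hB : 2 * d < B) :
    nr r (Xj V Ψ R Φ F B E 0) ≤ nr r (F 1) * nr r Φ := by
  have hr0 : 0 < r := by linarith
  unfold Xj
  rw [nr_sign_mul, nr_T_mul hr0, pow_zero, pow_zero, one_mul, one_mul,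
    nr_dil_mul (D := (d : ℤ)) (B := (B : ℤ)) hr0 (by positivity) (by exact_mod_cast hB) _ Φ hΦ]

/-- the `ℓ^1` norm of `X_(j+1)`: `n1_dil_le`, `n1_mul_le`, `n1_pow_le`, `n1_T_mul`. -/
lemma C2_n1 (V Ψ : ℂ[X]) (R Φ : ℂ[T;T⁻¹]) (F : ℕ → ℂ[T;T⁻¹]) (B E j : ℕ) :
    n1 (Xj V Ψ R Φ F B E j) ≤
      n1 (F (j + 1)) * ((n1 R * (n1 (toLaurent V) + n1 (toLaurent Ψ))) ^ j * n1 Φ) := by
  unfold Xj
  rw [n1_sign_mul, n1_T_mul]
  have hS : 0 ≤ n1 (toLaurent V) + n1 (toLaurent Ψ) := add_nonneg (n1_nonneg _) (n1_nonneg _)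
  have h1 : n1 (R ^ j * Φ) ≤ n1 R ^ j * n1 Φ :=
    (n1_mul_le _ _).trans (mul_le_mul_of_nonneg_right (n1_pow_le R j) (n1_nonneg Φ))
  have h2 : n1 (toLaurent V + LaurentPolynomial.T (E : ℤ) * toLaurent Ψ) ≤
      n1 (toLaurent V) + n1 (toLaurent Ψ) := by
    refine (n1_add_le _ _).trans ?_
    rw [n1_T_mul]
  have h3 : n1 ((toLaurent V + LaurentPolynomial.T (E : ℤ) * toLaurent Ψ) ^ j) ≤
      (n1 (toLaurent V) + n1 (toLaurent Ψ)) ^ j :=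
    (n1_pow_le _ j).trans (pow_le_pow_left₀ (n1_nonneg _) h2 j)
  calc n1 (dil B (F (j + 1)) *
        ((toLaurent V + LaurentPolynomial.T (E : ℤ) * toLaurent Ψ) ^ j * (R ^ j * Φ)))
      ≤ n1 (dil B (F (j + 1))) *
        n1 ((toLaurent V + LaurentPolynomial.T (E : ℤ) * toLaurent Ψ) ^ j * (R ^ j * Φ)) :=
        n1_mul_le _ _
    _ ≤ n1 (F (j + 1)) * ((n1 (toLaurent V) + n1 (toLaurent Ψ)) ^ j * (n1 R ^ j * n1 Φ)) := by
        refine mul_le_mul (n1_dil_le _ _) ?_ (n1_nonneg _) (n1_nonneg _)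
        exact (n1_mul_le _ _).trans (mul_le_mul h3 h1 (n1_nonneg _) (pow_nonneg hS j))
    _ = n1 (F (j + 1)) * ((n1 R * (n1 (toLaurent V) + n1 (toLaurent Ψ))) ^ j * n1 Φ) := by
        rw [mul_pow]; ring

/-- The last term of `smP`: `(V + T^E Ψ) X_(m+1) = ± T^(-E) F_(m+1)(T^B) ((V + T^E Ψ)^(m+1) (R^m Φ))`, `C2_pow`. -/
lemma C2_last {r : ℝ} (hr : 1 ≤ r) (V Ψ : ℂ[X]) (R Φ : ℂ[T;T⁻¹]) (F : ℕ → ℂ[T;T⁻¹]) (B E d m : ℕ)
    (hV : Wd d (toLaurent V)) (hΨ : Wd d (toLaurent Ψ)) (hR : Wd d R) (hΦ : Wd d Φ)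
    (hB : 2 * ((2 * m + 2) * d) < B) :
    nr r ((toLaurent V + LaurentPolynomial.T (E : ℤ) * toLaurent Ψ) * Xj V Ψ R Φ F B E m) ≤
      nr r (F (m + 1)) * ((n1 (toLaurent V) + n1 (toLaurent Ψ)) ^ (m + 1) * (n1 R ^ m * n1 Φ)) := by
  have hr0 : 0 < r := by linarith
  have hS : 0 ≤ n1 (toLaurent V) + n1 (toLaurent Ψ) := add_nonneg (n1_nonneg _) (n1_nonneg _)
  have e : (toLaurent V + LaurentPolynomial.T (E : ℤ) * toLaurent Ψ) * Xj V Ψ R Φ F B E m =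
      (-1) ^ m * (LaurentPolynomial.T (-(E : ℤ)) * (dil B (F (m + 1)) *
        ((toLaurent V + LaurentPolynomial.T (E : ℤ) * toLaurent Ψ) ^ (m + 1) * (R ^ m * Φ)))) := by
    unfold Xj
    ring
  rw [e, nr_sign_mul, nr_T_mul hr0]
  refine (C2_pow hr (toLaurent V) (toLaurent Ψ) (F (m + 1)) (R ^ m * Φ) B E d ((m + 1) * d) (m + 1)
    hV hΨ (wd_pow_mul hR hΦ) ?_).trans ?_
  · calc 2 * ((m + 1) * d + (m + 1) * d) = 2 * ((2 * m + 2) * d) := by ring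
      _ < B := hB
  · refine mul_le_mul_of_nonneg_left ?_ (nr_nonneg r _)
    have h1 : n1 (R ^ m * Φ) ≤ n1 R ^ m * n1 Φ :=
      (n1_mul_le _ _).trans (mul_le_mul_of_nonneg_right (n1_pow_le R m) (n1_nonneg Φ))
    exact mul_le_mul_of_nonneg_left h1 (pow_nonneg hS _)

end DC8965.P2
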