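import Pool.Agent.Lib.MP_dc8965_an.P2.C2

/-!
# MP_dc8965_an, `2 < p`: (C3) the two estimates
-/

open Finset Polynomial
open scoped LaurentPolynomial

namespace DC8965.P2

/-- the `ℓ^2` norm of the small terms. Triangle inequality; `nr 2 ≤ n1` (`nr_le_n1`) for every term except the last
(`C2_last`); `C2_n1`, `n1_dil_le`, `n1_mul_le`, `n1_T_mul`, `nr_T_mul`. `ϱ` stands for `n1 (1 - V R)`. -/
theorem C3_two (V Ψ : ℂ[X]) (R e Φ : ℂ[T;T⁻¹]) (F : ℕ → ℂ[T;T⁻¹]) (B E D m d : ℕ)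
    (hV : Wd d (toLaurent V)) (hΨ : Wd d (toLaurent Ψ)) (hR : Wd d R) (hΦ : Wd d Φ)
    (hB : 2 * ((2 * m + 2) * d) < B) :
    nr 2 (smP V Ψ R e Φ F B E D m) ≤
      n1 (1 - toLaurent V * R) * (n1 e + n1 (F 0) * (n1 (toLaurent Ψ) * n1 Φ) +
        ∑ j ∈ range m, n1 (F (j + 1)) *
          ((n1 R * (n1 (toLaurent V) + n1 (toLaurent Ψ))) ^ j * n1 Φ) *
            (n1 (toLaurent V) + n1 (toLaurent Ψ))) +
      nr 2 (F (m + 1)) * ((n1 (toLaurent V) + n1 (toLaurent Ψ)) ^ (m + 1) * (n1 R ^ m * n1 Φ)) := by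
  have h12 : (1 : ℝ) ≤ 2 := by norm_num
  set ρ := n1 (1 - toLaurent V * R) with hρ
  have hρ0 : 0 ≤ ρ := n1_nonneg _
  have hA1 : nr 2 ((1 - toLaurent V * R) * e) ≤ ρ * n1 e :=
    (nr_le_n1 h12 _).trans (n1_mul_le _ _)
  have hA2 : nr 2 (dil B (F 0) * ((1 - toLaurent V * R) * (toLaurent Ψ * Φ))) ≤
      ρ * (n1 (F 0) * (n1 (toLaurent Ψ) * n1 Φ)) := by
    have h2 : n1 ((1 - toLaurent V * R) * (toLaurent Ψ * Φ)) ≤ ρ * (n1 (toLaurent Ψ) * n1 Φ) :=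
      (n1_mul_le _ _).trans (mul_le_mul_of_nonneg_left (n1_mul_le _ _) hρ0)
    calc nr 2 (dil B (F 0) * ((1 - toLaurent V * R) * (toLaurent Ψ * Φ)))
        ≤ n1 (dil B (F 0) * ((1 - toLaurent V * R) * (toLaurent Ψ * Φ))) := nr_le_n1 h12 _
      _ ≤ n1 (dil B (F 0)) * n1 ((1 - toLaurent V * R) * (toLaurent Ψ * Φ)) := n1_mul_le _ _
      _ ≤ n1 (F 0) * (ρ * (n1 (toLaurent Ψ) * n1 Φ)) :=
          mul_le_mul (n1_dil_le _ _) h2 (n1_nonneg _) (n1_nonneg _)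
      _ = ρ * (n1 (F 0) * (n1 (toLaurent Ψ) * n1 Φ)) := by ring
  have hVE : n1 (toLaurent V + LaurentPolynomial.T (E : ℤ) * toLaurent Ψ) ≤
      n1 (toLaurent V) + n1 (toLaurent Ψ) := by
    refine (n1_add_le _ _).trans ?_
    rw [n1_T_mul]
  have hS : nr 2 (∑ j ∈ range m, LaurentPolynomial.T (-((j + 1 : ℕ) * D : ℤ)) *
      (Xj V Ψ R Φ F B E j * ((1 - toLaurent V * R) *
        (toLaurent V + LaurentPolynomial.T (E : ℤ) * toLaurent Ψ)))) ≤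
      ρ * ∑ j ∈ range m, n1 (F (j + 1)) *
          ((n1 R * (n1 (toLaurent V) + n1 (toLaurent Ψ))) ^ j * n1 Φ) *
            (n1 (toLaurent V) + n1 (toLaurent Ψ)) := by
    refine (nr_sum_le h12 _ _).trans ?_
    rw [Finset.mul_sum]
    refine Finset.sum_le_sum fun j _ => ?_
    refine (nr_le_n1 h12 _).trans ?_
    rw [n1_T_mul]
    have h3 : n1 ((1 - toLaurent V * R) *
        (toLaurent V + LaurentPolynomial.T (E : ℤ) * toLaurent Ψ)) ≤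
        ρ * (n1 (toLaurent V) + n1 (toLaurent Ψ)) :=
      (n1_mul_le _ _).trans (mul_le_mul_of_nonneg_left hVE hρ0)
    have h4 := C2_n1 V Ψ R Φ F B E j
    have h5 : 0 ≤ n1 (F (j + 1)) *
        ((n1 R * (n1 (toLaurent V) + n1 (toLaurent Ψ))) ^ j * n1 Φ) :=
      (n1_nonneg _).trans h4
    calc n1 (Xj V Ψ R Φ F B E j * ((1 - toLaurent V * R) *
          (toLaurent V + LaurentPolynomial.T (E : ℤ) * toLaurent Ψ)))
        ≤ n1 (Xj V Ψ R Φ F B E j) * n1 ((1 - toLaurent V * R) *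
          (toLaurent V + LaurentPolynomial.T (E : ℤ) * toLaurent Ψ)) := n1_mul_le _ _
      _ ≤ (n1 (F (j + 1)) * ((n1 R * (n1 (toLaurent V) + n1 (toLaurent Ψ))) ^ j * n1 Φ)) *
          (ρ * (n1 (toLaurent V) + n1 (toLaurent Ψ))) := mul_le_mul h4 h3 (n1_nonneg _) h5
      _ = ρ * (n1 (F (j + 1)) * ((n1 R * (n1 (toLaurent V) + n1 (toLaurent Ψ))) ^ j * n1 Φ) *
            (n1 (toLaurent V) + n1 (toLaurent Ψ))) := by ring
  have hL : nr 2 (LaurentPolynomial.T (-((m + 1 : ℕ) * D : ℤ)) *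
      ((toLaurent V + LaurentPolynomial.T (E : ℤ) * toLaurent Ψ) * Xj V Ψ R Φ F B E m)) ≤
      nr 2 (F (m + 1)) * ((n1 (toLaurent V) + n1 (toLaurent Ψ)) ^ (m + 1) * (n1 R ^ m * n1 Φ)) := by
    rw [nr_T_mul (by norm_num)]
    exact C2_last h12 V Ψ R Φ F B E d m hV hΨ hR hΦ hB
  unfold smP
  refine (nr_add_le h12 _ _).trans (add_le_add ?_ hL)
  refine (nr_add_le h12 _ _).trans ?_
  refine (add_le_add (nr_sub_le h12 _ _) hS).trans ?_
  refine (add_le_add (add_le_add hA1 hA2) le_rfl).trans (le_of_eq ?_)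
  ring

/-- the `ℓ^p` distance of `μ` to `inv a`:
`-R e + F_0' (R Ψ Φ - T^(-E) Φ) = (F_0' - 1) (R e) + F_0' (R (Ψ Φ - e)) - T^(-E) (F_0' Φ)`
with `F_0' = dil B (F 0)`, `F_0' - 1 = dil B (F 0 - 1)`; (IP) = `nr_dil_mul` three times (widths `2 d`, `3 d`, `d`),
`nr_mul_le`, `nr_le_n1`; the terms `X_(j+1)` by `C2_X0` (`j = 0`), `C2_Xj` (`j ≥ 1`) and `nr_T_mul`. -/
theorem C3_p {r : ℝ} (hr : 1 ≤ r) (a V Ψ : ℂ[X]) (R e Φ : ℂ[T;T⁻¹]) (F : ℕ → ℂ[T;T⁻¹])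
    (B E D m d : ℕ)
    (hV : Wd d (toLaurent V)) (hΨ : Wd d (toLaurent Ψ)) (hR : Wd d R) (he : Wd d e) (hΦ : Wd d Φ)
    (hB : 2 * ((2 * m + 4) * d) < B) :
    nr r (muP a V Ψ R e Φ F B E D m - inv a) ≤
      nr r (F 0 - 1) * (n1 R * n1 e) + nr r (F 0) * (n1 R * nr r (toLaurent Ψ * Φ - e)) +
      nr r (F 0) * nr r Φ + nr r (F 1) * nr r Φ +
      ∑ j ∈ range m, nr r (F (j + 2)) *
        ((n1 R * (n1 (toLaurent V) + n1 (toLaurent Ψ))) ^ (j + 1) * n1 Φ) := by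
  have hr0 : 0 < r := by linarith
  have hB2 : 2 * (2 * d) < B := by
    refine lt_of_le_of_lt (Nat.mul_le_mul_left 2 (Nat.mul_le_mul_right d ?_)) hB
    omega
  have hB3 : 2 * (3 * d) < B := by
    refine lt_of_le_of_lt (Nat.mul_le_mul_left 2 (Nat.mul_le_mul_right d ?_)) hB
    omega
  have hB1 : 2 * d < B := by omega
  have hT1 : nr r (dil B (F 0 - 1) * (R * e)) ≤ nr r (F 0 - 1) * (n1 R * n1 e) := by
    have hw : Wd ((2 * d : ℕ) : ℤ) (R * e) := (hR.mul he).mono (by push_cast; omega)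
    rw [nr_dil_mul hr0 (by positivity) (by exact_mod_cast hB2) _ _ hw]
    refine mul_le_mul_of_nonneg_left ?_ (nr_nonneg _ _)
    exact (nr_mul_le hr _ _).trans (mul_le_mul_of_nonneg_left (nr_le_n1 hr _) (n1_nonneg _))
  have hT2 : nr r (dil B (F 0) * (R * (toLaurent Ψ * Φ - e))) ≤
      nr r (F 0) * (n1 R * nr r (toLaurent Ψ * Φ - e)) := by
    have hw : Wd ((3 * d : ℕ) : ℤ) (R * (toLaurent Ψ * Φ - e)) :=
      (hR.mul ((hΨ.mul hΦ).sub (he.mono (by omega)))).mono (by push_cast; omega)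
    rw [nr_dil_mul hr0 (by positivity) (by exact_mod_cast hB3) _ _ hw]
    exact mul_le_mul_of_nonneg_left (nr_mul_le hr _ _) (nr_nonneg _ _)
  have hT3 : nr r (LaurentPolynomial.T (-(E : ℤ)) * (dil B (F 0) * Φ)) = nr r (F 0) * nr r Φ := by
    rw [nr_T_mul hr0, nr_dil_mul hr0 (by positivity) (by exact_mod_cast hB1) _ _ hΦ]
  have hT4 : nr r (LaurentPolynomial.T (-((0 + 1 : ℕ) * D : ℤ)) * Xj V Ψ R Φ F B E 0) ≤
      nr r (F 1) * nr r Φ := by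
    rw [nr_T_mul hr0]
    exact C2_X0 hr V Ψ R Φ F B E d hΦ hB1
  have hT5 : nr r (∑ j ∈ range m, LaurentPolynomial.T (-((j + 1 + 1 : ℕ) * D : ℤ)) *
      Xj V Ψ R Φ F B E (j + 1)) ≤
      ∑ j ∈ range m, nr r (F (j + 2)) *
        ((n1 R * (n1 (toLaurent V) + n1 (toLaurent Ψ))) ^ (j + 1) * n1 Φ) := by
    refine (nr_sum_le hr _ _).trans (Finset.sum_le_sum fun j hj => ?_)
    rw [nr_T_mul hr0]
    refine C2_Xj hr V Ψ R Φ F B E d (j + 1) hV hΨ hR hΦ ?_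
    refine lt_of_le_of_lt (Nat.mul_le_mul_left 2 (Nat.mul_le_mul_right d ?_)) hB
    have := Finset.mem_range.1 hj
    omega
  have hdec : muP a V Ψ R e Φ F B E D m - inv a =
      dil B (F 0 - 1) * (R * e) + dil B (F 0) * (R * (toLaurent Ψ * Φ - e)) -
        LaurentPolynomial.T (-(E : ℤ)) * (dil B (F 0) * Φ) +
      LaurentPolynomial.T (-((0 + 1 : ℕ) * D : ℤ)) * Xj V Ψ R Φ F B E 0 +
      ∑ j ∈ range m, LaurentPolynomial.T (-((j + 1 + 1 : ℕ) * D : ℤ)) *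
        Xj V Ψ R Φ F B E (j + 1) := by
    unfold muP X0
    rw [Finset.sum_range_succ', map_sub, map_one]
    ring
  rw [hdec]
  refine (nr_add_le hr _ _).trans (add_le_add ?_ hT5)
  refine (nr_add_le hr _ _).trans (add_le_add ?_ hT4)
  refine (nr_sub_le hr _ _).trans ?_
  rw [hT3]
  refine add_le_add ?_ le_rfl
  exact (nr_add_le hr _ _).trans (add_le_add hT1 hT2)

end DC8965.P2
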