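import Pool.Agent.Lib.MP_dc8965_an.P2.C3

/-!
# MP_dc8965_an, `2 < p`: (C4) the estimates with the properties of the gadget inserted
-/

open Finset Polynomial
open scoped LaurentPolynomial

namespace DC8965.P2

/-- From `C3_p`: `nr (F 0) ≤ nr (F 0 - 1) + nr 1 ≤ 2`; `(n1 R N1)^(j+1) ≤ C^(j+1) ≤ C^(j+2)` (`N1 = n1 V + n1 Ψ`,
`n1 R ≤ K`, `K N1 ≤ C`, `1 ≤ C`), so the last sum is at most `n1 Φ ∑_{j ∈ Ico 2 (m+2)} C^j nr (F j) ≤ ε n1 Φ`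
(`Finset.sum_Ico_eq_sum_range`). -/
theorem C4_p {r : ℝ} (hr : 1 ≤ r) (a V Ψ : ℂ[X]) (R e Φ : ℂ[T;T⁻¹]) (F : ℕ → ℂ[T;T⁻¹])
    (B E D m d : ℕ)
    (hV : Wd d (toLaurent V)) (hΨ : Wd d (toLaurent Ψ)) (hR : Wd d R) (he : Wd d e) (hΦ : Wd d Φ)
    (hB : 2 * ((2 * m + 4) * d) < B) {K M ε : ℝ} (hRK : n1 R ≤ K)
    (hKM : K * (n1 (toLaurent V) + n1 (toLaurent Ψ)) ≤ M) (hM : 1 ≤ M) (hε : ε ≤ 1)
    (h0 : nr r (F 0 - 1) ≤ ε) (h1 : nr r (F 1) ≤ 2)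
    (h2 : ∑ j ∈ Ico 2 (m + 2), M ^ j * nr r (F j) ≤ ε) :
    nr r (muP a V Ψ R e Φ F B E D m - inv a) ≤
      4 * nr r Φ + (ε * (K * n1 e) + 2 * (K * nr r (toLaurent Ψ * Φ - e)) + ε * n1 Φ) := by
  have hr0 : (0 : ℝ) < r := by linarith
  have hK : 0 ≤ K := le_trans (n1_nonneg R) hRK
  have hN : 0 ≤ n1 (toLaurent V) + n1 (toLaurent Ψ) := add_nonneg (n1_nonneg _) (n1_nonneg _)
  have hq : n1 R * (n1 (toLaurent V) + n1 (toLaurent Ψ)) ≤ M :=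
    le_trans (mul_le_mul_of_nonneg_right hRK hN) hKM
  have hq0 : 0 ≤ n1 R * (n1 (toLaurent V) + n1 (toLaurent Ψ)) := mul_nonneg (n1_nonneg R) hN
  have hF0 : nr r (F 0) ≤ 2 := by
    have h3 : nr r (F 0) ≤ nr r (F 0 - 1) + nr r (1 : ℂ[T;T⁻¹]) := by
      have h4 := nr_add_le hr (F 0 - 1) (1 : ℂ[T;T⁻¹])
      rwa [sub_add_cancel] at h4
    rw [nr_one hr0] at h3
    linarith
  have t1 : nr r (F 0 - 1) * (n1 R * n1 e) ≤ ε * (K * n1 e) :=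
    mul_le_mul h0 (mul_le_mul_of_nonneg_right hRK (n1_nonneg e))
      (mul_nonneg (n1_nonneg R) (n1_nonneg e)) (le_trans (nr_nonneg r _) h0)
  have t2 : nr r (F 0) * (n1 R * nr r (toLaurent Ψ * Φ - e)) ≤
      2 * (K * nr r (toLaurent Ψ * Φ - e)) :=
    mul_le_mul hF0 (mul_le_mul_of_nonneg_right hRK (nr_nonneg r _))
      (mul_nonneg (n1_nonneg R) (nr_nonneg r _)) (by norm_num)
  have t3 : nr r (F 0) * nr r Φ ≤ 2 * nr r Φ := mul_le_mul_of_nonneg_right hF0 (nr_nonneg r _)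
  have t4 : nr r (F 1) * nr r Φ ≤ 2 * nr r Φ := mul_le_mul_of_nonneg_right h1 (nr_nonneg r _)
  have t5 : ∑ j ∈ range m, nr r (F (j + 2)) *
        ((n1 R * (n1 (toLaurent V) + n1 (toLaurent Ψ))) ^ (j + 1) * n1 Φ) ≤ ε * n1 Φ := by
    have h5 : ∑ j ∈ Ico 2 (m + 2), M ^ j * nr r (F j) =
        ∑ j ∈ range m, M ^ (2 + j) * nr r (F (2 + j)) := by
      rw [Finset.sum_Ico_eq_sum_range]
      simp
    calc ∑ j ∈ range m, nr r (F (j + 2)) *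
          ((n1 R * (n1 (toLaurent V) + n1 (toLaurent Ψ))) ^ (j + 1) * n1 Φ)
        ≤ ∑ j ∈ range m, M ^ (2 + j) * nr r (F (2 + j)) * n1 Φ := by
          refine Finset.sum_le_sum fun j _ => ?_
          have h6 : (n1 R * (n1 (toLaurent V) + n1 (toLaurent Ψ))) ^ (j + 1) ≤ M ^ (2 + j) :=
            le_trans (pow_le_pow_left₀ hq0 hq (j + 1)) (pow_le_pow_right₀ hM (by omega))
          have h7 : nr r (F (j + 2)) *
              ((n1 R * (n1 (toLaurent V) + n1 (toLaurent Ψ))) ^ (j + 1) * n1 Φ) ≤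
              nr r (F (j + 2)) * (M ^ (2 + j) * n1 Φ) :=
            mul_le_mul_of_nonneg_left (mul_le_mul_of_nonneg_right h6 (n1_nonneg Φ))
              (nr_nonneg r _)
          refine le_trans h7 (le_of_eq ?_)
          rw [add_comm 2 j]
          ring
      _ = (∑ j ∈ range m, M ^ (2 + j) * nr r (F (2 + j))) * n1 Φ := by rw [Finset.sum_mul]
      _ ≤ ε * n1 Φ := by
          rw [← h5]
          exact mul_le_mul_of_nonneg_right h2 (n1_nonneg Φ)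
  have h8 := C3_p hr a V Ψ R e Φ F B E D m d hV hΨ hR he hΦ hB
  linarith

/-- From `C3_two`: `nr 2 (F (m+1)) (N1^(m+1) (n1 R^m n1 Φ)) ≤ (M^(m+1) nr 2 (F (m+1))) (N1 n1 Φ)`. -/
theorem C4_two (V Ψ : ℂ[X]) (R e Φ : ℂ[T;T⁻¹]) (F : ℕ → ℂ[T;T⁻¹]) (B E D m d : ℕ)
    (hV : Wd d (toLaurent V)) (hΨ : Wd d (toLaurent Ψ)) (hR : Wd d R) (hΦ : Wd d Φ)
    (hB : 2 * ((2 * m + 2) * d) < B) {K M ε ϱ : ℝ} (hRK : n1 R ≤ K)
    (hKM : K * (n1 (toLaurent V) + n1 (toLaurent Ψ)) ≤ M) (hM : 1 ≤ M)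
    (h3 : M ^ (m + 1) * nr 2 (F (m + 1)) ≤ ε) (hϱ : n1 (1 - toLaurent V * R) ≤ ϱ) :
    nr 2 (smP V Ψ R e Φ F B E D m) ≤
      ϱ * (n1 e + n1 (F 0) * (n1 (toLaurent Ψ) * n1 Φ) +
        ∑ j ∈ range m, n1 (F (j + 1)) * (M ^ j * n1 Φ) *
            (n1 (toLaurent V) + n1 (toLaurent Ψ))) +
      ε * ((n1 (toLaurent V) + n1 (toLaurent Ψ)) * n1 Φ) := by
  have hN : 0 ≤ n1 (toLaurent V) + n1 (toLaurent Ψ) := add_nonneg (n1_nonneg _) (n1_nonneg _)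
  have hq : n1 R * (n1 (toLaurent V) + n1 (toLaurent Ψ)) ≤ M :=
    le_trans (mul_le_mul_of_nonneg_right hRK hN) hKM
  have hq0 : 0 ≤ n1 R * (n1 (toLaurent V) + n1 (toLaurent Ψ)) := mul_nonneg (n1_nonneg R) hN
  have hM0 : 0 ≤ M := by linarith
  have t1 : n1 e + n1 (F 0) * (n1 (toLaurent Ψ) * n1 Φ) +
        ∑ j ∈ range m, n1 (F (j + 1)) *
          ((n1 R * (n1 (toLaurent V) + n1 (toLaurent Ψ))) ^ j * n1 Φ) *
            (n1 (toLaurent V) + n1 (toLaurent Ψ)) ≤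
      n1 e + n1 (F 0) * (n1 (toLaurent Ψ) * n1 Φ) +
        ∑ j ∈ range m, n1 (F (j + 1)) * (M ^ j * n1 Φ) *
            (n1 (toLaurent V) + n1 (toLaurent Ψ)) := by
    refine add_le_add le_rfl (Finset.sum_le_sum fun j _ => ?_)
    exact mul_le_mul_of_nonneg_right (mul_le_mul_of_nonneg_left (mul_le_mul_of_nonneg_right
      (pow_le_pow_left₀ hq0 hq j) (n1_nonneg Φ)) (n1_nonneg _)) hN
  have t1' : 0 ≤ n1 e + n1 (F 0) * (n1 (toLaurent Ψ) * n1 Φ) +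
        ∑ j ∈ range m, n1 (F (j + 1)) *
          ((n1 R * (n1 (toLaurent V) + n1 (toLaurent Ψ))) ^ j * n1 Φ) *
            (n1 (toLaurent V) + n1 (toLaurent Ψ)) := by
    have s1 : 0 ≤ ∑ j ∈ range m, n1 (F (j + 1)) *
          ((n1 R * (n1 (toLaurent V) + n1 (toLaurent Ψ))) ^ j * n1 Φ) *
            (n1 (toLaurent V) + n1 (toLaurent Ψ)) :=
      Finset.sum_nonneg fun j _ => mul_nonneg (mul_nonneg (n1_nonneg _)
        (mul_nonneg (pow_nonneg hq0 j) (n1_nonneg Φ))) hN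
    have s2 : 0 ≤ n1 (F 0) * (n1 (toLaurent Ψ) * n1 Φ) :=
      mul_nonneg (n1_nonneg _) (mul_nonneg (n1_nonneg _) (n1_nonneg _))
    have s3 := n1_nonneg e
    linarith
  have t2 := mul_le_mul hϱ t1 t1' (le_trans (n1_nonneg _) hϱ)
  have t3 : nr 2 (F (m + 1)) *
      ((n1 (toLaurent V) + n1 (toLaurent Ψ)) ^ (m + 1) * (n1 R ^ m * n1 Φ)) ≤
      ε * ((n1 (toLaurent V) + n1 (toLaurent Ψ)) * n1 Φ) := by
    have u1 : (n1 R * (n1 (toLaurent V) + n1 (toLaurent Ψ))) ^ m ≤ M ^ (m + 1) :=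
      le_trans (pow_le_pow_left₀ hq0 hq m) (pow_le_pow_right₀ hM (by omega))
    have u2 : nr 2 (F (m + 1)) *
        ((n1 (toLaurent V) + n1 (toLaurent Ψ)) ^ (m + 1) * (n1 R ^ m * n1 Φ)) =
        ((n1 R * (n1 (toLaurent V) + n1 (toLaurent Ψ))) ^ m * nr 2 (F (m + 1))) *
          ((n1 (toLaurent V) + n1 (toLaurent Ψ)) * n1 Φ) := by
      rw [mul_pow, pow_succ]
      ring
    rw [u2]
    refine mul_le_mul_of_nonneg_right ?_ (mul_nonneg hN (n1_nonneg Φ))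
    exact le_trans (mul_le_mul_of_nonneg_right u1 (nr_nonneg 2 _)) h3
  have t4 := C3_two V Ψ R e Φ F B E D m d hV hΨ hR hΦ hB
  linarith

end DC8965.P2
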