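import Pool.Agent.Lib.MP_dc8965_an.P2.GF4

/-!
# MP_dc8965_an, `2 < p`: (G) the gadget
-/

open Finset Polynomial Filter Topology
open scoped LaurentPolynomial Nat

namespace DC8965.P2

open DC8965.BT

private lemma aG_nonneg (p : ℝ) (n j : ℕ) : 0 ≤ aG p n j := by
  unfold aG
  positivity

private lemma aG_one (p : ℝ) (n : ℕ) : aG p n 1 = 1 := by
  unfold aG
  rw [pow_one, mul_one, div_self (by positivity), Real.one_rpow]

private lemma CG_pos (N : ℕ) : 0 < CG N := by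
  unfold CG
  positivity

private lemma TG_nonneg (N : ℕ) {x : ℝ} (hx : 0 ≤ x) : 0 ≤ TG N x := by
  unfold TG
  positivity

private lemma KG_nonneg (p : ℝ) (N t : ℕ) : 0 ≤ KG p N t := by
  unfold KG
  exact Finset.sum_nonneg fun k _ => by positivity

private lemma eta_eq {p : ℝ} (hp : 0 < p) (N : ℕ) {x : ℝ} (hx : 0 ≤ x) :
    (CG N ^ p * TG N x) ^ (1 / p) = CG N * TG N x ^ (1 / p) := by
  have h := CG_pos N
  rw [Real.mul_rpow (by positivity) (TG_nonneg N hx), ← Real.rpow_mul h.le,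
    mul_one_div_cancel hp.ne', Real.rpow_one]

private lemma exists_N {p x ε S₂ : ℝ} (hp : 0 < p) (hx : 0 ≤ x) (hε : 0 < ε) (n : ℕ) :
    ∃ N : ℕ, 1 ≤ N ∧ CG N * TG N x ^ (1 / p) ≤ ε / 4 ∧
      CG N * TG N x ^ (1 / p) * 2 ^ n ≤ 1 / 4 ∧ CG N * TG N x ^ (1 / p) * S₂ ≤ ε / 8 := by
  have h1 : Tendsto (fun N => CG N * TG N x ^ (1 / p)) atTop (𝓝 0) := by
    have h2 := (GF1_tail p x).rpow_const (p := 1 / p) (Or.inr (by positivity))
    rw [Real.zero_rpow (by positivity)] at h2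
    exact h2.congr fun N => eta_eq hp N hx
  have h2 := h1.eventually_le_const (show (0 : ℝ) < ε / 4 by positivity)
  have h3 := (h1.mul_const ((2 : ℝ) ^ n)).eventually_le_const
    (show (0 : ℝ) * 2 ^ n < 1 / 4 by rw [zero_mul]; norm_num)
  have h4 := (h1.mul_const S₂).eventually_le_const
    (show (0 : ℝ) * S₂ < ε / 8 by rw [zero_mul]; positivity)
  obtain ⟨N, ⟨h5, h6, h7⟩, h8⟩ := ((h2.and (h3.and h4)).and (eventually_ge_atTop 1)).exists
  exact ⟨N, h8, h5, h6, h7⟩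

private lemma small_two {p R ε : ℝ} (hp : 2 < p) (hR : 0 < R) {N n : ℕ} (hN : 1 ≤ N)
    (hn : 1 ≤ n) (hε : 0 < ε) :
    ∀ᶠ J : ℕ in atTop, CG N * (1 / 2 : ℝ) ^ (2 * N * mG p R N n J) ≤ ε := by
  have h1 : Tendsto (fun J : ℕ => 2 * N * mG p R N n J) atTop atTop :=
    tendsto_atTop_mono (fun J => by
      have : 1 ≤ 2 * N := by omega
      exact Nat.le_mul_of_pos_left _ this) (GF2_tendsto_m hp hR hN hn)
  have h2 : Tendsto (fun J : ℕ => (1 / 2 : ℝ) ^ (2 * N * mG p R N n J)) atTop (𝓝 0) :=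
    (tendsto_pow_atTop_nhds_zero_of_lt_one (by norm_num) (by norm_num)).comp h1
  have h3 := (h2.const_mul (CG N)).eventually_le_const
    (show CG N * 0 < ε by rw [mul_zero]; exact hε)
  exact h3

/-- (G) the gadget: the constant `1` is `ℓ^p`-close to `F_0 = v^m F_m`, dividing once by `v` costs at most `2`,
dividing more often costs nothing, and in the end the `ℓ^2` norm is small.

Proof: choice of the parameters in the interface `GI`.
1. `n` from `GF1_choice` for `ε/8`. 2. `R` from `GF4_R`; `x = 2^p (2R)^p`.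
3. `S₂ = ∑' j, (M 2^n)^j aG p n j` (`GF1_summable`). `N ≥ 1` such that `η = CG N * (TG N x)^(1/p)` satisfies
`η ≤ ε/4`, `η 2^n ≤ 1/4`, `η S₂ ≤ ε/8` (`GF1_tail`: `η^p = CG^p TG → 0`).
4. `j₁` from `GF4_tail` with `y = M 2^n`, `K = CG N * (exp x)^(1/p)`, for `ε/8`.
5. `J` large (all conditions hold eventually: take a common `J`, `Filter.Eventually.exists`): `GF2_m`, `J ≥ 1`,
`2 (2N + n j₁) ≤ J`, `GF4_small` with `min (ε/8) (1/4)`, `CG N (1/2)^(2 N mG) ≤ ε` (`GF2_tendsto_m`).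
Put `m = 2 N mG`, so `n m = 2 N n mG = M₀`; `Λ = (2R)^p` (`GF2_L`). `u, H` from `GI`, `v = vGF p n u`, `F = FG p n H`.
Chain: `GF3_chain`, `GF3_v`. `ℓ^2`: (e) of `GI`, `GF4_two`.
`j = 0`: `F 0 = H 0` (`GF3_zero`), `nr p (F 0 - 1) ≤ (KG p N 0 J^(2-p))^(1/p) + η ≤ ε/8 + ε/4` (from (c) with `t = 0`,
`(a+b)^(1/p) ≤ a^(1/p) + b^(1/p)`; or use `GF3_fine`'s method).
`j = 1` (`t = n`, `aG p n 1 = 1`): `GF3_fine`: `≤ 5/4 + 1/4 + η 2^n ≤ 2`.
`2 ≤ j < j₁`, `j ≤ m`: `GF3_fine`: the sum over `j` is `≤ (5/4) ε/8 + ε/8 + η S₂ ≤ 3ε/8 + ...`;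
`j ≥ j₁`: `GF3_crude` and 4. (`∑_{Ico 2 (m+1)} ≤ ∑_{Ico 2 (min j₁ (m+1))} + ∑_{Ico j₁ (m+1)}`). -/
theorem G {p q : ℝ} (hpq : p.HolderConjugate q) (hp : 2 < p) {M ε : ℝ} (hM : 1 ≤ M) (hε : 0 < ε) :
    ∃ (m : ℕ) (v : ℂ[X]) (F : ℕ → ℂ[T;T⁻¹]), 1 ≤ m ∧
      (∀ j < m, toLaurent v * F (j + 1) = F j) ∧ Sn q v ≤ 1 ∧ nr p (F 0 - 1) ≤ ε ∧
      nr p (F 1) ≤ 2 ∧ ∑ j ∈ Ico 2 (m + 1), M ^ j * nr p (F j) ≤ ε ∧ M ^ m * nr 2 (F m) ≤ ε := by
  classical
  have hp0 : 0 < p := by linarith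
  have hp1 : 1 ≤ p := by linarith
  have hM0 : 0 < M := by linarith
  obtain ⟨n, hn, hn2⟩ := GF1_choice (ε := ε / 8) hp0 hM (by positivity)
  obtain ⟨R, hR, hR1⟩ := GF4_R p M hn
  obtain ⟨x, hx⟩ : ∃ x : ℝ, x = 2 ^ p * (2 * R) ^ p := ⟨_, rfl⟩
  have hx0 : 0 ≤ x := by rw [hx]; positivity
  have hy : 0 < M * 2 ^ n := by positivity
  have hsum := GF1_summable hp0 hn (M * 2 ^ n) hy
  obtain ⟨S₂, hS₂⟩ : ∃ S₂ : ℝ, S₂ = ∑' j, (M * 2 ^ n) ^ j * aG p n j := ⟨_, rfl⟩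
  obtain ⟨N, hN, hN1, hN2, hN3⟩ := exists_N (p := p) (S₂ := S₂) hp0 hx0 hε n
  obtain ⟨η, hη⟩ : ∃ η : ℝ, η = CG N * TG N x ^ (1 / p) := ⟨_, rfl⟩
  rw [← hη] at hN1 hN2 hN3
  have hCG := CG_pos N
  have hTG := TG_nonneg N hx0
  have hη0 : 0 ≤ η := by rw [hη]; positivity
  obtain ⟨j₁, hj₁, hj₁t⟩ := GF4_tail hp0 hn hy (CG N * Real.exp x ^ (1 / p))
    (η := ε / 8) (by positivity)
  obtain ⟨J, ⟨⟨hm1, hmR, hmR', hmJ⟩, ⟨hs1, hs2, hs3⟩, hJε⟩, hJ1⟩ :=
    (((GF2_m hp hR hN hn).and ((GF4_small hp n N j₁ M (η := min (ε / 8) (1 / 4))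
      (by positivity)).and (small_two hp hR hN hn hε))).and
      (eventually_ge_atTop (1 + 2 * (2 * N + n * j₁)))).exists
  generalize mG p R N n J = μ at hm1 hmR hmR' hmJ hJε
  have hJ1' : 1 ≤ J := by omega
  have hJ2 : 2 * (2 * N + n * j₁) ≤ J := by omega
  have hL := GF2_L hp hR hJ1' hmR'
  obtain ⟨u, H, ha, hb, hc, hd, he⟩ := GI hpq hp hn hN hm1 hmJ hL
  rw [← hx] at hc hd
  have hnm : n * (2 * N * μ) = 2 * N * n * μ := by ring
  have hle : ∀ j, j ≤ 2 * N * μ → n * j ≤ 2 * N * n * μ := by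
    intro j hj
    rw [← hnm]
    exact Nat.mul_le_mul_left n hj
  -- the fine bound
  have hfine : ∀ j, 1 ≤ j → j < j₁ → j ≤ 2 * N * μ →
      nr p (FG p n H j) ≤ 5 / 4 * aG p n j +
        ((n ! : ℝ) ^ j * (KG p N (n * j) * (J : ℝ) ^ (2 - p))) ^ (1 / p) +
        η * (((2 : ℝ) ^ n) ^ j * aG p n j) := by
    intro j hj0 hj hjm
    have hjJ : 2 * (2 * N + n * j) ≤ J := by
      have h1 : n * j ≤ n * j₁ := Nat.mul_le_mul_left n hj.le
      omega
    have hnj : n * j ≠ 0 := Nat.mul_ne_zero (by omega) (by omega)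
    have h1 := hc (n * j) (hle j hjm) hjJ
    rw [if_neg hnj, if_neg hnj, sub_zero] at h1
    have hK := KG_nonneg p N (n * j)
    have h2 := GF3_fine hp1 (n := n) (N := N)
      (A := ((J : ℝ) ^ (n * j) / (J.descFactorial (n * j) : ℝ)) ^ (p - 1))
      (D := KG p N (n * j) * (J : ℝ) ^ (2 - p)) (S := TG N x)
      (by positivity) (by positivity) hTG H j h1
    rw [← hη] at h2
    refine h2.trans ?_
    have h3 := mul_le_mul_of_nonneg_right (hs1 j hj) (aG_nonneg p n j)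
    linarith
  have hcrude : ∀ j, j ≤ 2 * N * μ →
      nr p (FG p n H j) ≤ CG N * Real.exp x ^ (1 / p) * (((2 : ℝ) ^ n) ^ j * aG p n j) := by
    intro j hjm
    exact GF3_crude hp0 (Real.exp_pos x).le H j (hd (n * j) (hle j hjm))
  have hμ1 : 1 ≤ 2 * N * μ := by
    have h1 : 1 ≤ N * μ := Nat.one_le_iff_ne_zero.2 (Nat.mul_ne_zero (by omega) (by omega))
    have h2 : 2 * N * μ = 2 * (N * μ) := by ring
    omega
  refine ⟨2 * N * μ, vGF p n u, FG p n H, hμ1, ?_, ?_, ?_, ?_, ?_, ?_⟩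
  · exact GF3_chain fun t ht => ha t (by rwa [hnm] at ht)
  · exact GF3_v hpq hb
  · rw [GF3_zero]
    have h1 := hc 0 (Nat.zero_le _) (by omega)
    simp only [if_true] at h1
    rw [zero_add] at h1
    have hK := KG_nonneg p N 0
    have h2 : (2 : ℝ) ^ (p * ((0 : ℕ) : ℝ)) / ((0 ! : ℕ) : ℝ) = 1 := by
      simp
    rw [h2, mul_one] at h1
    have h3 := hs2 0 (by omega)
    rw [pow_zero, one_mul, mul_zero] at h3
    unfold nr
    have hnp : 0 ≤ np p (H 0 - 1) := by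
      unfold np
      exact Finset.sum_nonneg fun _ _ => by positivity
    calc np p (H 0 - 1) ^ (1 / p)
        ≤ (KG p N 0 * (J : ℝ) ^ (2 - p) + CG N ^ p * TG N x) ^ (1 / p) :=
          Real.rpow_le_rpow hnp h1 (by positivity)
      _ ≤ (KG p N 0 * (J : ℝ) ^ (2 - p)) ^ (1 / p) + (CG N ^ p * TG N x) ^ (1 / p) :=
          Real.rpow_add_le_add_rpow (by positivity) (by positivity) (by positivity)
            (by rw [div_le_one hp0]; exact hp1)
      _ ≤ ε / 8 + ε / 4 := by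
          rw [eta_eq hp0 N hx0, ← hη]
          exact add_le_add (h3.trans (min_le_left _ _)) hN1
      _ ≤ ε := by linarith
  · have h1 := hfine 1 le_rfl (by omega) hμ1
    have h2 := hs2 1 (by omega)
    have h3 : min (ε / 8) (1 / 4) ≤ (1 / 4 : ℝ) := min_le_right _ _
    have h4 : η * (((2 : ℝ) ^ n) ^ 1 * 1) = η * 2 ^ n := by rw [pow_one, mul_one]
    rw [aG_one, h4] at h1
    linarith
  · have hstep : ∀ j ∈ Ico 2 (2 * N * μ + 1), M ^ j * nr p (FG p n H j) ≤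
        5 / 4 * (M ^ j * aG p n j) +
        (if j < j₁ then M ^ j * ((n ! : ℝ) ^ j * (KG p N (n * j) * (J : ℝ) ^ (2 - p))) ^ (1 / p)
          else 0) +
        η * ((M * 2 ^ n) ^ j * aG p n j) +
        (if j₁ ≤ j then CG N * Real.exp x ^ (1 / p) * ((M * 2 ^ n) ^ j * aG p n j) else 0) := by
      intro j hj
      rw [Finset.mem_Ico] at hj
      have hMj : 0 < M ^ j := by positivity
      have ha0 := aG_nonneg p n j
      have hnn : 0 ≤ 5 / 4 * (M ^ j * aG p n j) := by positivity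
      have hnn2 : 0 ≤ η * ((M * 2 ^ n) ^ j * aG p n j) := by positivity
      rcases lt_or_ge j j₁ with h | h
      · rw [if_pos h, if_neg (not_le.2 h), add_zero]
        have h1 := mul_le_mul_of_nonneg_left (hfine j (by omega) h (by omega)) hMj.le
        refine h1.trans_eq ?_
        rw [mul_pow M]
        ring
      · rw [if_neg (not_lt.2 h), if_pos h, add_zero]
        have h1 := mul_le_mul_of_nonneg_left (hcrude j (by omega)) hMj.le
        have h2 : M ^ j * (CG N * Real.exp x ^ (1 / p) * (((2 : ℝ) ^ n) ^ j * aG p n j)) =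
            CG N * Real.exp x ^ (1 / p) * ((M * 2 ^ n) ^ j * aG p n j) := by
          rw [mul_pow M]
          ring
        rw [h2] at h1
        linarith
    refine (Finset.sum_le_sum hstep).trans ?_
    rw [Finset.sum_add_distrib, Finset.sum_add_distrib, Finset.sum_add_distrib,
      ← Finset.mul_sum, ← Finset.mul_sum, ← Finset.sum_filter, ← Finset.sum_filter]
    have e1 := hn2 (2 * N * μ)
    have e2 : ∑ j ∈ (Ico 2 (2 * N * μ + 1)).filter (fun j => j < j₁),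
        M ^ j * ((n ! : ℝ) ^ j * (KG p N (n * j) * (J : ℝ) ^ (2 - p))) ^ (1 / p) ≤ ε / 8 := by
      refine le_trans (Finset.sum_le_sum_of_subset_of_nonneg (t := range j₁) ?_ ?_)
        (hs3.trans (min_le_left _ _))
      · intro j hj
        rw [Finset.mem_filter] at hj
        exact Finset.mem_range.2 hj.2
      · intro j _ _
        have := KG_nonneg p N (n * j)
        positivity
    have e3 : η * ∑ j ∈ Ico 2 (2 * N * μ + 1), (M * 2 ^ n) ^ j * aG p n j ≤ ε / 8 := by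
      refine le_trans (mul_le_mul_of_nonneg_left ?_ hη0) hN3
      rw [hS₂]
      exact hsum.sum_le_tsum _ fun j _ => by
        have := aG_nonneg p n j
        positivity
    have e4 : ∑ j ∈ (Ico 2 (2 * N * μ + 1)).filter (fun j => j₁ ≤ j),
        CG N * Real.exp x ^ (1 / p) * ((M * 2 ^ n) ^ j * aG p n j) ≤ ε / 8 := by
      rw [← Finset.mul_sum]
      refine le_trans (mul_le_mul_of_nonneg_left ?_ (by positivity)) (hj₁t (2 * N * μ))
      refine Finset.sum_le_sum_of_subset_of_nonneg ?_ ?_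
      · intro j hj
        rw [Finset.mem_filter, Finset.mem_Ico] at hj
        exact Finset.mem_Ico.2 ⟨hj.2, hj.1.2⟩
      · intro j _ _
        have := aG_nonneg p n j
        positivity
    linarith
  · have h1 : np 2 (H (n * (2 * N * μ))) ≤ CG N ^ 2 * (8 * Real.exp 17 / R) ^ (n * (2 * N * μ)) := by
      rw [hnm]
      exact he R hR hmR
    exact (GF4_two hM0.le hR hR1 H h1).trans hJε

end DC8965.P2
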