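import Pool.Agent.Lib.MP_dc8965_an.P2.B5

/-!
# MP_dc8965_an, `2 < p`: (S1) spreading the pairs
-/

open Finset Polynomial
open scoped LaurentPolynomial

namespace DC8965.P2

open DC8965.BT

private lemma two_pow_aux {x y x' y' : ℕ} (h : y < x) (h' : y' < x')
    (he : (2 : ℤ) ^ x - 2 ^ y = 2 ^ x' - 2 ^ y') : ¬ y < y' := by
  intro hlt
  have h1 : (2 : ℤ) ^ (y + 1) ∣ 2 ^ x := pow_dvd_pow 2 h
  have h2 : (2 : ℤ) ^ (y + 1) ∣ 2 ^ x' := pow_dvd_pow 2 (by omega)
  have h3 : (2 : ℤ) ^ (y + 1) ∣ 2 ^ y' := pow_dvd_pow 2 hlt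
  have h4 : (2 : ℤ) ^ (y + 1) ∣ 2 ^ y := by
    have h5 : (2 : ℤ) ^ y = 2 ^ x - 2 ^ x' + 2 ^ y' := by linarith
    rw [h5]
    exact dvd_add (dvd_sub h1 h2) h3
  have h6 := (pow_dvd_pow_iff (a := (2 : ℤ)) (by norm_num) (by rw [Int.isUnit_iff]; omega)).1 h4
  omega

private lemma two_pow_aux2 {x y x' y' : ℕ} (h : y < x)
    (he : (2 : ℤ) ^ x - 2 ^ y = 2 ^ x' - 2 ^ y') : x = x' ∧ y = y' := by
  have h1 : (2 : ℤ) ^ y < 2 ^ x := pow_lt_pow_right₀ (by norm_num) h
  have h2 : (2 : ℤ) ^ y' < 2 ^ x' := by linarith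
  have h' : y' < x' := (pow_lt_pow_iff_right₀ (by norm_num : (1 : ℤ) < 2)).1 h2
  have h3 : y = y' := le_antisymm (not_lt.1 (two_pow_aux h' h he.symm)) (not_lt.1 (two_pow_aux h h' he))
  subst h3
  have h4 : (2 : ℤ) ^ x = 2 ^ x' := by linarith
  exact ⟨(pow_right_injective₀ (by norm_num) (by norm_num)) h4, rfl⟩

/-- `2^x - 2^y` determines the pair `(x, y)`, `x ≠ y`: if `x > y` it is positive, `2^y` is the exact power of
`2` dividing it, then `2^x` is known (if `x < y` exchange the roles). -/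
lemma two_pow_sub_inj {x y x' y' : ℕ} (h : x ≠ y)
    (he : (2 : ℤ) ^ x - 2 ^ y = 2 ^ x' - 2 ^ y') : x = x' ∧ y = y' := by
  rcases lt_or_gt_of_ne h with h1 | h1
  · have := two_pow_aux2 (x := y) (y := x) (x' := y') (y' := x') h1 (by linarith)
    exact ⟨this.2, this.1⟩
  · exact two_pow_aux2 h1 he

/-- the exponent `i J + a` -/
private def S1e {R J : ℕ} (i : Fin R × Fin J) : ℕ := i.1 * J + i.2

private lemma S1e_inj {R J : ℕ} : Function.Injective (S1e (R := R) (J := J)) := by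
  rintro ⟨i, a⟩ ⟨j, b⟩ h
  have hJ : 0 < J := lt_of_le_of_lt (Nat.zero_le _) a.2
  unfold S1e at h
  simp only at h
  have h1 : ((i : ℕ) * J + a) / J = i := by
    rw [add_comm, Nat.add_mul_div_right _ _ hJ, Nat.div_eq_of_lt a.2, zero_add]
  have h2 : ((j : ℕ) * J + b) / J = j := by
    rw [add_comm, Nat.add_mul_div_right _ _ hJ, Nat.div_eq_of_lt b.2, zero_add]
  have h3 : (i : ℕ) = j := by rw [← h1, ← h2, h]
  have h4 : (a : ℕ) = b := by
    rw [h3] at h
    omega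
  rw [Prod.mk.injEq]
  exact ⟨Fin.ext h3, Fin.ext h4⟩

private lemma S1_np_single {r : ℝ} (hr : 0 < r) (n : ℤ) (c : ℂ) :
    np r (AddMonoidAlgebra.single n c : ℂ[T;T⁻¹]) = ‖c‖ ^ r := by
  have hs : (AddMonoidAlgebra.single n c : ℂ[T;T⁻¹]).coeff.support ⊆ {n} := by
    rw [AddMonoidAlgebra.coeff_single]
    exact Finsupp.support_single_subset
  rw [np_eq_sum hr _ _ hs, Finset.sum_singleton, AddMonoidAlgebra.coeff_single,
    Finsupp.single_eq_same]

private lemma S1_np_zero {r : ℝ} : np r (0 : ℂ[T;T⁻¹]) = 0 := by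
  unfold np
  simp

/-- disjointness of far translates -/
private lemma S1_disj {A D x y : ℤ} (hA : 2 * D < A) (hxy : x ≠ y) (c d : ℂ) (f g : ℂ[T;T⁻¹])
    (hf : Wd D f) (hg : Wd D g) (n : ℤ) :
    (AddMonoidAlgebra.single (A * x) c * f : ℂ[T;T⁻¹]).coeff n = 0 ∨
      (AddMonoidAlgebra.single (A * y) d * g : ℂ[T;T⁻¹]).coeff n = 0 := by
  by_contra hcon
  rw [not_or] at hcon
  obtain ⟨h1, h2⟩ := hcon
  rw [AddMonoidAlgebra.coeff_single_mul_apply] at h1 h2
  obtain ⟨k1, k2⟩ := hf _ (right_ne_zero_of_mul h1)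
  obtain ⟨k3, k4⟩ := hg _ (right_ne_zero_of_mul h2)
  rcases lt_or_gt_of_ne hxy with h | h
  · have : A * (y - x) ≥ A * 1 := mul_le_mul_of_nonneg_left (by omega) (by linarith)
    nlinarith
  · have : A * (x - y) ≥ A * 1 := mul_le_mul_of_nonneg_left (by omega) (by linarith)
    nlinarith

private lemma S1_norm {J : ℕ} (hJ : 0 < J) {r : ℝ} (hr : 0 < r) :
    ‖(((J : ℝ) ^ (-(1 / r)) : ℝ) : ℂ)‖ ^ r = (J : ℝ)⁻¹ := by
  have hJ' : (0 : ℝ) < J := by exact_mod_cast hJ
  rw [Complex.norm_real, Real.norm_eq_abs, abs_of_nonneg (by positivity), ← Real.rpow_mul hJ'.le]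
  have : -(1 / r) * r = -1 := by field_simp
  rw [this, Real.rpow_neg_one]

/-- the cross terms -/
private noncomputable def S1k {R J : ℕ} (c : ℂ) (α β : Fin R) : ℂ[T;T⁻¹] :=
  ∑ ab : Fin J × Fin J, if (α, ab.1) = (β, ab.2) then 0 else
    AddMonoidAlgebra.single ((2 : ℤ) ^ S1e (α, ab.1) - 2 ^ S1e (β, ab.2)) c

private lemma S1k_np {R J : ℕ} {r : ℝ} (hr : 0 < r) (c : ℂ) (α β : Fin R) :
    np r (S1k (J := J) c α β) ≤ (J : ℝ) ^ 2 * ‖c‖ ^ r := by
  unfold S1k
  rw [np_sum_of_disjoint hr]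
  · calc _ ≤ ∑ _ab : Fin J × Fin J, ‖c‖ ^ r := by
          refine Finset.sum_le_sum fun ab _ => ?_
          split_ifs
          · rw [S1_np_zero]; positivity
          · rw [S1_np_single hr]
      _ = _ := by
          rw [Finset.sum_const, Finset.card_univ, Fintype.card_prod, Fintype.card_fin, nsmul_eq_mul]
          push_cast
          ring
  · intro ab _ ab' _ hne g
    by_cases h1 : (α, ab.1) = (β, ab.2)
    · left; rw [if_pos h1]; simp
    by_cases h2 : (α, ab'.1) = (β, ab'.2)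
    · right; rw [if_pos h2]; simp
    rw [if_neg h1, if_neg h2, AddMonoidAlgebra.coeff_single, AddMonoidAlgebra.coeff_single]
    by_cases h3 : (2 : ℤ) ^ S1e (α, ab.1) - 2 ^ S1e (β, ab.2) = g
    · right
      rw [Finsupp.single_apply, if_neg]
      intro h4
      have h5 := two_pow_sub_inj (fun h => h1 (S1e_inj h)) (h3.trans h4.symm)
      have h6 := S1e_inj h5.1
      have h7 := S1e_inj h5.2
      rw [Prod.mk.injEq] at h6 h7
      exact hne (Prod.ext h6.2 h7.2)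
    · left
      rw [Finsupp.single_apply, if_neg h3]

private lemma dil_single (B n : ℤ) (c : ℂ) :
    dil B (AddMonoidAlgebra.single n c) = AddMonoidAlgebra.single (B * n) c := by
  unfold dil
  rw [AddMonoidAlgebra.mapDomainRingHom_apply, AddMonoidAlgebra.mapDomain_single]
  rfl

private lemma S1k_sum {R J : ℕ} {c : ℂ} (hc : (J : ℂ) * c = 1) (A : ℤ) (α β : Fin R) :
    (∑ ab : Fin J × Fin J, AddMonoidAlgebra.single
      (A * ((2 : ℤ) ^ S1e (α, ab.1) - 2 ^ S1e (β, ab.2))) c : ℂ[T;T⁻¹]) =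
      (if α = β then 1 else 0) + dil A (S1k (J := J) c α β) := by
  have h1 : dil A (S1k (J := J) c α β) = ∑ ab : Fin J × Fin J, if (α, ab.1) = (β, ab.2) then 0 else
      AddMonoidAlgebra.single (A * ((2 : ℤ) ^ S1e (α, ab.1) - 2 ^ S1e (β, ab.2))) c := by
    unfold S1k
    rw [map_sum]
    refine Finset.sum_congr rfl fun ab _ => ?_
    split_ifs
    · rw [map_zero]
    · rw [dil_single]
  have h2 : (if α = β then 1 else 0 : ℂ[T;T⁻¹]) = ∑ ab : Fin J × Fin J,
      if (α, ab.1) = (β, ab.2) then AddMonoidAlgebra.single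
        (A * ((2 : ℤ) ^ S1e (α, ab.1) - 2 ^ S1e (β, ab.2))) c else 0 := by
    split_ifs with hαβ
    · subst hαβ
      have h3 : ∀ ab : Fin J × Fin J, (if (α, ab.1) = (α, ab.2) then AddMonoidAlgebra.single
          (A * ((2 : ℤ) ^ S1e (α, ab.1) - 2 ^ S1e (α, ab.2))) c else 0 : ℂ[T;T⁻¹]) =
          if ab.1 = ab.2 then AddMonoidAlgebra.single (0 : ℤ) c else 0 := by
        intro ab
        by_cases h : ab.1 = ab.2
        · rw [if_pos (by rw [h]), if_pos h, h, sub_self, mul_zero]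
        · rw [if_neg (fun h' => h (Prod.mk.inj h').2), if_neg h]
      rw [Finset.sum_congr rfl fun ab _ => h3 ab, Fintype.sum_prod_type]
      simp only [Finset.sum_ite_eq, Finset.mem_univ, if_true, Finset.sum_const, Finset.card_univ,
        Fintype.card_fin]
      have h5 : (AddMonoidAlgebra.single (0 : ℤ) c : ℂ[T;T⁻¹]) = LaurentPolynomial.C c :=
        LaurentPolynomial.single_eq_C c
      rw [h5, nsmul_eq_mul, ← map_natCast (LaurentPolynomial.C : ℂ →+* ℂ[T;T⁻¹]) J, ← map_mul, hc, map_one]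
    · symm
      refine Finset.sum_eq_zero fun ab _ => ?_
      rw [if_neg (fun h => hαβ (Prod.mk.inj h).1)]
  rw [h1, h2, ← Finset.sum_add_distrib]
  refine Finset.sum_congr rfl fun ab _ => ?_
  split_ifs
  · rw [add_zero]
  · rw [zero_add]

private lemma S1_small {p : ℝ} (hp : 2 < p) (S τ : ℝ) (hS : 0 ≤ S) (hτ : 0 < τ) :
    ∃ J : ℕ, 0 < J ∧ ((J : ℝ) ^ 2 * ((J : ℝ)⁻¹) ^ p) ^ (1 / p) * S ≤ τ := by
  have hy : 0 < (p - 2) / p := div_pos (by linarith) (by linarith)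
  have h1 := (tendsto_rpow_neg_atTop hy).comp tendsto_natCast_atTop_atTop
  have h2 : ∀ᶠ J : ℕ in Filter.atTop, (J : ℝ) ^ (-((p - 2) / p)) < τ / (S + 1) :=
    h1.eventually (gt_mem_nhds (by positivity))
  obtain ⟨J, hJ1, hJ2⟩ := (h2.and (Filter.eventually_gt_atTop 0)).exists
  refine ⟨J, hJ2, ?_⟩
  have hJ' : (0 : ℝ) < J := by exact_mod_cast hJ2
  have h3 : ((J : ℝ) ^ 2 * ((J : ℝ)⁻¹) ^ p) ^ (1 / p) = (J : ℝ) ^ (-((p - 2) / p)) := by
    rw [← Real.rpow_neg_one, ← Real.rpow_mul hJ'.le, ← Real.rpow_natCast, ← Real.rpow_add hJ',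
      ← Real.rpow_mul hJ'.le]
    congr 1
    push_cast
    have : p ≠ 0 := by linarith
    field_simp
    ring
  rw [h3]
  calc (J : ℝ) ^ (-((p - 2) / p)) * S ≤ τ / (S + 1) * S :=
        mul_le_mul_of_nonneg_right hJ1.le hS
    _ ≤ τ := by
        rw [div_mul_eq_mul_div, div_le_iff₀ (by linarith)]
        nlinarith

/-- (S1) Spreading the pairs (this is where `2 < p` makes cross terms small).

Proof. `J` a large natural number, `A` a natural number larger than twice all the degrees.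
`x(i,a) = i J + a` (`i < R`, `a < J`), injective. `u_i = J^(-1/q) ∑_{a<J} X^(A 2^x(i,a))` (polynomial),
`π_i = J^(-1/p) ∑_{a<J} T^(-A 2^x(i,a))`, `Ψ = ∑_i ψ_i u_i`, `Φ_l = ∑_{i, ι i = l} inv(φ_i) π_i`.
(1) the polynomials `X^(A 2^x) ψ_i` have disjoint supports (`[A 2^x, A 2^x + A)`), so by `np_sum_of_disjoint` (or the
analogue for `Sn`; `np_toLaurent`) `Sn q Ψ = ∑_i ∑_a J^(-1) Sn q ψ_i = ∑ Sn q ψ_i`; the same for `Φ_l` (exponents in
`(-A 2^x - A, -A 2^x]`): `np p (Φ_l) = ∑_{i, ι i = l} Sn p φ_i ≤ ∑ Sn p φ_i`.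
(2) `Ψ Φ_l = ∑_{i, j, ι j = l} ψ_i inv(φ_j) u_i π_j` and `u_i π_j = J^(-1) ∑_{a,b} T^(A (2^x(i,a) - 2^x(j,b)))`
`= [i = j] + dil A (κ_ij)`, `κ_ij = J^(-1) ∑_{(i,a) ≠ (j,b)} T^(2^x(i,a) - 2^x(j,b))` with distinct exponents
(`two_pow_sub_inj`), so `np p κ_ij ≤ J^(-p) J^2`, `nr p κ_ij ≤ J^((2-p)/p)`. By (IP) (`nr_dil_mul`) and the triangle
inequality the difference has norm at most `J^((2-p)/p) ∑_{i,j} nr p (ψ_i inv φ_j) ≤ τ` for `J` large. -/
theorem S1 {p q : ℝ} (hpq : p.HolderConjugate q) (hp : 2 < p) {k R : ℕ} (ι : Fin R → Fin k)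
    (ψ φ : Fin R → ℂ[X]) {τ : ℝ} (hτ : 0 < τ) :
    ∃ (Ψ : ℂ[X]) (Φ : Fin k → ℂ[T;T⁻¹]), Sn q Ψ ≤ ∑ α, Sn q (ψ α) ∧
      ∀ l, np p (Φ l) ≤ ∑ α, Sn p (φ α) ∧
        nr p (toLaurent Ψ * Φ l - ∑ α, if ι α = l then toLaurent (ψ α) * inv (φ α) else 0) ≤ τ := by
  classical
  have hp0 : 0 < p := by linarith
  have hq0 : 0 < q := hpq.symm.pos
  -- widths
  choose Dψ hDψ using fun i => exists_Wd (toLaurent (ψ i))
  choose Dφ hDφ using fun i => exists_Wd (inv (φ i))
  obtain ⟨D, hD⟩ : ∃ D : ℤ, D = ((∑ i, (Dψ i + Dφ i) : ℕ) : ℤ) := ⟨_, rfl⟩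
  have hD0 : 0 ≤ D := by rw [hD]; positivity
  have hle : ∀ i, Dψ i + Dφ i ≤ ∑ i, (Dψ i + Dφ i) := fun i =>
    Finset.single_le_sum (f := fun i => Dψ i + Dφ i) (fun _ _ => Nat.zero_le _) (Finset.mem_univ i)
  have hψ : ∀ i, Wd D (toLaurent (ψ i)) := fun i => (hDψ i).mono (by rw [hD]; have := hle i; omega)
  have hφ : ∀ i, Wd D (inv (φ i)) := fun i => (hDφ i).mono (by rw [hD]; have := hle i; omega)
  have hK : ∀ α β, Wd (2 * D) (toLaurent (ψ α) * inv (φ β)) := fun α β => by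
    have := (hψ α).mul (hφ β)
    rwa [← two_mul] at this
  obtain ⟨A, hA⟩ : ∃ A : ℕ, (A : ℤ) = 4 * D + 1 := ⟨(4 * D + 1).toNat, by omega⟩
  have hA2 : 2 * (2 * D) < (A : ℤ) := by omega
  have hA1 : 2 * D < (A : ℤ) := by omega
  obtain ⟨S, hS⟩ : ∃ S : ℝ, S = ∑ α : Fin R, ∑ β : Fin R, nr p (toLaurent (ψ α) * inv (φ β)) := ⟨_, rfl⟩
  have hS0 : 0 ≤ S := by
    rw [hS]
    exact Finset.sum_nonneg fun α _ => Finset.sum_nonneg fun β _ => nr_nonneg _ _
  obtain ⟨J, hJ, hJS⟩ := S1_small hp S τ hS0 hτ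
  have hJ' : (0 : ℝ) < J := by exact_mod_cast hJ
  obtain ⟨cq, hcq⟩ : ∃ cq : ℂ, cq = (((J : ℝ) ^ (-(1 / q)) : ℝ) : ℂ) := ⟨_, rfl⟩
  obtain ⟨cp, hcp⟩ : ∃ cp : ℂ, cp = (((J : ℝ) ^ (-(1 / p)) : ℝ) : ℂ) := ⟨_, rfl⟩
  have hnq : ‖cq‖ ^ q = (J : ℝ)⁻¹ := by rw [hcq]; exact S1_norm hJ hq0
  have hnp : ‖cp‖ ^ p = (J : ℝ)⁻¹ := by rw [hcp]; exact S1_norm hJ hp0
  have hcc : cq * cp = ((((J : ℝ)⁻¹ : ℝ)) : ℂ) := by
    rw [hcq, hcp, ← Complex.ofReal_mul, ← Real.rpow_add hJ']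
    congr 1
    have : -(1 / q) + -(1 / p) = -1 := by
      have h := hpq.inv_add_inv_eq_one
      rw [one_div, one_div]
      linarith
    rw [this, Real.rpow_neg_one]
  have hJc : (J : ℂ) * (cq * cp) = 1 := by
    rw [hcc]
    push_cast
    exact mul_inv_cancel₀ (by exact_mod_cast hJ.ne')
  have hncc : ‖cq * cp‖ = (J : ℝ)⁻¹ := by
    rw [hcc, Complex.norm_real, Real.norm_eq_abs, abs_of_nonneg (by positivity)]
  obtain ⟨Ψ, hΨ⟩ : ∃ Ψ : ℂ[X], Ψ = ∑ i : Fin R × Fin J, monomial (A * 2 ^ S1e i) cq * ψ i.1 := ⟨_, rfl⟩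
  obtain ⟨Φ, hΦ⟩ : ∃ Φ : Fin k → ℂ[T;T⁻¹], Φ = fun l => ∑ i : Fin R × Fin J,
    if ι i.1 = l then AddMonoidAlgebra.single ((A : ℤ) * (-(2 : ℤ) ^ S1e i)) cp * inv (φ i.1) else 0 :=
    ⟨_, rfl⟩
  have hΨL : toLaurent Ψ = ∑ i : Fin R × Fin J,
      AddMonoidAlgebra.single ((A : ℤ) * (2 : ℤ) ^ S1e i) cq * toLaurent (ψ i.1) := by
    rw [hΨ, map_sum]
    refine Finset.sum_congr rfl fun i _ => ?_
    rw [map_mul, Polynomial.toLaurent_C_mul_T, ← LaurentPolynomial.single_eq_C_mul_T]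
    push_cast
    rfl
  refine ⟨Ψ, Φ, ?_, fun l => ⟨?_, ?_⟩⟩
  · rw [← np_toLaurent hq0, hΨL, np_sum_of_disjoint hq0]
    · apply le_of_eq
      calc _ = ∑ i : Fin R × Fin J, (J : ℝ)⁻¹ * Sn q (ψ i.1) := by
            refine Finset.sum_congr rfl fun i _ => ?_
            rw [np_single_mul hq0, hnq, np_toLaurent hq0]
        _ = _ := by
            rw [Fintype.sum_prod_type]
            refine Finset.sum_congr rfl fun α _ => ?_
            show ∑ _y : Fin J, (J : ℝ)⁻¹ * Sn q (ψ α) = _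
            rw [Finset.sum_const, Finset.card_univ, Fintype.card_fin, nsmul_eq_mul]
            field_simp
    · intro i _ j _ hij g
      refine S1_disj hA1 ?_ _ _ _ _ (hψ i.1) (hψ j.1) g
      intro h
      exact hij (S1e_inj ((pow_right_injective₀ (by norm_num) (by norm_num)) h))
  · rw [hΦ]
    show np p (∑ i : Fin R × Fin J, if ι i.1 = l then AddMonoidAlgebra.single
      ((A : ℤ) * (-(2 : ℤ) ^ S1e i)) cp * inv (φ i.1) else 0) ≤ _
    rw [np_sum_of_disjoint hp0]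
    · calc _ ≤ ∑ i : Fin R × Fin J, (J : ℝ)⁻¹ * Sn p (φ i.1) := by
            refine Finset.sum_le_sum fun i _ => ?_
            have h0 : 0 ≤ Sn p (φ i.1) := by rw [← np_inv hp0]; exact np_nonneg _ _
            split_ifs
            · rw [np_single_mul hp0, hnp, np_inv hp0]
            · rw [S1_np_zero]; positivity
        _ = _ := by
            rw [Fintype.sum_prod_type]
            refine Finset.sum_congr rfl fun α _ => ?_
            show ∑ _y : Fin J, (J : ℝ)⁻¹ * Sn p (φ α) = _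
            rw [Finset.sum_const, Finset.card_univ, Fintype.card_fin, nsmul_eq_mul]
            field_simp
    · intro i _ j _ hij g
      by_cases h1 : ι i.1 = l
      · by_cases h2 : ι j.1 = l
        · rw [if_pos h1, if_pos h2]
          refine S1_disj hA1 ?_ _ _ _ _ (hφ i.1) (hφ j.1) g
          intro h
          exact hij (S1e_inj ((pow_right_injective₀ (by norm_num) (by norm_num)) (neg_injective h)))
        · right; rw [if_neg h2]; simp
      · left; rw [if_neg h1]; simp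
  · have hmain : toLaurent Ψ * Φ l - ∑ α, (if ι α = l then toLaurent (ψ α) * inv (φ α) else 0) =
        ∑ α : Fin R, ∑ β : Fin R, if ι β = l then
          dil (A : ℤ) (S1k (J := J) (cq * cp) α β) * (toLaurent (ψ α) * inv (φ β)) else 0 := by
      rw [sub_eq_iff_eq_add, hΨL, hΦ]
      show (∑ i : Fin R × Fin J, AddMonoidAlgebra.single ((A : ℤ) * (2 : ℤ) ^ S1e i) cq *
        toLaurent (ψ i.1)) * (∑ i : Fin R × Fin J, if ι i.1 = l then AddMonoidAlgebra.single
        ((A : ℤ) * (-(2 : ℤ) ^ S1e i)) cp * inv (φ i.1) else 0) = _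
      rw [Finset.sum_mul_sum, Fintype.sum_prod_type]
      have h1 : ∀ α : Fin R, (∑ a : Fin J, ∑ j : Fin R × Fin J,
          AddMonoidAlgebra.single ((A : ℤ) * (2 : ℤ) ^ S1e (α, a)) cq * toLaurent (ψ (α, a).1) *
          (if ι j.1 = l then AddMonoidAlgebra.single ((A : ℤ) * (-(2 : ℤ) ^ S1e j)) cp *
            inv (φ j.1) else 0) : ℂ[T;T⁻¹]) = ∑ β : Fin R, if ι β = l then
            (∑ ab : Fin J × Fin J, AddMonoidAlgebra.single
              ((A : ℤ) * ((2 : ℤ) ^ S1e (α, ab.1) - 2 ^ S1e (β, ab.2))) (cq * cp)) *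
              (toLaurent (ψ α) * inv (φ β)) else 0 := by
        intro α
        have h2 : ∀ a : Fin J, (∑ j : Fin R × Fin J,
          AddMonoidAlgebra.single ((A : ℤ) * (2 : ℤ) ^ S1e (α, a)) cq * toLaurent (ψ (α, a).1) *
          (if ι j.1 = l then AddMonoidAlgebra.single ((A : ℤ) * (-(2 : ℤ) ^ S1e j)) cp *
            inv (φ j.1) else 0) : ℂ[T;T⁻¹]) = ∑ β : Fin R, if ι β = l then
            (∑ b : Fin J, AddMonoidAlgebra.single
              ((A : ℤ) * ((2 : ℤ) ^ S1e (α, a) - 2 ^ S1e (β, b))) (cq * cp)) *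
              (toLaurent (ψ α) * inv (φ β)) else 0 := by
          intro a
          rw [Fintype.sum_prod_type]
          refine Finset.sum_congr rfl fun β _ => ?_
          by_cases hβ : ι β = l
          · rw [if_pos hβ, Finset.sum_mul]
            refine Finset.sum_congr rfl fun b _ => ?_
            rw [if_pos hβ]
            have h3 : (AddMonoidAlgebra.single ((A : ℤ) * ((2 : ℤ) ^ S1e (α, a) - 2 ^ S1e (β, b)))
                (cq * cp) : ℂ[T;T⁻¹]) = AddMonoidAlgebra.single ((A : ℤ) * (2 : ℤ) ^ S1e (α, a)) cq *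
                AddMonoidAlgebra.single ((A : ℤ) * (-(2 : ℤ) ^ S1e (β, b))) cp := by
              rw [AddMonoidAlgebra.single_mul_single]
              congr 1
              ring
            rw [h3]
            ring
          · rw [if_neg hβ]
            refine Finset.sum_eq_zero fun b _ => ?_
            rw [if_neg hβ, mul_zero]
        rw [Finset.sum_congr rfl fun a _ => h2 a, Finset.sum_comm]
        refine Finset.sum_congr rfl fun β _ => ?_
        by_cases hβ : ι β = l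
        · simp only [if_pos hβ]
          rw [← Finset.sum_mul, Fintype.sum_prod_type]
        · simp only [if_neg hβ]
          exact Finset.sum_const_zero
      rw [Finset.sum_congr rfl fun α _ => h1 α, ← Finset.sum_add_distrib]
      refine Finset.sum_congr rfl fun α _ => ?_
      have h4 : (if ι α = l then toLaurent (ψ α) * inv (φ α) else 0 : ℂ[T;T⁻¹]) =
          ∑ β : Fin R, if ι β = l then (if α = β then 1 else 0) * (toLaurent (ψ α) * inv (φ β)) else 0 := by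
        rw [Finset.sum_eq_single α]
        · rw [if_pos (rfl : α = α), one_mul]
        · intro β _ hβ
          rw [if_neg (Ne.symm hβ), zero_mul]
          split_ifs <;> rfl
        · intro h
          exact absurd (Finset.mem_univ α) h
      rw [h4, ← Finset.sum_add_distrib]
      refine Finset.sum_congr rfl fun β _ => ?_
      by_cases hβ : ι β = l
      · simp only [if_pos hβ]
        rw [S1k_sum hJc, ← add_mul, add_comm]
      · simp only [if_neg hβ]
        rw [add_zero]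
    rw [hmain]
    have hκ : ∀ α β : Fin R, nr p (S1k (J := J) (cq * cp) α β) ≤
        ((J : ℝ) ^ 2 * ((J : ℝ)⁻¹) ^ p) ^ (1 / p) := by
      intro α β
      unfold nr
      refine Real.rpow_le_rpow (np_nonneg _ _) ?_ (by positivity)
      have := S1k_np (J := J) hp0 (cq * cp) α β
      rwa [hncc] at this
    calc _ ≤ ∑ α : Fin R, ∑ β : Fin R, nr p (if ι β = l then
          dil (A : ℤ) (S1k (J := J) (cq * cp) α β) * (toLaurent (ψ α) * inv (φ β)) else 0) := by
          refine (nr_sum_le (by linarith) _ _).trans ?_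
          exact Finset.sum_le_sum fun α _ => nr_sum_le (by linarith) _ _
      _ ≤ ∑ α : Fin R, ∑ β : Fin R, ((J : ℝ) ^ 2 * ((J : ℝ)⁻¹) ^ p) ^ (1 / p) *
            nr p (toLaurent (ψ α) * inv (φ β)) := by
          refine Finset.sum_le_sum fun α _ => Finset.sum_le_sum fun β _ => ?_
          split_ifs
          · rw [nr_dil_mul hp0 (D := 2 * D) (by linarith) hA2 _ _ (hK α β)]
            exact mul_le_mul_of_nonneg_right (hκ α β) (nr_nonneg _ _)
          · rw [nr_zero hp0]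
            have := nr_nonneg p (toLaurent (ψ α) * inv (φ β))
            positivity
      _ = ((J : ℝ) ^ 2 * ((J : ℝ)⁻¹) ^ p) ^ (1 / p) * S := by
          rw [hS, Finset.mul_sum]
          refine Finset.sum_congr rfl fun α _ => ?_
          rw [Finset.mul_sum]
      _ ≤ τ := hJS

end DC8965.P2
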