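import Pool.Agent.Lib.MP_dc8965_an.P2.B4

/-!
# MP_dc8965_an, `2 < p`: (W1), (W2) almost inverses of polynomials without zeros on the circle
-/

open Finset Polynomial
open scoped LaurentPolynomial

namespace DC8965.P2

private lemma W1_single (n : ℤ) (c : ℂ) :
    n1 (AddMonoidAlgebra.single n c : ℂ[T;T⁻¹]) = ‖c‖ := by
  have h := n1_single_mul n c (1 : ℂ[T;T⁻¹])
  rwa [mul_one, n1_one, mul_one] at h

private lemma W1_geom {P a y : ℂ[T;T⁻¹]} (h : P * a = 1 - y) (hy : n1 y < 1) :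
    ∃ K : ℝ, 0 ≤ K ∧ ∀ ϱ : ℝ, 0 < ϱ → ∃ R : ℂ[T;T⁻¹], n1 R ≤ K ∧ n1 (1 - P * R) ≤ ϱ := by
  have hy0 := n1_nonneg y
  have ha0 := n1_nonneg a
  refine ⟨n1 a * (1 - n1 y)⁻¹, mul_nonneg ha0 (inv_nonneg.mpr (by linarith)), fun ϱ hϱ => ?_⟩
  obtain ⟨n, hn⟩ := exists_pow_lt_of_lt_one hϱ hy
  refine ⟨a * ∑ k ∈ range n, y ^ k, ?_, ?_⟩
  · refine (n1_mul_le _ _).trans (mul_le_mul_of_nonneg_left ?_ ha0)
    refine (n1_sum_le _ _).trans ?_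
    calc ∑ k ∈ range n, n1 (y ^ k) ≤ ∑ k ∈ range n, n1 y ^ k :=
          Finset.sum_le_sum fun k _ => n1_pow_le y k
      _ ≤ ∑' k, n1 y ^ k :=
          (summable_geometric_of_lt_one hy0 hy).sum_le_tsum _ fun _ _ => by positivity
      _ = (1 - n1 y)⁻¹ := tsum_geometric_of_lt_one hy0 hy
  · have h1 : 1 - P * (a * ∑ k ∈ range n, y ^ k) = y ^ n := by
      rw [← mul_assoc, h, mul_neg_geom_sum, sub_sub_cancel]
    rw [h1]
    exact (n1_pow_le y n).trans hn.le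

/-- One linear factor. For `‖w‖ > 1` take `R = -∑_{k<n} w^(-k-1) T^k`, so
`(T - w) R = 1 - w^(-n) T^n`, `n1 R ≤ ∑ ‖w‖^(-k-1) ≤ 1/(‖w‖-1)`; for `‖w‖ < 1` take `R = ∑_{k<n} w^k T^(-k-1)`,
`(T - w) R = 1 - w^n T^(-n)`, `n1 R ≤ 1/(1-‖w‖)`. `n` large. (`geom_sum`, `LaurentPolynomial.T_add`; the sum
identities by induction on `n`.) -/
lemma W1 (w : ℂ) (hw : ‖w‖ ≠ 1) : ∃ K : ℝ, 0 ≤ K ∧ ∀ ϱ : ℝ, 0 < ϱ → ∃ R : ℂ[T;T⁻¹],
    n1 R ≤ K ∧ n1 (1 - toLaurent (X - C w) * R) ≤ ϱ := by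
  have hX : toLaurent (X - C w) = (AddMonoidAlgebra.single 1 1 : ℂ[T;T⁻¹]) -
      AddMonoidAlgebra.single 0 w := by
    rw [map_sub, toLaurent_X, toLaurent_C]
    rfl
  rcases lt_or_gt_of_ne hw with h | h
  · refine W1_geom (a := AddMonoidAlgebra.single (-1) 1) (y := AddMonoidAlgebra.single (-1) w) ?_ ?_
    · rw [hX, sub_mul, AddMonoidAlgebra.single_mul_single, AddMonoidAlgebra.single_mul_single,
        AddMonoidAlgebra.one_def]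
      norm_num
    · rw [W1_single]
      exact h
  · have hw0 : w ≠ 0 := by
      intro h0
      rw [h0, norm_zero] at h
      linarith
    refine W1_geom (a := AddMonoidAlgebra.single 0 (-w⁻¹)) (y := AddMonoidAlgebra.single 1 (w⁻¹))
      ?_ ?_
    · rw [hX, sub_mul, AddMonoidAlgebra.single_mul_single, AddMonoidAlgebra.single_mul_single,
        AddMonoidAlgebra.one_def]
      have h1 : w * -w⁻¹ = -1 := by
        rw [mul_neg, mul_inv_cancel₀ hw0]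
      rw [h1, add_zero, add_zero, one_mul, AddMonoidAlgebra.single_neg, AddMonoidAlgebra.single_neg]
      ring
    · rw [W1_single, norm_inv]
      exact inv_lt_one_of_one_lt₀ h

private lemma W2_mul {P P' : ℂ[T;T⁻¹]}
    (h : ∃ K : ℝ, 0 ≤ K ∧ ∀ ϱ : ℝ, 0 < ϱ → ∃ R : ℂ[T;T⁻¹], n1 R ≤ K ∧ n1 (1 - P * R) ≤ ϱ)
    (h' : ∃ K : ℝ, 0 ≤ K ∧ ∀ ϱ : ℝ, 0 < ϱ → ∃ R : ℂ[T;T⁻¹], n1 R ≤ K ∧ n1 (1 - P' * R) ≤ ϱ) :
    ∃ K : ℝ, 0 ≤ K ∧ ∀ ϱ : ℝ, 0 < ϱ → ∃ R : ℂ[T;T⁻¹], n1 R ≤ K ∧ n1 (1 - (P * P') * R) ≤ ϱ := by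
  obtain ⟨K, hK, h⟩ := h
  obtain ⟨K', hK', h'⟩ := h'
  refine ⟨K * K', mul_nonneg hK hK', fun ϱ hϱ => ?_⟩
  obtain ⟨R, hR1, hR2⟩ := h (min 1 (ϱ / 3)) (lt_min one_pos (by positivity))
  obtain ⟨R', hR1', hR2'⟩ := h' (min 1 (ϱ / 3)) (lt_min one_pos (by positivity))
  refine ⟨R * R', (n1_mul_le _ _).trans (mul_le_mul hR1 hR1' (n1_nonneg _) hK), ?_⟩
  have e : 1 - (P * P') * (R * R') =
      (1 - P * R) + ((1 - P' * R') - (1 - P * R) * (1 - P' * R')) := by ring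
  rw [e]
  have h1 := n1_add_le (1 - P * R) ((1 - P' * R') - (1 - P * R) * (1 - P' * R'))
  have h2 := n1_sub_le (1 - P' * R') ((1 - P * R) * (1 - P' * R'))
  have h3 := n1_mul_le (1 - P * R) (1 - P' * R')
  have a1 : n1 (1 - P * R) ≤ ϱ / 3 := hR2.trans (min_le_right _ _)
  have a2 : n1 (1 - P' * R') ≤ ϱ / 3 := hR2'.trans (min_le_right _ _)
  have a3 : n1 (1 - P * R) ≤ 1 := hR2.trans (min_le_left _ _)
  have h4 : n1 (1 - P * R) * n1 (1 - P' * R') ≤ 1 * (ϱ / 3) :=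
    mul_le_mul a3 a2 (n1_nonneg _) zero_le_one
  linarith

/-- `V ≠ 0` without zeros on the unit circle has almost inverses with bounded `n1`.
Proof: property `Q(V) := ∃ K ≥ 0, ∀ ϱ > 0, ∃ R, n1 R ≤ K ∧ n1 (1 - V R) ≤ ϱ`. `Q` holds for nonzero constants
(`R = C (1/c)`), for `X - C w` (`W1`) and is multiplicative: `1 - V V' R R' = x + y - x y` with
`x = 1 - V R`, `y = 1 - V' R'`, `n1 x, n1 y ≤ min 1 (ϱ/3)` (`n1_mul_le`). `V = C lead * (roots.map (X - C ·)).prod`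
(`IsAlgClosed.splits`, `Polynomial.Splits.eq_prod_roots` or `C_leadingCoeff_mul_prod_multiset_X_sub_C`), induction
over the multiset (`Multiset.induction_on`), all of whose elements have norm `≠ 1`. -/
theorem W2 (V : ℂ[X]) (hV : V ≠ 0) (h : ∀ z : ℂ, ‖z‖ = 1 → V.eval z ≠ 0) :
    ∃ K : ℝ, 0 ≤ K ∧ ∀ ϱ : ℝ, 0 < ϱ → ∃ R : ℂ[T;T⁻¹], n1 R ≤ K ∧ n1 (1 - toLaurent V * R) ≤ ϱ := by
  have hconst : ∀ c : ℂ, c ≠ 0 → ∃ K : ℝ, 0 ≤ K ∧ ∀ ϱ : ℝ, 0 < ϱ → ∃ R : ℂ[T;T⁻¹],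
      n1 R ≤ K ∧ n1 (1 - toLaurent (C c) * R) ≤ ϱ := by
    intro c hc
    refine W1_geom (a := AddMonoidAlgebra.single 0 (c⁻¹)) (y := 0) ?_ ?_
    · have h1 : toLaurent (C c) = (AddMonoidAlgebra.single 0 c : ℂ[T;T⁻¹]) := by
        rw [toLaurent_C]
        rfl
      rw [h1, AddMonoidAlgebra.single_mul_single, mul_inv_cancel₀ hc, add_zero, sub_zero,
        AddMonoidAlgebra.one_def]
    · rw [n1_zero]
      exact zero_lt_one
  have hprod : ∀ s : Multiset ℂ, (∀ w ∈ s, ‖w‖ ≠ 1) → ∃ K : ℝ, 0 ≤ K ∧ ∀ ϱ : ℝ, 0 < ϱ →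
      ∃ R : ℂ[T;T⁻¹], n1 R ≤ K ∧
        n1 (1 - toLaurent ((s.map fun a => X - C a).prod) * R) ≤ ϱ := by
    intro s
    induction s using Multiset.induction_on with
    | empty =>
      intro _
      have h1 := hconst 1 one_ne_zero
      rw [Multiset.map_zero, Multiset.prod_zero]
      rw [C_1] at h1
      exact h1
    | cons a s ih =>
      intro hs
      rw [Multiset.map_cons, Multiset.prod_cons, map_mul]
      exact W2_mul (W1 a (hs a (Multiset.mem_cons_self a s)))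
        (ih fun w hw => hs w (Multiset.mem_cons_of_mem hw))
  have e : V = C V.leadingCoeff * (V.roots.map fun a => X - C a).prod :=
    (IsAlgClosed.splits V).eq_prod_roots
  rw [e, map_mul]
  refine W2_mul (hconst _ (leadingCoeff_ne_zero.mpr hV)) (hprod _ fun w hw hw1 => ?_)
  exact h w hw1 ((mem_roots hV).mp hw)

end DC8965.P2
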