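import Pool.Agent.Lib.MP_dc8965_an.P2.C1
import Pool.Agent.Lib.MP_dc8965_an.P2.C4
import Pool.Agent.Lib.MP_dc8965_an.P2.W1
import Pool.Agent.Lib.MP_dc8965_an.P2.S1
import Pool.Agent.Lib.MP_dc8965_an.P2.G

/-!
# MP_dc8965_an, `2 < p`: (C5) the core for polynomials without zeros on the circle
-/

open Finset Polynomial
open scoped LaurentPolynomial

namespace DC8965.P2

open DC8965.BT

/-- `Pr (c inv(a)) = Pr e` for `e = ∑ ψ inv(φ)`: both sides have the coefficients of the given relation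
(`Tp_Pr`, `Pr_inv`, `Pr_sum`; `ext`). -/
lemma C5_Pr (c a : ℂ[X]) {R : ℕ} (P : Fin R → Prop) [DecidablePred P] (ψ φ : Fin R → ℂ[X])
    (h : ∀ j, Tp c (fun n => a.coeff n) j =
      ∑ α, if P α then Tp (ψ α) (fun n => (φ α).coeff n) j else 0) :
    Pr (toLaurent c * inv a) =
      Pr (∑ α, if P α then toLaurent (ψ α) * inv (φ α) else 0) := by
  ext j
  have h1 : (Pr (toLaurent c * inv a)).coeff j = Tp c (fun n => a.coeff n) j := by
    rw [← Tp_Pr, Pr_inv]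
  rw [h1, h j, Pr_sum, Polynomial.finsetSum_coeff]
  refine Finset.sum_congr rfl fun α _ => ?_
  split_ifs with hα
  · rw [← Tp_Pr, Pr_inv]
  · rw [Pr_of_Pos (f := 0) (fun n _ => by simp)]
    simp

/-- `W = X^D V v(X^B)`: `Sn q W = Sn q V * Sn q v` (`Sn_X_pow_mul`, `np_toLaurent`, `dil_toLaurent`, `nr_dil_mul`,
`nr_rpow`), and its coefficients below `D` vanish. -/
lemma C5_W {q : ℝ} (hq : 0 < q) (V v : ℂ[X]) (B D d : ℕ) (hV : Wd d (toLaurent V))
    (hB : 2 * d < B) :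
    Sn q (X ^ D * (V * Polynomial.expand ℂ B v)) = Sn q v * Sn q V ∧
      ∀ j < D, (X ^ D * (V * Polynomial.expand ℂ B v)).coeff j = 0 := by
  constructor
  · rw [Sn_X_pow_mul, ← np_toLaurent hq, map_mul, ← dil_toLaurent, mul_comm, ← nr_rpow hq,
      nr_dil_mul hq (B := (B : ℤ)) (D := (d : ℤ)) (by positivity) (by exact_mod_cast hB) _ _ hV,
      Real.mul_rpow (nr_nonneg _ _) (nr_nonneg _ _), nr_rpow hq, nr_rpow hq, np_toLaurent hq,
      np_toLaurent hq]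
  · intro j hj
    rw [Polynomial.coeff_X_pow_mul', if_neg (by omega)]

/-- (C5) the core, no zeros on the circle.

Proof. `e i = ∑ α, if ι α = i then ψ α * inv (φ α) else 0`; `C5_Pr` gives `Pr (c inv(a i)) = Pr (e i)`.
`K` from `W2 c`. `Ψ, Φ` from `S1` with `τ₁ > 0`, `2 K τ₁ ≤ τ/3`. `nr p (Φ i) ≤ κ^(1/p)`.
`N1 = n1 c + n1 Ψ`, `M = K N1 + 1`, `nE ≥ n1 (e i)`, `nΦ ≥ n1 (Φ i)` for all `i`.
`G` with `M` and `ε₁ = min (1, τ/(3 (K nE + 1)), τ/(3 (nΦ + 1)), √δ/(2 (N1 nΦ + 1)))`: `m₀ = m + 1`, `v`, `F`.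
`R` from `W2` with `ϱ` so small that `ϱ (nE + n1 (F 0) (n1 Ψ nΦ) + ∑_{j<m} n1 (F (j+1)) (M^j nΦ) N1) ≤ √δ/2`.
`d` a common width (`exists_Wd`, `Wd.mono`) of `c, Ψ, R, e i, Φ i, inv (a i)`, `d'` of `v, F 0`;
`B > 2 (2m+4) d`, `E > B d' + 4 d`, `D > 2 B d' + 4 d + E`, `D ≥ I0`.
`U = UP c Ψ v B E D`, `W = X^D (c v(X^B))`, `g i = Pr (muP (a i) c Ψ R (e i) (Φ i) F B E D m)`.
`W`: `C5_W`, `Sn q v ≤ 1`. `U - c - W = X^E Ψ` (`Sn_X_pow_mul`). `g i - a i = Pr (μ - inv (a i))` (`Pr_sub`,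
`Pr_inv`), `Sn_Pr_le`, `np_le_of_nr_le`, `C4_p`. `Tp U (g i) = Pr (U μ) = Pr smP` (`Tp_Pr`, `C1`), `Sle_Pr`,
`C4_two` and `(√δ)^2 = δ`. -/
theorem core0 {p q : ℝ} (hpq : p.HolderConjugate q) (hp : 2 < p) {k R : ℕ} (c : ℂ[X])
    (hc : c ≠ 0) (hz : ∀ z : ℂ, ‖z‖ = 1 → c.eval z ≠ 0) (a : Fin k → ℂ[X]) (ι : Fin R → Fin k)
    (ψ φ : Fin R → ℂ[X])
    (h : ∀ i j, Tp c (fun n => (a i).coeff n) j =
      ∑ α, if ι α = i then Tp (ψ α) (fun n => (φ α).coeff n) j else 0)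
    {κ : ℝ} (hκ : 0 ≤ κ) (hψ : ∑ α, Sn q (ψ α) ≤ κ) (hφ : ∑ α, Sn p (φ α) ≤ κ) (I0 : ℕ)
    {δ τ : ℝ} (hδ : 0 < δ) (hτ : 0 < τ) :
    ∃ (U W : ℂ[X]) (g : Fin k → ℂ[X]), (∀ j < I0, W.coeff j = 0) ∧ Sn q W ≤ Sn q c ∧
      Sn q (U - c - W) ≤ κ ∧ ∀ i, Sn p (g i - a i) ≤ (4 * κ ^ (1 / p) + τ) ^ p ∧
        Sle 2 (Tp U (fun n => (g i).coeff n)) δ := by
  classical
  have hp0 : 0 < p := by linarith
  have hp1 : 1 ≤ p := by linarith
  have hq0 : 0 < q := hpq.symm.pos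
  set e : Fin k → ℂ[T;T⁻¹] := fun i =>
    ∑ α, if ι α = i then toLaurent (ψ α) * inv (φ α) else 0 with he_def
  have he : ∀ i, Pr (toLaurent c * inv (a i)) = Pr (e i) := fun i =>
    C5_Pr c (a i) (fun α => ι α = i) ψ φ (h i)
  obtain ⟨K, hK0, hK⟩ := W2 c hc hz
  obtain ⟨Ψ, Φ, hΨ, hΦ⟩ := S1 hpq hp ι ψ φ (τ := τ / (3 * (2 * K + 1))) (by positivity)
  have hΨκ : Sn q Ψ ≤ κ := hΨ.trans hψ
  have hΦκ : ∀ i, nr p (Φ i) ≤ κ ^ (1 / p) := by
    intro i
    refine nr_le_of_np_le hp0 (by positivity) ?_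
    rw [← Real.rpow_mul hκ, one_div_mul_cancel hp0.ne', Real.rpow_one]
    exact ((hΦ i).1).trans hφ
  set nc : ℝ := n1 (toLaurent c) + n1 (toLaurent Ψ) with hnc
  have hnc0 : 0 ≤ nc := add_nonneg (n1_nonneg _) (n1_nonneg _)
  set nE : ℝ := ∑ i, n1 (e i) with hnE
  have hnE0 : 0 ≤ nE := Finset.sum_nonneg fun i _ => n1_nonneg _
  have hnEi : ∀ i, n1 (e i) ≤ nE := fun i =>
    Finset.single_le_sum (f := fun i => n1 (e i)) (fun i _ => n1_nonneg _) (Finset.mem_univ i)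
  set nF : ℝ := ∑ i, n1 (Φ i) with hnF
  have hnF0 : 0 ≤ nF := Finset.sum_nonneg fun i _ => n1_nonneg _
  have hnFi : ∀ i, n1 (Φ i) ≤ nF := fun i =>
    Finset.single_le_sum (f := fun i => n1 (Φ i)) (fun i _ => n1_nonneg _) (Finset.mem_univ i)
  have hsq : 0 < √δ := Real.sqrt_pos.2 hδ
  set ε : ℝ := min (min 1 (τ / (3 * (K * nE + 1))))
    (min (τ / (3 * (nF + 1))) (√δ / (2 * (nc * nF + 1)))) with hε_def
  have hε0 : 0 < ε := by
    rw [hε_def]
    refine lt_min (lt_min one_pos (by positivity)) (lt_min (by positivity) (by positivity))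
  have hε1 : ε ≤ 1 := (min_le_left _ _).trans (min_le_left _ _)
  have hε2 : ε ≤ τ / (3 * (K * nE + 1)) := (min_le_left _ _).trans (min_le_right _ _)
  have hε3 : ε ≤ τ / (3 * (nF + 1)) := (min_le_right _ _).trans (min_le_left _ _)
  have hε4 : ε ≤ √δ / (2 * (nc * nF + 1)) := (min_le_right _ _).trans (min_le_right _ _)
  have hM : 1 ≤ K * nc + 1 := by
    have := mul_nonneg hK0 hnc0
    linarith
  obtain ⟨m₀, v, F, hm₀, hF, hv, hF0, hF1, hF2, hF3⟩ := G hpq hp hM hε0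
  obtain ⟨m, rfl⟩ : ∃ m, m₀ = m + 1 := ⟨m₀ - 1, by omega⟩
  set M : ℝ := K * nc + 1 with hM_def
  have hM0 : 0 ≤ M := by linarith
  set S : ℝ := nE + n1 (F 0) * (n1 (toLaurent Ψ) * nF) +
    ∑ j ∈ range m, n1 (F (j + 1)) * (M ^ j * nF) * nc with hS_def
  have hS0 : 0 ≤ S := by
    have h1 : 0 ≤ n1 (F 0) * (n1 (toLaurent Ψ) * nF) :=
      mul_nonneg (n1_nonneg _) (mul_nonneg (n1_nonneg _) hnF0)
    have h2 : 0 ≤ ∑ j ∈ range m, n1 (F (j + 1)) * (M ^ j * nF) * nc :=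
      Finset.sum_nonneg fun j _ =>
        mul_nonneg (mul_nonneg (n1_nonneg _) (mul_nonneg (pow_nonneg hM0 _) hnF0)) hnc0
    linarith
  obtain ⟨R', hR1, hR2⟩ := hK (√δ / (2 * (S + 1))) (by positivity)
  -- the widths
  obtain ⟨d1, hd1⟩ := exists_Wd (toLaurent c)
  obtain ⟨d2, hd2⟩ := exists_Wd (toLaurent Ψ)
  obtain ⟨d3, hd3⟩ := exists_Wd R'
  choose dE hdE using fun i => exists_Wd (e i)
  choose dF hdF using fun i => exists_Wd (Φ i)
  choose dA hdA using fun i => exists_Wd (inv (a i))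
  obtain ⟨d4, hd4⟩ := exists_Wd (toLaurent v)
  obtain ⟨d5, hd5⟩ := exists_Wd (F 0)
  set d : ℕ := d1 + d2 + d3 + ∑ i, dE i + ∑ i, dF i + ∑ i, dA i with hd_def
  have hdEi : ∀ i, dE i ≤ ∑ i, dE i := fun i =>
    Finset.single_le_sum (f := dE) (fun i _ => Nat.zero_le _) (Finset.mem_univ i)
  have hdFi : ∀ i, dF i ≤ ∑ i, dF i := fun i =>
    Finset.single_le_sum (f := dF) (fun i _ => Nat.zero_le _) (Finset.mem_univ i)
  have hdAi : ∀ i, dA i ≤ ∑ i, dA i := fun i =>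
    Finset.single_le_sum (f := dA) (fun i _ => Nat.zero_le _) (Finset.mem_univ i)
  have hV : Wd d (toLaurent c) := hd1.mono (by exact_mod_cast (by omega : d1 ≤ d))
  have hΨd : Wd d (toLaurent Ψ) := hd2.mono (by exact_mod_cast (by omega : d2 ≤ d))
  have hRd : Wd d R' := hd3.mono (by exact_mod_cast (by omega : d3 ≤ d))
  have hed : ∀ i, Wd d (e i) := fun i => (hdE i).mono (by
    have := hdEi i
    exact_mod_cast (by omega : dE i ≤ d))
  have hΦd : ∀ i, Wd d (Φ i) := fun i => (hdF i).mono (by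
    have := hdFi i
    exact_mod_cast (by omega : dF i ≤ d))
  have had : ∀ i, Wd d (inv (a i)) := fun i => (hdA i).mono (by
    have := hdAi i
    exact_mod_cast (by omega : dA i ≤ d))
  have hvd : Wd ((d4 + d5 : ℕ) : ℤ) (toLaurent v) :=
    hd4.mono (by exact_mod_cast (by omega : d4 ≤ d4 + d5))
  have hFd : Wd ((d4 + d5 : ℕ) : ℤ) (F 0) :=
    hd5.mono (by exact_mod_cast (by omega : d5 ≤ d4 + d5))
  obtain ⟨B, hB_def⟩ : ∃ B : ℕ, B = 2 * ((2 * m + 4) * d) + 1 := ⟨_, rfl⟩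
  obtain ⟨E, hE_def⟩ : ∃ E : ℕ, E = B * (d4 + d5) + 4 * d + 1 := ⟨_, rfl⟩
  obtain ⟨D, hD_def⟩ : ∃ D : ℕ, D = 2 * (B * (d4 + d5)) + 4 * d + E + 1 + I0 := ⟨_, rfl⟩
  have hB4 : 2 * ((2 * m + 4) * d) < B := by omega
  have hB2 : 2 * ((2 * m + 2) * d) < B := by
    have : (2 * m + 2) * d ≤ (2 * m + 4) * d := Nat.mul_le_mul_right _ (by omega)
    omega
  have hB1 : 2 * d < B := by
    have : 1 * d ≤ (2 * m + 4) * d := Nat.mul_le_mul_right _ (by omega)
    omega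
  have hE : B * (d4 + d5) + 4 * d < E := by omega
  have hD : 2 * (B * (d4 + d5)) + 4 * d + E < D := by omega
  have hDI : I0 ≤ D := by omega
  obtain ⟨hW1, hW2⟩ := C5_W hq0 c v B D d hV hB1
  have hKM : K * (n1 (toLaurent c) + n1 (toLaurent Ψ)) ≤ M := by
    rw [hM_def, hnc]
    linarith
  refine ⟨UP c Ψ v B E D, X ^ D * (c * Polynomial.expand ℂ B v),
    fun i => Pr (muP (a i) c Ψ R' (e i) (Φ i) F B E D m), ?_, ?_, ?_, ?_⟩
  · intro j hj
    exact hW2 j (by omega)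
  · rw [hW1]
    calc Sn q v * Sn q c ≤ 1 * Sn q c := mul_le_mul_of_nonneg_right hv (Sn_nonneg _ _)
      _ = Sn q c := one_mul _
  · have h1 : UP c Ψ v B E D - c - X ^ D * (c * Polynomial.expand ℂ B v) = X ^ E * Ψ := by
      unfold UP
      ring
    rw [h1, Sn_X_pow_mul]
    exact hΨκ
  · intro i
    refine ⟨?_, ?_⟩
    · have h1 : Pr (muP (a i) c Ψ R' (e i) (Φ i) F B E D m) - a i =
          Pr (muP (a i) c Ψ R' (e i) (Φ i) F B E D m - inv (a i)) := by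
        rw [Pr_sub, Pr_inv]
      rw [h1]
      refine (Sn_Pr_le hp0 _).trans (np_le_of_nr_le hp0 ?_)
      refine (C4_p hp1 (a i) c Ψ R' (e i) (Φ i) F B E D m d hV hΨd hRd (hed i) (hΦd i) hB4 hR1
        hKM hM hε1 hF0 hF1 hF2).trans ?_
      have k1 : ε * (K * n1 (e i)) ≤ τ / 3 := by
        calc ε * (K * n1 (e i)) ≤ ε * (K * nE) :=
              mul_le_mul_of_nonneg_left (mul_le_mul_of_nonneg_left (hnEi i) hK0) hε0.le
          _ ≤ (τ / (3 * (K * nE + 1))) * (K * nE + 1) := by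
              have : 0 ≤ K * nE := mul_nonneg hK0 hnE0
              exact mul_le_mul hε2 (by linarith) this (by positivity)
          _ = τ / 3 := by
              have : K * nE + 1 ≠ 0 := by positivity
              field_simp
      have k2 : ε * n1 (Φ i) ≤ τ / 3 := by
        calc ε * n1 (Φ i) ≤ (τ / (3 * (nF + 1))) * (nF + 1) :=
              mul_le_mul hε3 (by linarith [hnFi i]) (n1_nonneg _) (by positivity)
          _ = τ / 3 := by
              have : nF + 1 ≠ 0 := by positivity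
              field_simp
      have k3 : 2 * (K * nr p (toLaurent Ψ * Φ i - e i)) ≤ τ / 3 := by
        calc 2 * (K * nr p (toLaurent Ψ * Φ i - e i))
            ≤ 2 * (K * (τ / (3 * (2 * K + 1)))) := by
              have := mul_le_mul_of_nonneg_left (hΦ i).2 hK0
              linarith
          _ = (2 * K) * (τ / (3 * (2 * K + 1))) := by ring
          _ ≤ (2 * K + 1) * (τ / (3 * (2 * K + 1))) :=
              mul_le_mul_of_nonneg_right (by linarith) (by positivity)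
          _ = τ / 3 := by
              have : 2 * K + 1 ≠ 0 := by positivity
              field_simp
      linarith [hΦκ i]
    · have h1 : Tp (UP c Ψ v B E D)
          (fun n => (Pr (muP (a i) c Ψ R' (e i) (Φ i) F B E D m)).coeff n) =
          fun j => (Pr (smP c Ψ R' (e i) (Φ i) F B E D m)).coeff j := by
        funext j
        rw [Tp_Pr, C1 (a i) c Ψ v R' (e i) (Φ i) F B E D m d (d4 + d5) hF (he i) hV hΨd hRd
          (hed i) (hΦd i) (had i) hvd hFd hE hD]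
      have h2 : nr 2 (smP c Ψ R' (e i) (Φ i) F B E D m) ≤ √δ := by
        refine (C4_two c Ψ R' (e i) (Φ i) F B E D m d hV hΨd hRd (hΦd i) hB2 hR1
          hKM hM hF3 hR2).trans ?_
        have k1 : n1 (e i) + n1 (F 0) * (n1 (toLaurent Ψ) * n1 (Φ i)) +
            ∑ j ∈ range m, n1 (F (j + 1)) * (M ^ j * n1 (Φ i)) *
              (n1 (toLaurent c) + n1 (toLaurent Ψ)) ≤ S := by
          rw [hS_def]
          refine add_le_add (add_le_add (hnEi i) ?_) ?_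
          · exact mul_le_mul_of_nonneg_left
              (mul_le_mul_of_nonneg_left (hnFi i) (n1_nonneg _)) (n1_nonneg _)
          · refine Finset.sum_le_sum fun j _ => ?_
            exact mul_le_mul_of_nonneg_right (mul_le_mul_of_nonneg_left
              (mul_le_mul_of_nonneg_left (hnFi i) (pow_nonneg hM0 _)) (n1_nonneg _)) hnc0
        have k2 : √δ / (2 * (S + 1)) * (n1 (e i) + n1 (F 0) * (n1 (toLaurent Ψ) * n1 (Φ i)) +
            ∑ j ∈ range m, n1 (F (j + 1)) * (M ^ j * n1 (Φ i)) *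
              (n1 (toLaurent c) + n1 (toLaurent Ψ))) ≤ √δ / 2 := by
          calc _ ≤ √δ / (2 * (S + 1)) * (S + 1) :=
                mul_le_mul_of_nonneg_left (by linarith) (by positivity)
            _ = √δ / 2 := by
                have : S + 1 ≠ 0 := by positivity
                field_simp
        have k3 : ε * ((n1 (toLaurent c) + n1 (toLaurent Ψ)) * n1 (Φ i)) ≤ √δ / 2 := by
          calc ε * ((n1 (toLaurent c) + n1 (toLaurent Ψ)) * n1 (Φ i))
              ≤ (√δ / (2 * (nc * nF + 1))) * (nc * nF + 1) := by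
                refine mul_le_mul hε4 ?_ (mul_nonneg hnc0 (n1_nonneg _)) (by positivity)
                have := mul_le_mul_of_nonneg_left (hnFi i) hnc0
                linarith
            _ = √δ / 2 := by
                have : nc * nF + 1 ≠ 0 := by positivity
                field_simp
        linarith
      have h3 := Sle_Pr (r := 2) (by norm_num) h2
      have h4 : (√δ) ^ (2 : ℝ) = δ := by
        rw [Real.rpow_two, Real.sq_sqrt hδ.le]
      rw [h4] at h3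
      rw [h1]
      exact h3

end DC8965.P2
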