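import Pool.Agent.Lib.MP_dc8965_an.BT.Basic

/-!
# MP_dc8965_an, `2 < p`: (C6) the dilation `c ↦ c(r X)`
-/

open Finset Polynomial

namespace DC8965.P2

open DC8965.BT

/-- `c(s X)` -/
noncomputable def scl (s : ℂ) (c : ℂ[X]) : ℂ[X] := c.comp (C s * X)

lemma coeff_scl (s : ℂ) (c : ℂ[X]) (n : ℕ) : (scl s c).coeff n = s ^ n * c.coeff n := by
  rw [scl, Polynomial.comp_C_mul_X_coeff, mul_comm]

private lemma support_scl (s : ℂ) (c : ℂ[X]) : (scl s c).support ⊆ c.support := by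
  intro k hk
  rw [Polynomial.mem_support_iff, coeff_scl] at hk
  rw [Polynomial.mem_support_iff]
  exact fun h => hk (by rw [h, mul_zero])

/-- `T_{c(sX)} a(X/s) (j) = s^(-j) T_c a (j)` -/
lemma Tp_scl {s : ℂ} (hs : s ≠ 0) (c a : ℂ[X]) (j : ℕ) :
    Tp (scl s c) (fun n => (scl s⁻¹ a).coeff n) j = (s⁻¹) ^ j * Tp c (fun n => a.coeff n) j := by
  rw [Tp_sum_of_support_subset _ _ j c.support (support_scl s c), Tp, Finset.mul_sum]
  refine Finset.sum_congr rfl fun k _ => ?_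
  have h1 : s ^ k * (s⁻¹) ^ k = 1 := by rw [← mul_pow, mul_inv_cancel₀ hs, one_pow]
  show (scl s c).coeff k * (scl s⁻¹ a).coeff (j + k) = (s⁻¹) ^ j * (c.coeff k * a.coeff (j + k))
  rw [coeff_scl, coeff_scl, pow_add]
  linear_combination ((s⁻¹) ^ j * (c.coeff k * a.coeff (j + k))) * h1

/-- the set of `s > 0` such that `c(sX)` has a zero on the unit circle is finite (it is contained in the image of the
roots of `c` under the norm), so for every `η > 0` there is `s ∈ (1, 1 + η)` such that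
`c(sX)` has no zero on the circle. -/
lemma exists_scl {c : ℂ[X]} (hc : c ≠ 0) {η : ℝ} (hη : 0 < η) :
    ∃ s : ℝ, 1 < s ∧ s < 1 + η ∧ ∀ z : ℂ, ‖z‖ = 1 → (scl (s : ℂ) c).eval z ≠ 0 := by
  classical
  obtain ⟨s, hs, hsn⟩ := (Set.Ioo_infinite (show (1 : ℝ) < 1 + η by linarith)).exists_notMem_finset
    (c.roots.toFinset.image fun w => ‖w‖)
  refine ⟨s, hs.1, hs.2, fun z hz h0 => hsn ?_⟩
  rw [Finset.mem_image]
  refine ⟨(s : ℂ) * z, ?_, ?_⟩
  · rw [Multiset.mem_toFinset, Polynomial.mem_roots hc, Polynomial.IsRoot.def]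
    rw [scl, Polynomial.eval_comp] at h0
    simpa using h0
  · rw [norm_mul, hz, mul_one, Complex.norm_real, Real.norm_of_nonneg (by linarith [hs.1])]

private lemma Sn_scl {r : ℝ} (hr : 0 < r) (s : ℂ) (c : ℂ[X]) :
    Sn r (scl s c) = ∑ k ∈ c.support, ‖s ^ k * c.coeff k‖ ^ r := by
  rw [Sn_eq_sum hr _ c.support (support_scl s c)]
  exact Finset.sum_congr rfl fun k _ => by rw [coeff_scl]

private lemma Sn_scl_sub {r : ℝ} (hr : 0 < r) (s : ℂ) (c : ℂ[X]) :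
    Sn r (scl s c - c) = ∑ k ∈ c.support, ‖s ^ k * c.coeff k - c.coeff k‖ ^ r := by
  rw [Sn_eq_sum hr _ c.support]
  · exact Finset.sum_congr rfl fun k _ => by rw [Polynomial.coeff_sub, coeff_scl]
  · intro k hk
    rw [Polynomial.mem_support_iff, Polynomial.coeff_sub, coeff_scl] at hk
    rw [Polynomial.mem_support_iff]
    exact fun h => hk (by rw [h, mul_zero, sub_zero])

private lemma C6_key {r : ℝ} (hr : 0 < r) (c : ℂ[X]) {F : ℝ → ℂ}
    (hF : Filter.Tendsto F (nhds 1) (nhds 1)) :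
    Filter.Tendsto (fun s : ℝ => Sn r (scl (F s) c)) (nhds 1) (nhds (Sn r c)) := by
  simp only [Sn_scl hr]
  rw [Sn]
  refine tendsto_finsetSum _ fun k _ => ?_
  have h1 : Filter.Tendsto (fun s : ℝ => ‖F s ^ k * c.coeff k‖) (nhds 1) (nhds ‖c.coeff k‖) := by
    have h2 := ((hF.pow k).mul_const (c.coeff k)).norm
    rwa [one_pow, one_mul] at h2
  exact h1.rpow_const (Or.inr hr.le)

private lemma C6_key_sub {r : ℝ} (hr : 0 < r) (c : ℂ[X]) {F : ℝ → ℂ}
    (hF : Filter.Tendsto F (nhds 1) (nhds 1)) :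
    Filter.Tendsto (fun s : ℝ => Sn r (scl (F s) c - c)) (nhds 1) (nhds 0) := by
  simp only [Sn_scl_sub hr]
  have h0 : (0 : ℝ) = ∑ k ∈ c.support, (0 : ℝ) := by simp
  rw [h0]
  refine tendsto_finsetSum _ fun k _ => ?_
  have h1 : Filter.Tendsto (fun s : ℝ => ‖F s ^ k * c.coeff k - c.coeff k‖) (nhds 1) (nhds 0) := by
    have h2 := (((hF.pow k).mul_const (c.coeff k)).sub_const (c.coeff k)).norm
    rwa [one_pow, one_mul, sub_self, norm_zero] at h2
  have h3 := h1.rpow_const (p := r) (Or.inr hr.le)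
  rwa [Real.zero_rpow hr.ne'] at h3

private lemma C6_id : Filter.Tendsto (fun s : ℝ => (s : ℂ)) (nhds 1) (nhds 1) := by
  have h := (Complex.continuous_ofReal.tendsto 1)
  rwa [Complex.ofReal_one] at h

private lemma C6_inv : Filter.Tendsto (fun s : ℝ => (s : ℂ)⁻¹) (nhds 1) (nhds 1) := by
  have h := C6_id.inv₀ one_ne_zero
  rwa [inv_one] at h

/-- continuity at `s = 1` -/
lemma tendsto_Sn_scl {r : ℝ} (hr : 0 < r) (c : ℂ[X]) :
    Filter.Tendsto (fun s : ℝ => Sn r (scl (s : ℂ) c)) (nhds 1) (nhds (Sn r c)) :=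
  C6_key hr c C6_id

lemma tendsto_Sn_scl_inv {r : ℝ} (hr : 0 < r) (c : ℂ[X]) :
    Filter.Tendsto (fun s : ℝ => Sn r (scl ((s : ℂ)⁻¹) c)) (nhds 1) (nhds (Sn r c)) :=
  C6_key hr c C6_inv

lemma tendsto_Sn_scl_sub {r : ℝ} (hr : 0 < r) (c : ℂ[X]) :
    Filter.Tendsto (fun s : ℝ => Sn r (scl (s : ℂ) c - c)) (nhds 1) (nhds 0) :=
  C6_key_sub hr c C6_id

lemma tendsto_Sn_scl_inv_sub {r : ℝ} (hr : 0 < r) (c : ℂ[X]) :
    Filter.Tendsto (fun s : ℝ => Sn r (scl ((s : ℂ)⁻¹) c - c)) (nhds 1) (nhds 0) :=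
  C6_key_sub hr c C6_inv

end DC8965.P2
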