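import Pool.Agent.Lib.MP_dc8965_an.P2.B5

/-!
# MP_dc8965_an, `2 < p`: the construction

`V` is the given polynomial `c`, `T E`, `T D` the far shifts, `F_j` the gadget. `muP` is the two sided sequence whose
part with exponents `≤ 0` is the solution, `UP` the polynomial.
-/

open Finset Polynomial
open scoped LaurentPolynomial

namespace DC8965.P2

/-- `U = V + X^E Ψ + X^D V v(X^B)` -/
noncomputable def UP (V Ψ v : ℂ[X]) (B E D : ℕ) : ℂ[X] :=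
  V + X ^ E * Ψ + X ^ D * (V * Polynomial.expand ℂ B v)

/-- `X_(j+1) = (-1)^j T^(-E) F_(j+1)(T^B) (R (V + T^E Ψ))^j Φ` -/
noncomputable def Xj (V Ψ : ℂ[X]) (R Φ : ℂ[T;T⁻¹]) (F : ℕ → ℂ[T;T⁻¹]) (B E : ℕ) (j : ℕ) : ℂ[T;T⁻¹] :=
  (-1) ^ j * (LaurentPolynomial.T (-(E : ℤ)) * (dil B (F (j + 1)) *
    ((toLaurent V + LaurentPolynomial.T (E : ℤ) * toLaurent Ψ) ^ j * (R ^ j * Φ))))

/-- `X_0 = F_0(T^B) (R Ψ Φ - T^(-E) Φ)` -/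
noncomputable def X0 (Ψ : ℂ[X]) (R Φ : ℂ[T;T⁻¹]) (F : ℕ → ℂ[T;T⁻¹]) (B E : ℕ) : ℂ[T;T⁻¹] :=
  dil B (F 0) * (R * toLaurent Ψ * Φ - LaurentPolynomial.T (-(E : ℤ)) * Φ)

/-- `μ = inv a - R e + X_0 + ∑_{j ≤ m} T^(-(j+1)D) X_(j+1)` -/
noncomputable def muP (a V Ψ : ℂ[X]) (R e Φ : ℂ[T;T⁻¹]) (F : ℕ → ℂ[T;T⁻¹]) (B E D m : ℕ) :
    ℂ[T;T⁻¹] :=
  inv a - R * e + X0 Ψ R Φ F B E +
    ∑ j ∈ range (m + 1), LaurentPolynomial.T (-((j + 1 : ℕ) * D : ℤ)) * Xj V Ψ R Φ F B E j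

/-- the small terms of `U μ` -/
noncomputable def smP (V Ψ : ℂ[X]) (R e Φ : ℂ[T;T⁻¹]) (F : ℕ → ℂ[T;T⁻¹]) (B E D m : ℕ) :
    ℂ[T;T⁻¹] :=
  (1 - toLaurent V * R) * e - dil B (F 0) * ((1 - toLaurent V * R) * (toLaurent Ψ * Φ)) +
    (∑ j ∈ range m, LaurentPolynomial.T (-((j + 1 : ℕ) * D : ℤ)) *
      (Xj V Ψ R Φ F B E j * ((1 - toLaurent V * R) *
        (toLaurent V + LaurentPolynomial.T (E : ℤ) * toLaurent Ψ)))) +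
    LaurentPolynomial.T (-((m + 1 : ℕ) * D : ℤ)) *
      ((toLaurent V + LaurentPolynomial.T (E : ℤ) * toLaurent Ψ) * Xj V Ψ R Φ F B E m)

end DC8965.P2
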