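import Pool.Agent.Lib.MP_dc8965_an.P2.C5
import Pool.Agent.Lib.MP_dc8965_an.P2.C6

/-!
# MP_dc8965_an, `2 < p`: the core
-/

open Finset Polynomial

namespace DC8965.P2

open DC8965.BT

/-- Minkowski for three summands of small norm (`BT.Sle.add`, `Sle_coeff_iff`; as `hmink` in `BT/F1.lean`). -/
lemma Sn_add_le_of {r ε : ℝ} (hr : 1 ≤ r) (hε : 0 < ε) {f g : ℂ[X]} (hf : Sn r f ≤ ε / 2 ^ r)
    (hg : Sn r g ≤ ε / 2 ^ r) : Sn r (f + g) ≤ ε := by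
  have hr0 : 0 < r := by linarith
  have h1 : (ε ^ (1 / r) / 2) ^ r = ε / 2 ^ r := by
    rw [Real.div_rpow (by positivity) (by norm_num), ← Real.rpow_mul hε.le,
      one_div_mul_cancel hr0.ne', Real.rpow_one]
  have h2 : (ε ^ (1 / r) / 2 + ε ^ (1 / r) / 2) ^ r = ε := by
    rw [add_halves, ← Real.rpow_mul hε.le, one_div_mul_cancel hr0.ne', Real.rpow_one]
  have h3 := Sle.add hr (A := ε ^ (1 / r) / 2) (B := ε ^ (1 / r) / 2) (by positivity)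
    (by positivity) (f := fun n => f.coeff n) (g := fun n => g.coeff n)
    (by rw [h1]; exact (Sle_coeff_iff hr0 f).mpr hf)
    (by rw [h1]; exact (Sle_coeff_iff hr0 g).mpr hg)
  rw [h2] at h3
  rw [← Sle_coeff_iff hr0]
  simpa only [Polynomial.coeff_add] using h3

private lemma exists_kappa {p q ε : ℝ} (hp : 0 < p) (hε : 0 < ε) :
    ∃ κ : ℝ, 0 < κ ∧ 2 * κ ≤ ε / 2 ^ q ∧ (4 * (2 * κ) ^ (1 / p) + κ) ^ p ≤ ε / 2 ^ p := by
  have hq2 : (0 : ℝ) < ε / 2 ^ q := by positivity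
  have hp2 : (0 : ℝ) < ε / 2 ^ p := by positivity
  have c1 : Continuous fun κ : ℝ => 2 * κ := by fun_prop
  have c2 : Continuous fun κ : ℝ => (4 * (2 * κ) ^ (1 / p) + κ) ^ p :=
    (((c1.rpow_const fun _ => Or.inr (by positivity)).const_mul 4).add continuous_id).rpow_const
      fun _ => Or.inr hp.le
  have t1 := c1.tendsto 0
  have t2 := c2.tendsto 0
  rw [mul_zero] at t1
  rw [mul_zero, Real.zero_rpow (by positivity), mul_zero, add_zero, Real.zero_rpow hp.ne'] at t2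
  have e1 := t1.eventually_lt_const hq2
  have e2 := t2.eventually_lt_const hp2
  obtain ⟨κ, ⟨h1, h2⟩, h3⟩ :=
    (((e1.and e2).filter_mono nhdsWithin_le_nhds).and
      (self_mem_nhdsWithin (a := (0 : ℝ)) (s := Set.Ioi 0))).exists
  exact ⟨κ, h3, h1.le, h2.le⟩

/-- THE CORE.

Proof. If `c = 0` take `U = 0`, `W = 0`, `g = a` (`Tp 0 = 0`, `Sle_zero`); this works for every `κ`.
`κ` is such that `2 κ ≤ ε / 2^q` and `(4 (2κ)^(1/p) + κ)^p ≤ ε / 2^p` (both small as `κ → 0`, e.g. choose `κ ≤ 1/2` and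
`9 κ^(1/p) ≤ ε^(1/p)/2`, since `κ ≤ κ^(1/p)` for `κ ≤ 1`).
For `c ≠ 0` choose (`exists_scl`, continuity) `s > 1` close to `1` such that `c_s = c(sX)` has no zero on the circle and,
with `a_s = a(X/s)`, `ψ_s = ψ(sX)`, `φ_s = φ(X/s)`: `∑ Sn q ψ_s ≤ 2κ`, `∑ Sn p φ_s ≤ 2κ`, `Sn q c_s ≤ Sn q c + 1`,
`Sn q (c_s - c) ≤ ε / 2^q`, `Sn p (a_s i - a i) ≤ ε / 2^p`. By `Tp_scl` the relation holds for the dilated data (multiply
both sides by `s^(-j)`). `core0` with `2κ`, `τ = κ`. `U - c - W = (U - c_s - W) + (c_s - c)`,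
`g i - a i = (g i - a_s i) + (a_s i - a i)`: `Sn_add_le_of`. -/
theorem core {p q : ℝ} (hpq : p.HolderConjugate q) (hp : 2 < p) {ε : ℝ} (hε : 0 < ε) :
    ∃ κ : ℝ, 0 < κ ∧ ∀ {k R : ℕ} (c : ℂ[X]) (a : Fin k → ℂ[X]) (ι : Fin R → Fin k)
      (ψ φ : Fin R → ℂ[X]),
      (∀ i j, Tp c (fun n => (a i).coeff n) j =
        ∑ α, if ι α = i then Tp (ψ α) (fun n => (φ α).coeff n) j else 0) →
      ∑ α, Sn q (ψ α) ≤ κ → ∑ α, Sn p (φ α) ≤ κ → ∀ (I0 : ℕ) {δ : ℝ}, 0 < δ →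
      ∃ (U W : ℂ[X]) (g : Fin k → ℂ[X]), (∀ j < I0, W.coeff j = 0) ∧ Sn q W ≤ Sn q c + 1 ∧
        Sn q (U - c - W) ≤ ε ∧ ∀ i, Sn p (g i - a i) ≤ ε ∧
          Sle 2 (Tp U (fun n => (g i).coeff n)) δ := by
  have hp0 : 0 < p := by linarith
  have hp1 : 1 ≤ p := by linarith
  have hq1 : 1 ≤ q := hpq.symm.lt.le
  have hq0 : 0 < q := by linarith
  obtain ⟨κ, hκ, hκq, hκp⟩ := exists_kappa (p := p) (q := q) hp0 hε
  refine ⟨κ, hκ, fun {k R} c a ι ψ φ hrel hψ hφ I0 δ hδ => ?_⟩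
  by_cases hc : c = 0
  · subst hc
    refine ⟨0, 0, a, fun j _ => by simp, ?_, ?_, fun i => ⟨?_, ?_⟩⟩
    · rw [Sn_zero]
      norm_num
    · rw [sub_zero, sub_zero, Sn_zero]
      exact hε.le
    · rw [sub_self, Sn_zero]
      exact hε.le
    · rw [Tp_zero_left]
      exact Sle_zero (by norm_num) hδ.le
  have k1 : ∀ᶠ s : ℝ in nhds 1, ∑ α, Sn q (scl (s : ℂ) (ψ α)) < 2 * κ := by
    refine (tendsto_finsetSum Finset.univ fun α _ =>
      tendsto_Sn_scl hq0 (ψ α)).eventually_lt_const ?_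
    linarith
  have k2 : ∀ᶠ s : ℝ in nhds 1, ∑ α, Sn p (scl ((s : ℂ)⁻¹) (φ α)) < 2 * κ := by
    refine (tendsto_finsetSum Finset.univ fun α _ =>
      tendsto_Sn_scl_inv hp0 (φ α)).eventually_lt_const ?_
    linarith
  have k3 : ∀ᶠ s : ℝ in nhds 1, Sn q (scl (s : ℂ) c) < Sn q c + 1 :=
    (tendsto_Sn_scl hq0 c).eventually_lt_const (by linarith)
  have k4 : ∀ᶠ s : ℝ in nhds 1, Sn q (scl (s : ℂ) c - c) < ε / 2 ^ q :=
    (tendsto_Sn_scl_sub hq0 c).eventually_lt_const (by positivity)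
  have k5 : ∀ᶠ s : ℝ in nhds 1, ∀ i, Sn p (scl ((s : ℂ)⁻¹) (a i) - a i) < ε / 2 ^ p :=
    Filter.eventually_all.2 fun i =>
      (tendsto_Sn_scl_inv_sub hp0 (a i)).eventually_lt_const (by positivity)
  obtain ⟨η, hη, hall⟩ := Metric.eventually_nhds_iff.1
    (k1.and (k2.and (k3.and (k4.and k5))))
  obtain ⟨s, hs1, hs2, hz⟩ := exists_scl hc hη
  obtain ⟨l1, l2, l3, l4, l5⟩ := hall (y := s) (by
    rw [Real.dist_eq, abs_of_pos (by linarith)]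
    linarith)
  have hs0 : (s : ℂ) ≠ 0 := by
    rw [Ne, Complex.ofReal_eq_zero]
    linarith
  have hcs : scl (s : ℂ) c ≠ 0 := by
    intro h0
    apply hz 1 norm_one
    rw [h0, Polynomial.eval_zero]
  have hrel' : ∀ i j, Tp (scl (s : ℂ) c) (fun n => (scl ((s : ℂ)⁻¹) (a i)).coeff n) j =
      ∑ α, if ι α = i then
        Tp (scl (s : ℂ) (ψ α)) (fun n => (scl ((s : ℂ)⁻¹) (φ α)).coeff n) j else 0 := by
    intro i j
    rw [Tp_scl hs0, hrel i j, Finset.mul_sum]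
    refine Finset.sum_congr rfl fun α _ => ?_
    rw [Tp_scl hs0, mul_ite, mul_zero]
  obtain ⟨U, W, g, hW0, hWn, hUn, hg⟩ := core0 hpq hp (scl (s : ℂ) c) hcs hz
    (fun i => scl ((s : ℂ)⁻¹) (a i)) ι (fun α => scl (s : ℂ) (ψ α))
    (fun α => scl ((s : ℂ)⁻¹) (φ α)) hrel' (κ := 2 * κ) (by positivity) l1.le l2.le I0 hδ hκ
  refine ⟨U, W, g, hW0, hWn.trans l3.le, ?_, fun i => ⟨?_, (hg i).2⟩⟩
  · have h1 : U - c - W = (U - scl (s : ℂ) c - W) + (scl (s : ℂ) c - c) := by ring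
    rw [h1]
    exact Sn_add_le_of hq1 hε (hUn.trans hκq) l4.le
  · have h1 : g i - a i = (g i - scl ((s : ℂ)⁻¹) (a i)) + (scl ((s : ℂ)⁻¹) (a i) - a i) := by
      ring
    rw [h1]
    exact Sn_add_le_of hp1 hε ((hg i).1.trans hκp) (l5 i).le

end DC8965.P2
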