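import Mathlib
import Pool.Agent.Lib.MP_dc8965_an.BT.Basic

/-!
# MP_dc8965_an, the range `2 < p`: definitions

`np r f = ∑ ‖f_g‖^r`, `nr r f = (np r f)^(1/r)`, `n1 f = ∑ ‖f_g‖` for a finite sum `f` over a group `G`
(`AddMonoidAlgebra ℂ G`; `ℂ[T;T⁻¹] = AddMonoidAlgebra ℂ ℤ`).
`Pr f` is the polynomial `n ↦ f_(-n)`, `n ≥ 0`; `inv a = ∑ a_n T^(-n)`; `dil B f = f(T^B)`.
-/

open Finset Polynomial
open scoped LaurentPolynomial

namespace DC8965.P2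

variable {G : Type*}

/-- `∑_g ‖f_g‖^r` -/
noncomputable def np (r : ℝ) (f : AddMonoidAlgebra ℂ G) : ℝ :=
  ∑ g ∈ f.coeff.support, ‖f.coeff g‖ ^ r

/-- the `ℓ^r` norm of the coefficients -/
noncomputable def nr (r : ℝ) (f : AddMonoidAlgebra ℂ G) : ℝ := (np r f) ^ (1 / r)

/-- the `ℓ^1` norm of the coefficients -/
noncomputable def n1 (f : AddMonoidAlgebra ℂ G) : ℝ := ∑ g ∈ f.coeff.support, ‖f.coeff g‖

/-- the part with exponents `≤ 0`, as a polynomial: `(Pr f)_n = f_(-n)` -/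
noncomputable def Pr (f : ℂ[T;T⁻¹]) : ℂ[X] := LaurentPolynomial.trunc (LaurentPolynomial.invert f)

/-- `∑ a_n T^(-n)` -/
noncomputable def inv (a : ℂ[X]) : ℂ[T;T⁻¹] := LaurentPolynomial.invert (toLaurent a)

/-- `f(T^B)` -/
noncomputable def dil (B : ℤ) : ℂ[T;T⁻¹] →+* ℂ[T;T⁻¹] :=
  AddMonoidAlgebra.mapDomainRingHom ℂ (AddMonoidHom.mulLeft B)

/-- all exponents of `f` lie in `[-D, D]` -/
def Wd (D : ℤ) (f : ℂ[T;T⁻¹]) : Prop := ∀ n : ℤ, f.coeff n ≠ 0 → -D ≤ n ∧ n ≤ D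

end DC8965.P2
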