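import Pool.Agent.Lib.MP_dc8965_an.P2.Core
import Pool.Agent.Lib.MP_dc8965_an.BT.A5
import Pool.Agent.Lib.MP_dc8965_an.RS.R6

/-!
# MP_dc8965_an, `2 < p`: (F1') the theorem on sequences
-/

open Finset Polynomial

namespace DC8965.P2

open DC8965.BT

/-- (F1') the theorem on sequences for `2 < p` (compare `BT.F1`; `U` is close to `c` only up to a bounded polynomial
`W` living beyond `I0`).

Proof: as `BT/F1.lean` (copy it), with `core` instead of `C2` and `BT.R6` instead of `E6`.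
`ε₁ = min (ε/2^q) (ε/2^p)`, `δ` from `R6` for `ε₁`, `κ₀` from `core` for `ε₁`, `κ = κ₀ / (2 (k+1))`; (A5) for every `i` with
`b = Tp c (a i).coeff`, put the families together (`finSigmaFinEquiv`); `core` with `I0` and `δ` gives `V, W, g`
(`Sn q (V - c - W) ≤ ε₁`), `R6` gives `U, x` for `V, g`; `U - c - W = (U - V) + (V - c - W)` and
`x i - a i = (x i - g i) + (g i - a i)` by Minkowski. -/
theorem F1p {p q : ℝ} (hpq : p.HolderConjugate q) (hp : 2 < p) (k : ℕ) {ε : ℝ} (hε : 0 < ε) :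
    ∃ κ : ℝ, 0 < κ ∧ ∀ (c : ℂ[X]) (a : Fin k → ℂ[X]),
      (∀ i, ∀ (v : ℂ[X]) (B : ℝ), 0 ≤ B → MB p v B →
        ‖∑ j ∈ v.support, v.coeff j * Tp c (fun n => (a i).coeff n) j‖ ≤ κ * B) → ∀ I0 : ℕ,
      ∃ (U W : ℂ[X]) (x : Fin k → ℕ → ℂ), U ≠ 0 ∧ U.roots.Nodup ∧ U.eval 0 ≠ 0 ∧
        (∀ i, Tp U (x i) = 0) ∧ (∀ j < I0, W.coeff j = 0) ∧ Sn q W ≤ Sn q c + 1 ∧
        Sn q (U - c - W) ≤ ε ∧
        ∀ i, (Summable fun n => ‖x i n‖) ∧ Sle p (fun n => x i n - (a i).coeff n) ε := by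
  classical
  have hp0 : 0 < p := hpq.pos
  have hq0 : 0 < q := hpq.symm.pos
  have hp1 : 1 ≤ p := hpq.lt.le
  have hq1 : 1 ≤ q := hpq.symm.lt.le
  set ε₁ : ℝ := min (ε / 2 ^ q) (ε / 2 ^ p) with hε₁
  have hε₁0 : 0 < ε₁ := lt_min (by positivity) (by positivity)
  obtain ⟨δ, hδ, hR6⟩ := R6 hpq hp k hε₁0
  obtain ⟨κ₀, hκ₀, hcore⟩ := core hpq hp hε₁0
  set κ : ℝ := κ₀ / (2 * (k + 1)) with hκ
  have hκ0 : 0 < κ := by positivity
  have hκk : (k : ℝ) * (κ + κ) ≤ κ₀ := by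
    have h1 : (k : ℝ) * (κ + κ) = κ₀ * (k / (k + 1)) := by
      rw [hκ]
      field_simp
      ring
    rw [h1]
    have h2 : (k : ℝ) / (k + 1) ≤ 1 := by
      rw [div_le_one (by positivity)]
      linarith
    calc κ₀ * ((k : ℝ) / (k + 1)) ≤ κ₀ * 1 := mul_le_mul_of_nonneg_left h2 hκ₀.le
      _ = κ₀ := mul_one _
  refine ⟨κ, hκ0, fun c a h I0 => ?_⟩
  have hA5 : ∀ i : Fin k, ∃ (R : ℕ) (ψ φ : Fin R → ℂ[X]),
      (∀ j, Tp c (fun n => (a i).coeff n) j = ∑ α, Tp (ψ α) (fun n => (φ α).coeff n) j) ∧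
      ∑ α, Sn q (ψ α) ≤ κ + κ ∧ ∑ α, Sn p (φ α) ≤ κ + κ := by
    intro i
    have hz : ∀ j, (a i).natDegree + 1 ≤ j → Tp c (fun n => (a i).coeff n) j = 0 := by
      intro j hj
      refine Tp_eq_zero_of_ge c (n := (a i).natDegree + 1) (fun k hk => ?_) hj
      exact Polynomial.coeff_eq_zero_of_natDegree_lt (by omega)
    refine A5 hpq (n := (a i).natDegree + 1) _ hz hκ0 (fun v B hB hv => ?_) hκ0
    have h1 : ∑ j ∈ range ((a i).natDegree + 1), v.coeff j * Tp c (fun n => (a i).coeff n) j =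
        ∑ j ∈ v.support, v.coeff j * Tp c (fun n => (a i).coeff n) j := by
      have h2 : ∑ j ∈ range ((a i).natDegree + 1), v.coeff j * Tp c (fun n => (a i).coeff n) j =
          ∑ j ∈ range ((a i).natDegree + 1) ∪ v.support,
            v.coeff j * Tp c (fun n => (a i).coeff n) j := by
        refine Finset.sum_subset subset_union_left fun j _ hj => ?_
        rw [hz j (by simpa using hj), mul_zero]
      have h3 : ∑ j ∈ v.support, v.coeff j * Tp c (fun n => (a i).coeff n) j =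
          ∑ j ∈ range ((a i).natDegree + 1) ∪ v.support,
            v.coeff j * Tp c (fun n => (a i).coeff n) j := by
        refine Finset.sum_subset subset_union_right fun j _ hj => ?_
        rw [Polynomial.notMem_support_iff.mp hj, zero_mul]
      rw [h2, h3]
    rw [h1]
    exact h i v B hB hv
  choose R ψ φ hψφ hSψ hSφ using hA5
  set e : ((i : Fin k) × Fin (R i)) ≃ Fin (∑ i, R i) := finSigmaFinEquiv with he
  have htr : ∀ {M : Type} [AddCommMonoid M] (F : (i : Fin k) → Fin (R i) → M),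
      ∑ α : Fin (∑ i, R i), F (e.symm α).1 (e.symm α).2 = ∑ i, ∑ β, F i β := by
    intro M _ F
    rw [← Fintype.sum_sigma' (f := F)]
    exact Fintype.sum_equiv e.symm _ _ fun α => rfl
  have hψt : ∑ α : Fin (∑ i, R i), Sn q (ψ (e.symm α).1 (e.symm α).2) ≤ κ₀ := by
    rw [htr (fun i β => Sn q (ψ i β))]
    calc ∑ i, ∑ β, Sn q (ψ i β) ≤ ∑ _i : Fin k, (κ + κ) := Finset.sum_le_sum fun i _ => hSψ i
      _ = (k : ℝ) * (κ + κ) := by
        rw [Finset.sum_const, Finset.card_univ, Fintype.card_fin, nsmul_eq_mul]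
      _ ≤ κ₀ := hκk
  have hφt : ∑ α : Fin (∑ i, R i), Sn p (φ (e.symm α).1 (e.symm α).2) ≤ κ₀ := by
    rw [htr (fun i β => Sn p (φ i β))]
    calc ∑ i, ∑ β, Sn p (φ i β) ≤ ∑ _i : Fin k, (κ + κ) := Finset.sum_le_sum fun i _ => hSφ i
      _ = (k : ℝ) * (κ + κ) := by
        rw [Finset.sum_const, Finset.card_univ, Fintype.card_fin, nsmul_eq_mul]
      _ ≤ κ₀ := hκk
  have hrel : ∀ i j, Tp c (fun n => (a i).coeff n) j =
      ∑ α : Fin (∑ i, R i), if (e.symm α).1 = i then Tp (ψ (e.symm α).1 (e.symm α).2)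
        (fun n => (φ (e.symm α).1 (e.symm α).2).coeff n) j else 0 := by
    intro i j
    have h3 := htr (fun i' β => if i' = i then Tp (ψ i' β) (fun n => (φ i' β).coeff n) j else 0)
    have h4 : (∑ i', ∑ β, if i' = i then Tp (ψ i' β) (fun n => (φ i' β).coeff n) j else 0) =
        Tp c (fun n => (a i).coeff n) j := by
      rw [Finset.sum_eq_single i]
      · rw [hψφ i j]
        exact Finset.sum_congr rfl fun β _ => if_pos rfl
      · intro i' _ hi'
        exact Finset.sum_eq_zero fun β _ => if_neg hi'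
      · intro h; exact absurd (Finset.mem_univ i) h
    rw [h3, h4]
  obtain ⟨V, W, g, hW0, hWn, hV, hg⟩ := hcore c a (fun α => (e.symm α).1)
    (fun α => ψ (e.symm α).1 (e.symm α).2) (fun α => φ (e.symm α).1 (e.symm α).2) hrel hψt hφt
    I0 hδ
  obtain ⟨U, x, hU0, hUr, hUe, hT, hUV, hx⟩ := hR6 V g fun i => (hg i).2
  have hmink : ∀ {r : ℝ}, 1 ≤ r → ε₁ ≤ ε / 2 ^ r → ∀ {f f' : ℕ → ℂ}, Sle r f ε₁ → Sle r f' ε₁ →
      Sle r (fun n => f n + f' n) ε := by
    intro r hr hεr f f' hf hf'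
    have hr0 : 0 < r := by linarith
    have h1 : (ε ^ (1 / r) / 2) ^ r = ε / 2 ^ r := by
      rw [Real.div_rpow (by positivity) (by norm_num), ← Real.rpow_mul hε.le,
        one_div_mul_cancel hr0.ne', Real.rpow_one]
    have h2 : (ε ^ (1 / r) / 2 + ε ^ (1 / r) / 2) ^ r = ε := by
      rw [add_halves, ← Real.rpow_mul hε.le, one_div_mul_cancel hr0.ne', Real.rpow_one]
    have h3 := Sle.add hr (A := ε ^ (1 / r) / 2) (B := ε ^ (1 / r) / 2) (by positivity)
      (by positivity) (f := f) (g := f') (by rw [h1]; exact hf.mono hεr)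
      (by rw [h1]; exact hf'.mono hεr)
    rw [h2] at h3
    exact h3
  refine ⟨U, W, x, hU0, hUr, hUe, hT, hW0, hWn, ?_, fun i => ⟨(hx i).1, ?_⟩⟩
  · have h1 : U - c - W = (U - V) + (V - c - W) := by ring
    rw [h1]
    exact Sn_add_le_of hq1 hε (hUV.trans (min_le_left _ _)) (hV.trans (min_le_left _ _))
  · have h1 := hmink hp1 (min_le_right _ _) (hx i).2
      ((Sle_coeff_iff hp0 (g i - a i)).mpr (hg i).1)
    convert h1 using 1
    funext n
    simp only [Polynomial.coeff_sub]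
    ring

end DC8965.P2
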