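import Pool.Agent.Lib.MP_dc8965_an.P2.H10p
import Pool.Agent.Lib.MP_dc8965_an.Main

open Finset Polynomial MeasureTheory Filter Topology
open scoped ENNReal NNReal

namespace DC8965.P2

open DC8965.BT

/-- (H11') the theorem on `L^p[0,1]` for `2 < p`: as `BT.H11`, with `H10p`. -/
theorem H11p (p : ℝ≥0∞) [Fact (1 ≤ p)] (hp2 : 2 < p) (hp : p ≠ ∞) (M : Submodule ℂ (L p))
    (hMc : IsClosed (M : Set (L p))) (hM : ∀ f ∈ M, ∀ g : L p, IsHardy f g → g ∈ M) :
    IsMonomialSpace M := by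
  have hp1 : 1 < p := lt_trans (by norm_num) hp2
  obtain ⟨Φ, hΦ⟩ := exists_Phi p hp
  rw [isMonomialSpace_iff hp hΦ]
  have hclosed : IsClosed (tr Φ M : Set (Y p)) := by
    have h1 : (tr Φ M : Set (Y p)) = Φ.symm ⁻¹' (M : Set (L p)) := by
      ext y
      exact mem_tr Φ M y
    rw [h1]
    exact hMc.preimage Φ.symm.continuous
  have hH : ∀ g ∈ tr Φ M, Hop p (1 - 1 / p.toReal) g ∈ tr Φ M := by
    intro g hg
    rw [mem_tr] at hg ⊢
    refine hM _ hg _ ?_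
    refine (hardy_iff hp1 hp Φ hΦ _ _).mpr ?_
    rw [Φ.apply_symm_apply, Φ.apply_symm_apply]
  exact H10p hp2 hp (tr Φ M) hclosed
    (fun u hu g hg => V_mem_of_Hop hp (one_sub_pos hp1 hp) (tr Φ M) hclosed hH hu hg)

end DC8965.P2
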