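import Pool.Agent.Lib.MP_dc8965_an.HSMain
import Pool.Agent.Lib.MP_dc8965_an.BT.G1
import Pool.Agent.Lib.MP_dc8965_an.P2.H11p

/-!
# MP_dc8965_an: all closed Hardy-invariant subspaces of `L^p[0,1]`, `1 < p < ∞`, `p ≠ 2`
-/

open MeasureTheory Filter Topology Set
open scoped ENNReal NNReal

namespace DC8965

/-- the theorem for all `1 < p < ∞`, `p ≠ 2` (the hand-in `Results/MP_dc8965_an/FullAnswer.lean` is this). -/
theorem full_answer (p : ℝ≥0∞) [Fact (1 ≤ p)] (hp1 : 1 < p) (hp : p ≠ ∞) (hp2 : p ≠ 2)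
    (M : Submodule ℂ (L p)) (hMc : IsClosed (M : Set (L p)))
    (hM : ∀ f ∈ M, ∀ g : L p, IsHardy f g → g ∈ M) :
    IsMonomialSpace M := by
  rcases lt_or_gt_of_ne hp2 with h | h
  · have h1 : 1 < p.toReal := by
      have h := (ENNReal.toReal_lt_toReal ENNReal.one_ne_top hp).mpr hp1
      simpa using h
    have h2 : p.toReal < 2 := by
      have h := (ENNReal.toReal_lt_toReal hp ENNReal.ofNat_ne_top).mpr h
      simpa using h
    have hpq : p.toReal.HolderConjugate (Real.conjExponent p.toReal) :=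
      Real.HolderConjugate.conjExponent h1
    exact hs_main hp1 hp hpq (DC8965.BT.theoremS h2 hpq) M hMc hM
  · exact DC8965.P2.H11p p h hp M hMc hM

end DC8965
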