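import Pool.Agent.Lib.MP_dc8965_an.P2.GDefs

/-! # Lemma G (MP_dc8965_an, `2 < p`), job G10a: specialisation to the line -/

open Finset Polynomial
open scoped LaurentPolynomial

namespace DC8965.P2

/-- the homomorphism `g ↦ ∑_b g_b L^b` -/
def spH (J L : ℕ) : (Fin J → ℤ) →+ ℤ where
  toFun g := ∑ b, g b * (L : ℤ) ^ (b : ℕ)
  map_zero' := by simp
  map_add' g h := by simp [add_mul, Finset.sum_add_distrib]

/-- `ξ_b ↦ T^(L^b)` -/
noncomputable def sp (J L : ℕ) : AddMonoidAlgebra ℂ (Fin J → ℤ) →+* ℂ[T;T⁻¹] :=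
  AddMonoidAlgebra.mapDomainRingHom ℂ (spH J L)

private theorem spH_apply' (J L : ℕ) (g : Fin J → ℤ) :
    spH J L g = ∑ b, g b * (L : ℤ) ^ (b : ℕ) := rfl

private theorem spH_succ (J L : ℕ) (g : Fin (J + 1) → ℤ) :
    spH (J + 1) L g = g 0 + (L : ℤ) * spH J L (fun b => g b.succ) := by
  rw [spH_apply', spH_apply', Fin.sum_univ_succ, Finset.mul_sum]
  congr 1
  · simp
  · refine Finset.sum_congr rfl fun b _ => ?_
    rw [Fin.val_succ, pow_succ]
    ring

/-- digits in base `L > 2K` with digits in `[-K, K]` are unique (induction on `J`, `Fin.sum_univ_succ`, divisibility by `L`). -/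
theorem spH_inj {J L K : ℕ} (h : 2 * K < L) {g g' : Fin J → ℤ} (hg : ∀ b, |g b| ≤ K) (hg' : ∀ b, |g' b| ≤ K)
    (e : spH J L g = spH J L g') : g = g' := by
  induction J with
  | zero =>
    funext b
    exact b.elim0
  | succ J ih =>
    rw [spH_succ, spH_succ] at e
    have h1 : (L : ℤ) ∣ g 0 - g' 0 :=
      ⟨spH J L (fun b => g' b.succ) - spH J L (fun b => g b.succ), by linear_combination e⟩
    have h2 : |g 0 - g' 0| < (L : ℤ) := by
      have h3 := abs_le.1 (hg 0)
      have h4 := abs_le.1 (hg' 0)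
      rw [abs_lt]
      constructor <;> omega
    have h3 : g 0 - g' 0 = 0 := Int.eq_zero_of_abs_lt_dvd h1 h2
    have hL : (L : ℤ) ≠ 0 := by omega
    have h4 : spH J L (fun b => g b.succ) = spH J L (fun b => g' b.succ) := by
      apply mul_left_cancel₀ hL
      linear_combination e - h3
    have h5 := ih (fun b => hg b.succ) (fun b => hg' b.succ) h4
    funext b
    refine Fin.cases ?_ (fun i => ?_) b
    · omega
    · exact congrFun h5 i

private theorem coeff_sp (J L : ℕ) (f : AddMonoidAlgebra ℂ (Fin J → ℤ)) :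
    (sp J L f).coeff = Finsupp.mapDomain (spH J L) f.coeff := rfl

theorem np_sp {r : ℝ} {J L K : ℕ} (h : 2 * K < L) (f : AddMonoidAlgebra ℂ (Fin J → ℤ))
    (hf : ∀ g, f.coeff g ≠ 0 → ∀ b, |g b| ≤ K) : np r (sp J L f) = np r f := by
  classical
  have hinj : Set.InjOn (spH J L) (f.coeff.support : Set (Fin J → ℤ)) := by
    intro g hg g' hg' e
    exact spH_inj h (hf g (Finsupp.mem_support_iff.1 hg)) (hf g' (Finsupp.mem_support_iff.1 hg')) e
  unfold np
  rw [coeff_sp, Finsupp.mapDomain_support_of_injOn _ hinj, Finset.sum_image hinj]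
  refine Finset.sum_congr rfl fun g hg => ?_
  rw [Finsupp.mapDomain_apply' _ _ subset_rfl hinj (Finset.mem_coe.2 hg)]

theorem exists_K {J : ℕ} (f : AddMonoidAlgebra ℂ (Fin J → ℤ)) :
    ∃ K : ℕ, ∀ g, f.coeff g ≠ 0 → ∀ b, |g b| ≤ K := by
  refine ⟨∑ g ∈ f.coeff.support, ∑ b, (g b).natAbs, fun g hg b => ?_⟩
  have h1 : (g b).natAbs ≤ ∑ b, (g b).natAbs :=
    Finset.single_le_sum (f := fun b => (g b).natAbs) (fun _ _ => Nat.zero_le _) (Finset.mem_univ b)
  have h2 : ∑ b, (g b).natAbs ≤ ∑ g ∈ f.coeff.support, ∑ b, (g b).natAbs :=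
    Finset.single_le_sum (f := fun g : Fin J → ℤ => ∑ b, (g b).natAbs)
      (fun _ _ => Nat.zero_le _) (Finsupp.mem_support_iff.2 hg)
  rw [Int.abs_eq_natAbs]
  exact_mod_cast h1.trans h2

end DC8965.P2
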