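import Pool.Agent.Lib.MP_dc8965_an.P2.G10a

/-! # Lemma G (MP_dc8965_an, `2 < p`), job G10b: v is a polynomial -/

open Finset Polynomial
open scoped LaurentPolynomial

namespace DC8965.P2

private lemma G10b_sp_smul (J L : ℕ) (c : ℂ) (f : AddMonoidAlgebra ℂ (Fin J → ℤ)) :
    sp J L (c • f) = c • sp J L f := by
  unfold sp
  rw [AddMonoidAlgebra.mapDomainRingHom_apply, AddMonoidAlgebra.mapDomainRingHom_apply]
  ext a
  simp [AddMonoidAlgebra.mapDomain, Finsupp.mapDomain_smul]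

private lemma G10b_uu (q : ℝ) (J L : ℕ) : ∃ u : ℂ[X], toLaurent u = sp J L (uu q J) := by
  refine ⟨C (((J : ℝ) ^ (-(1 / q)) : ℝ) : ℂ) * ∑ b : Fin J, X ^ (L ^ (b : ℕ)), ?_⟩
  have h1 : ∀ b : Fin J, sp J L (AddMonoidAlgebra.single (Pi.single b (1 : ℤ)) (1 : ℂ)) =
      LaurentPolynomial.T ((L ^ (b : ℕ) : ℕ) : ℤ) := by
    intro b
    have h2 : spH J L (Pi.single b (1 : ℤ)) = ((L ^ (b : ℕ) : ℕ) : ℤ) := by
      change ∑ b', (Pi.single b (1 : ℤ) : Fin J → ℤ) b' * (L : ℤ) ^ (b' : ℕ) = _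
      rw [Finset.sum_eq_single b]
      · simp
      · intro b' _ hb'
        rw [Pi.single_eq_of_ne hb', zero_mul]
      · intro h
        exact absurd (Finset.mem_univ b) h
    unfold sp
    rw [AddMonoidAlgebra.mapDomainRingHom_apply, AddMonoidAlgebra.mapDomain_single, h2]
    rfl
  have h3 : sp J L (uu q J) = (((J : ℝ) ^ (-(1 / q)) : ℝ) : ℂ) • sp J L (SS J) := by
    unfold uu
    exact G10b_sp_smul J L _ _
  rw [h3, map_mul, Polynomial.toLaurent_C, LaurentPolynomial.smul_eq_C_mul]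
  congr 1
  unfold SS
  rw [map_sum, map_sum]
  refine Finset.sum_congr rfl fun b _ => ?_
  rw [h1, Polynomial.toLaurent_X_pow]

/-- `sp (vG)` is the Laurent polynomial of a polynomial `v`. -/
theorem sp_vG (p q : ℝ) (J L n : ℕ) : ∃ v : ℂ[X], toLaurent v = sp J L (vG p q J n) := by
  obtain ⟨u, hu⟩ := G10b_uu q J L
  refine ⟨C (((n.factorial : ℝ) ^ (-(1 / p)) : ℝ) : ℂ) * u ^ n, ?_⟩
  unfold vG
  rw [G10b_sp_smul, map_mul, map_pow, hu, Polynomial.toLaurent_C,
    LaurentPolynomial.smul_eq_C_mul, map_pow]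

theorem np_toLaurent' (r : ℝ) (v : ℂ[X]) : np r (toLaurent v) = DC8965.BT.Sn r v := by
  classical
  unfold np DC8965.BT.Sn
  have hc : ∀ n : ℕ, (toLaurent v).coeff (n : ℤ) = v.coeff n := by
    intro n
    rw [LaurentPolynomial.coeff_toLaurent v]
    exact Finsupp.mapDomain_apply (Nat.castEmbedding (R := ℤ)).injective _ n
  rw [LaurentPolynomial.support_coeff_toLaurent, Finset.sum_map]
  exact Finset.sum_congr rfl fun n _ => by
    rw [Nat.castEmbedding_apply, hc]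

end DC8965.P2
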