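import Pool.Agent.Lib.MP_dc8965_an.P2.GDefs

/-! # Lemma G (MP_dc8965_an, `2 < p`), job G1a: the coefficients of S^a (multinomial) -/

open Finset Polynomial
open scoped LaurentPolynomial

namespace DC8965.P2

private lemma G1a_term {J : ℕ} (a : ℕ) (h : Fin J → ℤ) (hh : ∀ b, 0 ≤ h b)
    (hs : ∑ b, h b = ((a + 1 : ℕ) : ℤ)) (b : Fin J) :
    (if (∀ c, 0 ≤ (-(Pi.single b (1 : ℤ) : Fin J → ℤ) + h) c) ∧
        ∑ c, (-(Pi.single b (1 : ℤ) : Fin J → ℤ) + h) c = (a : ℤ) then
      ((a.factorial / ∏ c, (((-(Pi.single b (1 : ℤ) : Fin J → ℤ) + h) c).toNat.factorial : ℝ) : ℝ) : ℂ) else 0)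
    = (((a.factorial : ℝ) / (∏ c, ((h c).toNat.factorial : ℝ)) * (h b : ℝ) : ℝ) : ℂ) := by
  classical
  have hsum : ∑ c, (-(Pi.single b (1 : ℤ) : Fin J → ℤ) + h) c = (a : ℤ) := by
    simp only [Pi.add_apply, Pi.neg_apply, Finset.sum_add_distrib, Finset.sum_neg_distrib,
      Finset.sum_pi_single', Finset.mem_univ, if_true]
    rw [hs]
    push_cast
    ring
  by_cases hb : h b = 0
  · rw [if_neg, hb]
    · simp
    · intro hc
      have := hc.1 b
      simp [hb] at this
  · have hb1 : 1 ≤ h b := by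
      have := hh b
      omega
    have hpos : ∀ c, 0 ≤ (-(Pi.single b (1 : ℤ) : Fin J → ℤ) + h) c := by
      intro c
      by_cases hcb : c = b
      · subst hcb
        simp
        exact hb1
      · simp [Pi.single_eq_of_ne hcb]
        exact hh c
    rw [if_pos ⟨hpos, hsum⟩]
    have hprod : ∏ c, ((h c).toNat.factorial : ℝ) =
        (h b : ℝ) * ∏ c, (((-(Pi.single b (1 : ℤ) : Fin J → ℤ) + h) c).toNat.factorial : ℝ) := by
      rw [← Finset.mul_prod_erase univ (fun c => ((h c).toNat.factorial : ℝ)) (Finset.mem_univ b),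
        ← Finset.mul_prod_erase univ
          (fun c => (((-(Pi.single b (1 : ℤ) : Fin J → ℤ) + h) c).toNat.factorial : ℝ)) (Finset.mem_univ b)]
      have h1 : ∏ x ∈ univ.erase b, ((h x).toNat.factorial : ℝ) =
          ∏ x ∈ univ.erase b, (((-(Pi.single b (1 : ℤ) : Fin J → ℤ) + h) x).toNat.factorial : ℝ) := by
        apply Finset.prod_congr rfl
        intro x hx
        have hxb : x ≠ b := Finset.ne_of_mem_erase hx
        have : (-(Pi.single b (1 : ℤ) : Fin J → ℤ) + h) x = h x := by
          simp [Pi.single_eq_of_ne hxb]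
        rw [this]
      rw [h1]
      have h2 : ((h b).toNat.factorial : ℝ) =
          (h b : ℝ) * (((-(Pi.single b (1 : ℤ) : Fin J → ℤ) + h) b).toNat.factorial : ℝ) := by
        have e1 : (-(Pi.single b (1 : ℤ) : Fin J → ℤ) + h) b = h b - 1 := by
          simp
          ring
        rw [e1]
        obtain ⟨n, hn⟩ : ∃ n : ℕ, h b = (n : ℤ) + 1 := ⟨(h b - 1).toNat, by omega⟩
        rw [hn]
        have e2 : ((n : ℤ) + 1).toNat = n + 1 := by omega
        have e3 : ((n : ℤ) + 1 - 1).toNat = n := by omega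
        rw [e2, e3, Nat.factorial_succ]
        push_cast
        ring
      rw [h2]
      ring
    have hbne : (h b : ℝ) ≠ 0 := by exact_mod_cast hb
    have hne : (∏ c, (((-(Pi.single b (1 : ℤ) : Fin J → ℤ) + h) c).toNat.factorial : ℝ)) ≠ 0 :=
      Finset.prod_ne_zero_iff.2 fun c _ => by
        exact_mod_cast Nat.factorial_ne_zero _
    congr 1
    rw [hprod]
    field_simp

/-- the coefficients of `S^a` (multinomial theorem).
Proof: induction on `a` using `S^(a+1) = S * S^a` and `(single e_b * f).coeff h = f.coeff (h - e_b)`: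
`∑_b a!/∏ (h-e_b)! = a! ∑_(b, h_b ≥ 1) h_b / ∏ h! = a! (a+1)/∏ h!`. (Or `Finset.sum_pow_eq_sum_piAntidiag`.) -/
theorem coeff_SS_pow (J a : ℕ) (h : Fin J → ℤ) :
    (SS J ^ a).coeff h = if (∀ b, 0 ≤ h b) ∧ ∑ b, h b = (a : ℤ) then
      ((a.factorial / ∏ b, ((h b).toNat.factorial : ℝ) : ℝ) : ℂ) else 0 := by
  classical
  induction a generalizing h with
  | zero =>
    rw [pow_zero, AddMonoidAlgebra.one_def, AddMonoidAlgebra.coeff_single, Finsupp.single_apply]
    by_cases h0 : (0 : Fin J → ℤ) = h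
    · subst h0
      simp
    · rw [if_neg h0, if_neg]
      rintro ⟨h1, h2⟩
      apply h0
      ext b
      have := (Finset.sum_eq_zero_iff_of_nonneg (fun b _ => h1 b)).1 (by simpa using h2) b
        (Finset.mem_univ b)
      simp [this]
  | succ a ih =>
    rw [pow_succ']
    have h1 : (SS J * SS J ^ a).coeff h =
        ∑ b : Fin J, (SS J ^ a).coeff (-(Pi.single b (1 : ℤ) : Fin J → ℤ) + h) := by
      conv_lhs => rw [SS, Finset.sum_mul, AddMonoidAlgebra.coeff_sum]
      rw [Finsupp.finsetSum_apply]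
      apply Finset.sum_congr rfl
      intro b _
      rw [AddMonoidAlgebra.coeff_single_mul_apply, one_mul]
      rfl
    rw [h1]
    simp only [ih]
    by_cases hc : (∀ b, 0 ≤ h b) ∧ ∑ b, h b = ((a + 1 : ℕ) : ℤ)
    · obtain ⟨hh, hs⟩ := hc
      rw [if_pos ⟨hh, hs⟩]
      rw [Finset.sum_congr rfl (fun b _ => G1a_term a h hh hs b)]
      rw [← Complex.ofReal_sum, ← Finset.mul_sum]
      congr 1
      have hs' : ∑ b, (h b : ℝ) = (a : ℝ) + 1 := by
        have : ((∑ b, h b : ℤ) : ℝ) = (((a + 1 : ℕ) : ℤ) : ℝ) := by rw [hs]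
        push_cast at this
        exact this
      rw [hs', Nat.factorial_succ]
      push_cast
      ring
    · rw [if_neg hc]
      apply Finset.sum_eq_zero
      intro b _
      rw [if_neg]
      rintro ⟨h2, h3⟩
      apply hc
      constructor
      · intro c
        have := h2 c
        by_cases hcb : c = b
        · subst hcb
          simp at this
          omega
        · simpa [Pi.single_eq_of_ne hcb] using this
      · simp only [Pi.add_apply, Pi.neg_apply, Finset.sum_add_distrib, Finset.sum_neg_distrib] at h3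
        have h4 : ∑ x, (Pi.single b (1 : ℤ) : Fin J → ℤ) x = 1 := by
          simp [Finset.sum_pi_single']
        rw [h4] at h3
        push_cast
        linarith

end DC8965.P2
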