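import Pool.Agent.Lib.MP_dc8965_an.P2.GDefs

/-! # Lemma G (MP_dc8965_an, `2 < p`), job G1b: u F_(M,t+1) = F_(M,t) -/

open Finset Polynomial
open scoped LaurentPolynomial

namespace DC8965.P2

/-- `u F_(M,t+1) = F_(M,t)` for `t + 1 ≤ M` (`M - t = (M-(t+1)) + 1`, powers of `J`; `J^(-1/q) J^((t+1)/q) = J^(t/q)`). -/
theorem uu_mul_FF {q : ℝ} {J M t : ℕ} (hJ : 0 < J) (ht : t + 1 ≤ M) :
    uu q J * FF q J M (t + 1) = FF q J M t := by
  unfold uu FF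
  have hJ' : (0 : ℝ) < (J : ℝ) := by exact_mod_cast hJ
  have hM : M - t = (M - (t + 1)) + 1 := by omega
  have hc : (J : ℝ) ^ (-(1 / q)) * ((J : ℝ) ^ (((t + 1 : ℕ) : ℝ) / q) / (J.descFactorial M : ℝ))
      = (J : ℝ) ^ ((t : ℝ) / q) / (J.descFactorial M : ℝ) := by
    rw [← mul_div_assoc, ← Real.rpow_add hJ']
    congr 2
    push_cast
    ring
  rw [smul_mul_smul_comm, ← Complex.ofReal_mul, hc, ← mul_assoc, hM, pow_succ']

end DC8965.P2
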