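import Pool.Agent.Lib.MP_dc8965_an.P2.G1a

/-! # Lemma G (MP_dc8965_an, `2 < p`), job G1c: the coefficients of F_(M,t) -/

open Finset Polynomial
open scoped LaurentPolynomial

namespace DC8965.P2

private lemma coeff_term_G1c {J M t : ℕ} (ht : t ≤ M) (g : Fin J → ℤ) (T : Finset (Fin J))
    (hT : T.card = M) [Decidable (Val t g ∧ ngs g ⊆ T)] :
    (SS J ^ (M - t) * AddMonoidAlgebra.single (mI T) (1 : ℂ)).coeff g =
      if Val t g ∧ ngs g ⊆ T then
        ((((M - t).factorial : ℝ) /
          ∏ b, (((g b + if b ∈ T then 1 else 0).toNat).factorial : ℝ) : ℝ) : ℂ) else 0 := by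
  rw [AddMonoidAlgebra.coeff_mul_single_apply, mul_one, coeff_SS_pow]
  have hfun : ∀ b, (g + -mI T) b = g b + if b ∈ T then 1 else 0 := by
    intro b
    simp only [Pi.add_apply, Pi.neg_apply, mI]
    split_ifs <;> simp
  have hsum : ∑ b, (g b + if b ∈ T then (1 : ℤ) else 0) = ∑ b, g b + M := by
    rw [sum_add_distrib]
    congr 1
    rw [sum_ite_mem, univ_inter, sum_const, hT]
    simp
  have hiff : ((∀ b, 0 ≤ g b + if b ∈ T then (1 : ℤ) else 0) ∧ ∑ b, g b + (M : ℤ) = ((M - t : ℕ) : ℤ)) ↔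
      (Val t g ∧ ngs g ⊆ T) := by
    unfold Val ngs
    constructor
    · rintro ⟨h1, h2⟩
      refine ⟨⟨fun b => ?_, ?_⟩, fun b hb => ?_⟩
      · have := h1 b
        split_ifs at this <;> omega
      · push_cast [Nat.cast_sub ht] at h2
        linarith
      · by_contra hc
        have := h1 b
        rw [mem_filter] at hb
        rw [if_neg hc] at this
        omega
    · rintro ⟨⟨h1, h2⟩, h3⟩
      refine ⟨fun b => ?_, ?_⟩
      · have := h1 b
        split_ifs with hb
        · omega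
        · have h4 : g b ≠ -1 := fun h => hb (h3 (by simp [h]))
          omega
      · push_cast [Nat.cast_sub ht]
        linarith
  simp only [hfun, hsum]
  by_cases h : Val t g ∧ ngs g ⊆ T
  · rw [if_pos (hiff.mpr h), if_pos h]
  · rw [if_neg (fun h' => h (hiff.mp h')), if_neg h]

/-- the coefficients of `F_(M,t)`: `(S^(M-t) E_M).coeff g = ∑_T (S^(M-t)).coeff (g + 1_T)`
(`mul_single` with `-(mI T) = 1_T`), which is nonzero only if `g + 1_T ≥ 0`, i.e. `g ≥ -1` and `ngs g ⊆ T`, and
`∑ g + M = M - t`, i.e. `∑ g = -t`. -/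
theorem coeff_FF {q : ℝ} {J M t : ℕ} (ht : t ≤ M) (g : Fin J → ℤ) [Decidable (Val t g)] :
    (FF q J M t).coeff g = if Val t g then (((J : ℝ) ^ ((t : ℝ) / q) * xx J M t g : ℝ) : ℂ) else 0 := by
  classical
  have h1 : (FF q J M t).coeff g = (((J : ℝ) ^ ((t : ℝ) / q) / (J.descFactorial M : ℝ) : ℝ) : ℂ) *
      ∑ T ∈ powersetCard M (univ : Finset (Fin J)),
        (if Val t g ∧ ngs g ⊆ T then
        ((((M - t).factorial : ℝ) /
          ∏ b, (((g b + if b ∈ T then 1 else 0).toNat).factorial : ℝ) : ℝ) : ℂ) else 0) := by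
    unfold FF EE
    rw [AddMonoidAlgebra.coeff_smul_apply, mul_sum, AddMonoidAlgebra.coeff_sum, Finsupp.finsetSum_apply,
      smul_eq_mul]
    congr 1
    refine sum_congr rfl fun T hT => ?_
    exact coeff_term_G1c ht g T (mem_powersetCard.mp hT).2
  rw [h1]
  by_cases hv : Val t g
  · rw [if_pos hv]
    simp only [hv, true_and]
    rw [← sum_filter, ← Complex.ofReal_sum, ← Complex.ofReal_mul]
    congr 1
    unfold xx
    rw [mul_sum, mul_sum, mul_sum]
    refine sum_congr rfl fun T _ => ?_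
    ring
  · simp [hv]

end DC8965.P2
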