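import Pool.Agent.Lib.MP_dc8965_an.P2.GDefs

/-! # Lemma G (MP_dc8965_an, `2 < p`), job G2a: cardinalities of supp γ, supp β; the weights q_A -/

open Finset Polynomial
open scoped LaurentPolynomial

namespace DC8965.P2

/-- `|supp γ| = lev g + t`, `supp β ⊆ ` has at most `lev g` elements. -/
theorem card_ngs {J t : ℕ} {g : Fin J → ℤ} (hg : Val t g) : (ngs g).card = lev g + t := by
  have h1 : ∀ b, g b = ((g b).toNat : ℤ) - if g b = -1 then 1 else 0 := by
    intro b
    have h2 := hg.1 b
    split_ifs with h3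
    · rw [h3]
      rfl
    · have h4 : 0 ≤ g b := by omega
      rw [Int.toNat_of_nonneg h4, sub_zero]
  have h2 : ∑ b, g b = (lev g : ℤ) - ((ngs g).card : ℤ) := by
    rw [Finset.sum_congr rfl fun b _ => h1 b, Finset.sum_sub_distrib]
    congr 1
    · unfold lev
      push_cast
      rfl
    · unfold ngs
      rw [Finset.card_filter]
      push_cast
      rfl
  have h3 := hg.2
  omega

theorem card_pos_le {J : ℕ} (g : Fin J → ℤ) : (pos g).card ≤ lev g := by
  unfold pos lev
  rw [Finset.card_filter]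
  refine Finset.sum_le_sum fun b _ => ?_
  split_ifs with h
  · omega
  · exact Nat.zero_le _

theorem ngs_disj_pos {J : ℕ} (g : Fin J → ℤ) : Disjoint (ngs g) (pos g) := by
  unfold ngs pos
  rw [Finset.disjoint_filter]
  intro b _ h1 h2
  omega

/-- `q_A ≥ 0` for `A ⊆ supp β` and `∑_A q_A = 1` (`Finset.prod_add`: `∏_b (β_b/(β_b+1) + 1/(β_b+1)) = 1`). -/
theorem qA_nonneg {J : ℕ} (g : Fin J → ℤ) {A : Finset (Fin J)} (hA : A ⊆ pos g) : 0 ≤ qA g A := by
  have h0 : ∀ b ∈ pos g, (0 : ℝ) < (g b : ℝ) := by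
    intro b hb
    unfold pos at hb
    rw [Finset.mem_filter] at hb
    exact_mod_cast hb.2
  unfold qA
  refine mul_nonneg (Finset.prod_nonneg fun b hb => ?_) (Finset.prod_nonneg fun b hb => ?_)
  · have := h0 b (hA hb)
    positivity
  · have := h0 b (Finset.mem_sdiff.1 hb).1
    positivity

theorem sum_qA {J : ℕ} (g : Fin J → ℤ) : ∑ A ∈ (pos g).powerset, qA g A = 1 := by
  unfold qA
  rw [← Finset.prod_add]
  refine Finset.prod_eq_one fun b hb => ?_
  have h0 : (0 : ℝ) < (g b : ℝ) := by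
    unfold pos at hb
    rw [Finset.mem_filter] at hb
    exact_mod_cast hb.2
  field_simp

end DC8965.P2
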