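import Pool.Agent.Lib.MP_dc8965_an.P2.GDefs

/-! # Lemma G (MP_dc8965_an, `2 < p`), job G2b: counting the sets T -/

open Finset Polynomial
open scoped LaurentPolynomial

namespace DC8965.P2

/-- the number of sets `T` of size `M` with `G ⊆ T` and `T ∩ A = ∅` (`G`, `A` disjoint) is `C(J-|G|-|A|, M-|G|)`
(0 if `M < |G|`; put `T' = T \ G ∈ powersetCard (M-|G|) (univ \ (G ∪ A))`). -/
theorem card_T {J M : ℕ} (G A : Finset (Fin J)) (hGA : Disjoint G A) :
    (((powersetCard M (univ : Finset (Fin J))).filter (fun T => G ⊆ T ∧ Disjoint A T)).card : ℝ) =
      if G.card ≤ M then ((J - G.card - A.card).choose (M - G.card) : ℝ) else 0 := by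
  by_cases hM : G.card ≤ M
  · rw [if_pos hM]
    have hcU : (univ \ (G ∪ A) : Finset (Fin J)).card = J - G.card - A.card := by
      rw [card_sdiff_of_subset (subset_univ _), card_univ, Fintype.card_fin, card_union_of_disjoint hGA]
      omega
    have key : ((powersetCard M (univ : Finset (Fin J))).filter (fun T => G ⊆ T ∧ Disjoint A T)).card =
        (powersetCard (M - G.card) (univ \ (G ∪ A) : Finset (Fin J))).card := by
      refine card_nbij' (fun T => T \ G) (fun T => T ∪ G) ?_ ?_ ?_ ?_
      · intro T hT
        simp only [coe_filter, mem_powersetCard, Set.mem_ofPred_eq] at hT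
        obtain ⟨⟨_, hc⟩, hG, hA⟩ := hT
        simp only [mem_coe, mem_powersetCard]
        refine ⟨?_, ?_⟩
        · intro x hx
          rw [mem_sdiff] at hx
          rw [mem_sdiff, mem_union]
          refine ⟨mem_univ x, ?_⟩
          rintro (h | h)
          · exact hx.2 h
          · exact (disjoint_left.1 hA h) hx.1
        · rw [card_sdiff_of_subset hG, hc]
      · intro T hT
        simp only [mem_coe, mem_powersetCard] at hT
        obtain ⟨hs, hc⟩ := hT
        have hTG : Disjoint T G := by
          rw [disjoint_left]
          intro x hx hxG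
          have h := hs hx
          rw [mem_sdiff, mem_union] at h
          exact h.2 (Or.inl hxG)
        simp only [coe_filter, mem_powersetCard, Set.mem_ofPred_eq]
        refine ⟨⟨subset_univ _, ?_⟩, subset_union_right, ?_⟩
        · rw [card_union_of_disjoint hTG, hc]
          omega
        · rw [disjoint_union_right]
          refine ⟨?_, hGA.symm⟩
          rw [disjoint_left]
          intro x hxA hx
          have h := hs hx
          rw [mem_sdiff, mem_union] at h
          exact h.2 (Or.inr hxA)
      · intro T hT
        simp only [coe_filter, mem_powersetCard, Set.mem_ofPred_eq] at hT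
        exact sdiff_union_of_subset hT.2.1
      · intro T hT
        simp only [mem_coe, mem_powersetCard] at hT
        obtain ⟨hs, hc⟩ := hT
        have hTG : Disjoint T G := by
          rw [disjoint_left]
          intro x hx hxG
          have h := hs hx
          rw [mem_sdiff, mem_union] at h
          exact h.2 (Or.inl hxG)
        exact union_sdiff_cancel_right hTG
    rw [key, card_powersetCard, hcU]
  · rw [if_neg hM]
    have : ((powersetCard M (univ : Finset (Fin J))).filter (fun T => G ⊆ T ∧ Disjoint A T)) = ∅ := by
      rw [filter_eq_empty_iff]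
      rintro T hT ⟨hG, _⟩
      rw [mem_powersetCard] at hT
      exact hM (le_trans (card_le_card hG) (le_of_eq hT.2))
    rw [this, card_empty, Nat.cast_zero]

end DC8965.P2
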