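import Pool.Agent.Lib.MP_dc8965_an.P2.GDefs

/-! # Lemma G (MP_dc8965_an, `2 < p`), job G2c: expansion of 1/(g+1_T)! -/

open Finset Polynomial
open scoped LaurentPolynomial

namespace DC8965.P2

private theorem g2c_term (x : ℤ) (hx : -1 ≤ x) (P : Prop) [Decidable P] (hP : x = -1 → P) :
    1 / (((x + if P then 1 else 0).toNat).factorial : ℝ) =
      (1 / ((x.toNat).factorial : ℝ)) *
        (if 0 < x then (if P then 1 / ((x : ℝ) + 1) else 1) else 1) := by
  rcases lt_trichotomy x 0 with h | h | h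
  · have hx1 : x = -1 := by omega
    rw [if_pos (hP hx1), if_neg (by omega), hx1]
    norm_num
  · subst h
    by_cases hp : P
    · rw [if_pos hp, if_neg (by omega)]
      norm_num
    · rw [if_neg hp, if_neg (by omega)]
      norm_num
  · rw [if_pos h]
    obtain ⟨n, rfl⟩ := Int.eq_ofNat_of_zero_le h.le
    by_cases hp : P
    · rw [if_pos hp, if_pos hp]
      have e1 : ((n : ℤ) + 1).toNat = n + 1 := by omega
      have e2 : ((n : ℤ)).toNat = n := by omega
      rw [e1, e2, Nat.factorial_succ]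
      push_cast
      have h1 : ((n : ℝ) + 1) ≠ 0 := by positivity
      have h2 : ((n.factorial : ℕ) : ℝ) ≠ 0 := by positivity
      field_simp
    · rw [if_neg hp, if_neg hp, add_zero, mul_one]

/-- the expansion of `1/(g+1_T)!`: for `T ⊇ supp γ`,
`1/∏ (g+1_T)_b! = (1/β!) ∑_(A ⊆ supp β, A ∩ T = ∅) q_A`.
Proof: `(g+1_T)_b! = β_b! (β_b+1)` if `b ∈ T ∩ supp β`, `β_b!` otherwise (for `b ∈ supp γ`: `0! = 1`; for `g b = 0`: `1! = 0! = 1`);
`1/(β_b+1)^[b ∈ T] = 1/(β_b+1) + (β_b/(β_b+1)) [b ∉ T]` and `Finset.prod_add`. -/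
theorem inv_fact_expand {J t : ℕ} {g : Fin J → ℤ} (hg : Val t g) (T : Finset (Fin J)) (hT : ngs g ⊆ T) :
    1 / ∏ b, (((g b + if b ∈ T then 1 else 0).toNat).factorial : ℝ) =
      (1 / bfac g) * ∑ A ∈ (pos g).powerset, (if Disjoint A T then qA g A else 0) := by
  have hterm : ∀ b : Fin J, 1 / (((g b + if b ∈ T then 1 else 0).toNat).factorial : ℝ) =
      (1 / (((g b).toNat).factorial : ℝ)) *
        (if 0 < g b then (if b ∈ T then 1 / ((g b : ℝ) + 1) else 1) else 1) := fun b =>
    g2c_term (g b) (hg.1 b) (b ∈ T) fun h => hT (by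
      unfold ngs
      rw [mem_filter]
      exact ⟨mem_univ b, h⟩)
  have hL : 1 / ∏ b, (((g b + if b ∈ T then 1 else 0).toNat).factorial : ℝ) =
      (1 / bfac g) * ∏ b ∈ pos g, (if b ∈ T then 1 / ((g b : ℝ) + 1) else 1) := by
    unfold bfac pos
    rw [one_div, ← prod_inv_distrib, one_div, ← prod_inv_distrib, prod_filter, ← prod_mul_distrib]
    refine prod_congr rfl fun b _ => ?_
    rw [← one_div, hterm b, one_div]
  have hR : ∑ A ∈ (pos g).powerset, (if Disjoint A T then qA g A else 0) =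
      ∏ b ∈ pos g, ((if b ∈ T then 0 else (g b : ℝ) / ((g b : ℝ) + 1)) + 1 / ((g b : ℝ) + 1)) := by
    rw [prod_add]
    refine sum_congr rfl fun A _ => ?_
    unfold qA
    by_cases h : Disjoint A T
    · rw [if_pos h]
      congr 1
      refine prod_congr rfl fun b hb => ?_
      rw [if_neg (disjoint_left.1 h hb)]
    · rw [if_neg h]
      rw [not_disjoint_iff] at h
      obtain ⟨b, hbA, hbT⟩ := h
      have hz : ∏ b ∈ A, (if b ∈ T then (0 : ℝ) else (g b : ℝ) / ((g b : ℝ) + 1)) = 0 :=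
        Finset.prod_eq_zero hbA (if_pos hbT)
      rw [hz, zero_mul]
  rw [hL, hR]
  congr 1
  refine prod_congr rfl fun b hb => ?_
  unfold pos at hb
  rw [mem_filter] at hb
  have h0 : (0 : ℝ) < (g b : ℝ) := by exact_mod_cast hb.2
  by_cases h : b ∈ T
  · rw [if_pos h, if_pos h, zero_add]
  · rw [if_neg h, if_neg h]
    field_simp

end DC8965.P2
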