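import Pool.Agent.Lib.MP_dc8965_an.P2.GDefs

/-! # Lemma G (MP_dc8965_an, `2 < p`), job G3a: binomial identity -/

open Finset Polynomial
open scoped LaurentPolynomial

namespace DC8965.P2

private lemma g3a_desc {n k : ℕ} (h : k ≤ n) :
    (n.descFactorial k : ℝ) = (n.factorial : ℝ) / ((n - k).factorial : ℝ) := by
  have h1 : ((n - k).factorial : ℝ) ≠ 0 := by exact_mod_cast Nat.factorial_ne_zero _
  rw [eq_div_iff h1, mul_comm]
  exact_mod_cast Nat.factorial_mul_descFactorial h

/-- `(M-t)! C(J-s-d, M-s)/(J)_M = (M-t)_k (J-M)_d/(J)_(s+d)` with `s = k + t` (both sides `0` if `M < s` or `J - M < d`). -/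
theorem binom_id {J M t k d : ℕ} (ht : t ≤ M) (hM : M ≤ J) (hd : k + t + d ≤ J) :
    ((M - t).factorial : ℝ) / (J.descFactorial M : ℝ) *
      (if k + t ≤ M then ((J - (k + t) - d).choose (M - (k + t)) : ℝ) else 0) =
      ((M - t).descFactorial k : ℝ) * ((J - M).descFactorial d : ℝ) / (J.descFactorial (k + t + d) : ℝ) := by
  by_cases hs : k + t ≤ M
  · rw [if_pos hs]
    by_cases hdM : M + d ≤ J
    · have e1 := g3a_desc hM
      have e2 := g3a_desc (n := M - t) (k := k) (by omega)
      have e3 := g3a_desc (n := J - M) (k := d) (by omega)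
      have e4 := g3a_desc hd
      have hc : ((J - (k + t) - d).choose (M - (k + t)) : ℝ) =
          ((J - (k + t) - d).factorial : ℝ) / (((M - (k + t)).factorial : ℝ) *
            ((J - M - d).factorial : ℝ)) := by
        have h1 : M - (k + t) ≤ J - (k + t) - d := by omega
        have h2 := Nat.choose_mul_factorial_mul_factorial h1
        have h3 : J - (k + t) - d - (M - (k + t)) = J - M - d := by omega
        rw [h3] at h2
        have h4 : ((M - (k + t)).factorial : ℝ) ≠ 0 := by exact_mod_cast Nat.factorial_ne_zero _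
        have h5 : ((J - M - d).factorial : ℝ) ≠ 0 := by exact_mod_cast Nat.factorial_ne_zero _
        rw [eq_div_iff (mul_ne_zero h4 h5), ← mul_assoc]
        exact_mod_cast h2
      rw [e1, e2, e3, e4, hc]
      have i1 : M - t - k = M - (k + t) := by omega
      have i2 : J - (k + t + d) = J - (k + t) - d := by omega
      rw [i1, i2]
      have f1 : (J.factorial : ℝ) ≠ 0 := by exact_mod_cast Nat.factorial_ne_zero _
      have f2 : ((J - M).factorial : ℝ) ≠ 0 := by exact_mod_cast Nat.factorial_ne_zero _
      have f3 : ((M - (k + t)).factorial : ℝ) ≠ 0 := by exact_mod_cast Nat.factorial_ne_zero _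
      have f4 : ((J - M - d).factorial : ℝ) ≠ 0 := by exact_mod_cast Nat.factorial_ne_zero _
      have f5 : ((J - (k + t) - d).factorial : ℝ) ≠ 0 := by
        exact_mod_cast Nat.factorial_ne_zero _
      field_simp
    · have h1 : (J - (k + t) - d).choose (M - (k + t)) = 0 := Nat.choose_eq_zero_of_lt (by omega)
      have h2 : (J - M).descFactorial d = 0 := Nat.descFactorial_eq_zero_iff_lt.2 (by omega)
      rw [h1, h2]
      simp
  · rw [if_neg hs]
    have h2 : (M - t).descFactorial k = 0 := Nat.descFactorial_eq_zero_iff_lt.2 (by omega)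
    rw [h2]
    simp

end DC8965.P2
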