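import Pool.Agent.Lib.MP_dc8965_an.P2.G2a
import Pool.Agent.Lib.MP_dc8965_an.P2.G2b
import Pool.Agent.Lib.MP_dc8965_an.P2.G2c
import Pool.Agent.Lib.MP_dc8965_an.P2.G3a

/-! # Lemma G (MP_dc8965_an, `2 < p`), job G3b: formula for x_M(g) -/

open Finset Polynomial
open scoped LaurentPolynomial

namespace DC8965.P2

/-- `x_M(g) = (1/β!) ∑_(A ⊆ supp β) q_A (M-t)_k (J-M)_(|A|)/(J)_(k+t+|A|)`, `k = lev g`.
From `inv_fact_expand`, `card_T`, `card_ngs`, `binom_id` (exchange the two sums; `|ngs g| + |A| ≤ J` as they are disjoint). -/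
theorem xx_formula {J M t : ℕ} {g : Fin J → ℤ} (hg : Val t g) (ht : t ≤ M) (hM : M ≤ J) :
    xx J M t g = (1 / bfac g) * ∑ A ∈ (pos g).powerset, qA g A *
      (((M - t).descFactorial (lev g) : ℝ) * ((J - M).descFactorial A.card : ℝ) /
        (J.descFactorial (lev g + t + A.card) : ℝ)) := by
  classical
  have h1 : ∀ T ∈ (powersetCard M (univ : Finset (Fin J))).filter (fun T => ngs g ⊆ T),
      1 / ∏ b, (((g b + if b ∈ T then 1 else 0).toNat).factorial : ℝ) =
      (1 / bfac g) * ∑ A ∈ (pos g).powerset, (if Disjoint A T then qA g A else 0) := by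
    intro T hT
    exact inv_fact_expand hg T (mem_filter.1 hT).2
  unfold xx
  rw [sum_congr rfl h1, ← mul_sum, sum_comm]
  have h2 : ∀ A ∈ (pos g).powerset,
      ∑ T ∈ (powersetCard M (univ : Finset (Fin J))).filter (fun T => ngs g ⊆ T),
        (if Disjoint A T then qA g A else 0) =
      qA g A * (if lev g + t ≤ M then
        ((J - (lev g + t) - A.card).choose (M - (lev g + t)) : ℝ) else 0) := by
    intro A hA
    have hdis : Disjoint (ngs g) A :=
      Disjoint.mono_right (mem_powerset.1 hA) (ngs_disj_pos g)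
    have h3 := card_T (J := J) (M := M) (ngs g) A hdis
    rw [card_ngs hg] at h3
    rw [← h3, ← sum_filter, filter_filter, sum_const, nsmul_eq_mul, mul_comm]
  rw [sum_congr rfl h2]
  have h4 : ∀ A ∈ (pos g).powerset,
      ((M - t).factorial : ℝ) / (J.descFactorial M : ℝ) *
        (if lev g + t ≤ M then
          ((J - (lev g + t) - A.card).choose (M - (lev g + t)) : ℝ) else 0) =
      ((M - t).descFactorial (lev g) : ℝ) * ((J - M).descFactorial A.card : ℝ) /
        (J.descFactorial (lev g + t + A.card) : ℝ) := by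
    intro A hA
    have hdis : Disjoint (ngs g) A :=
      Disjoint.mono_right (mem_powerset.1 hA) (ngs_disj_pos g)
    have hcard : lev g + t + A.card ≤ J := by
      rw [← card_ngs hg, ← card_union_of_disjoint hdis]
      exact (card_le_univ _).trans (by simp)
    exact binom_id ht hM hcard
  have h5 : ∑ A ∈ (pos g).powerset, qA g A *
      (((M - t).descFactorial (lev g) : ℝ) * ((J - M).descFactorial A.card : ℝ) /
        (J.descFactorial (lev g + t + A.card) : ℝ)) =
      ((M - t).factorial : ℝ) / (J.descFactorial M : ℝ) *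
        ∑ A ∈ (pos g).powerset, qA g A * (if lev g + t ≤ M then
        ((J - (lev g + t) - A.card).choose (M - (lev g + t)) : ℝ) else 0) := by
    rw [mul_sum]
    refine sum_congr rfl fun A hA => ?_
    rw [← h4 A hA]
    ring
  rw [h5]
  ring

end DC8965.P2
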