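import Pool.Agent.Lib.MP_dc8965_an.P2.GDefs

/-! # Lemma G (MP_dc8965_an, `2 < p`), job G3c: ratio of falling factorials -/

open Finset Polynomial
open scoped LaurentPolynomial

namespace DC8965.P2

private lemma g3c_lower {J d : ℕ} (m : ℕ) (h : 2 * (m + d) ≤ J) :
    (J.descFactorial d : ℝ) * ((J : ℝ) / 2) ^ m ≤ (J.descFactorial (m + d) : ℝ) := by
  induction m with
  | zero => simp
  | succ m ih =>
    have ih' := ih (by omega)
    have e : m + 1 + d = (m + d) + 1 := by omega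
    rw [e, Nat.descFactorial_succ, pow_succ]
    push_cast
    have h1 : (J : ℝ) / 2 ≤ ((J - (m + d) : ℕ) : ℝ) := by
      rw [Nat.cast_sub (by omega)]
      have h2 : ((2 * (m + 1 + d) : ℕ) : ℝ) ≤ J := by exact_mod_cast h
      push_cast at h2 ⊢
      linarith
    calc (J.descFactorial d : ℝ) * (((J : ℝ) / 2) ^ m * ((J : ℝ) / 2))
        = ((J : ℝ) / 2) * ((J.descFactorial d : ℝ) * ((J : ℝ) / 2) ^ m) := by ring
      _ ≤ ((J - (m + d) : ℕ) : ℝ) * (J.descFactorial (m + d) : ℝ) :=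
          mul_le_mul h1 ih' (by positivity) (by positivity)

/-- for `d ≤ k`, `2(2k+t) ≤ J`: `(J)_d/(J)_(k+t+d) = 1/((J-d)...(J-d-k-t+1)) ≤ (2/J)^(k+t)`; more generally, if `a ≤ J` is any
number, `(J-a)_d ≤ (J)_d`. (all factors `J - d - i`, `i < k+t`, are `≥ J/2`; use `2(k+t+d) ≤ J`.) -/
theorem desc_ratio_le {J k t d a : ℕ} (h : 2 * (k + t + d) ≤ J) :
    ((J - a).descFactorial d : ℝ) / (J.descFactorial (k + t + d) : ℝ) ≤ (2 / (J : ℝ)) ^ (k + t) := by
  have h1 := g3c_lower (J := J) (d := d) (k + t) h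
  have h2 : ((J - a).descFactorial d : ℝ) ≤ (J.descFactorial d : ℝ) := by
    exact_mod_cast Nat.descFactorial_le d (Nat.sub_le J a)
  have hpos : (0 : ℝ) < (J.descFactorial (k + t + d) : ℝ) := by
    have : 0 < J.descFactorial (k + t + d) := Nat.descFactorial_pos.2 (by omega)
    exact_mod_cast this
  rw [div_le_iff₀ hpos]
  rcases Nat.eq_zero_or_pos (k + t) with h0 | h0
  · rw [h0] at h1 ⊢
    simp only [pow_zero, mul_one, one_mul] at h1 ⊢
    exact h2.trans h1
  · have hJ : (0 : ℝ) < J := by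
      have : 0 < J := by omega
      exact_mod_cast this
    calc ((J - a).descFactorial d : ℝ) ≤ (J.descFactorial d : ℝ) := h2
      _ = (2 / (J : ℝ)) ^ (k + t) * ((J.descFactorial d : ℝ) * ((J : ℝ) / 2) ^ (k + t)) := by
          rw [← mul_assoc, mul_comm ((2 / (J : ℝ)) ^ (k + t)), mul_assoc, ← mul_pow]
          have : (2 / (J : ℝ)) * ((J : ℝ) / 2) = 1 := by field_simp
          rw [this, one_pow, mul_one]
      _ ≤ (2 / (J : ℝ)) ^ (k + t) * (J.descFactorial (k + t + d) : ℝ) :=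
          mul_le_mul_of_nonneg_left h1 (by positivity)

end DC8965.P2
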