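import Pool.Agent.Lib.MP_dc8965_an.P2.G3b
import Pool.Agent.Lib.MP_dc8965_an.P2.G3c

/-! # Lemma G (MP_dc8965_an, `2 < p`), job G4a: bound (U) -/

open Finset Polynomial
open scoped LaurentPolynomial

namespace DC8965.P2

/-- (U) `0 ≤ x_M(g) ≤ M^k (2/J)^(k+t)/β!` if `t ≤ M`, `4M ≤ J`.
If `M < k + t` then `(M-t)_k = 0` and `x = 0`; otherwise `|A| ≤ k` and `2(k+t+|A|) ≤ 4M ≤ J`, `desc_ratio_le`, `sum_qA`,
`(M-t)_k ≤ M^k`. -/
theorem xx_nonneg {J M t : ℕ} {g : Fin J → ℤ} (hg : Val t g) (ht : t ≤ M) (hM : 4 * M ≤ J) : 0 ≤ xx J M t g := by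
  unfold xx
  refine mul_nonneg (by positivity) (Finset.sum_nonneg fun T _ => ?_)
  refine div_nonneg zero_le_one (Finset.prod_nonneg fun b _ => ?_)
  exact Nat.cast_nonneg _

theorem xx_le {J M t : ℕ} {g : Fin J → ℤ} (hg : Val t g) (ht : t ≤ M) (hM : 4 * M ≤ J) :
    xx J M t g ≤ (M : ℝ) ^ lev g * (2 / (J : ℝ)) ^ (lev g + t) / bfac g := by
  have hb : 0 < bfac g := by
    unfold bfac
    exact Finset.prod_pos fun b _ => by exact_mod_cast Nat.factorial_pos _
  rw [xx_formula hg ht (by omega)]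
  have key : ∑ A ∈ (pos g).powerset, qA g A *
      (((M - t).descFactorial (lev g) : ℝ) * ((J - M).descFactorial A.card : ℝ) /
        (J.descFactorial (lev g + t + A.card) : ℝ)) ≤
      (M : ℝ) ^ lev g * (2 / (J : ℝ)) ^ (lev g + t) := by
    have h1 : ∀ A ∈ (pos g).powerset, qA g A *
      (((M - t).descFactorial (lev g) : ℝ) * ((J - M).descFactorial A.card : ℝ) /
        (J.descFactorial (lev g + t + A.card) : ℝ)) ≤
        qA g A * ((M : ℝ) ^ lev g * (2 / (J : ℝ)) ^ (lev g + t)) := by
      intro A hA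
      rw [Finset.mem_powerset] at hA
      refine mul_le_mul_of_nonneg_left ?_ (qA_nonneg g hA)
      by_cases hk : M < lev g + t
      · have h0 : (M - t).descFactorial (lev g) = 0 := by
          rw [Nat.descFactorial_eq_zero_iff_lt]
          omega
        rw [h0]
        simp only [Nat.cast_zero, zero_mul, zero_div]
        positivity
      · have h2 : A.card ≤ lev g := (Finset.card_le_card hA).trans (card_pos_le g)
        have h3 : 2 * (lev g + t + A.card) ≤ J := by omega
        have h4 := desc_ratio_le (a := M) h3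
        rw [mul_div_assoc]
        refine mul_le_mul ?_ h4 (by positivity) (by positivity)
        have h5 : (M - t).descFactorial (lev g) ≤ M ^ lev g :=
          (Nat.descFactorial_le_pow _ _).trans (Nat.pow_le_pow_left (Nat.sub_le _ _) _)
        exact_mod_cast h5
    refine (Finset.sum_le_sum h1).trans ?_
    rw [← Finset.sum_mul, sum_qA, one_mul]
  rw [one_div, mul_comm, ← div_eq_mul_inv]
  exact div_le_div_of_nonneg_right key hb.le

end DC8965.P2
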