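import Pool.Agent.Lib.MP_dc8965_an.P2.G3b
import Pool.Agent.Lib.MP_dc8965_an.P2.G3c

/-! # Lemma G (MP_dc8965_an, `2 < p`), job G4b: x_M(g) is a polynomial in M; bound (K) -/

open Finset Polynomial
open scoped LaurentPolynomial

namespace DC8965.P2

private noncomputable def p4 (J t k d : ℕ) : ℝ[X] :=
  (∏ i ∈ range k, (X - C ((t : ℝ) + i))) * ∏ i ∈ range d, (C ((J : ℝ) - i) - X)

private theorem p4_deg (J t k d : ℕ) : (p4 J t k d).natDegree ≤ k + d := by
  unfold p4
  refine (natDegree_mul_le).trans (add_le_add ?_ ?_)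
  · have h := natDegree_prod_le (range k) (fun i : ℕ => (X - C ((t : ℝ) + i) : ℝ[X]))
    have h2 := sum_le_card_nsmul (range k) (fun i : ℕ => (X - C ((t : ℝ) + i) : ℝ[X]).natDegree) 1
      (fun i _ => natDegree_X_sub_C_le _)
    rw [card_range, smul_eq_mul, mul_one] at h2
    exact h.trans h2
  · have h := natDegree_prod_le (range d) (fun i : ℕ => (C ((J : ℝ) - i) - X : ℝ[X]))
    have h2 := sum_le_card_nsmul (range d) (fun i : ℕ => (C ((J : ℝ) - i) - X : ℝ[X]).natDegree) 1
      (fun i _ => (natDegree_sub_le _ _).trans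
        (max_le ((natDegree_C _).le.trans (Nat.zero_le _)) natDegree_X_le))
    rw [card_range, smul_eq_mul, mul_one] at h2
    exact h.trans h2

private theorem p4_eval (J t k d : ℕ) (x : ℝ) :
    (p4 J t k d).eval x = (∏ i ∈ range k, (x - ((t : ℝ) + i))) * ∏ i ∈ range d, (((J : ℝ) - i) - x) := by
  unfold p4
  rw [eval_mul, eval_prod, eval_prod]
  simp

private theorem dF (n k : ℕ) : (n.descFactorial k : ℝ) = ∏ i ∈ range k, ((n : ℝ) - i) := by
  rw [← descPochhammer_eval_eq_descFactorial, descPochhammer_eval_eq_prod_range]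

private theorem p4_nat {J t k d M : ℕ} (ht : t ≤ M) (hM : M ≤ J) :
    (p4 J t k d).eval (M : ℝ) = ((M - t).descFactorial k : ℝ) * ((J - M).descFactorial d : ℝ) := by
  rw [p4_eval, dF, dF, Nat.cast_sub ht, Nat.cast_sub hM]
  congr 1
  · refine prod_congr rfl fun i _ => ?_
    ring
  · refine prod_congr rfl fun i _ => ?_
    ring

private theorem p4_zero (J t k d : ℕ) :
    |(p4 J t k d).eval 0| = rise t k * (J.descFactorial d : ℝ) := by
  rw [p4_eval, abs_mul, abs_prod, dF]
  congr 1
  · unfold rise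
    refine prod_congr rfl fun i _ => ?_
    rw [zero_sub, abs_neg, abs_of_nonneg (by positivity)]
  · have h : ∏ i ∈ range d, (((J : ℝ) - i) - 0) = (J.descFactorial d : ℝ) := by
      rw [dF]
      exact prod_congr rfl fun i _ => by ring
    rw [h, abs_of_nonneg (by positivity), dF]

private noncomputable def PP {J : ℕ} (t : ℕ) (g : Fin J → ℤ) : ℝ[X] :=
  C (1 / bfac g) * ∑ A ∈ (pos g).powerset,
    C (qA g A / (J.descFactorial (lev g + t + A.card) : ℝ)) * p4 J t (lev g) A.card

private theorem PP_eval {J : ℕ} (t : ℕ) (g : Fin J → ℤ) (x : ℝ) :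
    (PP t g).eval x = (1 / bfac g) * ∑ A ∈ (pos g).powerset,
      qA g A / (J.descFactorial (lev g + t + A.card) : ℝ) * (p4 J t (lev g) A.card).eval x := by
  unfold PP
  rw [eval_mul, eval_C, eval_finsetSum]
  congr 1
  refine sum_congr rfl fun A _ => ?_
  rw [eval_mul, eval_C]

private theorem bfac_pos {J : ℕ} (g : Fin J → ℤ) : 0 < bfac g := by
  unfold bfac
  exact prod_pos fun b _ => by positivity

/-- `x_M(g)` is the value at `M` of a real polynomial `P` of degree `≤ 2 lev g`; `P(0)` is bounded by (K), and is `1/(J)_t` at level 0.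
`P = (1/β!) ∑_A q_A (1/(J)_(k+t+|A|)) ∏_(i<k) (X - t - i) ∏_(i<|A|) (J - X - i)`;
for naturals `t ≤ M ≤ J`: `(M-t)_k = ∏_(i<k) (M - t - i)` as a real number (a factor vanishes if `M - t < k`), same for `(J-M)_d`.
`P(0)`: `|∏ (-t-i)| = rise t k`, `∏_(i<d) (J-i) = (J)_d`, `desc_ratio_le` with `a = 0`. Level 0: `pos g = ∅`, `β! = 1`. -/
theorem xx_poly {J t : ℕ} {g : Fin J → ℤ} (hg : Val t g) (hJ : 2 * (2 * lev g + t) ≤ J) :
    ∃ P : ℝ[X], P.natDegree ≤ 2 * lev g ∧ (∀ M : ℕ, t ≤ M → M ≤ J → P.eval (M : ℝ) = xx J M t g) ∧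
      |P.eval 0| ≤ rise t (lev g) * (2 / (J : ℝ)) ^ (lev g + t) / bfac g ∧
      (lev g = 0 → P.eval 0 = 1 / (J.descFactorial t : ℝ)) := by
  have hb := bfac_pos g
  have hcard : ∀ A ∈ (pos g).powerset, A.card ≤ lev g := fun A hA =>
    (card_le_card (mem_powerset.1 hA)).trans (card_pos_le g)
  have hrise : 0 ≤ rise t (lev g) := by
    unfold rise
    exact prod_nonneg fun i _ => by positivity
  refine ⟨PP t g, ?_, ?_, ?_, ?_⟩
  · unfold PP
    refine (natDegree_C_mul_le _ _).trans ?_
    refine natDegree_sum_le_of_forall_le _ _ fun A hA => ?_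
    refine (natDegree_C_mul_le _ _).trans ((p4_deg _ _ _ _).trans ?_)
    have := hcard A hA
    omega
  · intro M ht hM
    rw [PP_eval, xx_formula hg ht hM]
    congr 1
    refine sum_congr rfl fun A _ => ?_
    rw [p4_nat ht hM]
    ring
  · rw [PP_eval, abs_mul, abs_of_pos (one_div_pos.2 hb)]
    have h1 : |∑ A ∈ (pos g).powerset, qA g A / (J.descFactorial (lev g + t + A.card) : ℝ) *
        (p4 J t (lev g) A.card).eval 0| ≤
        ∑ A ∈ (pos g).powerset, qA g A * (rise t (lev g) * (2 / (J : ℝ)) ^ (lev g + t)) := by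
      refine (abs_sum_le_sum_abs _ _).trans (sum_le_sum fun A hA => ?_)
      have hq := qA_nonneg g (mem_powerset.1 hA)
      rw [abs_mul, abs_div, abs_of_nonneg hq, Nat.abs_cast, p4_zero]
      have hc := hcard A hA
      have h2 := desc_ratio_le (J := J) (k := lev g) (t := t) (d := A.card) (a := 0) (by omega)
      rw [Nat.sub_zero] at h2
      calc qA g A / (J.descFactorial (lev g + t + A.card) : ℝ) *
            (rise t (lev g) * (J.descFactorial A.card : ℝ)) =
          qA g A * (rise t (lev g) *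
            ((J.descFactorial A.card : ℝ) / (J.descFactorial (lev g + t + A.card) : ℝ))) := by ring
        _ ≤ qA g A * (rise t (lev g) * (2 / (J : ℝ)) ^ (lev g + t)) :=
          mul_le_mul_of_nonneg_left (mul_le_mul_of_nonneg_left h2 hrise) hq
    rw [← sum_mul, sum_qA, one_mul] at h1
    calc 1 / bfac g * |∑ A ∈ (pos g).powerset, qA g A /
          (J.descFactorial (lev g + t + A.card) : ℝ) * (p4 J t (lev g) A.card).eval 0| ≤
        1 / bfac g * (rise t (lev g) * (2 / (J : ℝ)) ^ (lev g + t)) :=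
          mul_le_mul_of_nonneg_left h1 (one_div_pos.2 hb).le
      _ = rise t (lev g) * (2 / (J : ℝ)) ^ (lev g + t) / bfac g := by ring
  · intro h0
    have hpos : pos g = ∅ := by
      have := card_pos_le g
      rw [h0] at this
      exact card_eq_zero.1 (Nat.le_zero.1 this)
    have hbf : bfac g = 1 := by
      unfold bfac
      refine prod_eq_one fun b hb => ?_
      have h1 : (g b).toNat = 0 := by
        unfold lev at h0
        exact (sum_eq_zero_iff.1 h0) b hb
      rw [h1]
      simp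
    have hq : qA g ∅ = 1 := by
      unfold qA
      rw [hpos]
      simp
    rw [PP_eval, hbf, hpos, powerset_empty, sum_singleton, hq, p4_eval, h0]
    simp

end DC8965.P2
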