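import Pool.Agent.Lib.MP_dc8965_an.P2.GDefs

/-! # Lemma G (MP_dc8965_an, `2 < p`), job G5: Lagrange weights -/

open Finset Polynomial
open scoped LaurentPolynomial

namespace DC8965.P2

private theorem g5_prod {D s : ℕ} (hs : s ≤ D) (f : ℕ → ℝ) :
    ∏ l ∈ (range (D + 1)).erase s, f l =
      (∏ l ∈ range s, f l) * ∏ i ∈ range (D - s), f (s + 1 + i) := by
  classical
  have h1 : ∏ l ∈ (range (D + 1)).erase s, f l = ∏ l ∈ range (D + 1), if l = s then 1 else f l := by
    rw [← Finset.mul_prod_erase (range (D + 1)) (fun l => if l = s then 1 else f l)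
      (Finset.mem_range.2 (Nat.lt_succ_of_le hs)), if_pos rfl, one_mul]
    refine Finset.prod_congr rfl fun l hl => ?_
    rw [if_neg (Finset.ne_of_mem_erase hl)]
  rw [h1, show D + 1 = s + (1 + (D - s)) by omega, Finset.prod_range_add, Finset.prod_range_add]
  have h2 : ∏ l ∈ range s, (if l = s then 1 else f l) = ∏ l ∈ range s, f l := by
    refine Finset.prod_congr rfl fun l hl => ?_
    rw [Finset.mem_range] at hl
    rw [if_neg (by omega)]
  have h3 : ∏ x ∈ range (D - s), (if s + (1 + x) = s then 1 else f (s + (1 + x))) =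
      ∏ i ∈ range (D - s), f (s + 1 + i) := by
    refine Finset.prod_congr rfl fun l _ => ?_
    rw [if_neg (by omega), ← add_assoc]
  rw [h2, h3]
  simp

private theorem g5_fact1 (s : ℕ) : ∏ l ∈ range s, |(s : ℝ) - l| = (s.factorial : ℝ) := by
  have h1 : ∏ l ∈ range s, |(s : ℝ) - l| = ∏ l ∈ range s, ((l + 1 : ℕ) : ℝ) := by
    rw [← Finset.prod_range_reflect (fun l => ((l + 1 : ℕ) : ℝ)) s]
    refine Finset.prod_congr rfl fun l hl => ?_
    rw [Finset.mem_range] at hl
    have h2 : s - 1 - l + 1 = s - l := by omega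
    rw [h2, Nat.cast_sub hl.le]
    have h3 : (l : ℝ) ≤ s := by exact_mod_cast hl.le
    rw [abs_of_nonneg (by linarith)]
  rw [h1, ← Nat.cast_prod, Finset.prod_range_add_one_eq_factorial]

private theorem g5_fact2 (s n : ℕ) : ∏ i ∈ range n, |(s : ℝ) - ((s + 1 + i : ℕ) : ℝ)| =
    (n.factorial : ℝ) := by
  rw [← Finset.prod_range_add_one_eq_factorial, Nat.cast_prod]
  refine Finset.prod_congr rfl fun l _ => ?_
  push_cast
  rw [show (s : ℝ) - (s + 1 + l) = -(l + 1) by ring, abs_neg, abs_of_nonneg (by positivity)]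

/-- `ν_s = ∏_(l ≠ s) M_l/(M_l - M_s)`, `M_s = (D+s) Ms`, `0 ≤ s ≤ D`: Lagrange interpolation at `0` (Mathlib: `Lagrange.interpolate`,
`Lagrange.eq_interpolate`, `Lagrange.basis`). `|ν_s| = ∏_(l ≠ s) (D+l)/|l-s| ≤ (2D)^D/(s!(D-s)!)`, the sum is
`≤ (2D)^D 2^D/D! ≤ (4e)^D ≤ 12^D` (`D^D ≤ e^D D!`, e < 3: `D^D ≤ 3^D D!`, from `Real.add_pow_le_pow_mul_pow_of_add_eq_one` or
`Real.exp` series: `exp D ≥ D^D/D!`). -/
theorem exists_lagr (D Ms : ℕ) (hMs : 1 ≤ Ms) : ∃ ν : ℕ → ℝ, Lagr D Ms ν := by
  classical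
  have hM0 : (0 : ℝ) < Ms := by exact_mod_cast hMs
  obtain ⟨w, hw⟩ : ∃ w : ℕ → ℝ, w = fun s => (((D + s) * Ms : ℕ) : ℝ) := ⟨_, rfl⟩
  have hwinj : Function.Injective w := by
    intro a b h
    rw [hw] at h
    have h0 : (((D + a) * Ms : ℕ) : ℝ) = (((D + b) * Ms : ℕ) : ℝ) := h
    have h1 : (D + a) * Ms = (D + b) * Ms := by exact_mod_cast h0
    have h2 := Nat.eq_of_mul_eq_mul_right (by omega) h1
    omega
  refine ⟨fun s => (Lagrange.basis (range (D + 1)) w s).eval 0, fun Q hQ => ?_, ?_⟩
  · have hdeg : Q.degree < ((range (D + 1)).card : WithBot ℕ) := by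
      rw [Finset.card_range]
      exact (Polynomial.degree_le_of_natDegree_le hQ).trans_lt (by exact_mod_cast Nat.lt_succ_self D)
    have h1 := Lagrange.eq_interpolate (s := range (D + 1)) (v := w) (f := Q)
      (fun a _ b _ h => hwinj h) hdeg
    have h2 : Q.eval 0 = ∑ s ∈ range (D + 1), Q.eval (w s) *
        (Lagrange.basis (range (D + 1)) w s).eval 0 := by
      conv_lhs => rw [h1]
      rw [Lagrange.interpolate_apply, Polynomial.eval_finsetSum]
      refine Finset.sum_congr rfl fun s _ => ?_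
      rw [eval_mul, eval_C]
    rw [h2, hw]
    refine Finset.sum_congr rfl fun s _ => ?_
    rw [mul_comm]
  · have hterm : ∀ s ∈ range (D + 1), |(Lagrange.basis (range (D + 1)) w s).eval 0| ≤
        (2 * (D : ℝ)) ^ D / D.factorial * (D.choose s : ℝ) := by
      intro s hs
      have hsD : s ≤ D := by
        rw [Finset.mem_range] at hs
        omega
      have h1 : |(Lagrange.basis (range (D + 1)) w s).eval 0| =
          ∏ l ∈ (range (D + 1)).erase s, (((D : ℝ) + l) / |(s : ℝ) - l|) := by
        rw [Lagrange.basis, Polynomial.eval_prod, Finset.abs_prod]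
        refine Finset.prod_congr rfl fun l hl => ?_
        have hls : l ≠ s := Finset.ne_of_mem_erase hl
        rw [Lagrange.basisDivisor, eval_mul, eval_C, eval_sub, eval_X, eval_C, abs_mul, abs_inv,
          zero_sub, abs_neg, hw]
        have e1 : (((D + s) * Ms : ℕ) : ℝ) - (((D + l) * Ms : ℕ) : ℝ) = ((s : ℝ) - l) * Ms := by
          push_cast
          ring
        have e2 : |(((D + l) * Ms : ℕ) : ℝ)| = ((D : ℝ) + l) * Ms := by
          rw [abs_of_nonneg (by positivity)]
          push_cast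
          ring
        have h3 : |(s : ℝ) - l| ≠ 0 := by
          rw [ne_eq, abs_eq_zero, sub_eq_zero]
          exact fun h => hls (by exact_mod_cast h.symm)
        simp only [e1, e2]
        rw [abs_mul, abs_of_pos hM0]
        field_simp
      have h2 : ∏ l ∈ (range (D + 1)).erase s, (((D : ℝ) + l) / |(s : ℝ) - l|) ≤
          ∏ l ∈ (range (D + 1)).erase s, ((2 * (D : ℝ)) / |(s : ℝ) - l|) := by
        refine Finset.prod_le_prod (fun l _ => by positivity) fun l hl => ?_
        have hlD : (l : ℝ) ≤ D := by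
          have := Finset.mem_range.1 (Finset.mem_of_mem_erase hl)
          exact_mod_cast Nat.lt_succ_iff.1 this
        gcongr
        linarith
      rw [h1]
      refine h2.trans (le_of_eq ?_)
      rw [g5_prod hsD, Finset.prod_div_distrib, Finset.prod_div_distrib, g5_fact1, g5_fact2,
        Finset.prod_const, Finset.prod_const, Finset.card_range, Finset.card_range]
      have h4 : (D.choose s : ℝ) = D.factorial / (s.factorial * (D - s).factorial) :=
        Nat.cast_choose ℝ hsD
      rw [h4, div_mul_div_comm, ← pow_add, show s + (D - s) = D by omega]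
      have h5 : (D.factorial : ℝ) ≠ 0 := by positivity
      field_simp
    refine (Finset.sum_le_sum hterm).trans ?_
    rw [← Finset.mul_sum]
    have h6 : ∑ s ∈ range (D + 1), (D.choose s : ℝ) = 2 ^ D := by
      have := Nat.sum_range_choose D
      exact_mod_cast this
    rw [h6]
    have hexp : (D : ℝ) ^ D / D.factorial ≤ Real.exp D := by
      have h2 := Real.sum_le_exp_of_nonneg (show (0 : ℝ) ≤ D by positivity) (D + 1)
      refine le_trans ?_ h2
      exact Finset.single_le_sum (f := fun i => (D : ℝ) ^ i / (i.factorial : ℝ))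
        (fun _ _ => by positivity) (Finset.mem_range.2 (Nat.lt_succ_self D))
    have he3 : Real.exp 1 ≤ 3 := by
      have := Real.exp_one_lt_d9
      linarith
    calc (2 * (D : ℝ)) ^ D / D.factorial * 2 ^ D = 4 ^ D * ((D : ℝ) ^ D / D.factorial) := by
          rw [mul_pow, show (4 : ℝ) ^ D = 2 ^ D * 2 ^ D by rw [← mul_pow]; norm_num]
          ring
      _ ≤ 4 ^ D * Real.exp D := by gcongr
      _ = 4 ^ D * Real.exp 1 ^ D := by
          rw [← Real.exp_nat_mul, mul_one]
      _ ≤ 4 ^ D * 3 ^ D := by gcongr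
      _ = (12 : ℝ) ^ D := by
          rw [← mul_pow]
          norm_num

end DC8965.P2
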