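import Pool.Agent.Lib.MP_dc8965_an.P2.GDefs

/-! # Lemma G (MP_dc8965_an, `2 < p`), job G6a: sum of 1/β! -/

open Finset Polynomial
open scoped LaurentPolynomial

namespace DC8965.P2

/-- `∑_(|β| = k) 1/β! = J^k/k!` (multinomial theorem `Finset.sum_pow_eq_sum_piAntidiag` with all variables `1`). -/
theorem sum_inv_fact (J k : ℕ) :
    ∑ β ∈ piAntidiag (univ : Finset (Fin J)) k, 1 / ∏ b, ((β b).factorial : ℝ) = (J : ℝ) ^ k / k.factorial := by
  have h := Finset.sum_pow_eq_sum_piAntidiag (univ : Finset (Fin J)) (fun _ => (1 : ℝ)) k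
  have hk : (k.factorial : ℝ) ≠ 0 := by positivity
  rw [eq_div_iff hk, Finset.sum_mul]
  simp only [sum_const, card_univ, Fintype.card_fin, nsmul_eq_mul, mul_one, one_pow,
    prod_const_one] at h
  rw [h]
  refine sum_congr rfl fun β hβ => ?_
  rw [mem_piAntidiag] at hβ
  have h2 := Nat.multinomial_spec (univ : Finset (Fin J)) β
  rw [hβ.1] at h2
  have h3 : (∏ b, ((β b).factorial : ℝ)) * (Nat.multinomial univ β : ℝ) = k.factorial := by
    exact_mod_cast h2
  have h4 : (∏ b, ((β b).factorial : ℝ)) ≠ 0 :=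
    Finset.prod_ne_zero_iff.2 fun b _ => by positivity
  rw [← h3]
  field_simp

end DC8965.P2
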