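import Pool.Agent.Lib.MP_dc8965_an.P2.G6a
import Pool.Agent.Lib.MP_dc8965_an.P2.G2a

/-! # Lemma G (MP_dc8965_an, `2 < p`), job G6b: level sums -/

open Finset Polynomial
open scoped LaurentPolynomial

namespace DC8965.P2

/-- LEVEL SUMS. If `‖f_g‖ ≤ B(lev g)/β!` and the support of `f` lies in `Val t`, then
`np r f ≤ ∑_(k ≤ J) (B k)^r C(J,k+t) J^k/k!` (`r ≥ 1`).
Proof: group the support by `k = lev g` (`lev g ≤ J` because `lev g + t = |{g = -1}| ≤ J`); `(1/β!)^r ≤ 1/β!`;
`g ↦ ({g = -1}, g⁺)` is injective on `Val t` into `powersetCard (k+t) univ ×ˢ piAntidiag univ k`. -/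
theorem np_le_levels {r : ℝ} (hr : 1 ≤ r) {J t : ℕ} (f : AddMonoidAlgebra ℂ (Fin J → ℤ)) (B : ℕ → ℝ)
    (hB : ∀ k, 0 ≤ B k) (h0 : ∀ g, f.coeff g ≠ 0 → Val t g)
    (h1 : ∀ g, Val t g → ‖f.coeff g‖ ≤ B (lev g) / bfac g) :
    np r f ≤ ∑ k ∈ range (J + 1), (B k) ^ r * ((J.choose (k + t) : ℝ) * (J : ℝ) ^ k / k.factorial) := by
  classical
  have hbf1 : ∀ g : Fin J → ℤ, 1 ≤ bfac g := by
    intro g
    unfold bfac
    have h : 1 ≤ ∏ b, (g b).toNat.factorial :=
      Nat.succ_le_of_lt (Finset.prod_pos fun b _ => Nat.factorial_pos _)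
    exact_mod_cast h
  have hbf0 : ∀ g : Fin J → ℤ, 0 < bfac g := fun g => by linarith [hbf1 g]
  have hval : ∀ g ∈ f.coeff.support, Val t g := fun g hg => h0 g (Finsupp.mem_support_iff.1 hg)
  -- pointwise bound
  have hpt : ∀ g ∈ f.coeff.support, ‖f.coeff g‖ ^ r ≤ (B (lev g)) ^ r * (1 / bfac g) := by
    intro g hg
    have h2 := h1 g (hval g hg)
    have h3 : ‖f.coeff g‖ ^ r ≤ (B (lev g) / bfac g) ^ r :=
      Real.rpow_le_rpow (norm_nonneg _) h2 (by linarith)
    refine h3.trans ?_
    rw [Real.div_rpow (hB _) (hbf0 g).le, div_eq_mul_one_div]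
    refine mul_le_mul_of_nonneg_left ?_ (Real.rpow_nonneg (hB _) _)
    refine one_div_le_one_div_of_le (hbf0 g) ?_
    calc bfac g = bfac g ^ (1 : ℝ) := (Real.rpow_one _).symm
      _ ≤ bfac g ^ r := Real.rpow_le_rpow_of_exponent_le (hbf1 g) hr
  have hlev : ∀ g ∈ f.coeff.support, lev g ∈ range (J + 1) := by
    intro g hg
    rw [Finset.mem_range]
    have h2 := card_ngs (hval g hg)
    have h3 : (ngs g).card ≤ J := by
      have := Finset.card_le_univ (ngs g)
      rwa [Fintype.card_fin] at this
    omega
  unfold np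
  calc ∑ g ∈ f.coeff.support, ‖f.coeff g‖ ^ r
      ≤ ∑ g ∈ f.coeff.support, (B (lev g)) ^ r * (1 / bfac g) := Finset.sum_le_sum hpt
    _ = ∑ k ∈ range (J + 1), ∑ g ∈ f.coeff.support with lev g = k,
          (B (lev g)) ^ r * (1 / bfac g) :=
        (Finset.sum_fiberwise_of_maps_to hlev _).symm
    _ ≤ ∑ k ∈ range (J + 1), (B k) ^ r * ((J.choose (k + t) : ℝ) * (J : ℝ) ^ k / k.factorial) := by
        refine Finset.sum_le_sum fun k _ => ?_
        have h2 : ∑ g ∈ f.coeff.support with lev g = k, (B (lev g)) ^ r * (1 / bfac g) =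
            (B k) ^ r * ∑ g ∈ f.coeff.support with lev g = k, (1 / bfac g) := by
          rw [Finset.mul_sum]
          refine Finset.sum_congr rfl fun g hg => ?_
          rw [(Finset.mem_filter.1 hg).2]
        rw [h2]
        refine mul_le_mul_of_nonneg_left ?_ (Real.rpow_nonneg (hB _) _)
        obtain ⟨e, he⟩ : ∃ e : (Fin J → ℤ) → Finset (Fin J) × (Fin J → ℕ),
            e = fun g => (ngs g, fun b => (g b).toNat) := ⟨_, rfl⟩
        obtain ⟨F, hF⟩ : ∃ F : Finset (Fin J) × (Fin J → ℕ) → ℝ,
            F = fun x => 1 / ∏ b, ((x.2 b).factorial : ℝ) := ⟨_, rfl⟩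
        have hFe : ∀ g : Fin J → ℤ, F (e g) = 1 / bfac g := by
          intro g
          rw [hF, he]
          rfl
        have hinj : Set.InjOn e (f.coeff.support.filter fun g => lev g = k : Finset _) := by
          intro g hg g' hg' hgg
          have hg1 := hval g (Finset.mem_filter.1 hg).1
          have hg2 := hval g' (Finset.mem_filter.1 hg').1
          rw [he] at hgg
          simp only [Prod.mk.injEq] at hgg
          obtain ⟨h4, h5⟩ := hgg
          funext b
          have h6 := congrFun h5 b
          have h7 : b ∈ ngs g ↔ b ∈ ngs g' := by rw [h4]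
          unfold ngs at h7
          simp only [Finset.mem_filter, Finset.mem_univ, true_and] at h7
          have h8 := hg1.1 b
          have h9 := hg2.1 b
          by_cases h10 : g b = -1
          · rw [h10, (h7.1 h10)]
          · have h11 : g' b ≠ -1 := fun h => h10 (h7.2 h)
            omega
        have hsub : (f.coeff.support.filter fun g => lev g = k).image e ⊆
            powersetCard (k + t) (univ : Finset (Fin J)) ×ˢ
              piAntidiag (univ : Finset (Fin J)) k := by
          intro x hx
          obtain ⟨g, hg, rfl⟩ := Finset.mem_image.1 hx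
          obtain ⟨hg1, hg2⟩ := Finset.mem_filter.1 hg
          rw [Finset.mem_product, he]
          refine ⟨?_, ?_⟩
          · rw [Finset.mem_powersetCard]
            refine ⟨Finset.subset_univ _, ?_⟩
            rw [← hg2]
            exact card_ngs (hval g hg1)
          · rw [Finset.mem_piAntidiag]
            exact ⟨hg2, fun i _ => Finset.mem_univ i⟩
        calc ∑ g ∈ f.coeff.support with lev g = k, (1 / bfac g)
            = ∑ g ∈ f.coeff.support with lev g = k, F (e g) :=
              Finset.sum_congr rfl fun g _ => (hFe g).symm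
          _ = ∑ x ∈ (f.coeff.support.filter fun g => lev g = k).image e, F x :=
              (Finset.sum_image hinj).symm
          _ ≤ ∑ x ∈ powersetCard (k + t) (univ : Finset (Fin J)) ×ˢ
              piAntidiag (univ : Finset (Fin J)) k, F x := by
              refine Finset.sum_le_sum_of_subset_of_nonneg hsub fun x _ _ => ?_
              rw [hF]
              positivity
          _ = ∑ _T ∈ powersetCard (k + t) (univ : Finset (Fin J)),
                ∑ β ∈ piAntidiag (univ : Finset (Fin J)) k,
                  1 / ∏ b, ((β b).factorial : ℝ) := by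
              rw [Finset.sum_product, hF]
          _ = (J.choose (k + t) : ℝ) * (J : ℝ) ^ k / k.factorial := by
              rw [sum_inv_fact, Finset.sum_const, Finset.card_powersetCard, Finset.card_univ,
                Fintype.card_fin, nsmul_eq_mul, mul_div_assoc]

end DC8965.P2
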