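import Pool.Agent.Lib.MP_dc8965_an.P2.G1a
import Pool.Agent.Lib.MP_dc8965_an.P2.G6a
import Pool.Agent.Lib.MP_dc8965_an.P2.B1

/-! # Lemma G (MP_dc8965_an, `2 < p`), job G6c: norm of u^n and of v -/

open Finset Polynomial
open scoped LaurentPolynomial

namespace DC8965.P2

private theorem g6c_coeff {q : ℝ} {J n : ℕ} (h : Fin J → ℤ) :
    (uu q J ^ n).coeff h = if (∀ b, 0 ≤ h b) ∧ ∑ b, h b = (n : ℤ) then
      ((((J : ℝ) ^ (-(1 / q))) ^ n * (n.factorial / ∏ b, ((h b).toNat.factorial : ℝ)) : ℝ) : ℂ)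
      else 0 := by
  unfold uu
  rw [_root_.smul_pow, AddMonoidAlgebra.coeff_smul, Finsupp.smul_apply, coeff_SS_pow, smul_eq_mul]
  split_ifs
  · push_cast
    ring
  · rw [mul_zero]

/-- `|u^n|_q^q ≤ (n!)^(q-1)`: `u^n = J^(-n/q) ∑_(|b|=n) (n!/b!) ξ^b` (coefficients of `S^n`: see `coeff_SS_pow` in G1, or
`Finset.sum_pow_eq_sum_piAntidiag`), `(n!/b!)^q ≤ (n!)^(q-1) (n!/b!)` and `∑ n!/b! = J^n`. -/
theorem np_uu_pow {q : ℝ} (hq : 1 < q) {J n : ℕ} (hJ : 1 ≤ J) :
    np q (uu q J ^ n) ≤ (n.factorial : ℝ) ^ (q - 1) := by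
  classical
  have hJ0 : (0 : ℝ) < J := by exact_mod_cast hJ
  have hq0 : 0 < q := by linarith
  have hn0 : (0 : ℝ) < n.factorial := by exact_mod_cast n.factorial_pos
  let e : (Fin J → ℕ) → (Fin J → ℤ) := fun β b => (β b : ℤ)
  have he : Function.Injective e := by
    intro β β' h
    funext b
    have := congrFun h b
    exact_mod_cast (show ((β b : ℕ) : ℤ) = (β' b : ℕ) from this)
  have hsub : (uu q J ^ n).coeff.support ⊆ (piAntidiag (univ : Finset (Fin J)) n).image e := by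
    intro h hh
    rw [Finsupp.mem_support_iff, g6c_coeff] at hh
    have hc : (∀ b, 0 ≤ h b) ∧ ∑ b, h b = (n : ℤ) := by
      by_contra hc
      rw [if_neg hc] at hh
      exact hh rfl
    rw [Finset.mem_image]
    refine ⟨fun b => (h b).toNat, ?_, ?_⟩
    · rw [mem_piAntidiag]
      refine ⟨?_, fun b _ => Finset.mem_univ b⟩
      have h1 : ((∑ b, (h b).toNat : ℕ) : ℤ) = n := by
        push_cast
        rw [← hc.2]
        exact Finset.sum_congr rfl fun b _ => by
          have := hc.1 b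
          simp [this]
      exact_mod_cast h1
    · funext b
      exact Int.toNat_of_nonneg (hc.1 b)
  rw [np_eq_sum hq0 _ _ hsub, Finset.sum_image fun a _ b _ h => he h]
  have hterm : ∀ β ∈ piAntidiag (univ : Finset (Fin J)) n, ‖(uu q J ^ n).coeff (e β)‖ ^ q ≤
      (n.factorial : ℝ) ^ (q - 1) * (n.factorial / (J : ℝ) ^ n) *
        (1 / ∏ b, ((β b).factorial : ℝ)) := by
    intro β hβ
    rw [mem_piAntidiag] at hβ
    have hc : (∀ b, 0 ≤ e β b) ∧ ∑ b, e β b = (n : ℤ) := by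
      refine ⟨fun b => by positivity, ?_⟩
      have h1 : ∑ b, e β b = ((∑ b, β b : ℕ) : ℤ) := by push_cast; rfl
      rw [h1, hβ.1]
    rw [g6c_coeff, if_pos hc]
    have hP : (1 : ℝ) ≤ ∏ b, ((β b).factorial : ℝ) := by
      have h1 : 1 ≤ ∏ b, (β b).factorial := Nat.one_le_iff_ne_zero.2
        (Finset.prod_ne_zero_iff.2 fun b _ => (Nat.factorial_pos _).ne')
      exact_mod_cast h1
    have hPe : ∏ b, ((e β b).toNat.factorial : ℝ) = ∏ b, ((β b).factorial : ℝ) := by
      refine Finset.prod_congr rfl fun b _ => ?_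
      simp [e]
    rw [hPe]
    obtain ⟨P, hPdef⟩ : ∃ P : ℝ, P = ∏ b, ((β b).factorial : ℝ) := ⟨_, rfl⟩
    rw [← hPdef] at hP ⊢
    have hP0 : 0 < P := by linarith
    rw [Complex.norm_real, Real.norm_eq_abs, abs_of_nonneg (by positivity),
      Real.mul_rpow (by positivity) (by positivity)]
    have h1 : (((J : ℝ) ^ (-(1 / q))) ^ n) ^ q = 1 / (J : ℝ) ^ n := by
      rw [← Real.rpow_natCast, ← Real.rpow_mul hJ0.le, ← Real.rpow_mul hJ0.le,
        show -(1 / q) * (n : ℝ) * q = -(n : ℝ) by field_simp, Real.rpow_neg hJ0.le,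
        Real.rpow_natCast, one_div]
    have h2 : ((n.factorial : ℝ) / P) ^ q ≤ (n.factorial : ℝ) ^ (q - 1) * (n.factorial / P) := by
      have h3 : (0 : ℝ) < n.factorial / P := by positivity
      have h4 : ((n.factorial : ℝ) / P) ^ q = (n.factorial / P) ^ (q - 1) * (n.factorial / P) := by
        rw [← Real.rpow_add_one h3.ne']
        congr 1
        ring
      rw [h4]
      refine mul_le_mul_of_nonneg_right ?_ h3.le
      exact Real.rpow_le_rpow h3.le (div_le_self hn0.le hP) (by linarith)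
    rw [h1]
    calc 1 / (J : ℝ) ^ n * ((n.factorial : ℝ) / P) ^ q
        ≤ 1 / (J : ℝ) ^ n * ((n.factorial : ℝ) ^ (q - 1) * (n.factorial / P)) :=
          mul_le_mul_of_nonneg_left h2 (by positivity)
      _ = _ := by ring
  refine (Finset.sum_le_sum hterm).trans (le_of_eq ?_)
  rw [← Finset.mul_sum, sum_inv_fact]
  field_simp

/-- `|v|_q^q ≤ 1` (`q/p = q-1`). -/
theorem np_vG {p q : ℝ} (hpq : p.HolderConjugate q) {J n : ℕ} (hJ : 1 ≤ J) : np q (vG p q J n) ≤ 1 := by
  have hq1 : 1 < q := hpq.symm.lt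
  have hq0 : 0 < q := by linarith
  have hp0 : 0 < p := hpq.pos
  have hn0 : (0 : ℝ) < n.factorial := by exact_mod_cast n.factorial_pos
  unfold vG
  rw [← nr_rpow hq0, nr_smul hq0, Real.mul_rpow (norm_nonneg _) (nr_nonneg _ _), nr_rpow hq0,
    Complex.norm_real, Real.norm_eq_abs, abs_of_nonneg (by positivity)]
  have h1 : (((n.factorial : ℝ)) ^ (-(1 / p))) ^ q * (n.factorial : ℝ) ^ (q - 1) = 1 := by
    rw [← Real.rpow_mul hn0.le, ← Real.rpow_add hn0]
    have h2 : -(1 / p) * q + (q - 1) = 0 := by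
      have h3 : (p - 1) * q = p := hpq.sub_one_mul_conj
      have h4 : q = p * (q - 1) := by linarith
      field_simp
      linarith
    rw [h2, Real.rpow_zero]
  calc _ ≤ (((n.factorial : ℝ)) ^ (-(1 / p))) ^ q * (n.factorial : ℝ) ^ (q - 1) :=
        mul_le_mul_of_nonneg_left (np_uu_pow hq1 hJ) (by positivity)
    _ = 1 := h1

end DC8965.P2
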