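import Pool.Agent.Lib.MP_dc8965_an.P2.G1b
import Pool.Agent.Lib.MP_dc8965_an.P2.G1c
import Pool.Agent.Lib.MP_dc8965_an.P2.G4a

/-! # Lemma G (MP_dc8965_an, `2 < p`), job G7a: coefficients of F^(t): general -/

open Finset Polynomial
open scoped LaurentPolynomial

namespace DC8965.P2

variable {q : ℝ} {J D Ms t : ℕ} {ν : ℕ → ℝ}

/-- `u F^(t+1) = F^(t)` if `t + 1 ≤ M_0 = D Ms` (`uu_mul_FF` for each node `(D+s) Ms ≥ D Ms`). -/
theorem uu_mul_Ft (hJ : 0 < J) (ht : t + 1 ≤ D * Ms) :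
    uu q J * Ft q J D Ms (t + 1) ν = Ft q J D Ms t ν := by
  unfold Ft
  rw [Finset.mul_sum]
  refine Finset.sum_congr rfl fun s _ => ?_
  rw [mul_smul_comm, uu_mul_FF hJ]
  refine ht.trans ?_
  exact Nat.mul_le_mul_right Ms (Nat.le_add_right D s)

private theorem Ft_coeff (g : Fin J → ℤ) :
    (Ft q J D Ms t ν).coeff g =
      ∑ s ∈ range (D + 1), ((ν s : ℝ) : ℂ) * (FF q J ((D + s) * Ms) t).coeff g := by
  unfold Ft
  rw [AddMonoidAlgebra.coeff_sum, Finsupp.finset_sum_apply]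
  refine Finset.sum_congr rfl fun s _ => ?_
  rw [AddMonoidAlgebra.coeff_smul, Finsupp.smul_apply, smul_eq_mul]

/-- the support of `F^(t)` lies in `Val t` (`coeff_FF`). -/
theorem Ft_supp (ht : t ≤ D * Ms) {g : Fin J → ℤ} (hg : ¬ Val t g) : (Ft q J D Ms t ν).coeff g = 0 := by
  classical
  rw [Ft_coeff]
  refine Finset.sum_eq_zero fun s _ => ?_
  have h1 : t ≤ (D + s) * Ms := ht.trans (Nat.mul_le_mul_right Ms (Nat.le_add_right D s))
  rw [coeff_FF h1, if_neg hg, mul_zero]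

/-- the general bound, from (U): `|∑_s ν_s x_(M_s)| ≤ 12^D max_s x_(M_s)`, `M_s ≤ 2 D Ms`, `4 M_s ≤ 8 D Ms ≤ J`. -/
theorem Ft_le (hν : Lagr D Ms ν) (ht : t ≤ D * Ms) (hJ : 8 * (D * Ms) ≤ J) {g : Fin J → ℤ} (hg : Val t g) :
    ‖(Ft q J D Ms t ν).coeff g‖ ≤
      ((12 : ℝ) ^ D * ((J : ℝ) ^ ((t : ℝ) / q) * (2 * ((D * Ms : ℕ) : ℝ)) ^ lev g *
        (2 / (J : ℝ)) ^ (lev g + t))) / bfac g := by
  classical
  have hb : 0 < bfac g := by
    unfold bfac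
    exact Finset.prod_pos fun b _ => by positivity
  rw [Ft_coeff]
  have hterm : ∀ s ∈ range (D + 1), ‖((ν s : ℝ) : ℂ) * (FF q J ((D + s) * Ms) t).coeff g‖ ≤
      |ν s| * (((J : ℝ) ^ ((t : ℝ) / q) * (2 * ((D * Ms : ℕ) : ℝ)) ^ lev g *
        (2 / (J : ℝ)) ^ (lev g + t)) / bfac g) := by
    intro s hs
    rw [Finset.mem_range] at hs
    have h1 : t ≤ (D + s) * Ms := ht.trans (Nat.mul_le_mul_right Ms (Nat.le_add_right D s))
    have h2 : (D + s) * Ms ≤ 2 * (D * Ms) := by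
      have h3 : (D + s) * Ms ≤ (2 * D) * Ms := Nat.mul_le_mul_right Ms (by omega)
      calc (D + s) * Ms ≤ (2 * D) * Ms := h3
        _ = 2 * (D * Ms) := by ring
    have h4 : 4 * ((D + s) * Ms) ≤ J := by omega
    have h5 := xx_nonneg hg h1 h4
    have h6 := xx_le hg h1 h4
    rw [coeff_FF h1, if_pos hg, norm_mul, Complex.norm_real, Complex.norm_real, Real.norm_eq_abs,
      Real.norm_eq_abs]
    refine mul_le_mul_of_nonneg_left ?_ (abs_nonneg _)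
    rw [abs_of_nonneg (mul_nonneg (by positivity) h5)]
    have h7 : ((((D + s) * Ms : ℕ) : ℝ)) ^ lev g ≤ (2 * ((D * Ms : ℕ) : ℝ)) ^ lev g := by
      refine pow_le_pow_left₀ (by positivity) ?_ _
      exact_mod_cast h2
    calc (J : ℝ) ^ ((t : ℝ) / q) * xx J ((D + s) * Ms) t g
        ≤ (J : ℝ) ^ ((t : ℝ) / q) * (((((D + s) * Ms : ℕ) : ℝ)) ^ lev g *
          (2 / (J : ℝ)) ^ (lev g + t) / bfac g) :=
          mul_le_mul_of_nonneg_left h6 (by positivity)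
      _ ≤ (J : ℝ) ^ ((t : ℝ) / q) * ((2 * ((D * Ms : ℕ) : ℝ)) ^ lev g *
          (2 / (J : ℝ)) ^ (lev g + t) / bfac g) := by
          gcongr
      _ = _ := by ring
  refine (norm_sum_le _ _).trans ((Finset.sum_le_sum hterm).trans ?_)
  rw [← Finset.sum_mul]
  have h8 := mul_le_mul_of_nonneg_right hν.2 (by positivity :
    0 ≤ (((J : ℝ) ^ ((t : ℝ) / q) * (2 * ((D * Ms : ℕ) : ℝ)) ^ lev g *
        (2 / (J : ℝ)) ^ (lev g + t)) / bfac g))
  refine h8.trans (le_of_eq ?_)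
  ring

end DC8965.P2
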