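import Pool.Agent.Lib.MP_dc8965_an.P2.G1c
import Pool.Agent.Lib.MP_dc8965_an.P2.G4b

/-! # Lemma G (MP_dc8965_an, `2 < p`), job G7b: coefficients of F^(t): low levels -/

open Finset Polynomial
open scoped LaurentPolynomial

namespace DC8965.P2

variable {q : ℝ} {J D Ms t : ℕ} {ν : ℕ → ℝ}

private theorem g7b_coeff (hν : Lagr D Ms ν) (ht : t ≤ D * Ms) (hJ : 8 * (D * Ms) ≤ J)
    {g : Fin J → ℤ} (hg : Val t g) {P : ℝ[X]} (hP : P.natDegree ≤ D)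
    (hPx : ∀ M : ℕ, t ≤ M → M ≤ J → P.eval (M : ℝ) = xx J M t g) :
    (Ft q J D Ms t ν).coeff g = (((J : ℝ) ^ ((t : ℝ) / q) * P.eval 0 : ℝ) : ℂ) := by
  classical
  unfold Ft
  rw [AddMonoidAlgebra.coeff_sum, Finsupp.finset_sum_apply, ← hν.1 P hP, Finset.mul_sum,
    Complex.ofReal_sum]
  refine Finset.sum_congr rfl fun s hs => ?_
  rw [Finset.mem_range] at hs
  have h1 : t ≤ (D + s) * Ms := ht.trans (Nat.mul_le_mul_right Ms (Nat.le_add_right D s))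
  have h2 : (D + s) * Ms ≤ 2 * (D * Ms) := by
    have h3 : (D + s) * Ms ≤ (2 * D) * Ms := Nat.mul_le_mul_right Ms (by omega)
    calc (D + s) * Ms ≤ (2 * D) * Ms := h3
      _ = 2 * (D * Ms) := by ring
  rw [AddMonoidAlgebra.coeff_smul, Finsupp.smul_apply, smul_eq_mul, coeff_FF h1, if_pos hg,
    hPx _ h1 (by omega)]
  push_cast
  ring

/-- low levels, from (K): the polynomial `P` of `xx_poly` has degree `≤ 2 lev g ≤ D`, so `∑_s ν_s x_(M_s) = P(0)`. -/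
theorem Ft_le_low (hν : Lagr D Ms ν) (ht : t ≤ D * Ms) (hJ : 8 * (D * Ms) ≤ J) (hJ2 : 2 * (D + t) ≤ J)
    {g : Fin J → ℤ} (hg : Val t g) (hk : 2 * lev g ≤ D) :
    ‖(Ft q J D Ms t ν).coeff g‖ ≤
      ((J : ℝ) ^ ((t : ℝ) / q) * rise t (lev g) * (2 / (J : ℝ)) ^ (lev g + t)) / bfac g := by
  obtain ⟨P, hP1, hP2, hP3, -⟩ := xx_poly hg (by omega)
  rw [g7b_coeff hν ht hJ hg (hP1.trans hk) hP2, Complex.norm_real, Real.norm_eq_abs, abs_mul,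
    abs_of_nonneg (by positivity)]
  calc (J : ℝ) ^ ((t : ℝ) / q) * |P.eval 0| ≤ (J : ℝ) ^ ((t : ℝ) / q) *
        (rise t (lev g) * (2 / (J : ℝ)) ^ (lev g + t) / bfac g) :=
        mul_le_mul_of_nonneg_left hP3 (by positivity)
    _ = _ := by ring

/-- level 0: the coefficient is exactly `J^(t/q)/(J)_t`. -/
theorem Ft_level_zero (hν : Lagr D Ms ν) (ht : t ≤ D * Ms) (hJ : 8 * (D * Ms) ≤ J) (hJ2 : 2 * (D + t) ≤ J)
    {g : Fin J → ℤ} (hg : Val t g) (hk : lev g = 0) :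
    (Ft q J D Ms t ν).coeff g = (((J : ℝ) ^ ((t : ℝ) / q) / (J.descFactorial t : ℝ) : ℝ) : ℂ) := by
  obtain ⟨P, hP1, hP2, -, hP4⟩ := xx_poly hg (by omega)
  rw [g7b_coeff hν ht hJ hg (hP1.trans (by omega)) hP2, hP4 hk]
  congr 1
  ring

end DC8965.P2
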