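import Pool.Agent.Lib.MP_dc8965_an.P2.GDefs

/-! # Lemma G (MP_dc8965_an, `2 < p`), job G8a: one term of the level sum (real computation) -/

open Finset Polynomial
open scoped LaurentPolynomial

namespace DC8965.P2

variable {p q : ℝ} {J D Ms t : ℕ} {ν : ℕ → ℝ} {Λ : ℝ}

/-- REAL COMPUTATION used in all four bounds: one term of `np_le_levels` for the general bound. -/
theorem term_le (hpq : p.HolderConjugate q) (hJ : 1 ≤ J) (hΛ : (2 * ((D * Ms : ℕ) : ℝ)) ^ p ≤ Λ * (J : ℝ) ^ (p - 2))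
    (k : ℕ) :
    ((12 : ℝ) ^ D * ((J : ℝ) ^ ((t : ℝ) / q) * (2 * ((D * Ms : ℕ) : ℝ)) ^ k * (2 / (J : ℝ)) ^ (k + t))) ^ p *
        ((J.choose (k + t) : ℝ) * (J : ℝ) ^ k / k.factorial) ≤
      (12 : ℝ) ^ ((D : ℝ) * p) * (2 : ℝ) ^ (p * t) * ((2 ^ p * Λ) ^ k / (k.factorial * (k + t).factorial)) := by
  have hp0 : 0 < p := hpq.pos
  have hq0 : 0 < q := hpq.symm.pos
  have hJ0 : (0 : ℝ) < (J : ℝ) := by exact_mod_cast hJ
  set A : ℝ := 2 * ((D * Ms : ℕ) : ℝ) with hA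
  have hA0 : 0 ≤ A := by positivity
  set u : ℝ := (J : ℝ) ^ p with hu
  have hu0 : 0 < u := Real.rpow_pos_of_pos hJ0 _
  have hJ2 : (J : ℝ) ^ (p - 2) = u / (J : ℝ) ^ 2 := by
    rw [Real.rpow_sub hJ0, Real.rpow_two]
  have hAp0 : 0 ≤ A ^ p := Real.rpow_nonneg hA0 _
  have hk1 : A ^ p * (J : ℝ) ^ 2 / u ≤ Λ := by
    rw [hJ2] at hΛ
    rw [div_le_iff₀ hu0]
    calc A ^ p * (J : ℝ) ^ 2 ≤ (Λ * (u / (J : ℝ) ^ 2)) * (J : ℝ) ^ 2 :=
          mul_le_mul_of_nonneg_right hΛ (by positivity)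
      _ = Λ * u := by field_simp
  have hC : ((J.choose (k + t) : ℕ) : ℝ) ≤ (J : ℝ) ^ (k + t) / ((k + t).factorial : ℝ) :=
    Nat.choose_le_pow_div (k + t) J
  have e1 : ((12 : ℝ) ^ D) ^ p = (12 : ℝ) ^ ((D : ℝ) * p) := (Real.rpow_natCast_mul (by norm_num) D p).symm
  have e2 : ((J : ℝ) ^ ((t : ℝ) / q)) ^ p = (u / (J : ℝ)) ^ t := by
    rw [← Real.rpow_mul hJ0.le]
    have : (t : ℝ) / q * p = (p - 1) * (t : ℝ) := by
      have h := hpq.inv_add_inv_eq_one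
      have : p / q = p - 1 := by
        field_simp at h ⊢
        linarith
      calc (t : ℝ) / q * p = (p / q) * t := by ring
        _ = (p - 1) * t := by rw [this]
    rw [this, Real.rpow_mul_natCast hJ0.le, Real.rpow_sub_one hJ0.ne']
  have e3 : (A ^ k) ^ p = (A ^ p) ^ k := by
    rw [← Real.rpow_natCast_mul hA0, mul_comm, Real.rpow_mul_natCast hA0]
  have e4 : ((2 / (J : ℝ)) ^ (k + t)) ^ p = ((2 : ℝ) ^ p / u) ^ (k + t) := by
    have h0 : (0 : ℝ) ≤ 2 / (J : ℝ) := by positivity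
    rw [← Real.rpow_natCast_mul h0, mul_comm, Real.rpow_mul_natCast h0, Real.div_rpow (by norm_num) hJ0.le]
  have e5 : (2 : ℝ) ^ (p * t) = ((2 : ℝ) ^ p) ^ t := Real.rpow_mul_natCast (by norm_num) p t
  have h2p : (0 : ℝ) < (2 : ℝ) ^ p := Real.rpow_pos_of_pos (by norm_num) _
  rw [Real.mul_rpow (by positivity) (by positivity), Real.mul_rpow (by positivity) (by positivity),
    Real.mul_rpow (by positivity) (by positivity), e1, e2, e3, e4, e5]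
  have h12 : (0 : ℝ) ≤ (12 : ℝ) ^ ((D : ℝ) * p) := by positivity
  have hkey : (A ^ p * (J : ℝ) ^ 2 / u) ^ k ≤ Λ ^ k := pow_le_pow_left₀ (by positivity) hk1 k
  calc (12 : ℝ) ^ ((D : ℝ) * p) * ((u / (J : ℝ)) ^ t * (A ^ p) ^ k * ((2 : ℝ) ^ p / u) ^ (k + t)) *
        (((J.choose (k + t) : ℕ) : ℝ) * (J : ℝ) ^ k / (k.factorial : ℝ))
      ≤ (12 : ℝ) ^ ((D : ℝ) * p) * ((u / (J : ℝ)) ^ t * (A ^ p) ^ k * ((2 : ℝ) ^ p / u) ^ (k + t)) *
        (((J : ℝ) ^ (k + t) / ((k + t).factorial : ℝ)) * (J : ℝ) ^ k / (k.factorial : ℝ)) := by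
        gcongr
    _ = (12 : ℝ) ^ ((D : ℝ) * p) * ((2 : ℝ) ^ p) ^ t *
        (((2 : ℝ) ^ p) ^ k * (A ^ p * (J : ℝ) ^ 2 / u) ^ k /
          ((k.factorial : ℝ) * ((k + t).factorial : ℝ))) := by
        have hf1 : (k.factorial : ℝ) ≠ 0 := by positivity
        have hf2 : ((k + t).factorial : ℝ) ≠ 0 := by positivity
        rw [div_pow, div_pow, div_pow, mul_pow, pow_add, pow_add, pow_add, ← pow_mul]
        field_simp
        ring
    _ ≤ (12 : ℝ) ^ ((D : ℝ) * p) * ((2 : ℝ) ^ p) ^ t *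
        (((2 : ℝ) ^ p) ^ k * Λ ^ k / ((k.factorial : ℝ) * ((k + t).factorial : ℝ))) := by
        gcongr
    _ = (12 : ℝ) ^ ((D : ℝ) * p) * ((2 : ℝ) ^ p) ^ t *
        ((2 ^ p * Λ) ^ k / ((k.factorial : ℝ) * ((k + t).factorial : ℝ))) := by
        rw [mul_pow]

end DC8965.P2
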