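import Pool.Agent.Lib.MP_dc8965_an.P2.G6b
import Pool.Agent.Lib.MP_dc8965_an.P2.G7a
import Pool.Agent.Lib.MP_dc8965_an.P2.G8a

/-! # Lemma G (MP_dc8965_an, `2 < p`), job G8b: (B2) -/

open Finset Polynomial
open scoped LaurentPolynomial

namespace DC8965.P2

variable {p q : ℝ} {J D Ms t : ℕ} {ν : ℕ → ℝ} {Λ : ℝ}

/-- (B2) from `Ft_le`, `np_le_levels`, `term_le`, `(k+t)! ≥ t!`, `∑ Y^k/k! = exp Y`. -/
theorem np_Ft_le (hpq : p.HolderConjugate q) (hν : Lagr D Ms ν) (ht : t ≤ D * Ms) (hJ1 : 1 ≤ J)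
    (hJ : 8 * (D * Ms) ≤ J) (hΛ : (2 * ((D * Ms : ℕ) : ℝ)) ^ p ≤ Λ * (J : ℝ) ^ (p - 2)) :
    np p (Ft q J D Ms t ν) ≤
      (12 : ℝ) ^ ((D : ℝ) * p) * (2 : ℝ) ^ (p * t) * Real.exp (2 ^ p * Λ) / t.factorial := by
  have hJ0 : (0 : ℝ) < J := by exact_mod_cast hJ1
  have hp1 : 1 ≤ p := hpq.lt.le
  have hΛ0 : 0 ≤ Λ := by
    have h1 : 0 ≤ (2 * ((D * Ms : ℕ) : ℝ)) ^ p := by positivity
    have h2 : 0 < (J : ℝ) ^ (p - 2) := by positivity
    by_contra hneg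
    push Not at hneg
    have : Λ * (J : ℝ) ^ (p - 2) < 0 := mul_neg_of_neg_of_pos hneg h2
    linarith
  have hY : 0 ≤ (2 : ℝ) ^ p * Λ := by positivity
  have key := np_le_levels hp1 (J := J) (t := t) (Ft q J D Ms t ν)
    (fun k => (12 : ℝ) ^ D * ((J : ℝ) ^ ((t : ℝ) / q) * (2 * ((D * Ms : ℕ) : ℝ)) ^ k *
        (2 / (J : ℝ)) ^ (k + t))) (fun k => by positivity)
    (fun g hg => by
      by_contra hv
      exact hg (Ft_supp ht hv))
    (fun g hg => Ft_le hν ht hJ hg)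
  refine key.trans ?_
  calc ∑ k ∈ range (J + 1), ((12 : ℝ) ^ D * ((J : ℝ) ^ ((t : ℝ) / q) * (2 * ((D * Ms : ℕ) : ℝ)) ^ k *
        (2 / (J : ℝ)) ^ (k + t))) ^ p * ((J.choose (k + t) : ℝ) * (J : ℝ) ^ k / k.factorial)
      ≤ ∑ k ∈ range (J + 1), (12 : ℝ) ^ ((D : ℝ) * p) * (2 : ℝ) ^ (p * t) / t.factorial *
          ((2 ^ p * Λ) ^ k / k.factorial) := by
        refine Finset.sum_le_sum fun k _ => ?_
        refine (term_le hpq hJ1 hΛ k).trans ?_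
        have h1 : ((t.factorial : ℕ) : ℝ) ≤ ((k + t).factorial : ℕ) := by
          exact_mod_cast Nat.factorial_le (Nat.le_add_left t k)
        have h2 : (0 : ℝ) < (t.factorial : ℕ) := by exact_mod_cast t.factorial_pos
        have h3 : (0 : ℝ) < (k.factorial : ℕ) := by exact_mod_cast k.factorial_pos
        have h4 : (2 ^ p * Λ) ^ k / ((k.factorial : ℝ) * ((k + t).factorial : ℝ)) ≤
            (2 ^ p * Λ) ^ k / ((k.factorial : ℝ) * (t.factorial : ℝ)) := by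
          gcongr
        calc (12 : ℝ) ^ ((D : ℝ) * p) * (2 : ℝ) ^ (p * t) *
              ((2 ^ p * Λ) ^ k / (k.factorial * (k + t).factorial))
            ≤ (12 : ℝ) ^ ((D : ℝ) * p) * (2 : ℝ) ^ (p * t) *
              ((2 ^ p * Λ) ^ k / ((k.factorial : ℝ) * (t.factorial : ℝ))) := by
              gcongr
          _ = (12 : ℝ) ^ ((D : ℝ) * p) * (2 : ℝ) ^ (p * t) / t.factorial *
              ((2 ^ p * Λ) ^ k / k.factorial) := by
              field_simp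
    _ = (12 : ℝ) ^ ((D : ℝ) * p) * (2 : ℝ) ^ (p * t) / t.factorial *
          ∑ k ∈ range (J + 1), ((2 ^ p * Λ) ^ k / k.factorial) := by
        rw [Finset.mul_sum]
    _ ≤ (12 : ℝ) ^ ((D : ℝ) * p) * (2 : ℝ) ^ (p * t) / t.factorial * Real.exp (2 ^ p * Λ) := by
        have := Real.sum_le_exp_of_nonneg hY (J + 1)
        gcongr
    _ = (12 : ℝ) ^ ((D : ℝ) * p) * (2 : ℝ) ^ (p * t) * Real.exp (2 ^ p * Λ) / t.factorial := by
        ring

end DC8965.P2
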