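import Pool.Agent.Lib.MP_dc8965_an.P2.G6b
import Pool.Agent.Lib.MP_dc8965_an.P2.G7a
import Pool.Agent.Lib.MP_dc8965_an.P2.G7b
import Pool.Agent.Lib.MP_dc8965_an.P2.G8a

/-! # Lemma G (MP_dc8965_an, `2 < p`), job G8c: (B0) -/

open Finset Polynomial
open scoped LaurentPolynomial

namespace DC8965.P2

variable {p q : ℝ} {J D Ms t : ℕ} {ν : ℕ → ℝ} {Λ : ℝ}

private lemma g8c_lev_zero {J : ℕ} : lev (0 : Fin J → ℤ) = 0 := by
  unfold lev
  simp

private lemma g8c_eq_zero {J : ℕ} {g : Fin J → ℤ} (hg : Val 0 g) (hl : lev g = 0) : g = 0 := by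
  have h1 : ∀ b, g b ≤ 0 := by
    intro b
    unfold lev at hl
    have h2 := (Finset.sum_eq_zero_iff.1 hl) b (Finset.mem_univ b)
    exact Int.toNat_eq_zero.1 h2
  have h3 : ∑ b, g b = 0 := by
    have := hg.2
    simpa using this
  funext b
  exact (Finset.sum_eq_zero_iff_of_nonpos (fun i _ => h1 i)).1 h3 b (Finset.mem_univ b)

private lemma g8c_one_coeff {J : ℕ} (g : Fin J → ℤ) :
    (1 : AddMonoidAlgebra ℂ (Fin J → ℤ)).coeff g = if g = 0 then 1 else 0 := by
  classical
  rw [AddMonoidAlgebra.one_def, AddMonoidAlgebra.coeff_single, Finsupp.single_apply]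
  by_cases h : g = 0
  · rw [if_pos h, if_pos h.symm]
  · rw [if_neg h, if_neg (fun h' => h h'.symm)]

private lemma g8c_rise {k : ℕ} (hk : k ≠ 0) : rise 0 k = 0 := by
  unfold rise
  refine Finset.prod_eq_zero (Finset.mem_range.2 (Nat.pos_of_ne_zero hk)) ?_
  simp

/-- (B0) `t = 0`, `D = 2N`: the coefficient at `0` is `1` (`Ft_level_zero`), the levels `1 ≤ k ≤ N` vanish (`rise 0 k = 0`),
the levels `k > N` give `tau` (`np_le_levels` for `F^(0) - 1` with `B k = 0` for `k ≤ N`; `Val 0 0`; `lev g = 0 → g = 0` if `Val 0 g`). -/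
theorem np_F0_le {N : ℕ} (hpq : p.HolderConjugate q) (hν : Lagr (2 * N) Ms ν) (hJ1 : 1 ≤ J)
    (hJ : 8 * (2 * N * Ms) ≤ J) (hJ2 : 4 * N ≤ J)
    (hΛ : (2 * ((2 * N * Ms : ℕ) : ℝ)) ^ p ≤ Λ * (J : ℝ) ^ (p - 2)) :
    np p (Ft q J (2 * N) Ms 0 ν - 1) ≤ tau p (2 ^ p * Λ) N := by
  classical
  have hp1 : 1 < p := hpq.lt
  have hp0 : 0 < p := by linarith
  have hJpos : (0 : ℝ) < J := by exact_mod_cast hJ1
  have hΛ0 : 0 ≤ Λ := by
    have h1 : (0 : ℝ) ≤ (2 * ((2 * N * Ms : ℕ) : ℝ)) ^ p := by positivity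
    have h2 : (0 : ℝ) < (J : ℝ) ^ (p - 2) := Real.rpow_pos_of_pos hJpos _
    by_contra h3
    have h4 := mul_neg_of_neg_of_pos (lt_of_not_ge h3) h2
    linarith
  have hY : (0 : ℝ) ≤ 2 ^ p * Λ := by positivity
  set Y : ℝ := 2 ^ p * Λ with hYdef
  set G : ℕ → ℝ := fun k => (12 : ℝ) ^ (2 * N) * ((J : ℝ) ^ (((0 : ℕ) : ℝ) / q) *
    (2 * ((2 * N * Ms : ℕ) : ℝ)) ^ k * (2 / (J : ℝ)) ^ (k + 0)) with hG
  have hG0 : ∀ k, 0 ≤ G k := fun k => by
    rw [hG]
    positivity
  set B : ℕ → ℝ := fun k => if k ≤ N then 0 else G k with hB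
  have hB0 : ∀ k, 0 ≤ B k := fun k => by
    rw [hB]
    dsimp only
    split_ifs
    · exact le_refl 0
    · exact hG0 k
  have hcoef : ∀ g, (Ft q J (2 * N) Ms 0 ν - 1).coeff g =
      (Ft q J (2 * N) Ms 0 ν).coeff g - (if g = 0 then 1 else 0) := by
    intro g
    rw [AddMonoidAlgebra.coeff_sub, Finsupp.sub_apply, g8c_one_coeff]
  have hVal0 : Val 0 (0 : Fin J → ℤ) := by
    refine ⟨fun b => by simp, by simp⟩
  have h0 : ∀ g, (Ft q J (2 * N) Ms 0 ν - 1).coeff g ≠ 0 → Val 0 g := by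
    intro g hg
    by_contra hV
    apply hg
    rw [hcoef, Ft_supp (Nat.zero_le _) hV, if_neg]
    · simp
    · intro h
      rw [h] at hV
      exact hV hVal0
  have hJ2' : 2 * (2 * N + 0) ≤ J := by omega
  have h1 : ∀ g, Val 0 g → ‖(Ft q J (2 * N) Ms 0 ν - 1).coeff g‖ ≤ B (lev g) / bfac g := by
    intro g hg
    by_cases hl : lev g = 0
    · have hg0 := g8c_eq_zero hg hl
      have h2 := Ft_level_zero (q := q) hν (Nat.zero_le _) hJ hJ2' hg hl
      have h3 : (Ft q J (2 * N) Ms 0 ν - 1).coeff g = 0 := by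
        rw [hcoef, h2, if_pos hg0]
        simp
      rw [h3, norm_zero]
      have : 0 ≤ bfac g := by
        unfold bfac
        positivity
      exact div_nonneg (hB0 _) this
    · have hg0 : g ≠ 0 := by
        intro h
        rw [h] at hl
        exact hl g8c_lev_zero
      rw [hcoef, if_neg hg0, sub_zero]
      by_cases hlN : lev g ≤ N
      · have h2 := Ft_le_low (q := q) hν (Nat.zero_le _) hJ hJ2' hg (by omega)
        rw [g8c_rise hl] at h2
        rw [hB]
        dsimp only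
        rw [if_pos hlN]
        simpa using h2
      · have h2 := Ft_le (q := q) hν (Nat.zero_le _) hJ hg
        rw [hB]
        dsimp only
        rw [if_neg hlN]
        exact h2
  have hmain := np_le_levels hp1.le (Ft q J (2 * N) Ms 0 ν - 1) B hB0 h0 h1
  refine hmain.trans ?_
  set a : ℕ → ℝ := fun k => Y ^ k / ((k.factorial : ℝ) ^ 2) with ha
  have ha0 : ∀ k, 0 ≤ a k := fun k => by
    rw [ha]
    positivity
  have hsum : Summable fun k => a (k + N + 1) := by
    have h2 : Summable a := by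
      refine Summable.of_nonneg_of_le ha0 (fun k => ?_) (Real.summable_pow_div_factorial Y)
      rw [ha]
      dsimp only
      refine div_le_div_of_nonneg_left (by positivity) (by positivity) ?_
      have h3 : (1 : ℝ) ≤ (k.factorial : ℝ) := by exact_mod_cast Nat.factorial_pos k
      nlinarith
    have h4 := (summable_nat_add_iff (N + 1)).2 h2
    simpa only [← add_assoc] using h4
  set C : ℝ := (12 : ℝ) ^ (2 * (N : ℝ) * p) with hC
  have hC0 : 0 ≤ C := by positivity
  have hterm : ∀ k, (B k) ^ p * ((J.choose (k + 0) : ℝ) * (J : ℝ) ^ k / k.factorial) ≤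
      if k ≤ N then 0 else C * a k := by
    intro k
    by_cases hk : k ≤ N
    · rw [if_pos hk, hB]
      dsimp only
      rw [if_pos hk, Real.zero_rpow hp0.ne', zero_mul]
    · rw [if_neg hk, hB]
      dsimp only
      rw [if_neg hk]
      have h2 := term_le (t := 0) hpq hJ1 hΛ k
      refine h2.trans (le_of_eq ?_)
      rw [hC, ha]
      have h3 : (((2 * N : ℕ) : ℝ)) * p = 2 * (N : ℝ) * p := by push_cast; ring
      rw [h3]
      simp only [Nat.cast_zero, mul_zero, Real.rpow_zero, mul_one, add_zero, sq, ← hYdef]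
  calc ∑ k ∈ range (J + 1), (B k) ^ p * ((J.choose (k + 0) : ℝ) * (J : ℝ) ^ k / k.factorial)
      ≤ ∑ k ∈ range (J + 1), (if k ≤ N then 0 else C * a k) := Finset.sum_le_sum fun k _ => hterm k
    _ ≤ ∑ k ∈ range (N + 1 + (J + 1)), (if k ≤ N then 0 else C * a k) := by
        refine Finset.sum_le_sum_of_subset_of_nonneg ?_ ?_
        · intro k hk
          rw [Finset.mem_range] at hk ⊢
          omega
        · intro k _ _
          split_ifs
          · exact le_refl 0
          · exact mul_nonneg hC0 (ha0 k)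
    _ = ∑ k ∈ range (J + 1), C * a (k + N + 1) := by
        rw [Finset.sum_range_add, Finset.sum_eq_zero, zero_add]
        · refine Finset.sum_congr rfl fun k _ => ?_
          rw [if_neg (by omega)]
          congr 2
          omega
        · intro k hk
          rw [Finset.mem_range] at hk
          rw [if_pos (by omega)]
    _ = C * ∑ k ∈ range (J + 1), a (k + N + 1) := by rw [Finset.mul_sum]
    _ ≤ C * ∑' k, a (k + N + 1) :=
        mul_le_mul_of_nonneg_left (hsum.sum_le_tsum _ fun k _ => ha0 _) hC0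
    _ = tau p Y N := by
        unfold tau
        rw [hC]

end DC8965.P2
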