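import Pool.Agent.Lib.MP_dc8965_an.P2.G6b
import Pool.Agent.Lib.MP_dc8965_an.P2.G7a
import Pool.Agent.Lib.MP_dc8965_an.P2.G7b
import Pool.Agent.Lib.MP_dc8965_an.P2.G8a

/-! # Lemma G (MP_dc8965_an, `2 < p`), job G8d: (B1) -/

open Finset Polynomial
open scoped LaurentPolynomial

namespace DC8965.P2

variable {p q : ℝ} {J D Ms t : ℕ} {ν : ℕ → ℝ} {Λ : ℝ}

/-- level 0 -/
private theorem g8d_zero (hpq : p.HolderConjugate q) (hJ1 : 1 ≤ J) (ht : t ≤ J) :
    ((J : ℝ) ^ ((t : ℝ) / q) / (J.descFactorial t : ℝ)) ^ p *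
        ((J.choose (0 + t) : ℝ) * (J : ℝ) ^ 0 / (Nat.factorial 0 : ℝ)) =
      ((J : ℝ) ^ t / (J.descFactorial t : ℝ)) ^ (p - 1) / t.factorial := by
  have hJ0 : (0 : ℝ) < J := by exact_mod_cast hJ1
  have hd : (0 : ℝ) < (J.descFactorial t : ℝ) := by
    exact_mod_cast Nat.pos_of_ne_zero (fun h => by
      rw [Nat.descFactorial_eq_zero_iff_lt] at h
      omega)
  have hf : (0 : ℝ) < (t.factorial : ℝ) := by exact_mod_cast t.factorial_pos
  have hp : 0 < p := hpq.pos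
  have hq : 0 < q := hpq.symm.pos
  have hc : (J.choose (0 + t) : ℝ) = (J.descFactorial t : ℝ) / t.factorial := by
    rw [zero_add, eq_div_iff hf.ne']
    have := Nat.descFactorial_eq_factorial_mul_choose J t
    rw [this]
    push_cast
    ring
  have he : ((J : ℝ) ^ ((t : ℝ) / q)) ^ p = ((J : ℝ) ^ t) ^ (p - 1) := by
    rw [← Real.rpow_mul hJ0.le, ← Real.rpow_natCast (J : ℝ) t, ← Real.rpow_mul hJ0.le]
    congr 1
    have h1 : p / q = p - 1 := hpq.div_conj_eq_sub_one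
    calc (t : ℝ) / q * p = t * (p / q) := by ring
      _ = t * (p - 1) := by rw [h1]
  rw [hc, Real.div_rpow (by positivity) hd.le, he, Real.div_rpow (by positivity) hd.le,
    Real.rpow_sub_one hd.ne']
  simp only [pow_zero, Nat.factorial_zero, Nat.cast_one, mul_one, div_one]
  field_simp

/-- low levels -/
private theorem g8d_low (hpq : p.HolderConjugate q) (hJ1 : 1 ≤ J) (k : ℕ) :
    ((J : ℝ) ^ ((t : ℝ) / q) * rise t k * (2 / (J : ℝ)) ^ (k + t)) ^ p *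
        ((J.choose (k + t) : ℝ) * (J : ℝ) ^ k / k.factorial) ≤
      (2 : ℝ) ^ (p * (k + t)) * rise t k ^ p * (J : ℝ) ^ ((k : ℝ) * (2 - p)) /
        (k.factorial * (k + t).factorial) := by
  have hJ0 : (0 : ℝ) < J := by exact_mod_cast hJ1
  have hr : 0 ≤ rise t k := by unfold rise; positivity
  have hk : (0 : ℝ) < (k.factorial : ℝ) := by exact_mod_cast k.factorial_pos
  have hkt : (0 : ℝ) < ((k + t).factorial : ℝ) := by exact_mod_cast (k + t).factorial_pos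
  have hp : 0 < p := hpq.pos
  have hc : (J.choose (k + t) : ℝ) ≤ (J : ℝ) ^ (k + t) / (k + t).factorial := Nat.choose_le_pow_div _ _
  have h1 : p / q = p - 1 := hpq.div_conj_eq_sub_one
  have e1 : ((J : ℝ) ^ ((t : ℝ) / q) * rise t k * (2 / (J : ℝ)) ^ (k + t)) ^ p =
      (J : ℝ) ^ ((t : ℝ) * (p - 1)) * rise t k ^ p * ((2 : ℝ) ^ (p * (k + t)) * (J : ℝ) ^ (-(p * (k + t)))) := by
    rw [Real.mul_rpow (by positivity) (by positivity), Real.mul_rpow (by positivity) hr,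
      ← Real.rpow_mul hJ0.le, ← Real.rpow_natCast (2 / (J : ℝ)) (k + t), ← Real.rpow_mul (by positivity),
      Real.div_rpow (by norm_num) hJ0.le, Real.rpow_neg hJ0.le]
    have a1 : (t : ℝ) / q * p = t * (p - 1) := by rw [← h1]; ring
    have a2 : ((k + t : ℕ) : ℝ) * p = p * (k + t) := by push_cast; ring
    rw [a1, a2]
    rfl
  rw [e1]
  have e2 : (J : ℝ) ^ ((t : ℝ) * (p - 1)) * rise t k ^ p *
        ((2 : ℝ) ^ (p * (k + t)) * (J : ℝ) ^ (-(p * (k + t)))) *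
      ((J.choose (k + t) : ℝ) * (J : ℝ) ^ k / k.factorial) ≤
      (J : ℝ) ^ ((t : ℝ) * (p - 1)) * rise t k ^ p *
        ((2 : ℝ) ^ (p * (k + t)) * (J : ℝ) ^ (-(p * (k + t)))) *
      (((J : ℝ) ^ (k + t) / (k + t).factorial) * (J : ℝ) ^ k / k.factorial) := by
    gcongr
  refine e2.trans (le_of_eq ?_)
  have e3 : (J : ℝ) ^ ((t : ℝ) * (p - 1)) * (J : ℝ) ^ (-(p * (k + t))) * ((J : ℝ) ^ (k + t) * (J : ℝ) ^ k) =
      (J : ℝ) ^ ((k : ℝ) * (2 - p)) := by
    rw [← Real.rpow_natCast (J : ℝ) (k + t), ← Real.rpow_natCast (J : ℝ) k, ← Real.rpow_add hJ0,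
      ← Real.rpow_add hJ0, ← Real.rpow_add hJ0]
    congr 1
    push_cast
    ring
  rw [← e3]
  field_simp

/-- the tail -/
private theorem g8d_tail {N : ℕ} (hpq : p.HolderConjugate q) (hJ1 : 1 ≤ J)
    (hΛ : (2 * ((2 * N * Ms : ℕ) : ℝ)) ^ p ≤ Λ * (J : ℝ) ^ (p - 2)) :
    ∑ k ∈ Ico (N + 1) (J + 1),
      ((12 : ℝ) ^ (2 * N) * ((J : ℝ) ^ ((t : ℝ) / q) * (2 * ((2 * N * Ms : ℕ) : ℝ)) ^ k *
        (2 / (J : ℝ)) ^ (k + t))) ^ p * ((J.choose (k + t) : ℝ) * (J : ℝ) ^ k / k.factorial) ≤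
      (2 : ℝ) ^ (p * t) * tau p (2 ^ p * Λ) N / t.factorial := by
  have hJ0 : (0 : ℝ) < J := by exact_mod_cast hJ1
  have hp : 0 < p := hpq.pos
  have hΛ0 : 0 ≤ Λ := by
    have h1 : 0 ≤ (2 * ((2 * N * Ms : ℕ) : ℝ)) ^ p := by positivity
    have h2 : 0 < (J : ℝ) ^ (p - 2) := by positivity
    by_contra hneg
    push Not at hneg
    have : Λ * (J : ℝ) ^ (p - 2) < 0 := mul_neg_of_neg_of_pos hneg h2
    linarith
  set Y : ℝ := (2 : ℝ) ^ p * Λ with hYdef
  have hY : 0 ≤ Y := by positivity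
  have hf : (0 : ℝ) < (t.factorial : ℝ) := by exact_mod_cast t.factorial_pos
  set c : ℝ := (12 : ℝ) ^ (2 * (N : ℝ) * p) * (2 : ℝ) ^ (p * t) / t.factorial with hc
  have hc0 : 0 ≤ c := by positivity
  have hterm : ∀ k ∈ Ico (N + 1) (J + 1),
      ((12 : ℝ) ^ (2 * N) * ((J : ℝ) ^ ((t : ℝ) / q) * (2 * ((2 * N * Ms : ℕ) : ℝ)) ^ k *
        (2 / (J : ℝ)) ^ (k + t))) ^ p * ((J.choose (k + t) : ℝ) * (J : ℝ) ^ k / k.factorial) ≤
      c * (Y ^ k / (k.factorial : ℝ) ^ 2) := by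
    intro k _
    refine (term_le hpq hJ1 hΛ k).trans ?_
    have hk : (0 : ℝ) < (k.factorial : ℝ) := by exact_mod_cast k.factorial_pos
    have h2 : ((k.factorial : ℝ) * (t.factorial : ℝ)) ≤ ((k + t).factorial : ℝ) := by
      exact_mod_cast Nat.le_of_dvd (Nat.factorial_pos _) (Nat.factorial_mul_factorial_dvd_factorial_add k t)
    have h3 : Y ^ k / ((k.factorial : ℝ) * ((k + t).factorial : ℝ)) ≤
        Y ^ k / ((k.factorial : ℝ) * ((k.factorial : ℝ) * (t.factorial : ℝ))) := by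
      gcongr
    have h4 : ((2 * N : ℕ) : ℝ) * p = 2 * (N : ℝ) * p := by push_cast; ring
    rw [h4]
    calc (12 : ℝ) ^ (2 * (N : ℝ) * p) * (2 : ℝ) ^ (p * t) * (Y ^ k / (k.factorial * (k + t).factorial))
        ≤ (12 : ℝ) ^ (2 * (N : ℝ) * p) * (2 : ℝ) ^ (p * t) *
          (Y ^ k / ((k.factorial : ℝ) * ((k.factorial : ℝ) * (t.factorial : ℝ)))) := by
          gcongr
      _ = c * (Y ^ k / (k.factorial : ℝ) ^ 2) := by
          rw [hc]
          field_simp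
  refine (Finset.sum_le_sum hterm).trans ?_
  rw [← Finset.mul_sum]
  have hsum : Summable fun k : ℕ => Y ^ (k + N + 1) / ((k + N + 1).factorial : ℝ) ^ 2 := by
    have h0 : Summable fun k : ℕ => Y ^ k / (k.factorial : ℝ) := Real.summable_pow_div_factorial Y
    have h1 : Summable fun k : ℕ => Y ^ k / (k.factorial : ℝ) ^ 2 := by
      refine Summable.of_nonneg_of_le (fun k => by positivity) (fun k => ?_) h0
      have hk : (1 : ℝ) ≤ (k.factorial : ℝ) := by exact_mod_cast k.factorial_pos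
      have hk2 : (k.factorial : ℝ) ≤ (k.factorial : ℝ) ^ 2 := by nlinarith
      gcongr
    have h2 := (summable_nat_add_iff (N + 1)).mpr h1
    simpa only [add_assoc] using h2
  have hle : ∑ k ∈ Ico (N + 1) (J + 1), Y ^ k / (k.factorial : ℝ) ^ 2 ≤
      ∑' k : ℕ, Y ^ (k + N + 1) / ((k + N + 1).factorial : ℝ) ^ 2 := by
    have e : ∑ k ∈ Ico (N + 1) (J + 1), Y ^ k / (k.factorial : ℝ) ^ 2 =
        ∑ k ∈ range (J + 1 - (N + 1)), Y ^ (k + N + 1) / ((k + N + 1).factorial : ℝ) ^ 2 := by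
      rw [Finset.sum_Ico_eq_sum_range]
      refine Finset.sum_congr rfl fun k _ => ?_
      rw [show N + 1 + k = k + N + 1 by ring]
    rw [e]
    exact hsum.sum_le_tsum _ (fun k _ => by positivity)
  calc c * ∑ k ∈ Ico (N + 1) (J + 1), Y ^ k / (k.factorial : ℝ) ^ 2
      ≤ c * ∑' k : ℕ, Y ^ (k + N + 1) / ((k + N + 1).factorial : ℝ) ^ 2 := by gcongr
    _ = (2 : ℝ) ^ (p * t) * tau p Y N / t.factorial := by
        rw [hc]
        unfold tau
        ring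

/-- (B1) `t ≥ 1`, `D = 2N`: level 0: `J^(pt/q)/(J)_t^p * C(J,t) = (J^t/(J)_t)^(p-1)/t!`; levels `1 ≤ k ≤ N`: `Ft_le_low`;
levels `k > N`: `Ft_le`, `term_le` and `(k+t)! ≥ k! t!`. -/
theorem np_Ft_low {N : ℕ} (hpq : p.HolderConjugate q) (hν : Lagr (2 * N) Ms ν) (ht : t ≤ 2 * N * Ms) (hJ1 : 1 ≤ J)
    (hJ : 8 * (2 * N * Ms) ≤ J) (hJ2 : 2 * (2 * N + t) ≤ J)
    (hΛ : (2 * ((2 * N * Ms : ℕ) : ℝ)) ^ p ≤ Λ * (J : ℝ) ^ (p - 2)) :
    np p (Ft q J (2 * N) Ms t ν) ≤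
      ((J : ℝ) ^ t / (J.descFactorial t : ℝ)) ^ (p - 1) / t.factorial +
      ∑ k ∈ Ico 1 (N + 1), (2 : ℝ) ^ (p * (k + t)) * rise t k ^ p * (J : ℝ) ^ ((k : ℝ) * (2 - p)) /
        (k.factorial * (k + t).factorial) +
      (2 : ℝ) ^ (p * t) * tau p (2 ^ p * Λ) N / t.factorial := by
  have hJ0 : (0 : ℝ) < J := by exact_mod_cast hJ1
  have hp1 : 1 ≤ p := hpq.lt.le
  have hr : ∀ k, 0 ≤ rise t k := fun k => by unfold rise; positivity
  let B : ℕ → ℝ := fun k =>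
    if k = 0 then (J : ℝ) ^ ((t : ℝ) / q) / (J.descFactorial t : ℝ)
    else if k ≤ N then (J : ℝ) ^ ((t : ℝ) / q) * rise t k * (2 / (J : ℝ)) ^ (k + t)
    else (12 : ℝ) ^ (2 * N) * ((J : ℝ) ^ ((t : ℝ) / q) * (2 * ((2 * N * Ms : ℕ) : ℝ)) ^ k *
        (2 / (J : ℝ)) ^ (k + t))
  have hB0 : B 0 = (J : ℝ) ^ ((t : ℝ) / q) / (J.descFactorial t : ℝ) := if_pos rfl
  have hB1 : ∀ k, k ≠ 0 → k ≤ N → B k = (J : ℝ) ^ ((t : ℝ) / q) * rise t k * (2 / (J : ℝ)) ^ (k + t) := by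
    intro k h1 h2
    show (if k = 0 then _ else if k ≤ N then _ else _) = _
    rw [if_neg h1, if_pos h2]
  have hB2 : ∀ k, N < k → B k = (12 : ℝ) ^ (2 * N) * ((J : ℝ) ^ ((t : ℝ) / q) *
      (2 * ((2 * N * Ms : ℕ) : ℝ)) ^ k * (2 / (J : ℝ)) ^ (k + t)) := by
    intro k h1
    show (if k = 0 then _ else if k ≤ N then _ else _) = _
    rw [if_neg (by omega), if_neg (by omega)]
  have key := np_le_levels hp1 (J := J) (t := t) (Ft q J (2 * N) Ms t ν) B
    (fun k => by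
      rcases Nat.eq_zero_or_pos k with h | h
      · rw [h, hB0]; positivity
      · rcases Nat.lt_or_ge N k with h2 | h2
        · rw [hB2 k h2]; positivity
        · rw [hB1 k (by omega) h2]
          have := hr k
          positivity)
    (fun g hg => by
      by_contra hv
      exact hg (Ft_supp ht hv))
    (fun g hg => by
      rcases Nat.eq_zero_or_pos (lev g) with h | h
      · rw [Ft_level_zero hν ht hJ hJ2 hg h, h, hB0]
        have hb : bfac g = 1 := by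
          unfold bfac
          refine Finset.prod_eq_one fun b _ => ?_
          have : (g b).toNat = 0 := by
            unfold lev at h
            exact (Finset.sum_eq_zero_iff.mp h) b (Finset.mem_univ b)
          rw [this]
          simp
        rw [hb, div_one, Complex.norm_real, Real.norm_of_nonneg (by positivity)]
      · rcases Nat.lt_or_ge N (lev g) with h2 | h2
        · rw [hB2 _ h2]
          exact Ft_le hν ht hJ hg
        · rw [hB1 _ (by omega) h2]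
          exact Ft_le_low hν ht hJ hJ2 hg (by omega))
  refine key.trans ?_
  have hsplit : ∑ k ∈ range (J + 1), (B k) ^ p * ((J.choose (k + t) : ℝ) * (J : ℝ) ^ k / k.factorial) =
      (B 0) ^ p * ((J.choose (0 + t) : ℝ) * (J : ℝ) ^ 0 / (Nat.factorial 0 : ℝ)) +
      ∑ k ∈ Ico 1 (N + 1), (B k) ^ p * ((J.choose (k + t) : ℝ) * (J : ℝ) ^ k / k.factorial) +
      ∑ k ∈ Ico (N + 1) (J + 1), (B k) ^ p * ((J.choose (k + t) : ℝ) * (J : ℝ) ^ k / k.factorial) := by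
    rw [add_assoc, Finset.sum_Ico_consecutive _ (by omega : 1 ≤ N + 1) (by omega : N + 1 ≤ J + 1),
      Finset.range_eq_Ico, Finset.sum_eq_sum_Ico_succ_bot (by omega)]
  rw [hsplit]
  refine add_le_add (add_le_add ?_ ?_) ?_
  · rw [hB0]
    exact (g8d_zero hpq hJ1 (by omega)).le
  · refine Finset.sum_le_sum fun k hk => ?_
    rw [Finset.mem_Ico] at hk
    rw [hB1 k (by omega) (by omega)]
    exact g8d_low hpq hJ1 k
  · refine le_trans (le_of_eq ?_) (g8d_tail (t := t) hpq hJ1 hΛ)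
    refine Finset.sum_congr rfl fun k hk => ?_
    rw [Finset.mem_Ico] at hk
    rw [hB2 k (by omega)]

end DC8965.P2
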