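import Pool.Agent.Lib.MP_dc8965_an.P2.G6b
import Pool.Agent.Lib.MP_dc8965_an.P2.G7a

/-! # Lemma G (MP_dc8965_an, `2 < p`), job G8e: (B3) -/

open Finset Polynomial
open scoped LaurentPolynomial

namespace DC8965.P2

variable {p q : ℝ} {J D Ms t : ℕ} {ν : ℕ → ℝ} {Λ : ℝ}

private theorem g8e_fact (t k : ℕ) : (t.factorial : ℝ) * (t : ℝ) ^ k ≤ ((k + t).factorial : ℝ) := by
  induction k with
  | zero => simp
  | succ k ih =>
    have h1 : k + 1 + t = (k + t) + 1 := by ring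
    rw [h1, Nat.factorial_succ]
    push_cast
    have h2 : (0 : ℝ) ≤ t := by positivity
    have h3 : (0 : ℝ) ≤ k := by positivity
    calc (t.factorial : ℝ) * (t : ℝ) ^ (k + 1) = t * ((t.factorial : ℝ) * (t : ℝ) ^ k) := by ring
      _ ≤ ((k : ℝ) + t + 1) * ((k + t).factorial : ℝ) :=
          mul_le_mul (by linarith) ih (by positivity) (by positivity)

private theorem g8e_term (hpq : p.HolderConjugate q) (hJ : 1 ≤ J) (A : ℝ) (t k : ℕ) (ht : 1 ≤ t) :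
    (A * ((J : ℝ) ^ ((t : ℝ) / q) * (2 * (t : ℝ)) ^ k * (2 / (J : ℝ)) ^ (k + t))) ^ (2 : ℝ) *
        ((J.choose (k + t) : ℝ) * (J : ℝ) ^ k / k.factorial) ≤
      A ^ 2 * (4 : ℝ) ^ t * ((J : ℝ) ^ (1 - 2 / p)) ^ t / t.factorial *
        ((16 * (t : ℝ)) ^ k / k.factorial) := by
  have hJ0 : (0 : ℝ) < J := by exact_mod_cast hJ
  have ht0 : (0 : ℝ) < t := by exact_mod_cast ht
  have hch : (J.choose (k + t) : ℝ) ≤ (J : ℝ) ^ (k + t) / ((k + t).factorial : ℝ) :=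
    Nat.choose_le_pow_div (k + t) J
  have hf := g8e_fact t k
  have hq : 1 / q = 1 - 1 / p := by
    have := hpq.inv_add_inv_eq_one
    rw [one_div, one_div]
    linarith
  have hJt : ((J : ℝ) ^ ((t : ℝ) / q)) ^ 2 = ((J : ℝ) ^ (1 - 2 / p)) ^ t * (J : ℝ) ^ t := by
    rw [← Real.rpow_natCast _ 2, ← Real.rpow_mul hJ0.le, ← Real.rpow_natCast _ t,
      ← Real.rpow_mul hJ0.le, ← Real.rpow_natCast _ t, ← Real.rpow_add hJ0]
    congr 1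
    have h1 : (t : ℝ) / q = t * (1 - 1 / p) := by rw [← hq]; ring
    rw [h1]
    push_cast
    ring
  rw [Real.rpow_two]
  have h1 : (A * ((J : ℝ) ^ ((t : ℝ) / q) * (2 * (t : ℝ)) ^ k * (2 / (J : ℝ)) ^ (k + t))) ^ 2 =
      A ^ 2 * (((J : ℝ) ^ (1 - 2 / p)) ^ t * (J : ℝ) ^ t) *
        (((2 * (t : ℝ)) ^ 2) ^ k * ((2 / (J : ℝ)) ^ 2) ^ (k + t)) := by
    rw [← hJt, ← pow_mul (2 * (t : ℝ)) 2 k, ← pow_mul (2 / (J : ℝ)) 2 (k + t), mul_pow A, mul_pow,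
      mul_pow, ← pow_mul (2 * (t : ℝ)) k 2, ← pow_mul (2 / (J : ℝ)) (k + t) 2, mul_comm k 2,
      mul_comm (k + t) 2, mul_assoc, mul_assoc]
  rw [h1]
  calc A ^ 2 * (((J : ℝ) ^ (1 - 2 / p)) ^ t * (J : ℝ) ^ t) *
        (((2 * (t : ℝ)) ^ 2) ^ k * ((2 / (J : ℝ)) ^ 2) ^ (k + t)) *
        ((J.choose (k + t) : ℝ) * (J : ℝ) ^ k / k.factorial)
      ≤ A ^ 2 * (((J : ℝ) ^ (1 - 2 / p)) ^ t * (J : ℝ) ^ t) *
        (((2 * (t : ℝ)) ^ 2) ^ k * ((2 / (J : ℝ)) ^ 2) ^ (k + t)) *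
        ((J : ℝ) ^ (k + t) / ((t.factorial : ℝ) * (t : ℝ) ^ k) * (J : ℝ) ^ k / k.factorial) := by
        gcongr
        refine hch.trans ?_
        gcongr
    _ = A ^ 2 * (4 : ℝ) ^ t * ((J : ℝ) ^ (1 - 2 / p)) ^ t / t.factorial *
        ((16 * (t : ℝ)) ^ k / k.factorial) := by
        have e1 : ((2 / (J : ℝ)) ^ 2) ^ (k + t) = 4 ^ k * 4 ^ t / ((J : ℝ) ^ (k + t) * (J : ℝ) ^ (k + t)) := by
          rw [div_pow, div_pow, ← pow_add, ← pow_mul, ← pow_mul]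
          norm_num
          rw [show (2 : ℝ) ^ (2 * (k + t)) = 4 ^ (k + t) by rw [pow_mul]; norm_num]
          congr 1
          ring
        have e2 : ((2 * (t : ℝ)) ^ 2) ^ k = 4 ^ k * ((t : ℝ) ^ k * (t : ℝ) ^ k) := by
          rw [← mul_pow, ← mul_pow]
          congr 1
          ring
        have e3 : (16 * (t : ℝ)) ^ k = 4 ^ k * 4 ^ k * (t : ℝ) ^ k := by
          rw [← mul_pow, ← mul_pow]
          norm_num
        rw [e1, e2, e3, pow_add (J : ℝ) k t]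
        field_simp

/-- (B3) `ℓ²` norm at `t = M_0 = D Ms ≥ 1`: `2/q - 1 = 1 - 2/p`;
`∑_k (12^D J^(t/q) (2M_0)^k (2/J)^(k+t))^2 J^(2k+t)/(k!(k+t)!) = 12^(2D) J^((1-2/p)t) ∑_k 4^(k+t) (2t)^(2k)/(k!(k+t)!)`,
`(k+t)! ≥ t! t^k`, so `≤ 12^(2D) (J^(1-2/p))^t 4^t exp(16 t)/t!`; with `J^(1-2/p) ≤ 2t/ρ²` and `t! ≥ (t/e)^t`:
`≤ 12^(2D) (8 e^17/ρ²)^t`. -/
theorem np_two_le (hpq : p.HolderConjugate q) (hν : Lagr D Ms ν) (h1 : 1 ≤ D * Ms) (hJ1 : 1 ≤ J)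
    (hJ : 8 * (D * Ms) ≤ J) {ρ : ℝ} (hρ : 0 < ρ) (hρJ : (J : ℝ) ^ (1 - 2 / p) ≤ 2 * ((D * Ms : ℕ) : ℝ) / ρ ^ 2) :
    np 2 (Ft q J D Ms (D * Ms) ν) ≤ (12 : ℝ) ^ (2 * D) * (8 * Real.exp 17 / ρ ^ 2) ^ (D * Ms) := by
  have hJ0 : (0 : ℝ) < J := by exact_mod_cast hJ1
  have key := np_le_levels (r := 2) (by norm_num) (J := J) (t := D * Ms) (Ft q J D Ms (D * Ms) ν)
    (fun k => (12 : ℝ) ^ D * ((J : ℝ) ^ (((D * Ms : ℕ) : ℝ) / q) * (2 * ((D * Ms : ℕ) : ℝ)) ^ k *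
        (2 / (J : ℝ)) ^ (k + D * Ms))) (fun k => by positivity)
    (fun g hg => by
      by_contra hv
      exact hg (Ft_supp le_rfl hv))
    (fun g hg => Ft_le hν le_rfl hJ hg)
  obtain ⟨t, ht⟩ : ∃ t, t = D * Ms := ⟨_, rfl⟩
  rw [← ht] at key hρJ h1 ⊢
  have ht0 : (0 : ℝ) < t := by exact_mod_cast h1
  refine key.trans ?_
  have hexp : (t : ℝ) ^ t / t.factorial ≤ Real.exp t := by
    have h2 := Real.sum_le_exp_of_nonneg ht0.le (t + 1)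
    refine le_trans ?_ h2
    exact Finset.single_le_sum (f := fun i => (t : ℝ) ^ i / (i.factorial : ℝ))
      (fun _ _ => by positivity) (Finset.mem_range.2 (Nat.lt_succ_self t))
  calc ∑ k ∈ range (J + 1), ((12 : ℝ) ^ D * ((J : ℝ) ^ ((t : ℝ) / q) * (2 * (t : ℝ)) ^ k *
        (2 / (J : ℝ)) ^ (k + t))) ^ (2 : ℝ) * ((J.choose (k + t) : ℝ) * (J : ℝ) ^ k / k.factorial)
      ≤ ∑ k ∈ range (J + 1), ((12 : ℝ) ^ D) ^ 2 * (4 : ℝ) ^ t * ((J : ℝ) ^ (1 - 2 / p)) ^ t /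
          t.factorial * ((16 * (t : ℝ)) ^ k / k.factorial) :=
        Finset.sum_le_sum fun k _ => g8e_term hpq hJ1 _ t k h1
    _ = ((12 : ℝ) ^ D) ^ 2 * (4 : ℝ) ^ t * ((J : ℝ) ^ (1 - 2 / p)) ^ t / t.factorial *
          ∑ k ∈ range (J + 1), ((16 * (t : ℝ)) ^ k / k.factorial) := by
        rw [Finset.mul_sum]
    _ ≤ ((12 : ℝ) ^ D) ^ 2 * (4 : ℝ) ^ t * ((J : ℝ) ^ (1 - 2 / p)) ^ t / t.factorial *
          Real.exp (16 * t) := by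
        have := Real.sum_le_exp_of_nonneg (show 0 ≤ 16 * (t : ℝ) by positivity) (J + 1)
        gcongr
    _ ≤ ((12 : ℝ) ^ D) ^ 2 * (4 : ℝ) ^ t * (2 * (t : ℝ) / ρ ^ 2) ^ t / t.factorial *
          Real.exp (16 * t) := by
        gcongr
    _ = ((12 : ℝ) ^ D) ^ 2 * (4 : ℝ) ^ t * (2 / ρ ^ 2) ^ t * Real.exp (16 * t) *
          ((t : ℝ) ^ t / t.factorial) := by
        rw [show 2 * (t : ℝ) / ρ ^ 2 = (2 / ρ ^ 2) * t by ring, mul_pow]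
        ring
    _ ≤ ((12 : ℝ) ^ D) ^ 2 * (4 : ℝ) ^ t * (2 / ρ ^ 2) ^ t * Real.exp (16 * t) * Real.exp t := by
        gcongr
    _ = (12 : ℝ) ^ (2 * D) * (8 * Real.exp 17 / ρ ^ 2) ^ t := by
        have e1 : Real.exp (16 * t) * Real.exp t = Real.exp 17 ^ t := by
          rw [← Real.exp_add, ← Real.exp_nat_mul]
          congr 1
          ring
        have e2 : (8 * Real.exp 17 / ρ ^ 2) ^ t = 4 ^ t * (2 / ρ ^ 2) ^ t * Real.exp 17 ^ t := by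
          rw [← mul_pow, ← mul_pow]
          congr 1
          ring
        rw [e2, ← e1, ← pow_mul, mul_comm D 2]
        ring

end DC8965.P2
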