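import Pool.Agent.Lib.MP_dc8965_an.P2.Defs

/-!
# MP_dc8965_an, the range `2 < p`: Lemma G, definitions

Group `Fin J → ℤ`, `ξ_b = single (Pi.single b 1)`. `S = ∑_b ξ_b`, `E_M = ∑_(|T| = M) ξ^(-1_T)`,
`u = J^(-1/q) S`, `F_(M,t) = J^(t/q)/(J)_M · S^(M-t) · E_M` with `(J)_M = J(J-1)...(J-M+1)`.
A point `g` is written `g = β - γ` (`β = g⁺`, `γ = g⁻`); `lev g = |β|`, `bfac g = β!`;
`Val t g` says `g ≥ -1` and `∑ g = -t` (so `γ` is squarefree and `|γ| = lev g + t`).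
-/

open Finset Polynomial
open scoped LaurentPolynomial

namespace DC8965.P2

/-- `S = ∑_b ξ_b` -/
noncomputable def SS (J : ℕ) : AddMonoidAlgebra ℂ (Fin J → ℤ) :=
  ∑ b : Fin J, AddMonoidAlgebra.single (Pi.single b (1 : ℤ)) (1 : ℂ)

/-- minus the indicator of `T` -/
def mI {J : ℕ} (T : Finset (Fin J)) : Fin J → ℤ := fun b => if b ∈ T then -1 else 0

/-- `E_M = ∑_(|T| = M) ξ^(-1_T)` -/
noncomputable def EE (J M : ℕ) : AddMonoidAlgebra ℂ (Fin J → ℤ) :=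
  ∑ T ∈ powersetCard M (univ : Finset (Fin J)), AddMonoidAlgebra.single (mI T) (1 : ℂ)

/-- `u = J^(-1/q) S` -/
noncomputable def uu (q : ℝ) (J : ℕ) : AddMonoidAlgebra ℂ (Fin J → ℤ) :=
  (((J : ℝ) ^ (-(1 / q)) : ℝ) : ℂ) • SS J

/-- `F_(M,t) = J^(t/q)/(J)_M · S^(M-t) · E_M` -/
noncomputable def FF (q : ℝ) (J M t : ℕ) : AddMonoidAlgebra ℂ (Fin J → ℤ) :=
  (((J : ℝ) ^ ((t : ℝ) / q) / (J.descFactorial M : ℝ) : ℝ) : ℂ) • (SS J ^ (M - t) * EE J M)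

/-- the level `k = |β|` -/
def lev {J : ℕ} (g : Fin J → ℤ) : ℕ := ∑ b, (g b).toNat

/-- `β!` -/
def bfac {J : ℕ} (g : Fin J → ℤ) : ℝ := ∏ b, ((g b).toNat.factorial : ℝ)

/-- `g ≥ -1` and `∑ g = -t` -/
def Val {J : ℕ} (t : ℕ) (g : Fin J → ℤ) : Prop := (∀ b, -1 ≤ g b) ∧ ∑ b, g b = -(t : ℤ)

/-- `supp γ` -/
def ngs {J : ℕ} (g : Fin J → ℤ) : Finset (Fin J) := univ.filter fun b => g b = -1

/-- `supp β` -/
def pos {J : ℕ} (g : Fin J → ℤ) : Finset (Fin J) := univ.filter fun b => 0 < g b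

/-- the normalised coefficient `x_M(g)` of `F_(M,t)` -/
noncomputable def xx (J M t : ℕ) (g : Fin J → ℤ) : ℝ :=
  ((M - t).factorial : ℝ) / (J.descFactorial M : ℝ) *
    ∑ T ∈ (powersetCard M (univ : Finset (Fin J))).filter (fun T => ngs g ⊆ T),
      1 / ∏ b, (((g b + if b ∈ T then 1 else 0).toNat).factorial : ℝ)

/-- the weights `q_A = ∏_(b ∈ A) β_b/(β_b+1) · ∏_(b ∈ supp β \ A) 1/(β_b+1)` -/
noncomputable def qA {J : ℕ} (g : Fin J → ℤ) (A : Finset (Fin J)) : ℝ :=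
  (∏ b ∈ A, ((g b : ℝ) / ((g b : ℝ) + 1))) * ∏ b ∈ pos g \ A, (1 / ((g b : ℝ) + 1))

/-- `F^(t) = ∑_s ν_s F_(M_s,t)`, `M_s = (D+s) Ms`, `0 ≤ s ≤ D` -/
noncomputable def Ft (q : ℝ) (J D Ms t : ℕ) (ν : ℕ → ℝ) : AddMonoidAlgebra ℂ (Fin J → ℤ) :=
  ∑ s ∈ range (D + 1), ((ν s : ℝ) : ℂ) • FF q J ((D + s) * Ms) t

/-- `v = (n!)^(-1/p) u^n` -/
noncomputable def vG (p q : ℝ) (J n : ℕ) : AddMonoidAlgebra ℂ (Fin J → ℤ) :=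
  (((n.factorial : ℝ) ^ (-(1 / p)) : ℝ) : ℂ) • (uu q J ^ n)

/-- `F_j = (n!)^(j/p) F^(nj)` -/
noncomputable def Fj (p q : ℝ) (J n D Ms : ℕ) (ν : ℕ → ℝ) (j : ℕ) : AddMonoidAlgebra ℂ (Fin J → ℤ) :=
  (((n.factorial : ℝ) ^ ((j : ℝ) / p) : ℝ) : ℂ) • Ft q J D Ms (n * j) ν

/-- the Lagrange weights: exact evaluation at `0` from the nodes `(D+s) Ms`, bounded sum -/
def Lagr (D Ms : ℕ) (ν : ℕ → ℝ) : Prop :=
  (∀ Q : ℝ[X], Q.natDegree ≤ D →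
    ∑ s ∈ range (D + 1), ν s * Q.eval ((((D + s) * Ms : ℕ)) : ℝ) = Q.eval 0) ∧
  ∑ s ∈ range (D + 1), |ν s| ≤ (12 : ℝ) ^ D

/-- `τ_N = 12^(2Np) ∑_(k > N) Y^k/(k!)^2` -/
noncomputable def tau (p Y : ℝ) (N : ℕ) : ℝ :=
  (12 : ℝ) ^ (2 * (N : ℝ) * p) * ∑' k : ℕ, Y ^ (k + N + 1) / ((k + N + 1).factorial : ℝ) ^ 2

/-- the rising factorial `t (t+1) ... (t+k-1)` -/
def rise (t k : ℕ) : ℝ := ∏ i ∈ range k, ((t : ℝ) + i)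

end DC8965.P2
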