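import Pool.Agent.Lib.MP_dc8965_an.P2.GI

/-!
# MP_dc8965_an, `2 < p`: (GF1) the numbers `((n!)^j / (n j)!)^(1/p)`
-/

open Finset Polynomial Filter Topology
open scoped LaurentPolynomial Nat

namespace DC8965.P2

/-- `((n!)^j / (n j)!)^(1/p)` -/
noncomputable def aG (p : ℝ) (n j : ℕ) : ℝ := ((n ! : ℝ) ^ j / ((n * j)! : ℝ)) ^ (1 / p)

private lemma fact_aux (m : ℕ) : ∀ k : ℕ, k ≤ m → k ! * 2 ^ k * m ! ≤ (m + k)! := by
  intro k
  induction k with
  | zero => intro _; simp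
  | succ k ih =>
    intro hk
    have h1 := ih (by omega)
    have h2 : (k + 1)! * 2 ^ (k + 1) * m ! = (2 * (k + 1)) * (k ! * 2 ^ k * m !) := by
      rw [Nat.factorial_succ]; ring
    rw [h2, show m + (k + 1) = (m + k) + 1 from rfl, Nat.factorial_succ (m + k)]
    exact Nat.mul_le_mul (by omega) h1

/-- `(n (j+1))! = C(n (j+1), n) n! (n j)!` and `C(n (j+1), n) ≥ 2^n` for `j ≥ 1`
(`C(2n, n) ≥ 2^n`: `Nat.choose_mono`/`Nat.choose_le_choose`, and e.g. `C(2n,n) = ∏ (n+i)/i`); induction on `j`. -/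
lemma GF1_fact (n j : ℕ) : (n !) ^ (j + 1) * 2 ^ (n * j) ≤ (n * (j + 1))! := by
  induction j with
  | zero => simp
  | succ j ih =>
    have h1 : (n !) ^ (j + 1 + 1) * 2 ^ (n * (j + 1)) =
        ((n !) ^ (j + 1) * 2 ^ (n * j)) * (n ! * 2 ^ n) := by
      rw [Nat.mul_succ, pow_add, pow_succ]; ring
    have h2 := fact_aux (n * (j + 1)) n (Nat.le_mul_of_pos_right n (Nat.succ_pos j))
    calc (n !) ^ (j + 1 + 1) * 2 ^ (n * (j + 1))
        = ((n !) ^ (j + 1) * 2 ^ (n * j)) * (n ! * 2 ^ n) := h1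
      _ ≤ (n * (j + 1))! * (n ! * 2 ^ n) := Nat.mul_le_mul_right _ ih
      _ = n ! * 2 ^ n * (n * (j + 1))! := by ring
      _ ≤ (n * (j + 1) + n)! := h2
      _ = (n * (j + 1 + 1))! := by rw [Nat.mul_succ n (j + 1)]

private lemma fact_aux2 {n : ℕ} (hn : 1 ≤ n) (j : ℕ) :
    (j + 1) * (n ! * (n * j)!) ≤ (n * (j + 1))! := by
  obtain ⟨k, rfl⟩ : ∃ k, n = k + 1 := ⟨n - 1, by omega⟩
  have h1 : k ! * ((k + 1) * j)! ≤ (k + (k + 1) * j)! :=
    Nat.le_of_dvd (Nat.factorial_pos _) (Nat.factorial_mul_factorial_dvd_factorial_add _ _)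
  have h2 : (k + 1) * (j + 1) = (k + (k + 1) * j) + 1 := by ring
  rw [h2, Nat.factorial_succ (k + (k + 1) * j), Nat.factorial_succ k, ← h2]
  calc (j + 1) * ((k + 1) * k ! * ((k + 1) * j)!)
      = ((k + 1) * (j + 1)) * (k ! * ((k + 1) * j)!) := by ring
    _ ≤ ((k + 1) * (j + 1)) * (k + (k + 1) * j)! := Nat.mul_le_mul_left _ h1

private lemma aG_pos (p : ℝ) (n j : ℕ) : 0 < aG p n j := by
  unfold aG
  apply Real.rpow_pos_of_pos
  have h1 : (0 : ℝ) < (n ! : ℝ) := by exact_mod_cast Nat.factorial_pos n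
  have h2 : (0 : ℝ) < ((n * j)! : ℝ) := by exact_mod_cast Nat.factorial_pos (n * j)
  positivity

private lemma aG_ratio {p : ℝ} (hp : 0 < p) {n : ℕ} (hn : 1 ≤ n) (j : ℕ) :
    aG p n (j + 1) / aG p n j ≤ (1 / ((j : ℝ) + 1)) ^ (1 / p) := by
  have h1 : (0 : ℝ) < (n ! : ℝ) := by exact_mod_cast Nat.factorial_pos n
  have h2 : (0 : ℝ) < ((n * j)! : ℝ) := by exact_mod_cast Nat.factorial_pos (n * j)
  have h3 : (0 : ℝ) < ((n * (j + 1))! : ℝ) := by exact_mod_cast Nat.factorial_pos (n * (j + 1))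
  have h4 : ((j : ℝ) + 1) * ((n ! : ℝ) * ((n * j)! : ℝ)) ≤ ((n * (j + 1))! : ℝ) := by
    exact_mod_cast fact_aux2 hn j
  unfold aG
  rw [← Real.div_rpow (by positivity) (by positivity)]
  apply Real.rpow_le_rpow (by positivity) _ (by positivity)
  have h5 : (n ! : ℝ) ^ (j + 1) / ((n * (j + 1))! : ℝ) / ((n ! : ℝ) ^ j / ((n * j)! : ℝ)) =
      ((n ! : ℝ) * ((n * j)! : ℝ)) / ((n * (j + 1))! : ℝ) := by
    rw [pow_succ]
    field_simp
  rw [h5, div_le_div_iff₀ h3 (by positivity)]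
  linarith [h4]

/-- `y^j aG p n j` is summable for every `y`: ratio test; `(n (j+1))!/((n j)! n!) = C(n(j+1), n) ≥ n (j+1)/n...→ ∞`:
`C(n (j+1), n) ≥ j + 1` for `n ≥ 1`, so `aG (j+1) / aG j ≤ (j+1)^(-1/p) → 0`
(`summable_of_ratio_test_tendsto_lt_one`). -/
lemma GF1_summable {p : ℝ} (hp : 0 < p) {n : ℕ} (hn : 1 ≤ n) (y : ℝ) (hy : 0 < y) :
    Summable fun j => y ^ j * aG p n j := by
  have hpos : ∀ j, 0 < y ^ j * aG p n j := fun j => mul_pos (pow_pos hy j) (aG_pos p n j)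
  apply summable_of_ratio_test_tendsto_lt_one (l := 0) one_pos
  · exact Filter.Eventually.of_forall fun j => (hpos j).ne'
  · have hlim : Tendsto (fun j : ℕ => y * (1 / ((j : ℝ) + 1)) ^ (1 / p)) atTop (𝓝 0) := by
      have h1 : Tendsto (fun j : ℕ => (1 / ((j : ℝ) + 1))) atTop (𝓝 0) :=
        tendsto_one_div_add_atTop_nhds_zero_nat
      have hp' : 0 < 1 / p := by positivity
      have h2 := (h1.rpow_const (p := 1 / p) (Or.inr hp'.le)).const_mul y
      rw [Real.zero_rpow hp'.ne', mul_zero] at h2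
      exact h2
    refine squeeze_zero (fun j => by positivity) (fun j => ?_) hlim
    rw [Real.norm_of_nonneg (hpos _).le, Real.norm_of_nonneg (hpos _).le]
    have h3 : y ^ (j + 1) * aG p n (j + 1) / (y ^ j * aG p n j) =
        y * (aG p n (j + 1) / aG p n j) := by
      have := (aG_pos p n j).ne'
      rw [pow_succ]
      field_simp
    rw [h3]
    exact mul_le_mul_of_nonneg_left (aG_ratio hp hn j) hy.le

private lemma aG_le {p : ℝ} (hp : 0 < p) (n j : ℕ) :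
    aG p n (j + 1) ≤ (((1 / 2 : ℝ) ^ n) ^ (1 / p)) ^ j := by
  have h1 : (0 : ℝ) < (n ! : ℝ) := by exact_mod_cast Nat.factorial_pos n
  have h3 : (0 : ℝ) < ((n * (j + 1))! : ℝ) := by exact_mod_cast Nat.factorial_pos (n * (j + 1))
  have h4 : (n ! : ℝ) ^ (j + 1) * 2 ^ (n * j) ≤ ((n * (j + 1))! : ℝ) := by
    exact_mod_cast GF1_fact n j
  have h5 : (((1 / 2 : ℝ) ^ n) ^ (1 / p)) ^ j = (1 / 2 ^ (n * j)) ^ (1 / p) := by
    rw [← Real.rpow_natCast (((1 / 2 : ℝ) ^ n) ^ (1 / p)) j, ← Real.rpow_mul (by positivity),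
      mul_comm (1 / p) (j : ℝ), Real.rpow_mul (by positivity), Real.rpow_natCast, ← pow_mul,
      one_div_pow]
  rw [h5]
  unfold aG
  apply Real.rpow_le_rpow (by positivity) _ (by positivity)
  rw [div_le_div_iff₀ h3 (by positivity)]
  linarith

/-- choice of `n`: by `GF1_fact` `aG p n (j+1) ≤ 2^(-n j/p)`, so
`∑_{j ≥ 2} M^j aG p n j ≤ M ∑_{i ≥ 1} (M 2^(-n/p))^i ≤ 2 M^2 2^(-n/p)` once `M 2^(-n/p) ≤ 1/2`. -/
lemma GF1_choice {p M ε : ℝ} (hp : 0 < p) (hM : 1 ≤ M) (hε : 0 < ε) :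
    ∃ n : ℕ, 1 ≤ n ∧ ∀ m : ℕ, ∑ j ∈ Ico 2 (m + 1), M ^ j * aG p n j ≤ ε := by
  have hlim : Tendsto (fun n : ℕ => ((1 / 2 : ℝ) ^ n) ^ (1 / p)) atTop (𝓝 0) := by
    have h1 : Tendsto (fun n : ℕ => (1 / 2 : ℝ) ^ n) atTop (𝓝 0) :=
      tendsto_pow_atTop_nhds_zero_of_lt_one (by norm_num) (by norm_num)
    have hp' : 0 < 1 / p := by positivity
    have h2 := h1.rpow_const (p := 1 / p) (Or.inr hp'.le)
    rw [Real.zero_rpow hp'.ne'] at h2
    exact h2
  have hδ : 0 < min (1 / (2 * M)) (ε / (2 * M ^ 2)) := by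
    apply lt_min <;> positivity
  obtain ⟨n, hn1, hn2⟩ := ((hlim.eventually (gt_mem_nhds hδ)).and (eventually_ge_atTop 1)).exists
  refine ⟨n, hn2, fun m => ?_⟩
  set r : ℝ := ((1 / 2 : ℝ) ^ n) ^ (1 / p) with hr
  have hr0 : 0 < r := by rw [hr]; positivity
  have hMr : M * r ≤ 1 / 2 := by
    have h1 : r < 1 / (2 * M) := lt_of_lt_of_le hn1 (min_le_left _ _)
    rw [lt_div_iff₀ (by positivity)] at h1
    linarith
  have hMr2 : 2 * M ^ 2 * r ≤ ε := by
    have h1 : r < ε / (2 * M ^ 2) := lt_of_lt_of_le hn1 (min_le_right _ _)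
    rw [lt_div_iff₀ (by positivity)] at h1
    linarith
  have hM0 : 0 < M := by linarith
  have hq0 : 0 ≤ M * r := by positivity
  have hterm : ∀ j ∈ Ico 2 (m + 1), M ^ j * aG p n j ≤ M * (M * r) ^ (j - 1) := by
    intro j hj
    obtain ⟨hj1, _⟩ := mem_Ico.mp hj
    obtain ⟨i, rfl⟩ : ∃ i, j = i + 1 := ⟨j - 1, by omega⟩
    have h1 := aG_le hp n i
    rw [← hr] at h1
    calc M ^ (i + 1) * aG p n (i + 1) ≤ M ^ (i + 1) * r ^ i :=
          mul_le_mul_of_nonneg_left h1 (by positivity)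
      _ = M * (M * r) ^ (i + 1 - 1) := by
          rw [Nat.add_sub_cancel, mul_pow, pow_succ]; ring
  calc ∑ j ∈ Ico 2 (m + 1), M ^ j * aG p n j
      ≤ ∑ j ∈ Ico 2 (m + 1), M * (M * r) ^ (j - 1) := sum_le_sum hterm
    _ ≤ ∑ j ∈ Ico 2 (m + 1), (M * (M * r)) * (1 / 2) ^ (j - 2) := by
        apply sum_le_sum
        intro j hj
        obtain ⟨hj1, _⟩ := mem_Ico.mp hj
        obtain ⟨i, rfl⟩ : ∃ i, j = i + 2 := ⟨j - 2, by omega⟩
        have e1 : i + 2 - 1 = i + 1 := by omega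
        have e2 : i + 2 - 2 = i := by omega
        rw [e1, e2, pow_succ]
        have h1 : (M * r) ^ i ≤ (1 / 2) ^ i := pow_le_pow_left₀ hq0 hMr i
        calc M * ((M * r) ^ i * (M * r)) = (M * (M * r)) * (M * r) ^ i := by ring
          _ ≤ (M * (M * r)) * (1 / 2) ^ i := mul_le_mul_of_nonneg_left h1 (by positivity)
    _ = (M * (M * r)) * ∑ j ∈ Ico 2 (m + 1), (1 / 2 : ℝ) ^ (j - 2) := by rw [mul_sum]
    _ ≤ (M * (M * r)) * 2 := by
        apply mul_le_mul_of_nonneg_left _ (by positivity)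
        have h1 : ∑ j ∈ Ico 2 (m + 1), (1 / 2 : ℝ) ^ (j - 2) =
            ∑ i ∈ range (m + 1 - 2), (1 / 2 : ℝ) ^ i := by
          rw [sum_Ico_eq_sum_range]
          apply sum_congr rfl
          intro i _
          rw [Nat.add_sub_cancel_left]
        rw [h1]
        have h2 := (summable_geometric_of_lt_one (r := (1 / 2 : ℝ)) (by norm_num) (by norm_num)).sum_le_tsum
          (range (m + 1 - 2)) (fun i _ => by positivity)
        rw [tsum_geometric_of_lt_one (by norm_num) (by norm_num)] at h2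
        norm_num at h2 ⊢
        linarith
    _ = 2 * M ^ 2 * r := by ring
    _ ≤ ε := hMr2

/-- choice of `N`: `CG N ^ p * TG N x → 0` (`y^N / N! → 0` for `y = 12^(2p) x`,
`FloorSemiring.tendsto_pow_div_factorial_atTop`) -/
lemma GF1_tail (p x : ℝ) : Tendsto (fun N => CG N ^ p * TG N x) atTop (𝓝 0) := by
  set c : ℝ := ((12 : ℝ) ^ 2) ^ p with hc
  have hb : (0 : ℝ) < (12 : ℝ) ^ 2 := by positivity
  have hc0 : 0 < c := by rw [hc]; exact Real.rpow_pos_of_pos hb p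
  have h1 : ∀ N : ℕ, CG N ^ p * TG N x =
      (Real.exp x / c) * ((c * x) ^ (N + 1) / ((N + 1)! : ℝ)) := by
    intro N
    have h2 : CG N ^ p = c ^ N := by
      unfold CG
      rw [hc, pow_mul, ← Real.rpow_natCast ((((12 : ℝ) ^ 2 : ℝ)) ^ p) N,
        ← Real.rpow_mul hb.le, mul_comm p (N : ℝ), Real.rpow_mul hb.le, Real.rpow_natCast]
    rw [h2]
    unfold TG
    rw [mul_pow, pow_succ c N]
    field_simp
  have h3 : Tendsto (fun N : ℕ => (Real.exp x / c) * ((c * x) ^ (N + 1) / ((N + 1)! : ℝ)))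
      atTop (𝓝 0) := by
    have h4 := ((FloorSemiring.tendsto_pow_div_factorial_atTop (c * x)).comp
      (tendsto_add_atTop_nat 1)).const_mul (Real.exp x / c)
    rw [mul_zero] at h4
    exact h4
  exact h3.congr fun N => (h1 N).symm

end DC8965.P2
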