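import Pool.Agent.Lib.MP_dc8965_an.P2.GI

/-!
# MP_dc8965_an, `2 < p`: (GF2) the number `J` of variables is large
-/

open Finset Polynomial Filter Topology
open scoped LaurentPolynomial Nat

namespace DC8965.P2

/-- `m = ⌊R J^(1-2/p) / (2 N n)⌋` -/
noncomputable def mG (p R : ℝ) (N n J : ℕ) : ℕ := ⌊R * (J : ℝ) ^ (1 - 2 / p) / (2 * N * n)⌋₊

private lemma GF2_tendsto_y {p R : ℝ} (hp : 2 < p) (hR : 0 < R) :
    Tendsto (fun J : ℕ => R * (J : ℝ) ^ (1 - 2 / p)) atTop atTop := by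
  have hs : 0 < 1 - 2 / p := by
    have : 2 / p < 1 := (div_lt_one (by linarith)).2 hp
    linarith
  exact ((tendsto_rpow_atTop hs).comp tendsto_natCast_atTop_atTop).const_mul_atTop hR

/-- `y / (2Nn) - 1 < m ≤ y/(2Nn)` with `y = R J^(1-2/p) → ∞` (`1 - 2/p > 0`), so
`y - 2Nn ≤ 2 N n m ≤ y` and `y - 2 N n ≥ y/2`; `8 y ≤ J` as `J^(1-2/p)/J = J^(-2/p) → 0`. -/
lemma GF2_m {p R : ℝ} (hp : 2 < p) (hR : 0 < R) {N n : ℕ} (hN : 1 ≤ N) (hn : 1 ≤ n) :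
    ∀ᶠ J : ℕ in atTop, 1 ≤ mG p R N n J ∧
      R * (J : ℝ) ^ (1 - 2 / p) / 2 ≤ ((2 * N * n * mG p R N n J : ℕ) : ℝ) ∧
      ((2 * N * n * mG p R N n J : ℕ) : ℝ) ≤ R * (J : ℝ) ^ (1 - 2 / p) ∧
      8 * (2 * N * n * mG p R N n J) ≤ J := by
  have hs : 0 < 2 / p := div_pos (by norm_num) (by linarith)
  have hD : (0 : ℝ) < 2 * N * n := by
    have h1 : (1 : ℝ) ≤ N := by exact_mod_cast hN
    have h2 : (1 : ℝ) ≤ n := by exact_mod_cast hn
    positivity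
  have h1 := (GF2_tendsto_y hp hR).eventually_ge_atTop (2 * (2 * N * n))
  have h2 : ∀ᶠ J : ℕ in atTop, 8 * R ≤ (J : ℝ) ^ (2 / p) :=
    ((tendsto_rpow_atTop hs).comp tendsto_natCast_atTop_atTop).eventually_ge_atTop (8 * R)
  filter_upwards [h1, h2, eventually_gt_atTop 0] with J hJ1 hJ2 hJ3
  have hJ : (0 : ℝ) < J := by exact_mod_cast hJ3
  obtain ⟨y, hy⟩ : ∃ y, y = R * (J : ℝ) ^ (1 - 2 / p) := ⟨_, rfl⟩
  rw [← hy] at hJ1 ⊢
  have hm : mG p R N n J = ⌊y / (2 * N * n)⌋₊ := by rw [hy]; rfl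
  have hy0 : 0 ≤ y / (2 * N * n) := div_nonneg (by linarith) hD.le
  have h3 : (mG p R N n J : ℝ) ≤ y / (2 * N * n) := by rw [hm]; exact Nat.floor_le hy0
  have h4 : y / (2 * N * n) < (mG p R N n J : ℝ) + 1 := by rw [hm]; exact Nat.lt_floor_add_one _
  have h5 : 2 ≤ y / (2 * N * n) := by rw [le_div_iff₀ hD]; exact hJ1
  have h6 : (1 : ℝ) < mG p R N n J := by linarith
  have h7 : (2 * N * n : ℝ) * mG p R N n J ≤ y := by
    rw [le_div_iff₀ hD] at h3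
    linarith
  have h8 : y < (2 * N * n : ℝ) * mG p R N n J + 2 * N * n := by
    rw [div_lt_iff₀ hD] at h4
    linarith
  refine ⟨?_, ?_, ?_, ?_⟩
  · have : 1 < mG p R N n J := by exact_mod_cast h6
    omega
  · push_cast
    linarith
  · push_cast
    linarith
  · have h9 : 8 * y ≤ J := by
      have e1 : (J : ℝ) = (J : ℝ) ^ (2 / p) * (J : ℝ) ^ (1 - 2 / p) := by
        rw [← Real.rpow_add hJ]
        have : 2 / p + (1 - 2 / p) = 1 := by ring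
        rw [this, Real.rpow_one]
      have e2 : 0 ≤ (J : ℝ) ^ (1 - 2 / p) := by positivity
      calc 8 * y = (8 * R) * (J : ℝ) ^ (1 - 2 / p) := by rw [hy]; ring
        _ ≤ (J : ℝ) ^ (2 / p) * (J : ℝ) ^ (1 - 2 / p) := mul_le_mul_of_nonneg_right hJ2 e2
        _ = J := e1.symm
    have h10 : ((8 * (2 * N * n * mG p R N n J) : ℕ) : ℝ) ≤ (J : ℝ) := by
      push_cast
      linarith
    exact_mod_cast h10

/-- `(2 M₀)^p J^(2-p) ≤ (2 R)^p J^(p-2) J^(2-p) = (2R)^p`. -/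
lemma GF2_L {p R : ℝ} (hp : 2 < p) (hR : 0 < R) {J M₀ : ℕ} (hJ : 1 ≤ J)
    (h : (M₀ : ℝ) ≤ R * (J : ℝ) ^ (1 - 2 / p)) :
    (2 * (M₀ : ℝ)) ^ p * (J : ℝ) ^ (2 - p) ≤ (2 * R) ^ p := by
  have hJ' : (0 : ℝ) < J := by exact_mod_cast hJ
  have hp0 : 0 < p := by linarith
  have h1 : (2 * (M₀ : ℝ)) ^ p ≤ (2 * R * (J : ℝ) ^ (1 - 2 / p)) ^ p :=
    Real.rpow_le_rpow (by positivity) (by linarith) hp0.le
  have h2 : (2 * R * (J : ℝ) ^ (1 - 2 / p)) ^ p = (2 * R) ^ p * (J : ℝ) ^ (p - 2) := by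
    rw [Real.mul_rpow (by positivity) (by positivity), ← Real.rpow_mul hJ'.le]
    congr 2
    field_simp
  have h3 : (J : ℝ) ^ (p - 2) * (J : ℝ) ^ (2 - p) = 1 := by
    rw [← Real.rpow_add hJ']
    have : p - 2 + (2 - p) = 0 := by ring
    rw [this, Real.rpow_zero]
  calc (2 * (M₀ : ℝ)) ^ p * (J : ℝ) ^ (2 - p)
      ≤ (2 * R) ^ p * (J : ℝ) ^ (p - 2) * (J : ℝ) ^ (2 - p) :=
        mul_le_mul_of_nonneg_right (h1.trans_eq h2) (by positivity)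
    _ = (2 * R) ^ p := by rw [mul_assoc, h3, mul_one]

lemma GF2_tendsto_m {p R : ℝ} (hp : 2 < p) (hR : 0 < R) {N n : ℕ} (hN : 1 ≤ N) (hn : 1 ≤ n) :
    Tendsto (fun J : ℕ => mG p R N n J) atTop atTop := by
  have hD : (0 : ℝ) < 2 * N * n := by
    have h1 : (1 : ℝ) ≤ N := by exact_mod_cast hN
    have h2 : (1 : ℝ) ≤ n := by exact_mod_cast hn
    positivity
  exact tendsto_nat_floor_atTop.comp ((GF2_tendsto_y hp hR).atTop_div_const hD)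

/-- `J^t / (J (J-1) ⋯ (J-t+1)) → 1`. -/
lemma GF2_desc (r : ℝ) (t : ℕ) :
    Tendsto (fun J : ℕ => ((J : ℝ) ^ t / (J.descFactorial t : ℝ)) ^ r) atTop (𝓝 1) := by
  have h : Tendsto (fun J : ℕ => (J : ℝ) ^ t / (J.descFactorial t : ℝ)) atTop (𝓝 1) := by
    induction t with
    | zero => simp
    | succ t ih =>
      have h1 : Tendsto (fun J : ℕ => (J : ℝ) / ((J - t : ℕ) : ℝ)) atTop (𝓝 1) := by
        have h2 : Tendsto (fun K : ℕ => 1 + (t : ℝ) / (K : ℝ)) atTop (𝓝 (1 + 0)) :=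
          tendsto_const_nhds.add (tendsto_const_div_atTop_nhds_zero_nat (t : ℝ))
        rw [add_zero] at h2
        have h3 := h2.comp (tendsto_sub_atTop_nat t)
        refine h3.congr' ?_
        filter_upwards [eventually_gt_atTop t] with J hJ
        have h4 : (0 : ℝ) < ((J - t : ℕ) : ℝ) := by exact_mod_cast Nat.sub_pos_of_lt hJ
        show 1 + (t : ℝ) / ((J - t : ℕ) : ℝ) = (J : ℝ) / ((J - t : ℕ) : ℝ)
        have h5 : (J : ℝ) = ((J - t : ℕ) : ℝ) + t := by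
          rw [← Nat.cast_add, Nat.sub_add_cancel hJ.le]
        rw [eq_div_iff h4.ne', add_mul, one_mul, div_mul_cancel₀ _ h4.ne', ← h5]
      have h6 := h1.mul ih
      rw [one_mul] at h6
      refine h6.congr fun J => ?_
      rw [Nat.descFactorial_succ, pow_succ, Nat.cast_mul, div_mul_div_comm, mul_comm (J : ℝ)]
  have h' := h.rpow_const (p := r) (Or.inl one_ne_zero)
  rwa [Real.one_rpow] at h'

lemma GF2_pow {p : ℝ} (hp : 2 < p) (K : ℝ) :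
    Tendsto (fun J : ℕ => K * (J : ℝ) ^ (2 - p)) atTop (𝓝 0) := by
  have h1 := ((tendsto_rpow_neg_atTop (y := p - 2) (by linarith)).comp
    (tendsto_natCast_atTop_atTop (R := ℝ))).const_mul K
  rw [mul_zero] at h1
  refine h1.congr fun J => ?_
  have : -(p - 2) = 2 - p := by ring
  simp only [Function.comp_apply, this]

/-- The `ℓ^2` estimate. `M₀! ≥ (M₀/e)^M₀` (`Real`: `exp M₀ ≥ M₀^M₀/M₀!`, a term of the exponential series), so
`(4 e^16 y')^M₀ / M₀! ≤ (4 e^17 y' / M₀)^M₀ ≤ (8 e^17 / R)^M₀` with `y' = J^(1-2/p)`, `M₀ ≥ R y'/2`. -/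
lemma GF2_two {p R : ℝ} (hR : 0 < R) {J M₀ : ℕ} (hM : 1 ≤ M₀)
    (h : R * (J : ℝ) ^ (1 - 2 / p) / 2 ≤ (M₀ : ℝ)) :
    (4 * Real.exp 16 * (J : ℝ) ^ (1 - 2 / p)) ^ M₀ / (M₀ ! : ℝ) ≤ (8 * Real.exp 17 / R) ^ M₀ := by
  have hM' : (0 : ℝ) < M₀ := by exact_mod_cast hM
  have hf : (0 : ℝ) < (M₀ ! : ℝ) := by exact_mod_cast Nat.factorial_pos M₀
  have h1 : 4 * Real.exp 16 * (J : ℝ) ^ (1 - 2 / p) ≤ 8 * Real.exp 16 / R * M₀ := by
    have h2 : (J : ℝ) ^ (1 - 2 / p) ≤ 2 * M₀ / R := by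
      rw [le_div_iff₀ hR]
      linarith
    calc 4 * Real.exp 16 * (J : ℝ) ^ (1 - 2 / p) ≤ 4 * Real.exp 16 * (2 * M₀ / R) :=
          mul_le_mul_of_nonneg_left h2 (by positivity)
      _ = 8 * Real.exp 16 / R * M₀ := by ring
  have h3 : (M₀ : ℝ) ^ M₀ / (M₀ ! : ℝ) ≤ Real.exp M₀ := Real.pow_div_factorial_le_exp _ hM'.le _
  calc (4 * Real.exp 16 * (J : ℝ) ^ (1 - 2 / p)) ^ M₀ / (M₀ ! : ℝ)
      ≤ (8 * Real.exp 16 / R * M₀) ^ M₀ / (M₀ ! : ℝ) := by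
        refine div_le_div_of_nonneg_right (pow_le_pow_left₀ (by positivity) h1 _) hf.le
    _ = (8 * Real.exp 16 / R) ^ M₀ * ((M₀ : ℝ) ^ M₀ / (M₀ ! : ℝ)) := by rw [mul_pow]; ring
    _ ≤ (8 * Real.exp 16 / R) ^ M₀ * Real.exp M₀ := mul_le_mul_of_nonneg_left h3 (by positivity)
    _ = (8 * Real.exp 17 / R) ^ M₀ := by
        have h4 : Real.exp (M₀ : ℝ) = Real.exp 1 ^ M₀ := by
          rw [← Real.exp_nat_mul, mul_one]
        have h5 : Real.exp 17 = Real.exp 16 * Real.exp 1 := by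
          rw [← Real.exp_add]; norm_num
        rw [h4, ← mul_pow, h5]
        congr 1
        ring

end DC8965.P2
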