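import Pool.Agent.Lib.MP_dc8965_an.P2.B1
import Pool.Agent.Lib.MP_dc8965_an.P2.GF1
import Pool.Agent.Lib.MP_dc8965_an.P2.GF2

/-!
# MP_dc8965_an, `2 < p`: (GF3) the sequences `v`, `F_j` from `u`, `H_t`
-/

open Finset Polynomial Filter Topology
open scoped LaurentPolynomial Nat

namespace DC8965.P2

open DC8965.BT

/-- `v = (n!)^(-1/p) u^n` -/
noncomputable def vGF (p : ℝ) (n : ℕ) (u : ℂ[X]) : ℂ[X] := C (((n ! : ℝ) ^ (-(1 / p)) : ℝ) : ℂ) * u ^ n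

/-- `F_j = (n!)^(j/p) H_(n j)` -/
noncomputable def FG (p : ℝ) (n : ℕ) (H : ℕ → ℂ[T;T⁻¹]) (j : ℕ) : ℂ[T;T⁻¹] :=
  (((n ! : ℝ) ^ ((j : ℝ) / p) : ℝ) : ℂ) • H (n * j)

/-- `u^n H_(n j + n) = H_(n j)` by induction, and the scalars. -/
lemma GF3_chain {p : ℝ} {n m : ℕ} {u : ℂ[X]} {H : ℕ → ℂ[T;T⁻¹]}
    (h : ∀ t < n * m, toLaurent u * H (t + 1) = H t) :
    ∀ j < m, toLaurent (vGF p n u) * FG p n H (j + 1) = FG p n H j := by
  intro j hj
  have key : ∀ i, n * j + i ≤ n * m → toLaurent u ^ i * H (n * j + i) = H (n * j) := by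
    intro i
    induction i with
    | zero => intro _; rw [pow_zero, one_mul, add_zero]
    | succ i ih =>
      intro hi
      rw [pow_succ, mul_assoc, ← add_assoc, h (n * j + i) (by omega)]
      exact ih (by omega)
  have hk := key n (by
    have := Nat.mul_le_mul_left n (show j + 1 ≤ m from hj)
    rwa [Nat.mul_succ] at this)
  have hpos : (0 : ℝ) < (n ! : ℝ) := by exact_mod_cast Nat.factorial_pos n
  have hsc : (n ! : ℝ) ^ (-(1 / p)) * (n ! : ℝ) ^ (((j + 1 : ℕ) : ℝ) / p) =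
      (n ! : ℝ) ^ ((j : ℝ) / p) := by
    rw [← Real.rpow_add hpos]
    congr 1
    push_cast
    ring
  unfold vGF FG
  rw [map_mul, map_pow, Polynomial.toLaurent_C, Nat.mul_succ, mul_assoc, mul_smul_comm, hk,
    mul_smul_comm, ← LaurentPolynomial.smul_eq_C_mul, smul_smul, ← Complex.ofReal_mul,
    mul_comm ((n ! : ℝ) ^ (((j + 1 : ℕ) : ℝ) / p)), hsc]

/-- `Sn q (u^n) ≤ (n!)^(q-1)` and `q / p = q - 1` (`Sn_C_mul`, `Real.HolderConjugate.sub_one_mul_conj`). -/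
lemma GF3_v {p q : ℝ} (hpq : p.HolderConjugate q) {n : ℕ} {u : ℂ[X]}
    (h : Sn q (u ^ n) ≤ (n ! : ℝ) ^ (q - 1)) : Sn q (vGF p n u) ≤ 1 := by
  have hp0 : 0 < p := hpq.pos
  have hq0 : 0 < q := hpq.symm.pos
  have hpos : (0 : ℝ) < (n ! : ℝ) := by exact_mod_cast Nat.factorial_pos n
  have e : -(1 / p) * q = -(q - 1) := by
    have h1 := hpq.symm.sub_one_mul_conj
    have : q / p = q - 1 := by
      rw [div_eq_iff hp0.ne']
      linarith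
    rw [← this]
    ring
  unfold vGF
  rw [Sn_C_mul hq0, Complex.norm_real, Real.norm_of_nonneg (Real.rpow_nonneg hpos.le _),
    ← Real.rpow_mul hpos.le, e]
  calc (n ! : ℝ) ^ (-(q - 1)) * Sn q (u ^ n) ≤ (n ! : ℝ) ^ (-(q - 1)) * (n ! : ℝ) ^ (q - 1) :=
        mul_le_mul_of_nonneg_left h (Real.rpow_nonneg hpos.le _)
    _ = 1 := by rw [← Real.rpow_add hpos, neg_add_cancel, Real.rpow_zero]

/-- `nr r (F_j) = (n!)^(j/p) nr r (H_(n j))` (`nr_smul`). -/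
lemma GF3_nr {p r : ℝ} (hr : 0 < r) (n : ℕ) (H : ℕ → ℂ[T;T⁻¹]) (j : ℕ) :
    nr r (FG p n H j) = (n ! : ℝ) ^ ((j : ℝ) / p) * nr r (H (n * j)) := by
  unfold FG
  rw [nr_smul hr, Complex.norm_real, Real.norm_of_nonneg (Real.rpow_nonneg (Nat.cast_nonneg _) _)]

/-- `F_0 - 1 = H_0 - 1`. -/
lemma GF3_zero (p : ℝ) (n : ℕ) (H : ℕ → ℂ[T;T⁻¹]) : FG p n H 0 = H 0 := by
  unfold FG
  rw [Nat.cast_zero, zero_div, Real.rpow_zero, Complex.ofReal_one, one_smul, mul_zero]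

/-- If `np p (H_(n j)) ≤ A + B/(n j)!`-type bounds hold, the norm of `F_j`:
`nr p (F_j) = ((n!)^j np p (H_(nj)))^(1/p)`. -/
lemma GF3_np {p : ℝ} (hp : 0 < p) (n : ℕ) (H : ℕ → ℂ[T;T⁻¹]) (j : ℕ) :
    nr p (FG p n H j) = ((n ! : ℝ) ^ j * np p (H (n * j))) ^ (1 / p) := by
  rw [GF3_nr hp, nr, Real.mul_rpow (pow_nonneg (Nat.cast_nonneg _) _) (np_nonneg p _),
    ← Real.rpow_natCast, ← Real.rpow_mul (Nat.cast_nonneg _), mul_one_div]

/-- The crude bound for large `j`: from `np p (H t) ≤ CG^p (2^(p t) E / t!)`, `t = n j`,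
`nr p (F_j) ≤ CG N * (2^n)^j * E^(1/p) * aG p n j`. -/
lemma GF3_crude {p : ℝ} (hp : 0 < p) {n N : ℕ} {E : ℝ} (hE : 0 ≤ E) (H : ℕ → ℂ[T;T⁻¹]) (j : ℕ)
    (h : np p (H (n * j)) ≤ CG N ^ p * ((2 : ℝ) ^ (p * ((n * j : ℕ) : ℝ)) * E / ((n * j)! : ℝ))) :
    nr p (FG p n H j) ≤ CG N * E ^ (1 / p) * (((2 : ℝ) ^ n) ^ j * aG p n j) := by
  have hC : 0 < CG N := by unfold CG; positivity
  have hf : (0 : ℝ) < ((n * j)! : ℝ) := by exact_mod_cast Nat.factorial_pos _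
  have hn0 : (0 : ℝ) ≤ (n ! : ℝ) ^ j := by positivity
  have hr0 : 0 ≤ (n ! : ℝ) ^ j / ((n * j)! : ℝ) := by positivity
  rw [GF3_np hp]
  have h1 : (n ! : ℝ) ^ j * np p (H (n * j)) ≤
      CG N ^ p * (E * ((2 : ℝ) ^ (p * ((n * j : ℕ) : ℝ)) * ((n ! : ℝ) ^ j / ((n * j)! : ℝ)))) := by
    refine (mul_le_mul_of_nonneg_left h hn0).trans (le_of_eq ?_)
    field_simp
  refine (Real.rpow_le_rpow (mul_nonneg hn0 (np_nonneg _ _)) h1 (by positivity)).trans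
    (le_of_eq ?_)
  rw [Real.mul_rpow (by positivity) (by positivity), Real.mul_rpow hE (by positivity),
    Real.mul_rpow (by positivity) hr0, ← Real.rpow_mul hC.le, mul_one_div_cancel hp.ne',
    Real.rpow_one, ← Real.rpow_mul (by norm_num : (0 : ℝ) ≤ 2)]
  rw [show p * ((n * j : ℕ) : ℝ) * (1 / p) = ((n * j : ℕ) : ℝ) by field_simp,
    Real.rpow_natCast, pow_mul]
  unfold aG
  ring

/-- The fine bound: from `np p (H t) ≤ A/t! + D + CG^p (2^(p t)/t!) S` with `t = n j`,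
`nr p (F_j) ≤ A^(1/p) aG + ((n!)^j D)^(1/p) + CG N (2^n)^j S^(1/p) aG`
(`(a+b+c)^(1/p) ≤ a^(1/p) + b^(1/p) + c^(1/p)` for `p ≥ 1`, `Real.rpow_add_le_add_rpow`). -/
lemma GF3_fine {p : ℝ} (hp : 1 ≤ p) {n N : ℕ} {A D S : ℝ} (hA : 0 ≤ A) (hD : 0 ≤ D) (hS : 0 ≤ S)
    (H : ℕ → ℂ[T;T⁻¹]) (j : ℕ)
    (h : np p (H (n * j)) ≤ A / ((n * j)! : ℝ) + D +
      CG N ^ p * ((2 : ℝ) ^ (p * ((n * j : ℕ) : ℝ)) / ((n * j)! : ℝ)) * S) :
    nr p (FG p n H j) ≤ A ^ (1 / p) * aG p n j + ((n ! : ℝ) ^ j * D) ^ (1 / p) +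
      CG N * S ^ (1 / p) * (((2 : ℝ) ^ n) ^ j * aG p n j) := by
  have hp0 : 0 < p := by linarith
  have hC : 0 < CG N := by unfold CG; positivity
  have hf : (0 : ℝ) < ((n * j)! : ℝ) := by exact_mod_cast Nat.factorial_pos _
  have hn0 : (0 : ℝ) ≤ (n ! : ℝ) ^ j := by positivity
  have hr0 : 0 ≤ (n ! : ℝ) ^ j / ((n * j)! : ℝ) := by positivity
  have h1p : 0 ≤ 1 / p := by positivity
  have h1p1 : 1 / p ≤ 1 := by
    rw [div_le_one hp0]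
    exact hp
  rw [GF3_np hp0]
  have h1 : (n ! : ℝ) ^ j * np p (H (n * j)) ≤
      A * ((n ! : ℝ) ^ j / ((n * j)! : ℝ)) + (n ! : ℝ) ^ j * D +
      CG N ^ p * (S * ((2 : ℝ) ^ (p * ((n * j : ℕ) : ℝ)) * ((n ! : ℝ) ^ j / ((n * j)! : ℝ)))) := by
    refine (mul_le_mul_of_nonneg_left h hn0).trans (le_of_eq ?_)
    field_simp
  refine (Real.rpow_le_rpow (mul_nonneg hn0 (np_nonneg _ _)) h1 h1p).trans ?_
  refine (Real.rpow_add_le_add_rpow (by positivity) (by positivity) h1p h1p1).trans ?_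
  refine add_le_add ((Real.rpow_add_le_add_rpow (by positivity) (by positivity) h1p h1p1).trans
    (le_of_eq ?_)) (le_of_eq ?_)
  · rw [Real.mul_rpow hA hr0]
    rfl
  · rw [Real.mul_rpow (by positivity) (by positivity), Real.mul_rpow hS (by positivity),
      Real.mul_rpow (by positivity) hr0, ← Real.rpow_mul hC.le, mul_one_div_cancel hp0.ne',
      Real.rpow_one, ← Real.rpow_mul (by norm_num : (0 : ℝ) ≤ 2)]
    rw [show p * ((n * j : ℕ) : ℝ) * (1 / p) = ((n * j : ℕ) : ℝ) by field_simp,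
      Real.rpow_natCast, pow_mul]
    unfold aG
    ring

end DC8965.P2
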