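import Pool.Agent.Lib.MP_dc8965_an.P2.GF3

/-!
# MP_dc8965_an, `2 < p`: (GF4) preparations for the choice of the parameters
-/

open Finset Polynomial Filter Topology
open scoped LaurentPolynomial Nat

namespace DC8965.P2

/-- `R` large (`n ≥ 1`, so `(8 e^17/R)^n → 0` as `R → ∞`). -/
lemma GF4_R (p M : ℝ) {n : ℕ} (hn : 1 ≤ n) :
    ∃ R : ℝ, 0 < R ∧ M ^ 2 * (n ! : ℝ) ^ (2 / p) * (8 * Real.exp 17 / R) ^ n ≤ 1 / 4 := by
  set K : ℝ := M ^ 2 * (n ! : ℝ) ^ (2 / p) with hK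
  have hK0 : 0 ≤ K := by
    rw [hK]
    exact mul_nonneg (sq_nonneg M) (Real.rpow_nonneg (Nat.cast_nonneg _) _)
  have he : 0 < Real.exp 17 := Real.exp_pos 17
  have h1 : 0 < 4 * K + 1 := by linarith
  refine ⟨8 * Real.exp 17 * (4 * K + 1), by positivity, ?_⟩
  have h2 : 8 * Real.exp 17 / (8 * Real.exp 17 * (4 * K + 1)) = 1 / (4 * K + 1) := by
    field_simp
  rw [h2]
  have h3 : (1 / (4 * K + 1)) ^ n ≤ 1 / (4 * K + 1) := by
    calc (1 / (4 * K + 1)) ^ n ≤ (1 / (4 * K + 1)) ^ 1 :=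
          pow_le_pow_of_le_one (by positivity) (by rw [div_le_one h1]; linarith) hn
      _ = 1 / (4 * K + 1) := pow_one _
  calc K * (1 / (4 * K + 1)) ^ n ≤ K * (1 / (4 * K + 1)) := mul_le_mul_of_nonneg_left h3 hK0
    _ ≤ 1 / 4 := by
        rw [mul_one_div, div_le_div_iff₀ h1 (by norm_num)]
        linarith

/-- the squares: `(M^m nr 2 F_m)^2 = M^(2m) (n!)^(2m/p) np 2 (H_(nm))
≤ CG^2 (M^2 (n!)^(2/p) (8 e^17/R)^n)^m ≤ CG^2 (1/4)^m` (`GF3_nr`, `nr_rpow`; `abs_le_of_sq_le_sq'` or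
`Real.sqrt_le_sqrt`). -/
lemma GF4_two {p M R : ℝ} (hM : 0 ≤ M) (hR : 0 < R) {n m N : ℕ}
    (h1 : M ^ 2 * (n ! : ℝ) ^ (2 / p) * (8 * Real.exp 17 / R) ^ n ≤ 1 / 4) (H : ℕ → ℂ[T;T⁻¹])
    (h2 : np 2 (H (n * m)) ≤ CG N ^ 2 * (8 * Real.exp 17 / R) ^ (n * m)) :
    M ^ m * nr 2 (FG p n H m) ≤ CG N * (1 / 2) ^ m := by
  have hCG : 0 < CG N := by unfold CG; positivity
  have hf : (0 : ℝ) ≤ (n ! : ℝ) := Nat.cast_nonneg _
  have hb : 0 ≤ 8 * Real.exp 17 / R := by positivity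
  have h3 : nr 2 (H (n * m)) ^ 2 = np 2 (H (n * m)) := by
    rw [← nr_rpow (by norm_num : (0 : ℝ) < 2) (H (n * m)), Real.rpow_two]
  have h4 : ((n ! : ℝ) ^ ((m : ℝ) / p)) ^ 2 = ((n ! : ℝ) ^ (2 / p)) ^ m := by
    rw [← Real.rpow_natCast, ← Real.rpow_natCast, ← Real.rpow_mul hf, ← Real.rpow_mul hf]
    congr 1
    push_cast
    ring
  have h5 : (M ^ m * nr 2 (FG p n H m)) ^ 2 ≤ (CG N * (1 / 2) ^ m) ^ 2 := by
    rw [GF3_nr (by norm_num : (0 : ℝ) < 2)]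
    calc (M ^ m * ((n ! : ℝ) ^ ((m : ℝ) / p) * nr 2 (H (n * m)))) ^ 2
        = (M ^ m) ^ 2 * (((n ! : ℝ) ^ ((m : ℝ) / p)) ^ 2 * nr 2 (H (n * m)) ^ 2) := by ring
      _ = (M ^ m) ^ 2 * (((n ! : ℝ) ^ (2 / p)) ^ m * np 2 (H (n * m))) := by rw [h4, h3]
      _ ≤ (M ^ m) ^ 2 * (((n ! : ℝ) ^ (2 / p)) ^ m *
            (CG N ^ 2 * (8 * Real.exp 17 / R) ^ (n * m))) := by
          have := Real.rpow_nonneg hf (2 / p)
          gcongr
      _ = CG N ^ 2 * (M ^ 2 * (n ! : ℝ) ^ (2 / p) * (8 * Real.exp 17 / R) ^ n) ^ m := by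
          rw [pow_mul, mul_pow, mul_pow, ← pow_mul, ← pow_mul, mul_comm m 2]
          ring
      _ ≤ CG N ^ 2 * (1 / 4) ^ m := by
          have h6 : 0 ≤ M ^ 2 * (n ! : ℝ) ^ (2 / p) * (8 * Real.exp 17 / R) ^ n :=
            mul_nonneg (mul_nonneg (sq_nonneg M) (Real.rpow_nonneg hf _)) (pow_nonneg hb n)
          exact mul_le_mul_of_nonneg_left (pow_le_pow_left₀ h6 h1 m) (sq_nonneg _)
      _ = (CG N * (1 / 2) ^ m) ^ 2 := by
          have h7 : (1 / 4 : ℝ) ^ m = ((1 / 2 : ℝ) ^ m) ^ 2 := by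
            rw [← pow_mul, mul_comm, pow_mul]
            norm_num
          rw [h7, mul_pow]
  have h8 : 0 ≤ M ^ m * nr 2 (FG p n H m) :=
    mul_nonneg (pow_nonneg hM m) (nr_nonneg _ _)
  exact (pow_le_pow_iff_left₀ h8 (by positivity) two_ne_zero).1 h5

/-- finitely many conditions on `J` (`GF2_desc`, `GF2_pow`, `Filter.eventually_all_finset`,
`tendsto_finset_sum`, continuity of `t ↦ t^(1/p)` at `1` and at `0`). -/
lemma GF4_small {p : ℝ} (hp : 2 < p) (n N j₁ : ℕ) (M : ℝ) {η : ℝ} (hη : 0 < η) :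
    ∀ᶠ J : ℕ in atTop,
      (∀ j < j₁, (((J : ℝ) ^ (n * j) / (J.descFactorial (n * j) : ℝ)) ^ (p - 1)) ^ (1 / p) ≤ 5 / 4) ∧
      (∀ j < j₁, ((n ! : ℝ) ^ j * (KG p N (n * j) * (J : ℝ) ^ (2 - p))) ^ (1 / p) ≤ η) ∧
      ∑ j ∈ range j₁, M ^ j * ((n ! : ℝ) ^ j * (KG p N (n * j) * (J : ℝ) ^ (2 - p))) ^ (1 / p) ≤ η := by
  have hp1 : 0 < 1 / p := by
    have : 0 < p := by linarith
    positivity
  have hA : ∀ j : ℕ, Tendsto (fun J : ℕ =>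
      (((J : ℝ) ^ (n * j) / (J.descFactorial (n * j) : ℝ)) ^ (p - 1)) ^ (1 / p)) atTop (𝓝 1) := by
    intro j
    have h1 := (GF2_desc (p - 1) (n * j)).rpow_const (p := 1 / p) (Or.inl one_ne_zero)
    rw [Real.one_rpow] at h1
    exact h1
  have hB : ∀ j : ℕ, Tendsto (fun J : ℕ =>
      ((n ! : ℝ) ^ j * (KG p N (n * j) * (J : ℝ) ^ (2 - p))) ^ (1 / p)) atTop (𝓝 0) := by
    intro j
    have h1 := ((GF2_pow hp (KG p N (n * j))).const_mul ((n ! : ℝ) ^ j)).rpow_const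
      (p := 1 / p) (Or.inr hp1.le)
    rw [mul_zero, Real.zero_rpow hp1.ne'] at h1
    exact h1
  have hC : Tendsto (fun J : ℕ => ∑ j ∈ range j₁,
      M ^ j * ((n ! : ℝ) ^ j * (KG p N (n * j) * (J : ℝ) ^ (2 - p))) ^ (1 / p)) atTop (𝓝 0) := by
    have h1 : Tendsto (fun J : ℕ => ∑ j ∈ range j₁,
        M ^ j * ((n ! : ℝ) ^ j * (KG p N (n * j) * (J : ℝ) ^ (2 - p))) ^ (1 / p)) atTop
        (𝓝 (∑ j ∈ range j₁, M ^ j * 0)) :=
      tendsto_finsetSum _ fun j _ => (hB j).const_mul (M ^ j)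
    simpa using h1
  have e1 : ∀ᶠ J : ℕ in atTop, ∀ j ∈ range j₁,
      (((J : ℝ) ^ (n * j) / (J.descFactorial (n * j) : ℝ)) ^ (p - 1)) ^ (1 / p) ≤ 5 / 4 := by
    rw [Filter.eventually_all_finset]
    intro j _
    exact (hA j).eventually_le_const (by norm_num)
  have e2 : ∀ᶠ J : ℕ in atTop, ∀ j ∈ range j₁,
      ((n ! : ℝ) ^ j * (KG p N (n * j) * (J : ℝ) ^ (2 - p))) ^ (1 / p) ≤ η := by
    rw [Filter.eventually_all_finset]
    intro j _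
    exact (hB j).eventually_le_const hη
  filter_upwards [e1, e2, hC.eventually_le_const hη] with J h1 h2 h3
  exact ⟨fun j hj => h1 j (mem_range.2 hj), fun j hj => h2 j (mem_range.2 hj), h3⟩

/-- choice of `j₁`: the tail of a convergent series (`GF1_summable`). -/
lemma GF4_tail {p : ℝ} (hp : 0 < p) {n : ℕ} (hn : 1 ≤ n) {y : ℝ} (hy : 0 < y) (K : ℝ) {η : ℝ}
    (hη : 0 < η) : ∃ j₁ : ℕ, 2 ≤ j₁ ∧ ∀ m : ℕ, K * ∑ j ∈ Ico j₁ (m + 1), y ^ j * aG p n j ≤ η := by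
  have hs := GF1_summable hp hn y hy
  have h0 : ∀ j, 0 ≤ y ^ j * aG p n j := by
    intro j
    unfold aG
    exact mul_nonneg (pow_nonneg hy.le j) (Real.rpow_nonneg (by positivity) _)
  have h1 : Tendsto (fun i => |K| * ∑' k, y ^ (k + i) * aG p n (k + i)) atTop (𝓝 0) := by
    have h2 := (tendsto_sum_nat_add fun j => y ^ j * aG p n j).const_mul |K|
    rw [mul_zero] at h2
    exact h2
  obtain ⟨j₁, h3, h4⟩ := ((h1.eventually_le_const hη).and (eventually_ge_atTop 2)).exists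
  refine ⟨j₁, h4, fun m => le_trans ?_ h3⟩
  have h5 : ∑ j ∈ Ico j₁ (m + 1), y ^ j * aG p n j ≤ ∑' k, y ^ (k + j₁) * aG p n (k + j₁) := by
    rw [sum_Ico_eq_sum_range]
    calc ∑ k ∈ range (m + 1 - j₁), y ^ (j₁ + k) * aG p n (j₁ + k)
        = ∑ k ∈ range (m + 1 - j₁), y ^ (k + j₁) * aG p n (k + j₁) := by
          apply sum_congr rfl
          intro k _
          rw [add_comm]
      _ ≤ ∑' k, y ^ (k + j₁) * aG p n (k + j₁) :=
          ((summable_nat_add_iff j₁).2 hs).sum_le_tsum _ fun k _ => h0 _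
  have h6 : 0 ≤ ∑ j ∈ Ico j₁ (m + 1), y ^ j * aG p n j := sum_nonneg fun j _ => h0 j
  calc K * ∑ j ∈ Ico j₁ (m + 1), y ^ j * aG p n j
      ≤ |K| * ∑ j ∈ Ico j₁ (m + 1), y ^ j * aG p n j :=
        mul_le_mul_of_nonneg_right (le_abs_self K) h6
    _ ≤ |K| * ∑' k, y ^ (k + j₁) * aG p n (k + j₁) :=
        mul_le_mul_of_nonneg_left h5 (abs_nonneg K)

end DC8965.P2
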