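import Pool.Agent.Lib.MP_dc8965_an.P2.B5
import Pool.Agent.Lib.MP_dc8965_an.P2.G5
import Pool.Agent.Lib.MP_dc8965_an.P2.G6c
import Pool.Agent.Lib.MP_dc8965_an.P2.G8b
import Pool.Agent.Lib.MP_dc8965_an.P2.G8c
import Pool.Agent.Lib.MP_dc8965_an.P2.G8d
import Pool.Agent.Lib.MP_dc8965_an.P2.G8e
import Pool.Agent.Lib.MP_dc8965_an.P2.G10a

/-!
# MP_dc8965_an, `2 < p`: (GI) the interface of the gadget
-/

open Finset Polynomial
open scoped LaurentPolynomial Nat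

namespace DC8965.P2

open DC8965.BT

/-- bound for the sum of the absolute values of the Lagrange weights -/
noncomputable def CG (N : ℕ) : ℝ := 12 ^ (2 * N)

/-- a tail of the exponential series -/
noncomputable def TG (N : ℕ) (x : ℝ) : ℝ := x ^ (N + 1) / ((N + 1)! : ℝ) * Real.exp x

/-- a constant that does not depend on `J` -/
noncomputable def KG (p : ℝ) (N t : ℕ) : ℝ :=
  ∑ k ∈ Icc 1 N, (2 : ℝ) ^ (p * ((k : ℝ) + t)) * (t.ascFactorial k : ℝ) ^ p /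
    ((k ! : ℝ) * ((k + t)! : ℝ))

private lemma CG_rpow (N : ℕ) (p : ℝ) : CG N ^ p = (12 : ℝ) ^ (2 * (N : ℝ) * p) := by
  unfold CG
  rw [← Real.rpow_natCast, ← Real.rpow_mul (by norm_num)]
  push_cast
  ring_nf

private lemma CG_rpow' (N : ℕ) (p : ℝ) : CG N ^ p = (12 : ℝ) ^ (((2 * N : ℕ) : ℝ) * p) := by
  rw [CG_rpow]
  push_cast
  ring_nf

private lemma tau_le {p Y : ℝ} (hY : 0 ≤ Y) (N : ℕ) : tau p Y N ≤ CG N ^ p * TG N Y := by
  unfold tau TG
  rw [← CG_rpow]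
  refine mul_le_mul_of_nonneg_left ?_ (by unfold CG; positivity)
  have h1 : Real.exp Y = ∑' k : ℕ, Y ^ k / (k ! : ℝ) := by
    rw [Real.exp_eq_exp_ℝ, NormedSpace.exp_eq_tsum_div]
  have hs : Summable fun k : ℕ => Y ^ k / (k ! : ℝ) := Real.summable_pow_div_factorial Y
  have hle : ∀ k : ℕ, Y ^ (k + N + 1) / ((k + N + 1).factorial : ℝ) ^ 2 ≤
      Y ^ (N + 1) / ((N + 1)! : ℝ) * (Y ^ k / (k ! : ℝ)) := by
    intro k
    have h2 : Y ^ (N + 1) / ((N + 1)! : ℝ) * (Y ^ k / (k ! : ℝ)) =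
        Y ^ (k + N + 1) / (((N + 1)! : ℝ) * (k ! : ℝ)) := by
      rw [div_mul_div_comm]
      congr 1
      ring
    rw [h2]
    have h3 : ((N + 1)! : ℝ) * (k ! : ℝ) ≤ ((k + N + 1).factorial : ℝ) ^ 2 := by
      have h4 : (N + 1)! * k ! ≤ (k + N + 1)! := by
        have h5 := Nat.factorial_mul_factorial_dvd_factorial_add (N + 1) k
        have h6 : N + 1 + k = k + N + 1 := by ring
        rw [h6] at h5
        exact Nat.le_of_dvd (Nat.factorial_pos _) h5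
      have h5 : ((N + 1)! : ℝ) * (k ! : ℝ) ≤ ((k + N + 1)! : ℝ) := by exact_mod_cast h4
      have h6 : (1 : ℝ) ≤ ((k + N + 1)! : ℝ) := by exact_mod_cast Nat.factorial_pos _
      nlinarith
    exact div_le_div_of_nonneg_left (by positivity) (by positivity) h3
  rw [h1, ← tsum_mul_left]
  have hs' := hs.mul_left (Y ^ (N + 1) / ((N + 1)! : ℝ))
  exact (Summable.of_nonneg_of_le (fun k => by positivity) hle hs').tsum_le_tsum hle hs'

private lemma rise_eq (t k : ℕ) : rise t k = (t.ascFactorial k : ℝ) := by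
  unfold rise
  induction k with
  | zero => simp
  | succ k ih =>
    rw [Finset.prod_range_succ, ih, Nat.ascFactorial_succ]
    push_cast
    ring

private lemma low_sum_le {p : ℝ} (hp : 2 < p) {J : ℕ} (hJ : 1 ≤ J) (N t : ℕ) :
    ∑ k ∈ Ico 1 (N + 1), (2 : ℝ) ^ (p * (k + t)) * rise t k ^ p * (J : ℝ) ^ ((k : ℝ) * (2 - p)) /
        (k.factorial * (k + t).factorial) ≤ KG p N t * (J : ℝ) ^ (2 - p) := by
  unfold KG
  rw [Finset.sum_mul]
  have hI : Ico 1 (N + 1) = Icc 1 N := by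
    ext k
    simp only [Finset.mem_Ico, Finset.mem_Icc]
    omega
  rw [hI]
  refine Finset.sum_le_sum fun k hk => ?_
  rw [Finset.mem_Icc] at hk
  rw [rise_eq]
  have hJ1 : (1 : ℝ) ≤ J := by exact_mod_cast hJ
  have h1 : (J : ℝ) ^ ((k : ℝ) * (2 - p)) ≤ (J : ℝ) ^ (2 - p) := by
    refine Real.rpow_le_rpow_of_exponent_le hJ1 ?_
    have hk1 : (1 : ℝ) ≤ k := by exact_mod_cast hk.1
    nlinarith
  have h2 : (0 : ℝ) ≤ (2 : ℝ) ^ (p * ((k : ℝ) + t)) * (t.ascFactorial k : ℝ) ^ p := by positivity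
  rw [div_mul_eq_mul_div]
  exact div_le_div_of_nonneg_right (mul_le_mul_of_nonneg_left h1 h2) (by positivity)

private lemma sp_uu (q : ℝ) (J L : ℕ) : ∃ u : ℂ[X], toLaurent u = sp J L (uu q J) := by
  refine ⟨C (((J : ℝ) ^ (-(1 / q)) : ℝ) : ℂ) * ∑ b : Fin J, X ^ (L ^ (b : ℕ)), ?_⟩
  have h1 : ∀ b : Fin J, sp J L (AddMonoidAlgebra.single (Pi.single b (1 : ℤ)) (1 : ℂ)) =
      LaurentPolynomial.T ((L ^ (b : ℕ) : ℕ) : ℤ) := by
    intro b
    have h2 : spH J L (Pi.single b (1 : ℤ)) = ((L ^ (b : ℕ) : ℕ) : ℤ) := by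
      change ∑ b', (Pi.single b (1 : ℤ) : Fin J → ℤ) b' * (L : ℤ) ^ (b' : ℕ) = _
      rw [Finset.sum_eq_single b]
      · simp
      · intro b' _ hb'
        rw [Pi.single_eq_of_ne hb', zero_mul]
      · intro h
        exact absurd (Finset.mem_univ b) h
    unfold sp
    rw [AddMonoidAlgebra.mapDomainRingHom_apply, AddMonoidAlgebra.mapDomain_single, h2]
    rfl
  have h3 : sp J L (uu q J) = (((J : ℝ) ^ (-(1 / q)) : ℝ) : ℂ) • sp J L (SS J) := by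
    unfold uu sp
    rw [AddMonoidAlgebra.mapDomainRingHom_apply, AddMonoidAlgebra.mapDomainRingHom_apply]
    ext a
    simp [AddMonoidAlgebra.mapDomain, Finsupp.mapDomain_smul]
  rw [h3, map_mul, Polynomial.toLaurent_C, LaurentPolynomial.smul_eq_C_mul]
  congr 1
  unfold SS
  rw [map_sum, map_sum]
  refine Finset.sum_congr rfl fun b _ => ?_
  rw [h1, Polynomial.toLaurent_X_pow]

theorem GI {p q : ℝ} (hpq : p.HolderConjugate q) (hp : 2 < p) {n N m J : ℕ} (hn : 1 ≤ n)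
    (hN : 1 ≤ N) (hm : 1 ≤ m) (hJ : 8 * (2 * N * n * m) ≤ J) {Λ : ℝ}
    (hΛ : (2 * ((2 * N * n * m : ℕ) : ℝ)) ^ p * (J : ℝ) ^ (2 - p) ≤ Λ) :
    ∃ (u : ℂ[X]) (H : ℕ → ℂ[T;T⁻¹]),
      (∀ t < 2 * N * n * m, toLaurent u * H (t + 1) = H t) ∧
      Sn q (u ^ n) ≤ (n ! : ℝ) ^ (q - 1) ∧
      (∀ t ≤ 2 * N * n * m, 2 * (2 * N + t) ≤ J →
        np p (H t - if t = 0 then 1 else 0) ≤
          (if t = 0 then 0 else
            ((J : ℝ) ^ t / (J.descFactorial t : ℝ)) ^ (p - 1) / (t ! : ℝ)) +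
          KG p N t * (J : ℝ) ^ (2 - p) +
          CG N ^ p * ((2 : ℝ) ^ (p * t) / (t ! : ℝ)) * TG N (2 ^ p * Λ)) ∧
      (∀ t ≤ 2 * N * n * m,
        np p (H t) ≤ CG N ^ p * ((2 : ℝ) ^ (p * t) * Real.exp (2 ^ p * Λ) / (t ! : ℝ))) ∧
      ∀ R : ℝ, 0 < R → R * (J : ℝ) ^ (1 - 2 / p) / 2 ≤ ((2 * N * n * m : ℕ) : ℝ) →
        np 2 (H (2 * N * n * m)) ≤ CG N ^ 2 * (8 * Real.exp 17 / R) ^ (2 * N * n * m) := by
  classical
  have hM0 : 2 * N * (n * m) = 2 * N * n * m := by ring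
  have hnm : 1 ≤ n * m := Nat.one_le_iff_ne_zero.2 (Nat.mul_ne_zero (by omega) (by omega))
  have hM1 : 1 ≤ 2 * N * n * m := by
    rw [← hM0]
    exact Nat.one_le_iff_ne_zero.2 (Nat.mul_ne_zero (by omega) (by omega))
  have hJ1 : 1 ≤ J := by omega
  have hJ0 : (0 : ℝ) < J := by exact_mod_cast hJ1
  have hq1 : 1 < q := hpq.symm.lt
  have hp0 : 0 < p := by linarith
  obtain ⟨ν, hν⟩ := exists_lagr (2 * N) (n * m) hnm
  have hJ8 : 8 * (2 * N * (n * m)) ≤ J := by rw [hM0]; exact hJ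
  have hΛ0 : 0 ≤ Λ := le_trans (by positivity) hΛ
  have hΛ' : (2 * ((2 * N * (n * m) : ℕ) : ℝ)) ^ p ≤ Λ * (J : ℝ) ^ (p - 2) := by
    have h1 : (J : ℝ) ^ (2 - p) * (J : ℝ) ^ (p - 2) = 1 := by
      rw [← Real.rpow_add hJ0]
      simp
    have h2 := mul_le_mul_of_nonneg_right hΛ (by positivity : (0 : ℝ) ≤ (J : ℝ) ^ (p - 2))
    rw [mul_assoc, h1, mul_one] at h2
    rw [hM0]
    exact h2
  -- the common bound of the exponents
  choose K hK using fun t => exists_K (Ft q J (2 * N) (n * m) t ν)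
  obtain ⟨K₁, hK₁⟩ := exists_K (uu q J ^ n)
  obtain ⟨K₂, hK₂⟩ := exists_K (Ft q J (2 * N) (n * m) 0 ν - 1)
  obtain ⟨K₃, hK₃⟩ : ∃ K₃ : ℕ, K₃ = K₁ + K₂ + ∑ t ∈ range (2 * N * n * m + 1), K t := ⟨_, rfl⟩
  have hKt : ∀ t ≤ 2 * N * n * m, K t ≤ K₃ := by
    intro t ht
    have h1 := Finset.single_le_sum (f := K) (fun _ _ => Nat.zero_le _)
      (Finset.mem_range.2 (Nat.lt_succ_of_le ht))
    rw [hK₃]
    exact h1.trans (Nat.le_add_left _ _)
  have hL : 2 * K₃ < 2 * K₃ + 1 := Nat.lt_succ_self _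
  have hspF : ∀ (r : ℝ) (t : ℕ), t ≤ 2 * N * n * m →
      np r (sp J (2 * K₃ + 1) (Ft q J (2 * N) (n * m) t ν)) =
        np r (Ft q J (2 * N) (n * m) t ν) := by
    intro r t ht
    refine np_sp hL _ fun g hg b => (hK t g hg b).trans ?_
    exact_mod_cast hKt t ht
  obtain ⟨u, hu⟩ := sp_uu q J (2 * K₃ + 1)
  refine ⟨u, fun t => sp J (2 * K₃ + 1) (Ft q J (2 * N) (n * m) t ν), ?_, ?_, ?_, ?_, ?_⟩
  · intro t ht
    rw [hu, ← map_mul, uu_mul_Ft (by omega) (by rw [hM0]; omega)]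
  · have h1 : toLaurent (u ^ n) = sp J (2 * K₃ + 1) (uu q J ^ n) := by
      rw [map_pow, map_pow, hu]
    rw [← np_toLaurent (by linarith), h1, np_sp hL _ fun g hg b => (hK₁ g hg b).trans (by
      have : K₁ ≤ K₃ := by omega
      exact_mod_cast this)]
    exact np_uu_pow hq1 hJ1
  · intro t ht htJ
    have hY : (0 : ℝ) ≤ 2 ^ p * Λ := by positivity
    have hKG : 0 ≤ KG p N t * (J : ℝ) ^ (2 - p) := by
      refine mul_nonneg ?_ (by positivity)
      unfold KG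
      exact Finset.sum_nonneg fun k _ => by positivity
    rcases Nat.eq_zero_or_pos t with h | h
    · subst h
      simp only [if_true]
      have h1 : sp J (2 * K₃ + 1) (Ft q J (2 * N) (n * m) 0 ν) - 1 =
          sp J (2 * K₃ + 1) (Ft q J (2 * N) (n * m) 0 ν - 1) := by
        rw [map_sub, map_one]
      rw [h1, np_sp hL _ fun g hg b => (hK₂ g hg b).trans (by
        have : K₂ ≤ K₃ := by omega
        exact_mod_cast this)]
      have h2 := np_F0_le (p := p) (q := q) (J := J) (Ms := n * m) (ν := ν) (Λ := Λ) (N := N)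
        hpq hν hJ1 hJ8 (by omega) hΛ'
      have h3 := tau_le (p := p) hY N
      have h4 : (2 : ℝ) ^ (p * ((0 : ℕ) : ℝ)) / ((0 ! : ℕ) : ℝ) = 1 := by simp
      rw [h4, mul_one]
      linarith
    · rw [if_neg (by omega), if_neg (by omega), sub_zero, hspF p t ht]
      have h2 := np_Ft_low (p := p) (q := q) (J := J) (Ms := n * m) (ν := ν) (Λ := Λ) (N := N)
        (t := t) hpq hν (by rw [hM0]; exact ht) hJ1 hJ8 htJ hΛ'
      have h3 := tau_le (p := p) hY N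
      have h4 := low_sum_le hp hJ1 N t
      have h5 : (2 : ℝ) ^ (p * t) * tau p (2 ^ p * Λ) N / (t ! : ℝ) ≤
          CG N ^ p * ((2 : ℝ) ^ (p * t) / (t ! : ℝ)) * TG N (2 ^ p * Λ) := by
        calc (2 : ℝ) ^ (p * t) * tau p (2 ^ p * Λ) N / (t ! : ℝ)
            ≤ (2 : ℝ) ^ (p * t) * (CG N ^ p * TG N (2 ^ p * Λ)) / (t ! : ℝ) := by
              gcongr
          _ = _ := by ring
      linarith
  · intro t ht
    rw [hspF p t ht]
    have h2 := np_Ft_le (p := p) (q := q) (J := J) (D := 2 * N) (Ms := n * m) (ν := ν) (Λ := Λ)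
      (t := t) hpq hν (by rw [hM0]; exact ht) hJ1 hJ8 hΛ'
    rw [← CG_rpow'] at h2
    refine h2.trans (le_of_eq ?_)
    ring
  · intro R hR hRJ
    rw [hspF 2 _ le_rfl]
    have h1 : (J : ℝ) ^ (1 - 2 / p) ≤ 2 * ((2 * N * (n * m) : ℕ) : ℝ) / (√R) ^ 2 := by
      rw [Real.sq_sqrt hR.le, hM0, le_div_iff₀ hR]
      linarith
    have h2 := np_two_le (p := p) (q := q) (J := J) (D := 2 * N) (Ms := n * m) (ν := ν)
      hpq hν (by rw [hM0]; exact hM1) hJ1 hJ8 (Real.sqrt_pos.2 hR) h1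
    rw [Real.sq_sqrt hR.le, hM0] at h2
    refine h2.trans (le_of_eq ?_)
    unfold CG
    rw [← pow_mul, mul_comm 2 (2 * N)]

end DC8965.P2
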