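import Pool.Agent.Lib.MP_dc8965_an.P2.H8p
import Pool.Agent.Lib.MP_dc8965_an.BT.H9
import Pool.Agent.Lib.MP_dc8965_an.Half

open Finset Polynomial MeasureTheory Filter Topology
open scoped ENNReal NNReal

namespace DC8965.P2

open DC8965.BT

variable {p : ℝ≥0∞} [Fact (1 ≤ p)]

/-- (H10') the half line theorem for `2 < p`: as `BT.H10`, with `H8p`. -/
theorem H10p (hp1 : 2 < p) (hp : p ≠ ∞) (M : Submodule ℂ (Y p)) (hM : IsClosed (M : Set (Y p)))
    (hV : ∀ u : ℝ, 0 ≤ u → ∀ g ∈ M, V p u g ∈ M) : IsLim (ex p) M := by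
  have key : ∀ f : Y p, f ∉ M → ∃ N : Submodule ℂ (Y p), IsLim (ex p) N ∧ M ≤ N ∧ f ∉ N := by
    intro f hfM
    obtain ⟨φ, hφM, hφf⟩ := hs_hahn_banach M hM f hfM
    have hφf' : 0 < ‖φ f‖ := norm_pos_iff.mpr hφf
    have hsep := separable_Y (p := p) hp
    obtain ⟨N, hN1, hN2, hN3⟩ := H9 (ex p) {g : Y p | ∀ u : ℝ, 0 ≤ u → φ (V p u g) = 0}
      (fun u _ => by rw [map_zero, map_zero]) f (c₀ := ‖φ f‖ / (4 * (‖φ‖ + 1))) (by positivity)
      (fun k g hg ε hε => H8p hp1 hp φ f hφf k g hg hε)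
    exact ⟨N, hN1, fun g hg => hN2 g (fun u hu => hφM _ (hV u hu g hg)), hN3⟩
  have hMeq : M = sInf {N : Submodule ℂ (Y p) | IsLim (ex p) N ∧ M ≤ N} := by
    apply le_antisymm
    · exact le_sInf fun N hN => hN.2
    · intro f hf
      by_contra hfM
      obtain ⟨N, hN1, hN2, hN3⟩ := key f hfM
      exact hN3 ((Submodule.mem_sInf.mp hf) N ⟨hN1, hN2⟩)
  rw [hMeq]
  exact half_sInf hp _ fun N hN => hN.1

end DC8965.P2
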