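import Pool.Agent.Lib.MP_dc8965_an.P2.F1p
import Pool.Agent.Lib.MP_dc8965_an.BT.H1
import Pool.Agent.Lib.MP_dc8965_an.BT.H3
import Pool.Agent.Lib.MP_dc8965_an.BT.H4
import Pool.Agent.Lib.MP_dc8965_an.BT.H5
import Pool.Agent.Lib.MP_dc8965_an.BT.H6
import Pool.Agent.Lib.MP_dc8965_an.BT.H7

open Finset Polynomial MeasureTheory Filter Topology
open scoped ENNReal NNReal

namespace DC8965.P2

open DC8965.BT

variable {p : ℝ≥0∞} [Fact (1 ≤ p)]

/-- the norm of a normalised step function -/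
private lemma H8p_norm (hp : p ≠ ∞) {l : ℝ} (hl : 0 < l) (I : ℕ) (b : ℕ → ℂ) :
    ‖∑ k ∈ range I, (((l ^ (-(1 / p.toReal)) : ℝ) : ℂ) * b k) • bx p l k‖ ^ p.toReal =
      ∑ k ∈ range I, ‖b k‖ ^ p.toReal := by
  have hP : 0 < p.toReal := toReal_pos' hp
  have h1 := enorm_step hp hl I (fun k => ((l ^ (-(1 / p.toReal)) : ℝ) : ℂ) * b k)
  have h2 : (l ^ (-(1 / p.toReal)) : ℝ) ^ p.toReal = l⁻¹ := by
    rw [← Real.rpow_mul hl.le, neg_mul, one_div_mul_cancel hP.ne', Real.rpow_neg_one]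
  have h3 := congrArg ENNReal.toReal h1
  rw [← ENNReal.toReal_rpow, toReal_enorm, ENNReal.toReal_mul, ENNReal.toReal_ofReal hl.le,
    ENNReal.toReal_sum (fun a _ => ENNReal.rpow_ne_top_of_nonneg hP.le enorm_ne_top)] at h3
  rw [h3, Finset.mul_sum]
  refine Finset.sum_congr rfl fun k _ => ?_
  rw [← ENNReal.toReal_rpow, toReal_enorm, norm_mul, Complex.norm_real, Real.norm_eq_abs,
    abs_of_nonneg (by positivity), Real.mul_rpow (by positivity) (norm_nonneg _), h2,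
    ← mul_assoc, mul_inv_cancel₀ hl.ne', one_mul]

/-- averages of a step function -/
private lemma H8p_avg {l : ℝ} (hl : 0 < l) (I : ℕ) (b : ℕ → ℂ) (hb : ∀ k, I ≤ k → b k = 0) (k : ℕ) :
    avg l k (∑ j ∈ range I, b j • bx p l j) = b k := by
  rw [map_sum]
  simp only [map_smul, avg_bx hl, smul_eq_mul, mul_ite, mul_one, mul_zero]
  rw [Finset.sum_ite_eq]
  split_ifs with h
  · rfl
  · exact (hb k (by simpa using h)).symm

/-- step (i) -/
private lemma H8p_i (hp : p ≠ ∞) {l : ℝ} (hl : 0 < l) (U : ℂ[X]) {x : ℕ → ℂ}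
    (hT : Tp U x = 0) (hx : Summable fun n => ‖x n‖) (I : ℕ) (a : ℂ[X])
    (ha : ∀ k, I ≤ k → a.coeff k = 0) {ε₁ : ℝ} (h : Sle p.toReal (fun n => x n - a.coeff n) ε₁) :
    aeval (V p l) U (stp p l (fun n => ((l ^ (-(1 / p.toReal)) : ℝ) : ℂ) * x n)) = 0 ∧
    ‖stp p l (fun n => ((l ^ (-(1 / p.toReal)) : ℝ) : ℂ) * x n) - ∑ k ∈ range I,
      (((l ^ (-(1 / p.toReal)) : ℝ) : ℂ) * a.coeff k) • bx p l k‖ ^ p.toReal ≤ ε₁ := by
  have hP : 0 < p.toReal := toReal_pos' hp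
  have h2 : (l ^ (-(1 / p.toReal)) : ℝ) ^ p.toReal = l⁻¹ := by
    rw [← Real.rpow_mul hl.le, neg_mul, one_div_mul_cancel hP.ne', Real.rpow_neg_one]
  have hr0 : (0 : ℝ) < l ^ (-(1 / p.toReal)) := by positivity
  generalize hr : (l ^ (-(1 / p.toReal)) : ℝ) = r at *
  have hsx : Summable fun n => ‖(r : ℂ) * x n‖ := by
    simp only [norm_mul]
    exact hx.mul_left _
  have hsa : Summable fun n => ‖(r : ℂ) * a.coeff n‖ := by
    refine summable_of_ne_finset_zero (s := range I) fun n hn => ?_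
    rw [ha n (by simpa using hn), mul_zero, norm_zero]
  constructor
  · rw [H1c hp hl hsx]
    have h3 : Tp U (fun n => (r : ℂ) * x n) = 0 := by
      have h4 : (fun n => (r : ℂ) * x n) = (r : ℂ) • x := by
        funext n; simp
      rw [h4, Tp_smul_right, hT, smul_zero]
    rw [h3]
    simp [stp]
  · rw [← H1d (p := p) l (x := fun n => (r : ℂ) * a.coeff n) (I := I)
      (fun k hk => by simp only [ha k hk, mul_zero]), ← H1e hp hl hsx hsa]
    have hsd : Summable fun n => ‖(r : ℂ) * x n - (r : ℂ) * a.coeff n‖ :=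
      (hsx.add hsa).of_nonneg_of_le (fun n => norm_nonneg _) (fun n => norm_sub_le _ _)
    have h5 : Sle p.toReal (fun n => (r : ℂ) * x n - (r : ℂ) * a.coeff n) (l⁻¹ * ε₁) := by
      intro n
      have h6 : ∀ k, ‖(r : ℂ) * x k - (r : ℂ) * a.coeff k‖ ^ p.toReal =
          l⁻¹ * ‖x k - a.coeff k‖ ^ p.toReal := by
        intro k
        rw [← mul_sub, norm_mul, Complex.norm_real, Real.norm_eq_abs, abs_of_pos hr0,
          Real.mul_rpow hr0.le (norm_nonneg _), h2]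
      calc ∑ k ∈ range n, ‖(r : ℂ) * x k - (r : ℂ) * a.coeff k‖ ^ p.toReal
          = l⁻¹ * ∑ k ∈ range n, ‖x k - a.coeff k‖ ^ p.toReal := by
            rw [Finset.mul_sum]
            exact Finset.sum_congr rfl fun k _ => h6 k
        _ ≤ l⁻¹ * ε₁ := mul_le_mul_of_nonneg_left (h n) (by positivity)
    have h7 := H1b hp hl hsd h5
    rwa [← mul_assoc, mul_inv_cancel₀ hl.ne', one_mul] at h7

/-- the main inequality of step (iii) -/
private lemma H8p_iii (hp : p ≠ ∞) {q : ℝ} (hpq : p.toReal.HolderConjugate q)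
    (lam : Y p →L[ℂ] ℂ) {l : ℝ} (hl : 0 < l) (I : ℕ) (U W a : ℂ[X])
    (ha : ∀ k, I ≤ k → a.coeff k = 0) (hW : ∀ k < I, W.coeff k = 0)
    {ε₁ : ℝ} (hUc : Sn q (U - cpol p lam l I - W) ≤ ε₁)
    (ψ : Y p →L[ℂ] ℂ)
    (hψ : ∀ h, ψ h = ∑ k ∈ U.support, U.coeff k * ((l ^ (1 / p.toReal) : ℝ) : ℂ) * avg l k h) :
    ‖ψ (∑ k ∈ range I, (((l ^ (-(1 / p.toReal)) : ℝ) : ℂ) * a.coeff k) • bx p l k) -
      lam (∑ k ∈ range I, (((l ^ (-(1 / p.toReal)) : ℝ) : ℂ) * a.coeff k) • bx p l k)‖ ≤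
      ε₁ ^ (1 / q) *
        ‖∑ k ∈ range I, (((l ^ (-(1 / p.toReal)) : ℝ) : ℂ) * a.coeff k) • bx p l k‖ := by
  have hP : 0 < p.toReal := toReal_pos' hp
  have hq0 : 0 < q := hpq.symm.pos
  have hnorm := H8p_norm (p := p) hp hl I (fun k => a.coeff k)
  have hrr : (((l ^ (1 / p.toReal) : ℝ) : ℂ)) * (((l ^ (-(1 / p.toReal)) : ℝ) : ℂ)) = 1 := by
    rw [← Complex.ofReal_mul, ← Real.rpow_add hl, add_neg_cancel, Real.rpow_zero,
      Complex.ofReal_one]
  -- the two values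
  have h1 : ψ (∑ k ∈ range I, (((l ^ (-(1 / p.toReal)) : ℝ) : ℂ) * a.coeff k) • bx p l k) =
      ∑ k ∈ U.support ∪ range I, U.coeff k * a.coeff k := by
    rw [hψ]
    have h2 : ∑ k ∈ U.support ∪ range I, U.coeff k * a.coeff k =
        ∑ k ∈ U.support, U.coeff k * a.coeff k := by
      symm
      refine Finset.sum_subset subset_union_left fun j _ hj => ?_
      rw [Polynomial.notMem_support_iff.mp hj, zero_mul]
    rw [h2]
    refine Finset.sum_congr rfl fun k _ => ?_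
    rw [H8p_avg hl I (fun k => ((l ^ (-(1 / p.toReal)) : ℝ) : ℂ) * a.coeff k)
      (fun k hk => by simp only [ha k hk, mul_zero]) k]
    linear_combination (U.coeff k * a.coeff k) * hrr
  have hc : ∀ k, (cpol p lam l I).coeff k =
      if k < I then ((l ^ (-(1 / p.toReal)) : ℝ) : ℂ) * lam (bx p l k) else 0 := by
    intro k
    rw [cpol, Polynomial.finsetSum_coeff]
    simp only [Polynomial.coeff_monomial]
    rw [Finset.sum_ite_eq']
    simp only [Finset.mem_range]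
  have h3 : lam (∑ k ∈ range I, (((l ^ (-(1 / p.toReal)) : ℝ) : ℂ) * a.coeff k) • bx p l k) =
      ∑ k ∈ U.support ∪ range I, (cpol p lam l I).coeff k * a.coeff k := by
    rw [map_sum]
    have h4 : ∑ k ∈ U.support ∪ range I, (cpol p lam l I).coeff k * a.coeff k =
        ∑ k ∈ range I, (cpol p lam l I).coeff k * a.coeff k := by
      symm
      refine Finset.sum_subset subset_union_right fun j _ hj => ?_
      rw [ha j (by simpa using hj), mul_zero]
    rw [h4]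
    refine Finset.sum_congr rfl fun k hk => ?_
    rw [hc k, if_pos (Finset.mem_range.mp hk), map_smul, smul_eq_mul]
    ring
  have h5 : ψ (∑ k ∈ range I, (((l ^ (-(1 / p.toReal)) : ℝ) : ℂ) * a.coeff k) • bx p l k) -
      lam (∑ k ∈ range I, (((l ^ (-(1 / p.toReal)) : ℝ) : ℂ) * a.coeff k) • bx p l k) =
      ∑ k ∈ U.support ∪ range I, (U - cpol p lam l I - W).coeff k * a.coeff k := by
    rw [h1, h3, ← Finset.sum_sub_distrib]
    refine Finset.sum_congr rfl fun k _ => ?_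
    have hWa : W.coeff k * a.coeff k = 0 := by
      rcases lt_or_ge k I with hk | hk
      · rw [hW k hk, zero_mul]
      · rw [ha k hk, mul_zero]
    rw [Polynomial.coeff_sub, Polynomial.coeff_sub, sub_mul, sub_mul, hWa, sub_zero]
  rw [h5]
  have h6 : ‖∑ k ∈ U.support ∪ range I, (U - cpol p lam l I - W).coeff k * a.coeff k‖ ≤
      ∑ k ∈ U.support ∪ range I, ‖(U - cpol p lam l I - W).coeff k‖ * ‖a.coeff k‖ := by
    refine (norm_sum_le _ _).trans (Finset.sum_le_sum fun k _ => ?_)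
    rw [norm_mul]
  have h7 := Real.inner_le_Lp_mul_Lq_of_nonneg (U.support ∪ range I)
    (f := fun k => ‖(U - cpol p lam l I - W).coeff k‖) (g := fun k => ‖a.coeff k‖) hpq.symm
    (fun _ _ => norm_nonneg _) (fun _ _ => norm_nonneg _)
  have h8 : (∑ k ∈ U.support ∪ range I, ‖(U - cpol p lam l I - W).coeff k‖ ^ q) ^ (1 / q) ≤
      ε₁ ^ (1 / q) := by
    refine Real.rpow_le_rpow (Finset.sum_nonneg fun _ _ => by positivity) ?_ (by positivity)
    exact ((Sle_coeff_iff hq0 _).mpr hUc).sum_le _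
  have h9 : (∑ k ∈ U.support ∪ range I, ‖a.coeff k‖ ^ p.toReal) ^ (1 / p.toReal) =
      ‖∑ k ∈ range I, (((l ^ (-(1 / p.toReal)) : ℝ) : ℂ) * a.coeff k) • bx p l k‖ := by
    have h10 : ∑ k ∈ U.support ∪ range I, ‖a.coeff k‖ ^ p.toReal =
        ∑ k ∈ range I, ‖a.coeff k‖ ^ p.toReal := by
      symm
      refine Finset.sum_subset subset_union_right fun j _ hj => ?_
      rw [ha j (by simpa using hj), norm_zero, Real.zero_rpow hP.ne']
    rw [h10, ← hnorm, ← Real.rpow_mul (norm_nonneg _), mul_one_div_cancel hP.ne', Real.rpow_one]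
  rw [h9] at h7
  exact (h6.trans h7).trans (mul_le_mul_of_nonneg_right h8 (norm_nonneg _))

/-- (H8') Claim E for `2 < p`. The proof of `BT.H8` with `F1p` instead of `F1`: now
`U = c + (U - c - W) + W` with `W` supported beyond `I` and `Sn q W ≤ Sn q c + 1`, so `Sn q U ≤ (2 (L + 1))^q`;
`W` does not see the step function `s_f`. -/
theorem H8p (hp1 : 2 < p) (hp : p ≠ ∞) (lam : Y p →L[ℂ] ℂ) (f : Y p) (hf : lam f ≠ 0)
    (k : ℕ) (g : Fin k → Y p) (hg : ∀ i, ∀ u : ℝ, 0 ≤ u → lam (V p u (g i)) = 0)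
    {ε : ℝ} (hε : 0 < ε) :
    ∃ E : Finset Ix, (∀ i, Metric.infDist (g i) (fsp (ex p) E : Set (Y p)) < ε) ∧
      ‖lam f‖ / (4 * (‖lam‖ + 1)) ≤ Metric.infDist f (fsp (ex p) E : Set (Y p)) := by
  classical
  have hP : 0 < p.toReal := toReal_pos' hp
  have hP2 : 2 < p.toReal := by
    have := (ENNReal.toReal_lt_toReal (by norm_num) hp).mpr hp1
    simpa using this
  have hP1 : 1 < p.toReal := by linarith
  obtain ⟨q, hpq⟩ : ∃ q : ℝ, p.toReal.HolderConjugate q :=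
    ⟨_, Real.HolderConjugate.conjExponent hP1⟩
  have hq0 : 0 < q := hpq.symm.pos
  have hq1 : 1 ≤ q := hpq.symm.lt.le
  have hθ : 0 < ‖lam f‖ := norm_pos_iff.mpr hf
  obtain ⟨θ, hθe⟩ : ∃ θ, θ = ‖lam f‖ := ⟨_, rfl⟩
  obtain ⟨L, hLe⟩ : ∃ L, L = ‖lam‖ := ⟨_, rfl⟩
  obtain ⟨F, hFe⟩ : ∃ F, F = ‖f‖ := ⟨_, rfl⟩
  have hL0 : 0 ≤ L := by rw [hLe]; exact norm_nonneg _
  have hF0 : 0 ≤ F := by rw [hFe]; exact norm_nonneg _
  rw [← hθe] at hθ ⊢
  rw [← hLe]
  -- `ε₁`
  obtain ⟨ε₁, hε₁0, hε₁1, hε₁P, hε₁q⟩ : ∃ ε₁ : ℝ, 0 < ε₁ ∧ ε₁ ≤ 1 ∧ ε₁ ^ (1 / p.toReal) ≤ ε / 8 ∧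
      ε₁ ^ (1 / q) * (F + 1) ≤ θ / 8 := by
    refine ⟨min 1 (min ((ε / 8) ^ p.toReal) ((θ / (8 * (F + 1))) ^ q)), ?_, min_le_left _ _, ?_, ?_⟩
    · refine lt_min one_pos (lt_min ?_ ?_) <;> positivity
    · calc (min 1 (min ((ε / 8) ^ p.toReal) ((θ / (8 * (F + 1))) ^ q))) ^ (1 / p.toReal)
          ≤ ((ε / 8) ^ p.toReal) ^ (1 / p.toReal) := by
            refine Real.rpow_le_rpow ?_ ((min_le_right _ _).trans (min_le_left _ _)) (by positivity)
            refine le_min zero_le_one (le_min ?_ ?_) <;> positivity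
        _ = ε / 8 := by
            rw [← Real.rpow_mul (by positivity), mul_one_div_cancel hP.ne', Real.rpow_one]
    · have h1 : (min 1 (min ((ε / 8) ^ p.toReal) ((θ / (8 * (F + 1))) ^ q))) ^ (1 / q)
          ≤ θ / (8 * (F + 1)) := by
        calc (min 1 (min ((ε / 8) ^ p.toReal) ((θ / (8 * (F + 1))) ^ q))) ^ (1 / q)
            ≤ ((θ / (8 * (F + 1))) ^ q) ^ (1 / q) := by
              refine Real.rpow_le_rpow ?_ ((min_le_right _ _).trans (min_le_right _ _))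
                (by positivity)
              refine le_min zero_le_one (le_min ?_ ?_) <;> positivity
          _ = _ := by
              rw [← Real.rpow_mul (by positivity), mul_one_div_cancel hq0.ne', Real.rpow_one]
      calc _ ≤ θ / (8 * (F + 1)) * (F + 1) := mul_le_mul_of_nonneg_right h1 (by positivity)
        _ = θ / 8 := by field_simp
  obtain ⟨κ, hκ, hF1⟩ := F1p hpq hP2 k hε₁0
  obtain ⟨δ, hδ0, hδ1, hδκ, hδε, hδθ⟩ : ∃ δ : ℝ, 0 < δ ∧ δ ≤ 1 ∧ L * δ ≤ κ ∧ δ ≤ ε / 8 ∧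
      (3 * L + 2) * δ ≤ θ / 8 := by
    refine ⟨min (min 1 (κ / (L + 1))) (min (ε / 8) (θ / (8 * (3 * L + 2)))), ?_, ?_, ?_, ?_, ?_⟩
    · refine lt_min (lt_min one_pos ?_) (lt_min ?_ ?_) <;> positivity
    · exact (min_le_left _ _).trans (min_le_left _ _)
    · have h1 : min (min 1 (κ / (L + 1))) (min (ε / 8) (θ / (8 * (3 * L + 2)))) ≤ κ / (L + 1) :=
        (min_le_left _ _).trans (min_le_right _ _)
      calc _ ≤ L * (κ / (L + 1)) := mul_le_mul_of_nonneg_left h1 hL0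
        _ ≤ (L + 1) * (κ / (L + 1)) := mul_le_mul_of_nonneg_right (by linarith) (by positivity)
        _ = κ := by field_simp
    · exact (min_le_right _ _).trans (min_le_left _ _)
    · have h1 : min (min 1 (κ / (L + 1))) (min (ε / 8) (θ / (8 * (3 * L + 2)))) ≤
          θ / (8 * (3 * L + 2)) := (min_le_right _ _).trans (min_le_right _ _)
      calc _ ≤ (3 * L + 2) * (θ / (8 * (3 * L + 2))) :=
            mul_le_mul_of_nonneg_left h1 (by positivity)
        _ = θ / 8 := by field_simp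
  obtain ⟨l, I, a', hl, ha', hs'⟩ := H5 hp (k + 1) (Fin.cons f g) hδ0
  have hsf : ‖f - ∑ k ∈ range I,
      (((l ^ (-(1 / p.toReal)) : ℝ) : ℂ) * (a' 0).coeff k) • bx p l k‖ < δ := by
    simpa using hs' 0
  have hsg : ∀ i : Fin k, ‖g i - ∑ k ∈ range I,
      (((l ^ (-(1 / p.toReal)) : ℝ) : ℂ) * (a' i.succ).coeff k) • bx p l k‖ < δ := by
    intro i
    simpa using hs' i.succ
  obtain ⟨U, W, x, hU0, hnd, hU0e, hT, hWI, hWn, hUc, hx⟩ := hF1 (cpol p lam l I) (fun i => a' i.succ)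
    (fun i v B hB hv => by
      have h1 := H6 hp lam hl I (a' i.succ) (ha' i.succ) (g i) (hg i) hB hv
      rw [← hLe] at h1
      refine h1.trans ?_
      calc L * B * _ ≤ L * B * δ := mul_le_mul_of_nonneg_left (hsg i).le (by positivity)
        _ = L * δ * B := by ring
        _ ≤ κ * B := mul_le_mul_of_nonneg_right hδκ hB) I
  -- (i)
  have hroot : ∀ t : ℝ, 0 ≤ t → t ^ p.toReal ≤ ε₁ → t ≤ ε / 8 := by
    intro t ht h
    calc t = (t ^ p.toReal) ^ (1 / p.toReal) := by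
          rw [← Real.rpow_mul ht, mul_one_div_cancel hP.ne', Real.rpow_one]
      _ ≤ ε₁ ^ (1 / p.toReal) := Real.rpow_le_rpow (by positivity) h (by positivity)
      _ ≤ ε / 8 := hε₁P
  have hi := fun i => H8p_i hp hl U (hT i) (hx i).1 I (a' i.succ) (ha' i.succ) (hx i).2
  have hxg : ∀ i, ‖stp p l (fun n => ((l ^ (-(1 / p.toReal)) : ℝ) : ℂ) * x i n) - g i‖ < ε / 2 := by
    intro i
    have h1 := (hi i).2
    have h2 : ‖stp p l (fun n => ((l ^ (-(1 / p.toReal)) : ℝ) : ℂ) * x i n) - ∑ k ∈ range I,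
      (((l ^ (-(1 / p.toReal)) : ℝ) : ℂ) * (a' i.succ).coeff k) • bx p l k‖ ≤ ε / 8 := by
      exact hroot _ (norm_nonneg _) h1
    have h3 := hsg i
    rw [norm_sub_rev] at h3
    have h4 := norm_sub_le_norm_sub_add_norm_sub
      (stp p l (fun n => ((l ^ (-(1 / p.toReal)) : ℝ) : ℂ) * x i n))
      (∑ k ∈ range I, (((l ^ (-(1 / p.toReal)) : ℝ) : ℂ) * (a' i.succ).coeff k) • bx p l k) (g i)
    linarith
  -- (ii)
  obtain ⟨E, -, hE2, hE3⟩ := H7 hp hl U hU0 hnd hU0e k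
    (fun i => stp p l (fun n => ((l ^ (-(1 / p.toReal)) : ℝ) : ℂ) * x i n))
    (fun i => (hi i).1) (half_pos hε)
  refine ⟨E, fun i => ?_, ?_⟩
  · obtain ⟨e, he, h1⟩ := hE2 i
    refine (Metric.infDist_le_dist_of_mem he).trans_lt ?_
    rw [dist_eq_norm]
    have h2 := hxg i
    rw [norm_sub_rev] at h2
    have h4 := norm_sub_le_norm_sub_add_norm_sub (g i)
      (stp p l (fun n => ((l ^ (-(1 / p.toReal)) : ℝ) : ℂ) * x i n)) e
    linarith
  · -- (iii)
    have hSU : Sn q U ≤ (2 * L + 2) ^ q := by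
      rw [← Sle_coeff_iff hq0]
      have h0 : Sn q (cpol p lam l I) ≤ L ^ q := by
        rw [hLe]
        exact H3 hp hpq lam hl I
      have h1 : Sle q (fun n => (cpol p lam l I).coeff n) (L ^ q) := by
        rw [Sle_coeff_iff hq0]
        exact h0
      have h2 : Sle q (fun n => (U - cpol p lam l I - W).coeff n) (1 ^ q) := by
        rw [Sle_coeff_iff hq0, Real.one_rpow]
        exact hUc.trans hε₁1
      have h2' : Sle q (fun n => W.coeff n) ((L + 1) ^ q) := by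
        rw [Sle_coeff_iff hq0]
        refine hWn.trans ?_
        have e1 : L ^ q + 1 ^ q ≤ (L + 1) ^ q :=
          Real.add_rpow_le_rpow_add hL0 zero_le_one hq1
        rw [Real.one_rpow] at e1
        linarith
      have h3 := Sle.add hq1 (by positivity) (by positivity : 0 ≤ L + 1)
        (Sle.add hq1 hL0 zero_le_one h1 h2) h2'
      convert h3 using 1
      · funext n
        simp only [Polynomial.coeff_sub]
        ring
      · congr 1
        ring
    obtain ⟨ψ, hψ1, hψ2, hψ3⟩ := H4 hp hpq hl U (by positivity : 0 ≤ 2 * L + 2) hSU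
    have h1 := H8p_iii hp hpq lam hl I U W (a' 0) (ha' 0) hWI hUc ψ hψ2
    have hsf' := hsf
    generalize ∑ k ∈ range I,
      (((l ^ (-(1 / p.toReal)) : ℝ) : ℂ) * (a' 0).coeff k) • bx p l k = s at h1 hsf hsf'
    have h2 : ‖s‖ ≤ F + 1 := by
      have h3 : ‖s‖ ≤ ‖f‖ + ‖f - s‖ := by
        have := norm_sub_le f (f - s)
        rwa [sub_sub_cancel] at this
      rw [← hFe] at h3
      linarith
    have h3 : ‖ψ s - lam s‖ ≤ θ / 8 :=
      (h1.trans (mul_le_mul_of_nonneg_left h2 (by positivity))).trans hε₁q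
    have h4 : ‖ψ f - lam f‖ ≤ θ / 4 := by
      have e1 : ψ f - lam f = ψ (f - s) + (ψ s - lam s) + lam (s - f) := by
        rw [map_sub, map_sub]; ring
      have e2 : ‖ψ (f - s)‖ ≤ (2 * L + 2) * δ :=
        (ψ.le_opNorm _).trans (mul_le_mul hψ1 hsf.le (norm_nonneg _) (by positivity))
      have e3 : ‖lam (s - f)‖ ≤ L * δ := by
        rw [norm_sub_rev] at hsf'
        rw [hLe]
        exact (lam.le_opNorm _).trans (mul_le_mul_of_nonneg_left hsf'.le (norm_nonneg _))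
      rw [e1]
      have e4 := norm_add₃_le (a := ψ (f - s)) (b := ψ s - lam s) (c := lam (s - f))
      linarith
    have h5 : θ / 2 ≤ ‖ψ f‖ := by
      have e1 : ‖lam f‖ ≤ ‖ψ f‖ + ‖ψ f - lam f‖ := by
        have := norm_sub_le (ψ f) (ψ f - lam f)
        rwa [sub_sub_cancel] at this
      rw [← hθe] at e1
      linarith
    rw [Metric.le_infDist ⟨0, (fsp (ex p) E).zero_mem⟩]
    intro e he
    have h6 : ψ e = 0 := hψ3 e (hE3 e he)
    have h7 : ‖ψ f‖ ≤ (2 * L + 2) * ‖f - e‖ := by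
      have e1 : ψ f = ψ (f - e) := by rw [map_sub, h6, sub_zero]
      rw [e1]
      exact (ψ.le_opNorm _).trans (mul_le_mul_of_nonneg_right hψ1 (norm_nonneg _))
    rw [dist_eq_norm, div_le_iff₀ (by positivity)]
    linarith

end DC8965.P2
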